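import Pool.Agent.W_2fbb77_h89.Mat

/-! # MP_2fbb77_gt: four sign changes

`cauchy`: vectors `Y i`, `i < n`, of `ℝ³` such that `det3 (Y i) (Y j) (Y k) < 0` for `i < j < k` in `Nd`, real
coefficients `c i` vanishing outside `Nd`, `∑ c i Y i = 0`, not all zero, and `Nd` has at least three elements.
Then the sequence `c` has four alternating signs.

Proof.  Suppose there are no `i₁ < i₂ < i₃ < i₄` with alternating signs.
(a) Claim: there are `ε = ± 1` and `p < q < n` in `Nd` with `0 ≤ ε c i` for `p < i < q` and `ε c i ≤ 0` for `i < p` and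
for `q < i`.  Let `P = {i | 0 < c i}`, `Q = {i | c i < 0}` (subsets of `Nd`).
 * If `P` is empty: take `ε = 1` and `p < q` two elements of `Nd` that are consecutive in `Nd` (then `c i = 0` for
   `p < i < q`).  The same (with `ε = -1`) if `Q` is empty.
 * Otherwise let `p = min P`, `q = max P`, `p' = min Q`, `q' = max Q`.  If no element of `Q` is in `(p, q)` and `p < q`:
   `ε = 1`, `p, q`.  If no element of `P` is in `(p', q')` and `p' < q'`: `ε = -1`, `p', q'`.
   If `p = q` (only one positive index): take `ε = 1` and `p` with a neighbour of `p` in `Nd` (consecutive in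
   `Nd`; `Nd` has another element).  The same if `p' = q'`.
   Otherwise there are `r ∈ Q`, `p < r < q` and `r' ∈ P`, `p' < r' < q'`.  If `p < p'`: `p < p' < r' < q'` has signs
   `+ - + -`; if `p' < p`: `p' < p < r < q` has signs `- + - +`.  Contradiction.
(b) Let `h x = det3 (Y p) (Y q) x`, linear.  `h (Y i) > 0` for `i ∈ Nd`, `p < i < q` (`det3 p q i = - det3 p i q`),
`h (Y i) < 0` for `i ∈ Nd` outside `[p, q]` (for `i < p`: `det3 p q i = det3 i p q`), and `h (Y p) = h (Y q) = 0`.  So every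
term of `0 = ε h (∑ c i Y i) = ∑ ε c i h (Y i)` is `≥ 0`, hence zero, and `c i = 0` for `i ≠ p, q`.
(c) `c p Y p + c q Y q = 0`; let `r ∈ Nd` be a third index; `det3 (Y r) (Y p) (c p Y p + c q Y q) =
c q det3 (Y r) (Y p) (Y q)` and this determinant is not zero (reorder), so `c q = 0`; similarly `c p = 0`.
Contradiction. -/

set_option autoImplicit false

noncomputable section

namespace Pool.Agent.Ads89

theorem Cauchy_lin (n : ℕ) (Y : ℕ → Fin 3 → ℝ) (c : ℕ → ℝ)
    (hsum : ∀ e : Fin 3, ∑ i ∈ Finset.range n, c i * Y i e = 0) (u v : Fin 3 → ℝ) :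
    ∑ i ∈ Finset.range n, c i * det3 u v (Y i) = 0 := by
  have h : ∀ i, c i * det3 u v (Y i) = (u 1 * v 2 - u 2 * v 1) * (c i * Y i 0) -
      (u 0 * v 2 - u 2 * v 0) * (c i * Y i 1) + (u 0 * v 1 - u 1 * v 0) * (c i * Y i 2) := by
    intro i
    unfold det3
    ring
  simp only [h, Finset.sum_add_distrib, Finset.sum_sub_distrib, ← Finset.mul_sum, hsum]
  ring

/-- Step (a). -/
theorem Cauchy_pq (n : ℕ) (Nd : ℕ → Prop) (c : ℕ → ℝ) (hc : ∀ i < n, ¬ Nd i → c i = 0)
    (h3 : ∃ i j k, i < j ∧ j < k ∧ k < n ∧ Nd i ∧ Nd j ∧ Nd k) (hne : ∃ i < n, c i ≠ 0)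
    (hno : ¬ ∃ i₁ i₂ i₃ i₄, i₁ < i₂ ∧ i₂ < i₃ ∧ i₃ < i₄ ∧ i₄ < n ∧ c i₁ * c i₂ < 0 ∧
      c i₂ * c i₃ < 0 ∧ c i₃ * c i₄ < 0) :
    ∃ (ε : ℝ) (p q : ℕ), (ε = 1 ∨ ε = -1) ∧ p < q ∧ q < n ∧ Nd p ∧ Nd q ∧
      (∀ i, i < p → ε * c i ≤ 0) ∧ (∀ i, p < i → i < q → 0 ≤ ε * c i) ∧
      (∀ i, q < i → i < n → ε * c i ≤ 0) := by
  classical
  -- the first nonzero coefficient
  have hne' : ∃ i, i < n ∧ c i ≠ 0 := by
    obtain ⟨i, hi, h⟩ := hne
    exact ⟨i, hi, h⟩
  obtain ⟨a, ⟨han, hca⟩, hamin⟩ : ∃ a, (a < n ∧ c a ≠ 0) ∧ ∀ j, j < a → ¬ (j < n ∧ c j ≠ 0) :=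
    ⟨Nat.find hne', Nat.find_spec hne', fun j hj => Nat.find_min hne' hj⟩
  -- the sign
  obtain ⟨ε, hε, hεa⟩ : ∃ ε : ℝ, (ε = 1 ∨ ε = -1) ∧ ε * c a < 0 := by
    rcases lt_or_gt_of_ne hca with h | h
    · exact ⟨1, Or.inl rfl, by linarith⟩
    · exact ⟨-1, Or.inr rfl, by linarith⟩
  have hε2 : ε * ε = 1 := by rcases hε with rfl | rfl <;> norm_num
  have hmul : ∀ x y : ℝ, ε * x < 0 → 0 < ε * y → x * y < 0 := by
    intro x y hx hy
    have h : (ε * x) * (ε * y) < 0 := mul_neg_of_neg_of_pos hx hy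
    have h2 : (ε * x) * (ε * y) = (ε * ε) * (x * y) := by ring
    rw [h2, hε2, one_mul] at h
    exact h
  -- the first and the last element
  obtain ⟨j1, j2, j3, h12, h23, h3n, hn1, hn2, hn3⟩ := h3
  have hN : ∃ i, i < n ∧ Nd i := ⟨j3, h3n, hn3⟩
  obtain ⟨m0, ⟨hm0n, hm0⟩, hm0min⟩ : ∃ m0, (m0 < n ∧ Nd m0) ∧ ∀ j, j < m0 → ¬ (j < n ∧ Nd j) :=
    ⟨Nat.find hN, Nat.find_spec hN, fun j hj => Nat.find_min hN hj⟩
  obtain ⟨m1, ⟨hm1n, hm1⟩, hm1max⟩ : ∃ m1, (m1 < n ∧ Nd m1) ∧ ∀ j, m1 < j → ¬ (j < n ∧ Nd j) := by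
    have hne2 : ((Finset.range n).filter Nd).Nonempty :=
      ⟨j3, Finset.mem_filter.2 ⟨Finset.mem_range.2 h3n, hn3⟩⟩
    obtain ⟨m, hm, hmax⟩ := Finset.exists_max_image _ (fun i : ℕ => i) hne2
    rw [Finset.mem_filter, Finset.mem_range] at hm
    refine ⟨m, hm, ?_⟩
    rintro j hj ⟨hjn, hjN⟩
    have hjm : j ≤ m := hmax j (Finset.mem_filter.2 ⟨Finset.mem_range.2 hjn, hjN⟩)
    omega
  have hm01 : m0 < m1 := by
    have h1 : m0 ≤ j1 := by
      by_contra hcon
      exact hm0min j1 (by omega) ⟨by omega, hn1⟩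
    have h2 : j3 ≤ m1 := by
      by_contra hcon
      exact hm1max j3 (by omega) ⟨h3n, hn3⟩
    omega
  have hout : ∀ i, i < n → (i < m0 ∨ m1 < i) → c i = 0 := by
    intro i hi h
    apply hc i hi
    intro hN
    rcases h with h | h
    · exact hm0min i h ⟨hi, hN⟩
    · exact hm1max i h ⟨hi, hN⟩
  by_cases hI : ∀ i, i < m1 → ε * c i ≤ 0
  · refine ⟨-ε, m0, m1, ?_, hm01, hm1n, hm0, hm1, ?_, ?_, ?_⟩
    · rcases hε with rfl | rfl
      · right; rfl
      · left; norm_num
    · intro i hi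
      rw [hout i (by omega) (Or.inl hi), mul_zero]
    · intro i _ hi
      have := hI i hi
      linarith
    · intro i hi hin
      rw [hout i hin (Or.inr hi), mul_zero]
  · push Not at hI
    have hI' : ∃ i, i < m1 ∧ 0 < ε * c i := by
      obtain ⟨i, hi, h⟩ := hI
      exact ⟨i, hi, h⟩
    obtain ⟨p, ⟨hpm, hcp⟩, hpmin⟩ : ∃ p, (p < m1 ∧ 0 < ε * c p) ∧
        ∀ j, j < p → ¬ (j < m1 ∧ 0 < ε * c j) :=
      ⟨Nat.find hI', Nat.find_spec hI', fun j hj => Nat.find_min hI' hj⟩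
    have hpN : Nd p := by
      by_contra hcon
      rw [hc p (by omega) hcon, mul_zero] at hcp
      exact lt_irrefl _ hcp
    have hap : a < p := by
      rcases lt_trichotomy a p with h | h | h
      · exact h
      · rw [h] at hεa
        exact absurd (hεa.trans hcp) (lt_irrefl _)
      · exfalso
        apply hamin p h
        refine ⟨by omega, ?_⟩
        intro h0
        rw [h0, mul_zero] at hcp
        exact lt_irrefl _ hcp
    have hW : ∃ i, Nd i ∧ p < i ∧ i < n ∧ ∀ j, i < j → j < n → ε * c j ≤ 0 := by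
      refine ⟨m1, hm1, hpm, hm1n, ?_⟩
      intro j hj hjn
      rw [hout j hjn (Or.inr hj), mul_zero]
    obtain ⟨q, ⟨hqN, hpq, hqn, hqW⟩, hqmin⟩ : ∃ q, (Nd q ∧ p < q ∧ q < n ∧
        ∀ j, q < j → j < n → ε * c j ≤ 0) ∧
        ∀ i, i < q → ¬ (Nd i ∧ p < i ∧ i < n ∧ ∀ j, i < j → j < n → ε * c j ≤ 0) :=
      ⟨Nat.find hW, Nat.find_spec hW, fun j hj => Nat.find_min hW hj⟩
    refine ⟨ε, p, q, hε, hpq, hqn, hpN, hqN, ?_, ?_, hqW⟩
    · intro i hi
      by_contra hcon
      exact hpmin i hi ⟨by omega, by linarith⟩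
    · intro i hpi hiq
      by_contra hcon
      push Not at hcon
      have hiN : Nd i := by
        by_contra h
        rw [hc i (by omega) h, mul_zero] at hcon
        exact lt_irrefl _ hcon
      have h1 := hqmin i hiq
      have h2 : ∃ j, i < j ∧ j < n ∧ 0 < ε * c j := by
        by_contra hcon2
        push Not at hcon2
        exact h1 ⟨hiN, hpi, by omega, hcon2⟩
      obtain ⟨j, hij, hjn, hcj⟩ := h2
      apply hno
      refine ⟨a, p, i, j, hap, hpi, hij, hjn, hmul _ _ hεa hcp, ?_, hmul _ _ hcon hcj⟩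
      rw [mul_comm]
      exact hmul _ _ hcon hcp

theorem cauchy (n : ℕ) (Y : ℕ → Fin 3 → ℝ) (Nd : ℕ → Prop)
    (hdet : ∀ i j k, i < j → j < k → k < n → Nd i → Nd j → Nd k → det3 (Y i) (Y j) (Y k) < 0)
    (c : ℕ → ℝ) (hc : ∀ i < n, ¬ Nd i → c i = 0)
    (h3 : ∃ i j k, i < j ∧ j < k ∧ k < n ∧ Nd i ∧ Nd j ∧ Nd k)
    (hsum : ∀ e : Fin 3, ∑ i ∈ Finset.range n, c i * Y i e = 0) (hne : ∃ i < n, c i ≠ 0) :
    ∃ i₁ i₂ i₃ i₄, i₁ < i₂ ∧ i₂ < i₃ ∧ i₃ < i₄ ∧ i₄ < n ∧ c i₁ * c i₂ < 0 ∧ c i₂ * c i₃ < 0 ∧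
      c i₃ * c i₄ < 0 := by
  by_contra hno
  obtain ⟨ε, p, q, hε, hpq, hqn, hpN, hqN, h1, h2, h4⟩ := Cauchy_pq n Nd c hc h3 hne hno
  have hε0 : ε ≠ 0 := by rcases hε with rfl | rfl <;> norm_num
  have s1 : ∀ x y z : Fin 3 → ℝ, det3 x z y = - det3 x y z := by
    intro x y z; unfold det3; ring
  have s2 : ∀ x y z : Fin 3 → ℝ, det3 y z x = det3 x y z := by
    intro x y z; unfold det3; ring
  -- step (b)
  have hb : ∀ i < n, i ≠ p → i ≠ q → c i = 0 := by
    have hsum0 : ∑ i ∈ Finset.range n, ε * (c i * det3 (Y p) (Y q) (Y i)) = 0 := by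
      rw [← Finset.mul_sum, Cauchy_lin n Y c hsum, mul_zero]
    have hterm : ∀ i ∈ Finset.range n, 0 ≤ ε * (c i * det3 (Y p) (Y q) (Y i)) := by
      intro i hi
      rw [Finset.mem_range] at hi
      by_cases hiN : Nd i
      · rw [← mul_assoc]
        rcases lt_trichotomy i p with h | h | h
        · have h5 := hdet i p q h hpq hqn hiN hpN hqN
          rw [← s2] at h5
          exact mul_nonneg_of_nonpos_of_nonpos (h1 i h) h5.le
        · have h5 : det3 (Y p) (Y q) (Y i) = 0 := by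
            rw [h]; unfold det3; ring
          rw [h5, mul_zero]
        · rcases lt_trichotomy i q with h' | h' | h'
          · have h5 := hdet p i q h h' hqn hpN hiN hqN
            have h6 := s1 (Y p) (Y i) (Y q)
            exact mul_nonneg (h2 i h h') (by linarith)
          · have h5 : det3 (Y p) (Y q) (Y i) = 0 := by
              rw [h']; unfold det3; ring
            rw [h5, mul_zero]
          · have h5 := hdet p q i hpq h' hi hpN hqN hiN
            exact mul_nonneg_of_nonpos_of_nonpos (h4 i h' hi) h5.le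
      · rw [hc i hi hiN]
        simp
    have hz := (Finset.sum_eq_zero_iff_of_nonneg hterm).1 hsum0
    intro i hi hip hiq
    by_cases hiN : Nd i
    · have h5 := hz i (Finset.mem_range.2 hi)
      have h6 : det3 (Y p) (Y q) (Y i) ≠ 0 := by
        rcases lt_trichotomy i p with h | h | h
        · have h7 := hdet i p q h hpq hqn hiN hpN hqN
          rw [← s2] at h7
          exact h7.ne
        · exact absurd h hip
        · rcases lt_trichotomy i q with h' | h' | h'
          · have h7 := hdet p i q h h' hqn hpN hiN hqN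
            have h8 := s1 (Y p) (Y i) (Y q)
            intro h9
            linarith
          · exact absurd h' hiq
          · exact (hdet p q i hpq h' hi hpN hqN hiN).ne
      have h7 : c i * det3 (Y p) (Y q) (Y i) = 0 := by
        rcases mul_eq_zero.1 h5 with h | h
        · exact absurd h hε0
        · exact h
      rcases mul_eq_zero.1 h7 with h | h
      · exact h
      · exact absurd h h6
    · exact hc i hi hiN
  -- step (c)
  obtain ⟨r, hrn, hrN, hrp, hrq⟩ : ∃ r, r < n ∧ Nd r ∧ r ≠ p ∧ r ≠ q := by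
    obtain ⟨j1, j2, j3, h12, h23, h3n, hn1, hn2, hn3⟩ := h3
    by_cases e1 : j1 ≠ p ∧ j1 ≠ q
    · exact ⟨j1, by omega, hn1, e1.1, e1.2⟩
    · by_cases e2 : j2 ≠ p ∧ j2 ≠ q
      · exact ⟨j2, by omega, hn2, e2.1, e2.2⟩
      · exact ⟨j3, h3n, hn3, by omega, by omega⟩
  have hD : det3 (Y r) (Y p) (Y q) ≠ 0 := by
    rcases lt_trichotomy r p with h | h | h
    · exact (hdet r p q h hpq hqn hrN hpN hqN).ne
    · exact absurd h hrp
    · rcases lt_trichotomy r q with h' | h' | h'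
      · have h7 := hdet p r q h h' hqn hpN hrN hqN
        have h8 : det3 (Y r) (Y p) (Y q) = - det3 (Y p) (Y r) (Y q) := by unfold det3; ring
        rw [h8]
        intro h9
        linarith
      · exact absurd h' hrq
      · have h7 := hdet p q r hpq h' hrn hpN hqN hrN
        rw [← s2] at h7
        rw [← s2] at h7
        intro h9
        have h8 : det3 (Y r) (Y p) (Y q) = det3 (Y p) (Y q) (Y r) := by unfold det3; ring
        have h10 := hdet p q r hpq h' hrn hpN hqN hrN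
        rw [← h8, h9] at h10
        exact lt_irrefl _ h10
  have hq0 : c q = 0 := by
    have h5 := Cauchy_lin n Y c hsum (Y r) (Y p)
    rw [Finset.sum_eq_single q] at h5
    · rcases mul_eq_zero.1 h5 with h | h
      · exact h
      · exact absurd h hD
    · intro i hi hiq
      by_cases hip : i = p
      · rw [hip]
        have : det3 (Y r) (Y p) (Y p) = 0 := by unfold det3; ring
        rw [this, mul_zero]
      · rw [hb i (Finset.mem_range.1 hi) hip hiq, zero_mul]
    · intro h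
      exact absurd (Finset.mem_range.2 hqn) h
  have hp0 : c p = 0 := by
    have h5 := Cauchy_lin n Y c hsum (Y r) (Y q)
    rw [Finset.sum_eq_single p] at h5
    · rcases mul_eq_zero.1 h5 with h | h
      · exact h
      · rw [s1] at h
        exact absurd (neg_eq_zero.1 h) hD
    · intro i hi hip
      by_cases hiq : i = q
      · rw [hiq]
        have : det3 (Y r) (Y q) (Y q) = 0 := by unfold det3; ring
        rw [this, mul_zero]
      · rw [hb i (Finset.mem_range.1 hi) hip hiq, zero_mul]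
    · intro h
      exact absurd (Finset.mem_range.2 (hpq.trans hqn)) h
  obtain ⟨i, hi, hci⟩ := hne
  by_cases hip : i = p
  · exact hci (by rw [hip]; exact hp0)
  · by_cases hiq : i = q
    · exact hci (by rw [hiq]; exact hq0)
    · exact hci (hb i hi hip hiq)

end Pool.Agent.Ads89
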