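import Pool.Agent.W_2fbb77_h89.Mat

/-! # MP_2fbb77_gt: concave chains and convex position

`UCh U N Nd`: a chain of vectors `U 0, …, U N` of `ℝ³`, positively ordered in the first two coordinates and
(weakly) concave in the third one, strictly at the indices in `Nd`.  `br a b = a 0 * b 1 - a 1 * b 0`.

`UCh.conc`.  By strong induction on `k - i`, for `i < j < k ≤ N`: `det3 (U i) (U j) (U k) ≤ 0`, and `< 0` if
`Nd j`.  If `k = i + 2` this is `loc`, `loc'`.  If `j + 1 < k` use
`det3 i j k * br j (j+1) = det3 i j (j+1) * br j k + br i j * det3 j (j+1) k`,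
otherwise `i + 1 < j` and
`det3 i j k * br (i+1) j = det3 i (i+1) j * br j k + det3 (i+1) j k * br i j`
(both are polynomial identities: for all `a b c d`,
`det3 a b d * br b c = det3 a b c * br b d + br a b * det3 b c d`,
`det3 a c d * br b c = det3 a b c * br c d + det3 b c d * br a c`: `ring`).
`UCh.Nd` at `j` passes to the factor that contains `j` as its middle index. -/

set_option autoImplicit false

noncomputable section

namespace Pool.Agent.Ads89

structure UCh (U : ℕ → Fin 3 → ℝ) (N : ℕ) (Nd : ℕ → Prop) : Prop where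
  br_pos : ∀ i j, i < j → j ≤ N → 0 < br (U i) (U j)
  loc : ∀ n, n + 2 ≤ N → det3 (U n) (U (n + 1)) (U (n + 2)) ≤ 0
  loc' : ∀ n, n + 2 ≤ N → Nd (n + 1) → det3 (U n) (U (n + 1)) (U (n + 2)) < 0
  eta : ∀ n ≤ N, 0 ≤ U n 2
  eta' : ∀ n, 0 < n → n < N → Nd n → 0 < U n 2
  eta0 : U 0 2 = 0
  etaN : U N 2 = 0

private theorem Conc_id1 (a b c d : Fin 3 → ℝ) :
    det3 a b d * br b c = det3 a b c * br b d + br a b * det3 b c d := by
  simp only [det3, br]
  ring

private theorem Conc_id2 (a b c d : Fin 3 → ℝ) :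
    det3 a c d * br b c = det3 a b c * br c d + det3 b c d * br a c := by
  simp only [det3, br]
  ring

private theorem Conc_aux {U : ℕ → Fin 3 → ℝ} {N : ℕ} {Nd : ℕ → Prop} (H : UCh U N Nd) (m : ℕ) :
    ∀ i j k : ℕ, i < j → j < k → k ≤ N → k - i ≤ m →
      det3 (U i) (U j) (U k) ≤ 0 ∧ (Nd j → det3 (U i) (U j) (U k) < 0) := by
  induction m with
  | zero =>
    intro i j k h1 h2 h3 h4
    omega
  | succ m ih =>
    intro i j k h1 h2 h3 h4
    by_cases h5 : j + 1 < k
    · have e := Conc_id1 (U i) (U j) (U (j + 1)) (U k)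
      have a1 := H.br_pos j (j + 1) (by omega) (by omega)
      have a2 := H.br_pos j k h2 h3
      have a3 := H.br_pos i j h1 (by omega)
      obtain ⟨b1, b2⟩ := ih i j (j + 1) h1 (by omega) (by omega) (by omega)
      obtain ⟨b3, -⟩ := ih j (j + 1) k (by omega) h5 h3 (by omega)
      have c3 : br (U i) (U j) * det3 (U j) (U (j + 1)) (U k) ≤ 0 :=
        mul_nonpos_of_nonneg_of_nonpos a3.le b3
      constructor
      · have c1 : det3 (U i) (U j) (U (j + 1)) * br (U j) (U k) ≤ 0 :=
          mul_nonpos_of_nonpos_of_nonneg b1 a2.le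
        by_contra hc
        have := mul_pos (not_le.1 hc) a1
        linarith
      · intro hN
        have c1 : det3 (U i) (U j) (U (j + 1)) * br (U j) (U k) < 0 :=
          mul_neg_of_neg_of_pos (b2 hN) a2
        by_contra hc
        have := mul_nonneg (not_lt.1 hc) a1.le
        linarith
    · by_cases h6 : i + 1 < j
      · have e := Conc_id2 (U i) (U (i + 1)) (U j) (U k)
        have a1 := H.br_pos (i + 1) j h6 (by omega)
        have a2 := H.br_pos j k h2 h3
        have a3 := H.br_pos i j h1 (by omega)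
        obtain ⟨b1, -⟩ := ih i (i + 1) j (by omega) h6 (by omega) (by omega)
        obtain ⟨b3, b4⟩ := ih (i + 1) j k h6 h2 h3 (by omega)
        have c1 : det3 (U i) (U (i + 1)) (U j) * br (U j) (U k) ≤ 0 :=
          mul_nonpos_of_nonpos_of_nonneg b1 a2.le
        constructor
        · have c3 : det3 (U (i + 1)) (U j) (U k) * br (U i) (U j) ≤ 0 :=
            mul_nonpos_of_nonpos_of_nonneg b3 a3.le
          by_contra hc
          have := mul_pos (not_le.1 hc) a1
          linarith
        · intro hN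
          have c3 : det3 (U (i + 1)) (U j) (U k) * br (U i) (U j) < 0 :=
            mul_neg_of_neg_of_pos (b4 hN) a3
          by_contra hc
          have := mul_nonneg (not_lt.1 hc) a1.le
          linarith
      · obtain rfl : j = i + 1 := by omega
        obtain rfl : k = i + 2 := by omega
        exact ⟨H.loc i h3, H.loc' i h3⟩

theorem UCh.conc {U : ℕ → Fin 3 → ℝ} {N : ℕ} {Nd : ℕ → Prop} (H : UCh U N Nd) {i j k : ℕ}
    (hij : i < j) (hjk : j < k) (hk : k ≤ N) :
    det3 (U i) (U j) (U k) ≤ 0 ∧ (Nd j → det3 (U i) (U j) (U k) < 0) := by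
  exact Conc_aux H (k - i) i j k hij hjk hk le_rfl

end Pool.Agent.Ads89
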