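import Pool.Agent.W_2fbb77_h89.Jump

/-! # MP_2fbb77_gt: the local determinant

* `local_det`: `det3 (vec (cj Q M₁) + ..) ..`: put `c = G * Q̂`, so `cj G M = cj c (cj Q M)`, and `Γ = Q̂ * G`
  (`G = Q Γ`, `cj G M = cj Q (cj Γ M)`); by `det3_cj`, `det3 em pp ep = det3 (vec (Jm + cj Γ Jm))
  (vec (Xm + cj Γ Xm)) (vec (cj (Bm s) Jm + cj Γ (cj (Bm S) Jm)))`, `hc Q G = tr Γ / 2`,
  `hc E F = tr (Γ * Bm (S - s)) / 2`.  With `Γ = !![x, y; z, w]`, `x w - y z = 1` and `cj_Bm_Jm` this is a polynomial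
  identity in `x, y, z, w` and `cosh, sinh` of `s/2`, `S/2` (`cosh s = 2 cosh² (s/2) - 1`, ...).  Hint: both sides are
  linear in the last vector: for `ep' = cosh s Jm - sinh s Dm + cj Γ (cosh S Jm - sinh S Dm)` and
  `p = det3 em pp ·`: `p (vec (Jm + cj Γ Jm)) = 0`, so with `A = p (vec (cj Γ Jm)) = - p (vec Jm)`,
  `B = p (vec Dm)`, `C = p (vec (cj Γ Dm))` the left side is `(cosh S - cosh s) A - sinh s B - sinh S C`;
  compute `A, B, C` first (`ring` modulo `x w - y z = 1`). -/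

set_option autoImplicit false

noncomputable section

namespace Pool.Agent.Ads89

open Real

theorem vec_cj_Xm (Q : M2) : vec (cj Q Xm) = ![Q 1 1 ^ 2 - Q 1 0 ^ 2, Q 0 0 ^ 2 - Q 0 1 ^ 2,
    Q 0 1 * Q 1 1 - Q 0 0 * Q 1 0] := by
  unfold cj vec Xm
  rw [Matrix.adjugate_fin_two]
  ext e
  fin_cases e <;> simp [Matrix.mul_apply, Fin.sum_univ_two] <;> ring

theorem vec_cj_Jm (Q : M2) : vec (cj Q Jm) = ![-(Q 1 0 ^ 2 + Q 1 1 ^ 2), Q 0 0 ^ 2 + Q 0 1 ^ 2,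
    -(Q 0 1 * Q 1 1 + Q 0 0 * Q 1 0)] := by
  unfold cj vec Jm
  rw [Matrix.adjugate_fin_two]
  ext e
  fin_cases e <;> simp [Matrix.mul_apply, Fin.sum_univ_two] <;> ring

private theorem LocDet_vec_cj (Q : M2) {M : M2} (hM : M 1 1 = -M 0 0) : vec (cj Q M) =
    ![Q 1 1 ^ 2 * M 1 0 - Q 1 0 ^ 2 * M 0 1 + 2 * Q 1 0 * Q 1 1 * M 0 0,
      Q 0 0 ^ 2 * M 0 1 - Q 0 1 ^ 2 * M 1 0 - 2 * Q 0 0 * Q 0 1 * M 0 0,
      Q 0 1 * Q 1 1 * M 1 0 - Q 0 0 * Q 1 0 * M 0 1 +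
        (Q 0 0 * Q 1 1 + Q 0 1 * Q 1 0) * M 0 0] := by
  unfold cj vec
  rw [Matrix.adjugate_fin_two]
  ext e
  fin_cases e <;> simp [Matrix.mul_apply, Fin.sum_univ_two, hM] <;> ring

private theorem LocDet_det3 (a b c a' b' c' a'' b'' c'' : ℝ) :
    det3 ![a, b, c] ![a', b', c'] ![a'', b'', c''] =
      a * (b' * c'' - c' * b'') - b * (a' * c'' - c' * a'') + c * (a' * b'' - b' * a'') := rfl

private theorem LocDet_trace (Q : M2) {M : M2} (hM : M 1 1 = -M 0 0) :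
    (cj Q M) 1 1 = -(cj Q M) 0 0 := by
  unfold cj
  rw [Matrix.adjugate_fin_two]
  simp [Matrix.mul_apply, Fin.sum_univ_two, hM]
  ring

/-- Conjugation preserves the determinant. -/
theorem det3_cj {Q : M2} (hQ : Q.det = 1) {A B C : M2} (hA : A 1 1 = -A 0 0) (hB : B 1 1 = -B 0 0)
    (hC : C 1 1 = -C 0 0) :
    det3 (vec (cj Q A)) (vec (cj Q B)) (vec (cj Q C)) = det3 (vec A) (vec B) (vec C) := by
  have h1 : det3 (vec (cj Q A)) (vec (cj Q B)) (vec (cj Q C)) =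
      Q.det ^ 3 * det3 (vec A) (vec B) (vec C) := by
    rw [LocDet_vec_cj Q hA, LocDet_vec_cj Q hB, LocDet_vec_cj Q hC, Matrix.det_fin_two]
    unfold vec
    rw [LocDet_det3, LocDet_det3]
    ring
  rw [h1, hQ, one_pow, one_mul]

/-- the polynomial identities for `Γ = !![x, y; z, w]` of determinant one -/
private theorem LocDet_poly {x y z w : ℝ} (h : x * w - y * z = 1) (a b c d : ℝ) :
    det3 ![-1 - (z ^ 2 + w ^ 2), 1 + (x ^ 2 + y ^ 2), -(y * w + x * z)]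
      ![1 + (w ^ 2 - z ^ 2), 1 + (x ^ 2 - y ^ 2), y * w - x * z]
      ![-a - c * (z ^ 2 + w ^ 2) - d * (2 * z * w), a + c * (x ^ 2 + y ^ 2) + d * (2 * x * y),
        -b - c * (y * w + x * z) - d * (x * w + y * z)] =
      2 * (c - a) * ((x + w) * (y + z)) + 2 * (b + d) * (x + w) ^ 2 := by
  rw [LocDet_det3]
  obtain ⟨m0, hm0⟩ : ∃ m0, m0 = (1 + (x ^ 2 + y ^ 2)) * (y * w - x * z) -
    (-(y * w + x * z)) * (1 + (x ^ 2 - y ^ 2)) := ⟨_, rfl⟩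
  obtain ⟨m1, hm1⟩ : ∃ m1, m1 = (-(y * w + x * z)) * (1 + (w ^ 2 - z ^ 2)) -
    (-1 - (z ^ 2 + w ^ 2)) * (y * w - x * z) := ⟨_, rfl⟩
  obtain ⟨m2, hm2⟩ : ∃ m2, m2 = (-1 - (z ^ 2 + w ^ 2)) * (1 + (x ^ 2 - y ^ 2)) -
    (1 + (x ^ 2 + y ^ 2)) * (1 + (w ^ 2 - z ^ 2)) := ⟨_, rfl⟩
  have hJ : -m0 + m1 = -(2 * ((x + w) * (y + z))) := by
    rw [hm0, hm1]
    linear_combination (2 * (y * w + x * z) - 2 * (x + w) * (y + z)) * h
  have hD : m2 = -(2 * (x + w) ^ 2) := by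
    rw [hm2]
    linear_combination (2 * (1 + (x * w - y * z)) - 4 * x * w) * h
  have hGJ : -(z ^ 2 + w ^ 2) * m0 + (x ^ 2 + y ^ 2) * m1 - (y * w + x * z) * m2 =
      2 * ((x + w) * (y + z)) := by
    rw [← neg_inj, ← hJ, hm0, hm1, hm2]
    ring
  have hGD : 2 * z * w * m0 - 2 * x * y * m1 + (x * w + y * z) * m2 = -(2 * (x + w) ^ 2) := by
    rw [hm0, hm1, hm2]
    linear_combination (-((-(2 * (x * w + y * z)) + 2 * (x + w) ^ 2) * (1 + (x * w - y * z)) +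
      (4 * y * z * w ^ 2 + 4 * x ^ 2 * y * z - 2 * (x * w + y * z) * (x ^ 2 + w ^ 2)))) * h
  rw [show (-1 - (z ^ 2 + w ^ 2)) * ((1 + (x ^ 2 - y ^ 2)) *
        (-b - c * (y * w + x * z) - d * (x * w + y * z)) -
        (y * w - x * z) * (a + c * (x ^ 2 + y ^ 2) + d * (2 * x * y))) -
      (1 + (x ^ 2 + y ^ 2)) * ((1 + (w ^ 2 - z ^ 2)) *
        (-b - c * (y * w + x * z) - d * (x * w + y * z)) -
        (y * w - x * z) * (-a - c * (z ^ 2 + w ^ 2) - d * (2 * z * w))) +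
      -(y * w + x * z) * ((1 + (w ^ 2 - z ^ 2)) * (a + c * (x ^ 2 + y ^ 2) + d * (2 * x * y)) -
        (1 + (x ^ 2 - y ^ 2)) * (-a - c * (z ^ 2 + w ^ 2) - d * (2 * z * w))) =
      a * (-m0 + m1) + c * (-(z ^ 2 + w ^ 2) * m0 + (x ^ 2 + y ^ 2) * m1 - (y * w + x * z) * m2) -
      b * m2 - d * (2 * z * w * m0 - 2 * x * y * m1 + (x * w + y * z) * m2) by
    rw [hm0, hm1, hm2]; ring, hJ, hGJ, hGD, hD]
  ring

private theorem LocDet_hyp (s S t u : ℝ) :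
    2 * (cosh S - cosh s) * (t * u) + 2 * (sinh s + sinh S) * t ^ 2 =
      16 * sinh ((s + S) / 2) * (t / 2) *
        ((t * cosh ((S - s) / 2) + u * sinh ((S - s) / 2)) / 2) := by
  have e1 : cosh s = cosh (s / 2) ^ 2 + sinh (s / 2) ^ 2 := by
    rw [← cosh_two_mul]; ring_nf
  have e2 : sinh s = 2 * sinh (s / 2) * cosh (s / 2) := by
    rw [← sinh_two_mul]; ring_nf
  have e3 : cosh S = cosh (S / 2) ^ 2 + sinh (S / 2) ^ 2 := by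
    rw [← cosh_two_mul]; ring_nf
  have e4 : sinh S = 2 * sinh (S / 2) * cosh (S / 2) := by
    rw [← sinh_two_mul]; ring_nf
  have h1 := cosh_sq (s / 2)
  have h2 := cosh_sq (S / 2)
  rw [show (s + S) / 2 = s / 2 + S / 2 by ring, show (S - s) / 2 = S / 2 - s / 2 by ring,
    sinh_add, cosh_sub, sinh_sub, e1, e2, e3, e4]
  linear_combination (-4 * t ^ 2 * sinh (s / 2) * cosh (s / 2) + 2 * t * u +
    4 * sinh (s / 2) ^ 2 * t * u) * h2 +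
    (-4 * t ^ 2 * cosh (S / 2) * sinh (S / 2) - 2 * t * u - 4 * sinh (S / 2) ^ 2 * t * u) * h1

theorem local_det {Q G : M2} (hQ : Q.det = 1) (hG : G.det = 1) (s S : ℝ) :
    det3 (vec (cj Q Jm) + vec (cj G Jm)) (vec (cj Q Xm) + vec (cj G Xm))
      (vec (cj (Q * Bm s) Jm) + vec (cj (G * Bm S) Jm)) =
    16 * sinh ((s + S) / 2) * hc Q G * hc (Q * Bm s) (G * Bm S) := by
  obtain ⟨Γ, hΓ⟩ : ∃ Γ : M2, Γ = Q.adjugate * G := ⟨_, rfl⟩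
  have hGQ : G = Q * Γ := by
    rw [hΓ, ← Matrix.mul_assoc, mul_adj hQ, Matrix.one_mul]
  have hdet : Γ.det = 1 := by
    have h1 : (Q * Γ).det = 1 := by rw [← hGQ]; exact hG
    rwa [Matrix.det_mul, hQ, one_mul] at h1
  have hdet' : Γ 0 0 * Γ 1 1 - Γ 0 1 * Γ 1 0 = 1 := by rw [← Matrix.det_fin_two]; exact hdet
  have hvadd : ∀ A B : M2, vec A + vec B = vec (A + B) := by
    intro A B
    ext e
    fin_cases e <;> rfl
  have hcadd : ∀ A B : M2, cj Q A + cj Q B = cj Q (A + B) := fun A B => (cj_add Q A B).symm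
  have hJt : Jm 1 1 = -Jm 0 0 := by simp [Jm]
  have hXt : Xm 1 1 = -Xm 0 0 := by simp [Xm]
  have hDt : Dm 1 1 = -Dm 0 0 := by simp [Dm]
  have hadd : ∀ A B : M2, A 1 1 = -A 0 0 → B 1 1 = -B 0 0 → (A + B) 1 1 = -(A + B) 0 0 := by
    intro A B hA hB
    rw [Matrix.add_apply, Matrix.add_apply, hA, hB]
    ring
  have e1 : vec (cj Q Jm) + vec (cj G Jm) = vec (cj Q (Jm + cj Γ Jm)) := by
    rw [hGQ, cj_mul, hvadd, hcadd]
  have e2 : vec (cj Q Xm) + vec (cj G Xm) = vec (cj Q (Xm + cj Γ Xm)) := by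
    rw [hGQ, cj_mul, hvadd, hcadd]
  have e3 : vec (cj (Q * Bm s) Jm) + vec (cj (G * Bm S) Jm) =
      vec (cj Q (cj (Bm s) Jm + cj Γ (cj (Bm S) Jm))) := by
    rw [hGQ, Matrix.mul_assoc, cj_mul, cj_mul, cj_mul, hvadd, hcadd]
  have hBt : ∀ r : ℝ, (cj (Bm r) Jm) 1 1 = -(cj (Bm r) Jm) 0 0 := fun r => LocDet_trace _ hJt
  rw [e1, e2, e3, det3_cj hQ (hadd _ _ hJt (LocDet_trace Γ hJt))
    (hadd _ _ hXt (LocDet_trace Γ hXt)) (hadd _ _ (hBt s) (LocDet_trace Γ (hBt S)))]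
  have v1 : vec (Jm + cj Γ Jm) = ![-1 - (Γ 1 0 ^ 2 + Γ 1 1 ^ 2), 1 + (Γ 0 0 ^ 2 + Γ 0 1 ^ 2),
      -(Γ 0 1 * Γ 1 1 + Γ 0 0 * Γ 1 0)] := by
    rw [← hvadd, vec_cj_Jm]
    ext e
    fin_cases e <;> simp [vec, Jm] <;> ring
  have v2 : vec (Xm + cj Γ Xm) = ![1 + (Γ 1 1 ^ 2 - Γ 1 0 ^ 2), 1 + (Γ 0 0 ^ 2 - Γ 0 1 ^ 2),
      Γ 0 1 * Γ 1 1 - Γ 0 0 * Γ 1 0] := by
    rw [← hvadd, vec_cj_Xm]
    ext e
    fin_cases e <;> simp [vec, Xm]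
  have v3 : vec (cj (Bm s) Jm + cj Γ (cj (Bm S) Jm)) =
      ![-cosh s - cosh S * (Γ 1 0 ^ 2 + Γ 1 1 ^ 2) - sinh S * (2 * Γ 1 0 * Γ 1 1),
        cosh s + cosh S * (Γ 0 0 ^ 2 + Γ 0 1 ^ 2) + sinh S * (2 * Γ 0 0 * Γ 0 1),
        -sinh s - cosh S * (Γ 0 1 * Γ 1 1 + Γ 0 0 * Γ 1 0) -
          sinh S * (Γ 0 0 * Γ 1 1 + Γ 0 1 * Γ 1 0)] := by
    rw [← hvadd, LocDet_vec_cj Γ (hBt S), cj_Bm_Jm, cj_Bm_Jm]
    ext e
    fin_cases e <;> simp [vec, Jm, Dm] <;> ring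
  rw [v1, v2, v3, LocDet_poly hdet']
  have w1 : hc Q G = (Γ 0 0 + Γ 1 1) / 2 := by
    unfold hc
    rw [hΓ, Matrix.adjugate_fin_two]
    simp [Matrix.mul_apply, Fin.sum_univ_two]
    ring
  have w2 : hc (Q * Bm s) (G * Bm S) =
      ((Γ 0 0 + Γ 1 1) * cosh ((S - s) / 2) + (Γ 0 1 + Γ 1 0) * sinh ((S - s) / 2)) / 2 := by
    unfold hc
    have h1 : G * Bm S * (Q * Bm s).adjugate = Q * (Γ * Bm (S - s)) * Q.adjugate := by
      rw [hGQ, Matrix.adjugate_mul_distrib, adj_Bm, ← Matrix.mul_assoc (Q * Γ * Bm S),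
        Matrix.mul_assoc (Q * Γ) (Bm S), Bm_mul, sub_eq_add_neg]
      simp only [Matrix.mul_assoc]
    have h2 : (Q * (Γ * Bm (S - s)) * Q.adjugate) 0 0 +
        (Q * (Γ * Bm (S - s)) * Q.adjugate) 1 1 =
        Q.det * ((Γ * Bm (S - s)) 0 0 + (Γ * Bm (S - s)) 1 1) := by
      rw [Matrix.det_fin_two, Matrix.adjugate_fin_two]
      simp [Matrix.mul_apply, Fin.sum_univ_two]
      ring
    rw [h1, h2, hQ, one_mul]
    unfold Bm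
    simp [Matrix.mul_apply, Fin.sum_univ_two]
    ring
  rw [w1, w2, ← LocDet_hyp]

end Pool.Agent.Ads89
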