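import Pool.Agent.W_2fbb77_h89.Avg
import Pool.Agent.W_2fbb77_h89.Conc
import Pool.Agent.W_2fbb77_h89.LocDet

/-! # MP_2fbb77_gt: the averaged chain is concave

For two chains with the same edge lengths `l` and bends `s`, `S` put `U 0 = (1, -1, 0)`, `U (n + 1) = Uv n` for
`n < m` and `U (m + 1) = (-exp (-(D+D')/2), exp ((D+D')/2), 0)`.  Claim (`uch`): `UCh U (m + 1) Nd` with `Nd j`:
`j = n + 1` with `0 < s n ∨ 0 < S n`.

Notation: `Q = Qc t₁ l s n`, `G = Qc T₁ l S n`, `E = Ec t₁ l s (n+1) = Q * Bm (s n)`, `F = G * Bm (S n)`.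
* Coordinates (`vec_cj_Xm`): if `Q = !![a, b; c, d]`, `det = 1`, then
  `vec (cj Q Xm) = (d² - c², a² - b², b d - a c)` and `vec (cj Q Jm) = (-(c² + d²), a² + b², -(b d + a c))`.
* `br_pos`: put `α n = Uv n 1`, `β n = Uv n 0`; both are positive (`Pos Q`: `a > b ≥ 0`, `d > -c ≥ 0`), `α` increases
  and `β` decreases strictly with `n`: by `Bm` they do not change (`cj_Bm_Xm`), and for `E = !![a, b; c, d]`,
  `E * Hm l = !![a e^{l/2}, b e^{-l/2}; c e^{l/2}, d e^{-l/2}]` has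
  `a² e^l - b² e^{-l} > a² - b²`, `d² e^{-l} - c² e^l < d² - c²`.  So `br (U i) (U j) = β i α j - α i β j > 0` for
  inner `i < j`; `br (U 0) (U j) = α j + β j`, `br (U i) (U (m+1)) = β i e^{..} + α i e^{-..}`,
  `br (U 0) (U (m+1)) = e^{(D+D')/2} - e^{-(D+D')/2} > 0`.
* `loc`, `loc'` (middle index `n + 1`, `n < m`): with `em = vec (cj Q Jm) + vec (cj G Jm)` (incoming),
  `pp = Uv n`, `ep = vec (cj E Jm) + vec (cj F Jm)` (outgoing):
  `det3 em pp ep = 16 sinh ((s n + S n)/2) * hc Q G * hc E F` (`local_det`), which is `≥ 0`, and `> 0` if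
  `s n + S n > 0`.
  Left neighbour: `U n = -x em + y pp` with `x > 0`: if `n ≥ 1`, `Q = E' * Hm l` with `E' = Ec n`, and
  `cj E' Xm = cj Q (cj (Hm (-l)) Xm) = cosh l • cj Q Xm - sinh l • cj Q Jm` and `cj E' Xm = cj (Qc (n-1)) Xm`;
  if `n = 0`: `E' = Rm (-t₁)`, `cj E' Jm = Jm = cj Q (cj (Hm (-l)) Jm) = - sinh l • cj Q Xm + cosh l • cj Q Jm`,
  `vec Jm = (-1, 1, 0) = - U 0`, so `2 U 0 = sinh l • pp - cosh l • em`.
  Right neighbour: `U (n + 2) = x' ep + y' pp` with `x' > 0`: if `n + 1 < m`, `Qc (n+1) = E * Hm l'`,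
  `cj (Qc (n+1)) Xm = cosh l' • cj E Xm + sinh l' • cj E Jm`, `cj E Xm = cj Q Xm`; if `n + 1 = m`:
  `Qc m = E * Hm l'`, `cj (Qc m) Jm = sinh l' • cj E Xm + cosh l' • cj E Jm` and by `Ch.Qc_last`
  `cj (Qc m) Jm = cj (Hm D) Jm`, with `vec = (-e^{-D}, e^{D}, 0)`, and
  `(-e^{-D} - e^{-D'}, e^{D} + e^{D'}, 0) = 2 cosh ((D - D')/2) • U (m+1)`.
  Hence `det3 (U n) (U (n+1)) (U (n+2)) = - x x' det3 em pp ep`.
* `eta`: `b d - a c ≥ 0`; `eta'`: if `0 < s n` then `c < 0` (`Ch.Qc_strict`), so `- a c > 0`. -/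

set_option autoImplicit false

noncomputable section

namespace Pool.Agent.Ads89

open Real

/-- The averaged chain. -/
def Uc (t₁ T₁ : ℝ) (l s S : ℕ → ℝ) (m : ℕ) (D D' : ℝ) (n : ℕ) : Fin 3 → ℝ :=
  if n = 0 then ![1, -1, 0]
  else if n ≤ m then Uv t₁ T₁ l s S (n - 1)
  else ![-exp (-((D + D') / 2)), exp ((D + D') / 2), 0]

private theorem Conv_cj_Qc_Xm (t : ℝ) (l s : ℕ → ℝ) (n : ℕ) :
    cj (Ec t l s (n + 1)) Xm = cj (Qc t l s n) Xm := by
  rw [Ec_succ, cj_mul, cj_Bm_Xm]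

private theorem Conv_Ec_eq (t : ℝ) (l s : ℕ → ℝ) (n : ℕ) :
    Ec t l s n = Qc t l s n * Hm (-l n) := by
  rw [Qc, Matrix.mul_assoc, Hm_mul, add_neg_cancel, Hm_zero, mul_one]

/-- the position of the vertex `n` in terms of the incoming frame at the vertex `n + 1` -/
private theorem Conv_left (t : ℝ) (l s : ℕ → ℝ) (n : ℕ) :
    cj (Qc t l s n) Xm = cosh (l (n + 1)) • cj (Qc t l s (n + 1)) Xm -
      sinh (l (n + 1)) • cj (Qc t l s (n + 1)) Jm := by
  rw [← Conv_cj_Qc_Xm, Conv_Ec_eq, cj_mul, cj_Hm_Xm, cosh_neg, sinh_neg, cj_add, cj_smul, cj_smul,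
    neg_smul, sub_eq_add_neg]

private theorem Conv_left0 (t : ℝ) (l s : ℕ → ℝ) :
    Jm = cosh (l 0) • cj (Qc t l s 0) Jm - sinh (l 0) • cj (Qc t l s 0) Xm := by
  have h1 : cj (Ec t l s 0) Jm = Jm := by rw [Ec_zero, cj_Rm_Jm]
  rw [Conv_Ec_eq, cj_mul, cj_Hm_Jm, cosh_neg, sinh_neg, cj_add, cj_smul, cj_smul, neg_smul] at h1
  rw [sub_eq_add_neg, add_comm]
  exact h1.symm

private theorem Conv_right (t : ℝ) (l s : ℕ → ℝ) (n : ℕ) :
    cj (Qc t l s (n + 1)) Xm = cosh (l (n + 1)) • cj (Qc t l s n) Xm +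
      sinh (l (n + 1)) • cj (Qc t l s n * Bm (s n)) Jm := by
  have h1 : Qc t l s (n + 1) = Ec t l s (n + 1) * Hm (l (n + 1)) := rfl
  rw [h1, cj_mul, cj_Hm_Xm, cj_add, cj_smul, cj_smul, Conv_cj_Qc_Xm, Ec_succ]

private theorem Conv_right0 (t : ℝ) (l s : ℕ → ℝ) (n : ℕ) :
    cj (Qc t l s (n + 1)) Jm = sinh (l (n + 1)) • cj (Qc t l s n) Xm +
      cosh (l (n + 1)) • cj (Qc t l s n * Bm (s n)) Jm := by
  have h1 : Qc t l s (n + 1) = Ec t l s (n + 1) * Hm (l (n + 1)) := rfl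
  rw [h1, cj_mul, cj_Hm_Jm, cj_add, cj_smul, cj_smul, Conv_cj_Qc_Xm, Ec_succ]

private theorem Conv_pos_coords {Q : M2} (h : Pos Q) : 0 < vec (cj Q Xm) 0 ∧ 0 < vec (cj Q Xm) 1 ∧
    0 ≤ vec (cj Q Xm) 2 := by
  obtain ⟨h1, h2, h3, h4⟩ := h
  rw [vec_cj_Xm]
  refine ⟨?_, ?_, ?_⟩
  · show 0 < Q 1 1 ^ 2 - Q 1 0 ^ 2
    have h5 : 0 < (Q 1 0 + Q 1 1) * (Q 1 1 - Q 1 0) := mul_pos h4 (by linarith)
    nlinarith
  · show 0 < Q 0 0 ^ 2 - Q 0 1 ^ 2
    nlinarith
  · show 0 ≤ Q 0 1 * Q 1 1 - Q 0 0 * Q 1 0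
    have h5 : 0 ≤ Q 0 1 * Q 1 1 := mul_nonneg h1 (by linarith)
    have h6 : 0 ≤ Q 0 0 * (-Q 1 0) := mul_nonneg (by linarith) (by linarith)
    nlinarith

private theorem Conv_pos_two {Q : M2} (h : Pos Q) (h' : Q 1 0 < 0) : 0 < vec (cj Q Xm) 2 := by
  obtain ⟨h1, h2, h3, h4⟩ := h
  rw [vec_cj_Xm]
  show 0 < Q 0 1 * Q 1 1 - Q 0 0 * Q 1 0
  have h5 : 0 ≤ Q 0 1 * Q 1 1 := mul_nonneg h1 (by linarith)
  have h6 : 0 < Q 0 0 * (-Q 1 0) := mul_pos (by linarith) (by linarith)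
  nlinarith

/-- strict monotonicity of the coordinates along one chain -/
private theorem Conv_step {l s : ℕ → ℝ} {m : ℕ} {t₁ t₂ D : ℝ} (H : Ch l s m t₁ t₂ D) {n : ℕ}
    (hn : n + 1 ≤ m) :
    vec (cj (Qc t₁ l s n) Xm) 1 < vec (cj (Qc t₁ l s (n + 1)) Xm) 1 ∧
    vec (cj (Qc t₁ l s (n + 1)) Xm) 0 < vec (cj (Qc t₁ l s n) Xm) 0 := by
  have hE := H.Ec_pos hn
  have hl := H.hl (n + 1) hn
  obtain ⟨h1, h2, h3, h4⟩ := hE
  rw [← Conv_cj_Qc_Xm, vec_cj_Xm, vec_cj_Xm]
  have hQ : Qc t₁ l s (n + 1) = Ec t₁ l s (n + 1) * Hm (l (n + 1)) := rfl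
  set E := Ec t₁ l s (n + 1) with hEdef
  have q00 : Qc t₁ l s (n + 1) 0 0 = E 0 0 * exp (l (n + 1) / 2) := by
    rw [hQ]
    simp [Hm, Matrix.mul_apply, Fin.sum_univ_two]
  have q01 : Qc t₁ l s (n + 1) 0 1 = E 0 1 * exp (-(l (n + 1) / 2)) := by
    rw [hQ]
    simp [Hm, Matrix.mul_apply, Fin.sum_univ_two]
  have q10 : Qc t₁ l s (n + 1) 1 0 = E 1 0 * exp (l (n + 1) / 2) := by
    rw [hQ]
    simp [Hm, Matrix.mul_apply, Fin.sum_univ_two]
  have q11 : Qc t₁ l s (n + 1) 1 1 = E 1 1 * exp (-(l (n + 1) / 2)) := by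
    rw [hQ]
    simp [Hm, Matrix.mul_apply, Fin.sum_univ_two]
  have e1 : 1 < exp (l (n + 1) / 2) := by
    rw [← exp_zero]
    exact exp_lt_exp.2 (by linarith)
  have e2 : exp (-(l (n + 1) / 2)) < 1 := by
    rw [← exp_zero]
    exact exp_lt_exp.2 (by linarith)
  have e3 : 0 < exp (-(l (n + 1) / 2)) := exp_pos _
  set x := exp (l (n + 1) / 2) with hx
  set y := exp (-(l (n + 1) / 2)) with hy
  have f1 : 1 < x ^ 2 := by nlinarith
  have f2 : y ^ 2 < 1 := by nlinarith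
  constructor
  · show E 0 0 ^ 2 - E 0 1 ^ 2 < Qc t₁ l s (n + 1) 0 0 ^ 2 - Qc t₁ l s (n + 1) 0 1 ^ 2
    rw [q00, q01, mul_pow, mul_pow]
    have a1 : E 0 0 ^ 2 * 1 < E 0 0 ^ 2 * x ^ 2 :=
      mul_lt_mul_of_pos_left f1 (pow_pos (by linarith) 2)
    have a2 : E 0 1 ^ 2 * y ^ 2 ≤ E 0 1 ^ 2 * 1 := mul_le_mul_of_nonneg_left f2.le (sq_nonneg _)
    linarith
  · show Qc t₁ l s (n + 1) 1 1 ^ 2 - Qc t₁ l s (n + 1) 1 0 ^ 2 < E 1 1 ^ 2 - E 1 0 ^ 2
    rw [q11, q10, mul_pow, mul_pow]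
    have a1 : E 1 1 ^ 2 * y ^ 2 < E 1 1 ^ 2 * 1 :=
      mul_lt_mul_of_pos_left f2 (pow_pos (by linarith) 2)
    have a2 : E 1 0 ^ 2 * 1 ≤ E 1 0 ^ 2 * x ^ 2 := mul_le_mul_of_nonneg_left f1.le (sq_nonneg _)
    linarith

private theorem Conv_mono {l s : ℕ → ℝ} {m : ℕ} {t₁ t₂ D : ℝ} (H : Ch l s m t₁ t₂ D) {i j : ℕ}
    (hij : i < j) (hj : j ≤ m) :
    vec (cj (Qc t₁ l s i) Xm) 1 < vec (cj (Qc t₁ l s j) Xm) 1 ∧
    vec (cj (Qc t₁ l s j) Xm) 0 < vec (cj (Qc t₁ l s i) Xm) 0 := by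
  induction j with
  | zero => omega
  | succ j ih =>
    have h1 := Conv_step H hj
    rcases Nat.lt_succ_iff_lt_or_eq.1 hij with h | h
    · have h2 := ih h (by omega)
      exact ⟨h2.1.trans h1.1, h1.2.trans h2.2⟩
    · subst h
      exact h1

private theorem Conv_det {em pp ep u v w : Fin 3 → ℝ} {x y x' y' : ℝ}
    (hu : ∀ e, u e = -x * em e + y * pp e) (hv : v = pp) (hw : ∀ e, w e = x' * ep e + y' * pp e) :
    det3 u v w = -(x * x') * det3 em pp ep := by
  subst hv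
  unfold det3
  rw [hu 0, hu 1, hu 2, hw 0, hw 1, hw 2]
  ring

private theorem Conv_vec_Jm : vec Jm = ![-1, 1, 0] := by
  ext e
  fin_cases e <;> simp [vec, Jm]

theorem uch {l s S : ℕ → ℝ} {m : ℕ} {t₁ t₂ D T₁ T₂ D' : ℝ} (H : Ch l s m t₁ t₂ D)
    (H' : Ch l S m T₁ T₂ D') :
    UCh (Uc t₁ T₁ l s S m D D') (m + 1) (fun n => 0 < s (n - 1) ∨ 0 < S (n - 1)) := by
  have hU0 : Uc t₁ T₁ l s S m D D' 0 = ![1, -1, 0] := by
    unfold Uc
    rw [if_pos rfl]
  have hUi : ∀ n, n < m → Uc t₁ T₁ l s S m D D' (n + 1) = Uv t₁ T₁ l s S n := by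
    intro n hn
    unfold Uc
    rw [if_neg (by omega), if_pos (by omega), Nat.add_sub_cancel]
  have hUN : Uc t₁ T₁ l s S m D D' (m + 1) =
      ![-exp (-((D + D') / 2)), exp ((D + D') / 2), 0] := by
    unfold Uc
    rw [if_neg (by omega), if_neg (by omega)]
  have hUv : ∀ n e, Uv t₁ T₁ l s S n e = vec (cj (Qc t₁ l s n) Xm) e +
      vec (cj (Qc T₁ l S n) Xm) e := fun n e => rfl
  have hco : ∀ n, n ≤ m → 0 < Uv t₁ T₁ l s S n 0 ∧ 0 < Uv t₁ T₁ l s S n 1 ∧
      0 ≤ Uv t₁ T₁ l s S n 2 := by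
    intro n hn
    have h1 := Conv_pos_coords (H.Qc_pos hn)
    have h2 := Conv_pos_coords (H'.Qc_pos hn)
    rw [hUv, hUv, hUv]
    exact ⟨add_pos h1.1 h2.1, add_pos h1.2.1 h2.2.1, add_nonneg h1.2.2 h2.2.2⟩
  have hM : 0 < (D + D') / 2 := by
    have := H.hD
    have := H'.hD
    linarith
  have heM : exp (-((D + D') / 2)) < exp ((D + D') / 2) := exp_lt_exp.2 (by linarith)
  have hp1 := exp_pos ((D + D') / 2)
  have hp2 := exp_pos (-((D + D') / 2))
  -- the local determinants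
  have key : ∀ n, n < m → ∃ X : ℝ, 0 < X ∧
      det3 (Uc t₁ T₁ l s S m D D' n) (Uc t₁ T₁ l s S m D D' (n + 1))
        (Uc t₁ T₁ l s S m D D' (n + 2)) = -(X * sinh ((s n + S n) / 2)) := by
    intro n hn
    have hloc := local_det (det_Qc t₁ l s n) (det_Qc T₁ l S n) (s n) (S n)
    have t1 : 0 < hc (Qc t₁ l s n) (Qc T₁ l S n) := by
      unfold hc
      have := (H.Qc_pos hn.le).trace_pos (H'.Qc_pos hn.le)
      linarith
    have t2 : 0 < hc (Qc t₁ l s n * Bm (s n)) (Qc T₁ l S n * Bm (S n)) := by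
      unfold hc
      rw [← Ec_succ, ← Ec_succ]
      have := (H.Ec_pos (show n + 1 ≤ m from hn)).trace_pos (H'.Ec_pos (show n + 1 ≤ m from hn))
      linarith
    set em : Fin 3 → ℝ := vec (cj (Qc t₁ l s n) Jm) + vec (cj (Qc T₁ l S n) Jm) with hem
    set ep : Fin 3 → ℝ := vec (cj (Qc t₁ l s n * Bm (s n)) Jm) +
      vec (cj (Qc T₁ l S n * Bm (S n)) Jm) with hep
    set pp : Fin 3 → ℝ := vec (cj (Qc t₁ l s n) Xm) + vec (cj (Qc T₁ l S n) Xm) with hpp
    have hmid : Uc t₁ T₁ l s S m D D' (n + 1) = pp := hUi n hn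
    -- left neighbour
    have hleft : ∃ x y : ℝ, 0 < x ∧ ∀ e, Uc t₁ T₁ l s S m D D' n e = -x * em e + y * pp e := by
      rcases Nat.eq_zero_or_pos n with h0 | h0
      · subst h0
        have hl0 := H.hl 0 (by omega)
        have a1 := congrArg vec (Conv_left0 t₁ l s)
        have a2 := congrArg vec (Conv_left0 T₁ l S)
        rw [sub_eq_add_neg, ← neg_smul, vec_add, vec_smul, vec_smul, Conv_vec_Jm] at a1 a2
        refine ⟨cosh (l 0) / 2, sinh (l 0) / 2, by have := cosh_pos (l 0); linarith, fun e => ?_⟩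
        have b1 := congrFun a1 e
        have b2 := congrFun a2 e
        simp only [Pi.add_apply, Pi.smul_apply, smul_eq_mul] at b1 b2
        rw [hU0]
        simp only [hem, hpp, Pi.add_apply]
        have b3 : (![1, -1, 0] : Fin 3 → ℝ) e = -((![-1, 1, 0] : Fin 3 → ℝ) e) := by
          fin_cases e <;> simp
        rw [b3]
        linarith
      · obtain ⟨k, rfl⟩ : ∃ k, n = k + 1 := ⟨n - 1, by omega⟩
        have hlk := H.hl (k + 1) (by omega)
        refine ⟨sinh (l (k + 1)), cosh (l (k + 1)), sinh_pos_iff.2 hlk, fun e => ?_⟩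
        rw [hUi k (by omega), hUv]
        have a1 := congrArg vec (Conv_left t₁ l s k)
        have a2 := congrArg vec (Conv_left T₁ l S k)
        rw [sub_eq_add_neg, ← neg_smul, vec_add, vec_smul, vec_smul] at a1 a2
        have b1 := congrFun a1 e
        have b2 := congrFun a2 e
        simp only [Pi.add_apply, Pi.smul_apply, smul_eq_mul] at b1 b2
        rw [b1, b2]
        simp only [hem, hpp, Pi.add_apply]
        ring
    -- right neighbour
    have hright : ∃ x y : ℝ, 0 < x ∧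
        ∀ e, Uc t₁ T₁ l s S m D D' (n + 2) e = x * ep e + y * pp e := by
      have hl1 := H.hl (n + 1) hn
      rcases Nat.lt_or_ge (n + 1) m with h0 | h0
      · refine ⟨sinh (l (n + 1)), cosh (l (n + 1)), sinh_pos_iff.2 hl1, fun e => ?_⟩
        rw [hUi (n + 1) h0, hUv]
        have a1 := congrArg vec (Conv_right t₁ l s n)
        have a2 := congrArg vec (Conv_right T₁ l S n)
        rw [vec_add, vec_smul, vec_smul] at a1 a2
        have b1 := congrFun a1 e
        have b2 := congrFun a2 e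
        simp only [Pi.add_apply, Pi.smul_apply, smul_eq_mul] at b1 b2
        rw [b1, b2]
        simp only [hep, hpp, Pi.add_apply]
        ring
      · have hm : m = n + 1 := by omega
        have hC : 0 < 2 * cosh ((D - D') / 2) := by
          have := cosh_pos ((D - D') / 2)
          linarith
        refine ⟨cosh (l (n + 1)) / (2 * cosh ((D - D') / 2)),
          sinh (l (n + 1)) / (2 * cosh ((D - D') / 2)), div_pos (cosh_pos _) hC, fun e => ?_⟩
        have g : ∀ {s : ℕ → ℝ} {t₁ t₂ D : ℝ}, Ch l s m t₁ t₂ D →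
            vec (cj (Qc t₁ l s (n + 1)) Jm) = ![-exp (-D), exp D, 0] := by
          intro s t₁ t₂ D H
          have h1 := H.Qc_last
          rw [← hm, h1, cj_mul, cj_Rm_Jm, cj_Hm_Jm, vec_add, vec_smul, vec_smul, Conv_vec_Jm]
          have h2 : vec Xm = ![1, 1, 0] := by
            ext e
            fin_cases e <;> simp [vec, Xm]
          rw [h2]
          have h3 := cosh_add_sinh D
          have h4 := cosh_sub_sinh D
          ext e
          fin_cases e
          · simp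
            linarith
          · simp
          · simp
        have g1 := g H
        have g2 := g H'
        have a1 := congrArg vec (Conv_right0 t₁ l s n)
        have a2 := congrArg vec (Conv_right0 T₁ l S n)
        rw [vec_add, vec_smul, vec_smul, g1] at a1
        rw [vec_add, vec_smul, vec_smul, g2] at a2
        have b1 := congrFun a1 e
        have b2 := congrFun a2 e
        simp only [Pi.add_apply, Pi.smul_apply, smul_eq_mul] at b1 b2
        have hn2 : n + 2 = m + 1 := by omega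
        rw [hn2, hUN]
        have e1 : cosh (l (n + 1)) / (2 * cosh ((D - D') / 2)) * ep e +
            sinh (l (n + 1)) / (2 * cosh ((D - D') / 2)) * pp e =
            (cosh (l (n + 1)) * ep e + sinh (l (n + 1)) * pp e) / (2 * cosh ((D - D') / 2)) := by
          ring
        rw [e1, eq_div_iff hC.ne']
        have e2 : cosh (l (n + 1)) * ep e + sinh (l (n + 1)) * pp e =
            (![-exp (-D), exp D, 0] : Fin 3 → ℝ) e + (![-exp (-D'), exp D', 0] : Fin 3 → ℝ) e := by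
          rw [b1, b2]
          simp only [hep, hpp, Pi.add_apply]
          ring
        rw [e2]
        have c1 : 2 * cosh ((D - D') / 2) = exp ((D - D') / 2) + exp (-((D - D') / 2)) := by
          rw [cosh_eq]
          ring
        rw [c1]
        fin_cases e
        · simp only [Fin.zero_eta, Fin.isValue, Matrix.cons_val_zero]
          rw [neg_mul, mul_add, ← exp_add, ← exp_add]
          have d1 : -((D + D') / 2) + (D - D') / 2 = -D' := by ring
          have d2 : -((D + D') / 2) + -((D - D') / 2) = -D := by ring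
          rw [d1, d2]
          ring
        · simp only [Fin.mk_one, Fin.isValue, Matrix.cons_val_one, Matrix.cons_val_zero]
          rw [mul_add, ← exp_add, ← exp_add]
          have d1 : (D + D') / 2 + (D - D') / 2 = D := by ring
          have d2 : (D + D') / 2 + -((D - D') / 2) = D' := by ring
          rw [d1, d2]
        · simp
    obtain ⟨x, y, hx, hu⟩ := hleft
    obtain ⟨x', y', hx', hw⟩ := hright
    refine ⟨x * x' * (16 * hc (Qc t₁ l s n) (Qc T₁ l S n) *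
      hc (Qc t₁ l s n * Bm (s n)) (Qc T₁ l S n * Bm (S n))), by positivity, ?_⟩
    rw [Conv_det hu hmid hw, hloc]
    ring
  have hsin : ∀ n, n < m → 0 ≤ sinh ((s n + S n) / 2) := by
    intro n hn
    rw [sinh_nonneg_iff]
    have := H.hs n hn
    have := H'.hs n hn
    linarith
  refine ⟨?_, ?_, ?_, ?_, ?_, ?_, ?_⟩
  · -- br_pos
    intro i j hij hj
    rcases Nat.eq_zero_or_pos i with hi | hi
    · subst hi
      rw [hU0]
      rcases Nat.lt_or_ge j (m + 1) with h | h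
      · obtain ⟨k, rfl⟩ : ∃ k, j = k + 1 := ⟨j - 1, by omega⟩
        rw [hUi k (by omega)]
        obtain ⟨c0, c1, _⟩ := hco k (by omega)
        unfold br
        simp only [Matrix.cons_val_zero, Matrix.cons_val_one]
        linarith
      · have hj' : j = m + 1 := by omega
        rw [hj', hUN]
        unfold br
        simp only [Matrix.cons_val_zero, Matrix.cons_val_one]
        linarith
    · obtain ⟨p, rfl⟩ : ∃ p, i = p + 1 := ⟨i - 1, by omega⟩
      rw [hUi p (by omega)]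
      obtain ⟨c0, c1, _⟩ := hco p (by omega)
      rcases Nat.lt_or_ge j (m + 1) with h | h
      · obtain ⟨k, rfl⟩ : ∃ k, j = k + 1 := ⟨j - 1, by omega⟩
        rw [hUi k (by omega)]
        obtain ⟨d0, d1, _⟩ := hco k (by omega)
        have m1 := Conv_mono H (show p < k by omega) (by omega)
        have m2 := Conv_mono H' (show p < k by omega) (by omega)
        have n1 : Uv t₁ T₁ l s S p 1 < Uv t₁ T₁ l s S k 1 := by
          rw [hUv, hUv]
          exact add_lt_add m1.1 m2.1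
        have n2 : Uv t₁ T₁ l s S k 0 < Uv t₁ T₁ l s S p 0 := by
          rw [hUv, hUv]
          exact add_lt_add m1.2 m2.2
        unfold br
        have n3 : Uv t₁ T₁ l s S p 1 * Uv t₁ T₁ l s S k 0 < Uv t₁ T₁ l s S k 1 * Uv t₁ T₁ l s S p 0 :=
          mul_lt_mul'' n1 n2 c1.le d0.le
        linarith
      · have hj' : j = m + 1 := by omega
        rw [hj', hUN]
        unfold br
        simp only [Matrix.cons_val_zero, Matrix.cons_val_one]
        have n1 := mul_pos c0 hp1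
        have n2 := mul_pos c1 hp2
        linarith
  · intro n hn
    obtain ⟨X, hX, hdet⟩ := key n (by omega)
    rw [hdet]
    have := mul_nonneg hX.le (hsin n (by omega))
    linarith
  · intro n hn hNd
    obtain ⟨X, hX, hdet⟩ := key n (by omega)
    rw [hdet]
    have h1 := H.hs n (by omega)
    have h2 := H'.hs n (by omega)
    have h3 : 0 < sinh ((s n + S n) / 2) := by
      rw [sinh_pos_iff]
      have hNd' : 0 < s n ∨ 0 < S n := hNd
      rcases hNd' with h | h <;> linarith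
    have := mul_pos hX h3
    linarith
  · intro n hn
    rcases Nat.eq_zero_or_pos n with h0 | h0
    · subst h0
      rw [hU0]
      simp
    · rcases Nat.lt_or_ge n (m + 1) with h | h
      · obtain ⟨k, rfl⟩ : ∃ k, n = k + 1 := ⟨n - 1, by omega⟩
        rw [hUi k (by omega)]
        exact (hco k (by omega)).2.2
      · have hj' : n = m + 1 := by omega
        rw [hj', hUN]
        simp
  · intro n hn0 hn hNd
    obtain ⟨k, rfl⟩ : ∃ k, n = k + 1 := ⟨n - 1, by omega⟩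
    rw [hUi k (by omega), hUv]
    have h1 := Conv_pos_coords (H.Qc_pos (show k ≤ m by omega))
    have h2 := Conv_pos_coords (H'.Qc_pos (show k ≤ m by omega))
    have hNd' : 0 < s k ∨ 0 < S k := hNd
    rcases hNd' with h | h
    · exact add_pos_of_pos_of_nonneg
        (Conv_pos_two (H.Qc_pos (by omega)) (H.Qc_strict (by omega) h)) h2.2.2
    · exact add_pos_of_nonneg_of_pos h1.2.2
        (Conv_pos_two (H'.Qc_pos (by omega)) (H'.Qc_strict (by omega) h))
  · rw [hU0]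
    simp
  · rw [hUN]
    simp

end Pool.Agent.Ads89
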