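import Pool.Agent.W_2fbb77_h89.Conc

/-! # MP_2fbb77_gt: convex position of the cyclic sequence

`cyc`: let `Y = cyc U W N`: `Y i = U i` for `i ≤ N` and `Y i = flip (W (2N - i))` for `N < i < 2N`, where `flip`
changes the sign of the last coordinate.  Hypotheses: `U 0 = W 0`, `U N = W N`, these with last coordinate
`0`.  Then `det3 (Y i) (Y j) (Y k) < 0` for `i < j < k < 2N` with all three nondegenerate (`NdY`).
Cases.  (1) `k ≤ N`: `conc` for `U` (`0 < j < N`).
(2) `j ≤ N < k`: `c = Y k = flip (W n)`, `n = 2N - k`, `0 < n < N`, `η = W n 2 > 0`.  As `br (U 0) (W n) > 0`,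
`br (W n) (U N) > 0`, `br (U 0) (U N) > 0`, we have (Cramer) `c = λ U 0 + μ U N - η (0,0,1)` with
`λ = br (W n) (U N) / br (U 0) (U N)`, `μ = br (U 0) (W n) / br (U 0) (U N)`, so
`det3 (U i) (U j) c = λ det3 (U i) (U j) (U 0) + μ det3 (U i) (U j) (U N) - η br (U i) (U j) < 0`
(`det3 (U i) (U j) (U 0) = det3 (U 0) (U i) (U j) ≤ 0`, zero if `i = 0`; `det3 (U i) (U j) (U N) ≤ 0`, zero if
`j = N`; `η > 0`).
(3) `i ≤ N < j < k`: `Y j = flip (W n')`, `Y k = flip (W n'')`, `0 < n'' < n' < N`.  `det3 (U i) (flip a) (flip b) =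
- det3 (flip (U i)) a b = det3 (W n'') (W n') (flip (U i))` with `a = W n'`, `b = W n''`.  Write
`flip (U i) = λ W 0 + μ W N - η (0,0,1)`, `η = U i 2 ≥ 0`, `λ, μ ≥ 0` (`i = 0`: `λ = 1, μ = 0`, `i = N`: `λ = 0, μ = 1`,
otherwise `λ, μ > 0` as in (2), with `br (U 0) (U i) > 0`, `br (U i) (U N) > 0`), one of `λ, μ` is positive, and
`det3 (W n'') (W n') (W 0) < 0` (`conc` at the middle index `n''`, nondegenerate), `det3 (W n'') (W n') (W N) < 0`
(middle index `n'`), `br > 0`.
(4) `N < i`: `det3 (flip a) (flip b) (flip c) = - det3 a b c = det3 c b a`, `conc` for `W`. -/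

set_option autoImplicit false

noncomputable section

namespace Pool.Agent.Ads89

def flip3 (a : Fin 3 → ℝ) : Fin 3 → ℝ := ![a 0, a 1, -a 2]

/-- The cyclic sequence of the upper chain and of the reversed and reflected lower chain. -/
def cyc (U W : ℕ → Fin 3 → ℝ) (N i : ℕ) : Fin 3 → ℝ :=
  if i ≤ N then U i else flip3 (W (2 * N - i))

/-- The nondegenerate indices of the cyclic sequence. -/
def NdY (NdU NdW : ℕ → Prop) (N i : ℕ) : Prop :=
  i = 0 ∨ i = N ∨ (0 < i ∧ i < N ∧ NdU i) ∨ (N < i ∧ i < 2 * N ∧ NdW (2 * N - i))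

theorem Cyc_expand (a b c x y : Fin 3 → ℝ) (ha : a 2 = 0) (hb : b 2 = 0) :
    br a b * det3 x y (flip3 c) = br c b * det3 x y a + br a c * det3 x y b -
      br a b * c 2 * br x y := by
  simp only [br, det3, flip3, Matrix.cons_val_zero, Matrix.cons_val_one, Matrix.cons_val, ha, hb]
  ring

theorem Cyc_flip1 (x a b : Fin 3 → ℝ) :
    det3 x (flip3 a) (flip3 b) = det3 b a (flip3 x) := by
  simp only [det3, flip3, Matrix.cons_val_zero, Matrix.cons_val_one, Matrix.cons_val]
  ring

theorem Cyc_flip3 (a b c : Fin 3 → ℝ) :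
    det3 (flip3 a) (flip3 b) (flip3 c) = det3 c b a := by
  simp only [det3, flip3, Matrix.cons_val_zero, Matrix.cons_val_one, Matrix.cons_val]
  ring

theorem Cyc_rep (a b : Fin 3 → ℝ) : det3 a b a = 0 ∧ det3 a b b = 0 := by
  constructor <;> simp only [det3] <;> ring

theorem Cyc_cyc (a b c : Fin 3 → ℝ) : det3 a b c = det3 c a b := by
  simp only [det3]
  ring

theorem cyc_neg {U W : ℕ → Fin 3 → ℝ} {N : ℕ} {NdU NdW : ℕ → Prop} (HU : UCh U N NdU)
    (HW : UCh W N NdW) (h0 : U 0 = W 0) (hN : U N = W N) (hN0 : 0 < N) {i j k : ℕ} (hij : i < j)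
    (hjk : j < k) (hk : k < 2 * N) (hi : NdY NdU NdW N i) (hj : NdY NdU NdW N j)
    (hkk : NdY NdU NdW N k) : det3 (cyc U W N i) (cyc U W N j) (cyc U W N k) < 0 := by
  have ndW : ∀ x, N < x → x < 2 * N → NdY NdU NdW N x → NdW (2 * N - x) := by
    intro x hx hx2 h
    rcases h with h | h | h | h
    · omega
    · omega
    · omega
    · exact h.2.2
  have cU : ∀ x, x ≤ N → cyc U W N x = U x := fun x hx => by rw [cyc, if_pos hx]
  have cW : ∀ x, N < x → cyc U W N x = flip3 (W (2 * N - x)) := fun x hx => by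
    rw [cyc, if_neg (by omega)]
  have b0 := HU.br_pos 0 N hN0 le_rfl
  rcases Nat.lt_or_ge N k with hNk | hkN
  · rcases Nat.lt_or_ge N j with hNj | hjN
    · rcases Nat.lt_or_ge N i with hNi | hiN
      · -- all three in the lower chain
        rw [cW i hNi, cW j hNj, cW k hNk, Cyc_flip3]
        exact (HW.conc (by omega) (by omega) (by omega)).2 (ndW j hNj (by omega) hj)
      · -- `i ≤ N < j < k`
        rw [cU i hiN, cW j hNj, cW k hNk, Cyc_flip1]
        have e1 := Cyc_expand (W 0) (W N) (U i) (W (2 * N - k)) (W (2 * N - j)) HW.eta0 HW.etaN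
        have p1 : det3 (W (2 * N - k)) (W (2 * N - j)) (W 0) < 0 := by
          rw [Cyc_cyc]
          exact (HW.conc (by omega) (by omega) (by omega)).2 (ndW k hNk hk hkk)
        have p2 : det3 (W (2 * N - k)) (W (2 * N - j)) (W N) < 0 :=
          (HW.conc (by omega) (by omega) le_rfl).2 (ndW j hNj (by omega) hj)
        have p3 : 0 < br (W (2 * N - k)) (W (2 * N - j)) := HW.br_pos _ _ (by omega) (by omega)
        have p4 := HU.eta i hiN
        have p5 : 0 ≤ br (U i) (W N) ∧ 0 ≤ br (W 0) (U i) ∧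
            (0 < br (U i) (W N) ∨ 0 < br (W 0) (U i)) := by
          rcases Nat.eq_zero_or_pos i with rfl | hi0
          · have q1 : 0 < br (U 0) (W N) := by rw [← hN]; exact b0
            have q2 : br (W 0) (U 0) = 0 := by rw [h0]; simp only [br]; ring
            exact ⟨q1.le, q2.ge, Or.inl q1⟩
          · have q2 : 0 < br (W 0) (U i) := by
              rw [← h0]
              exact HU.br_pos 0 i hi0 hiN
            rcases Nat.eq_or_lt_of_le hiN with rfl | hiN'
            · have q1 : br (U i) (W i) = 0 := by rw [hN]; simp only [br]; ring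
              exact ⟨q1.ge, q2.le, Or.inr q2⟩
            · have q1 : 0 < br (U i) (W N) := by
                rw [← hN]
                exact HU.br_pos i N hiN' le_rfl
              exact ⟨q1.le, q2.le, Or.inl q1⟩
        have b0' : 0 < br (W 0) (W N) := by rw [← h0, ← hN]; exact b0
        obtain ⟨q1, q2, q3⟩ := p5
        by_contra hcon
        rw [not_lt] at hcon
        have r1 := mul_nonneg b0'.le hcon
        have r2 := mul_nonneg (mul_nonneg b0'.le p4) p3.le
        have r3 : br (U i) (W N) * det3 (W (2 * N - k)) (W (2 * N - j)) (W 0) ≤ 0 :=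
          mul_nonpos_of_nonneg_of_nonpos q1 p1.le
        have r4 : br (W 0) (U i) * det3 (W (2 * N - k)) (W (2 * N - j)) (W N) ≤ 0 :=
          mul_nonpos_of_nonneg_of_nonpos q2 p2.le
        rcases q3 with q | q
        · have := mul_neg_of_pos_of_neg q p1
          linarith
        · have := mul_neg_of_pos_of_neg q p2
          linarith
    · -- `j ≤ N < k`
      rw [cU i (by omega), cU j hjN, cW k hNk]
      have e1 := Cyc_expand (U 0) (U N) (W (2 * N - k)) (U i) (U j) HU.eta0 HU.etaN
      have p1 : det3 (U i) (U j) (U 0) ≤ 0 := by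
        rcases Nat.eq_zero_or_pos i with rfl | hi0
        · rw [(Cyc_rep _ _).1]
        · rw [Cyc_cyc]
          exact (HU.conc hi0 hij hjN).1
      have p2 : det3 (U i) (U j) (U N) ≤ 0 := by
        rcases Nat.eq_or_lt_of_le hjN with rfl | hjN'
        · rw [(Cyc_rep _ _).2]
        · exact (HU.conc hij hjN' le_rfl).1
      have p3 : 0 < br (U i) (U j) := HU.br_pos i j hij hjN
      have p4 : 0 < W (2 * N - k) 2 := HW.eta' _ (by omega) (by omega) (ndW k hNk hk hkk)
      have p5 : 0 < br (W (2 * N - k)) (U N) := by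
        rw [hN]
        exact HW.br_pos _ _ (by omega) le_rfl
      have p6 : 0 < br (U 0) (W (2 * N - k)) := by
        rw [h0]
        exact HW.br_pos _ _ (by omega) (by omega)
      by_contra hcon
      rw [not_lt] at hcon
      have r1 := mul_nonneg b0.le hcon
      have r2 := mul_pos (mul_pos b0 p4) p3
      have r3 : br (W (2 * N - k)) (U N) * det3 (U i) (U j) (U 0) ≤ 0 :=
        mul_nonpos_of_nonneg_of_nonpos p5.le p1
      have r4 : br (U 0) (W (2 * N - k)) * det3 (U i) (U j) (U N) ≤ 0 :=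
        mul_nonpos_of_nonneg_of_nonpos p6.le p2
      linarith
  · -- all three in the upper chain
    rw [cU i (by omega), cU j (by omega), cU k hkN]
    refine (HU.conc hij hjk hkN).2 ?_
    rcases hj with h | h | h | h
    · omega
    · omega
    · exact h.2.2
    · omega

end Pool.Agent.Ads89
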