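import Pool.Agent.W_2fbb77_h89.Mat

/-! # MP_2fbb77_gt: uniqueness of the decomposition

`kak_unique`.  The left side is `Rm (a - t₁) * Hm D * Rm t₂` (`Dm_Rm`, `Dm_Hm`, `Dm_Dm`, `Rm_mul`), so
`Rm (a - t₁ - u₁) * Hm D = ε • (Hm D' * Rm (b - t₂ - u₂))`.  With `α = (a - t₁ - u₁)/2`, `β = (b - t₂ - u₂)/2`
the entries give `e^{D/2} sin α = ε e^{-D'/2} sin β`, `e^{-D/2} sin α = ε e^{D'/2} sin β`, hence
`sin α = sin β = 0`, and `e^{D/2} cos α = ε e^{D'/2} cos β`, `cos α, cos β = ± 1`, so `D = D'`.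
`a - t₁ - u₁ ∈ (-π, 2π)` and `sin ((a - t₁ - u₁)/2) = 0` give `a = t₁ + u₁`, and the same for `b`. -/

set_option autoImplicit false

noncomputable section

namespace Pool.Agent.Ads89

open Real

theorem kak_unique {a b t₁ t₂ u₁ u₂ D D' ε : ℝ} (hD : 0 < D) (hD' : 0 < D')
    (ht₁ : 0 ≤ t₁ ∧ t₁ < π / 2) (ht₂ : 0 ≤ t₂ ∧ t₂ < π / 2) (hu₁ : 0 ≤ u₁ ∧ u₁ < π / 2)
    (hu₂ : 0 ≤ u₂ ∧ u₂ < π / 2) (ha : 0 ≤ a ∧ a < 2 * π) (hb : 0 ≤ b ∧ b < 2 * π)
    (hε : ε = 1 ∨ ε = -1)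
    (h : Rm a * (Dm * (Rm t₁ * Hm D * Rm (-t₂)) * Dm) = ε • (Rm u₁ * Hm D' * Rm (-u₂) * Rm b)) :
    D = D' ∧ a = t₁ + u₁ ∧ b = t₂ + u₂ := by
  have e1 : Dm * (Rm t₁ * Hm D * Rm (-t₂)) * Dm = Rm (-t₁) * Hm D * Rm t₂ := by
    have h1 : Dm * (Rm t₁ * Hm D * Rm (-t₂)) * Dm =
        (Dm * Rm t₁ * Dm) * (Dm * Hm D * Dm) * (Dm * Rm (-t₂) * Dm) := by
      have h2 : (Dm * Rm t₁ * Dm) * (Dm * Hm D * Dm) * (Dm * Rm (-t₂) * Dm) =
          Dm * Rm t₁ * (Dm * Dm) * Hm D * (Dm * Dm) * Rm (-t₂) * Dm := by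
        simp only [Matrix.mul_assoc]
      rw [h2, Dm_Dm]
      simp only [Matrix.mul_assoc, mul_one]
    rw [h1, Dm_Rm, Dm_Hm, Dm_Rm, neg_neg]
  rw [e1] at h
  -- multiply on the left by `Rm (-u₁)` and on the right by `Rm (-t₂)`
  have e2 : Rm (a - t₁ - u₁) * Hm D = ε • (Hm D' * Rm (b - t₂ - u₂)) := by
    have h3 : Rm (-u₁) * (Rm a * (Rm (-t₁) * Hm D * Rm t₂)) * Rm (-t₂) =
        Rm (-u₁) * (ε • (Rm u₁ * Hm D' * Rm (-u₂) * Rm b)) * Rm (-t₂) := by rw [h]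
    have h4 : Rm (-u₁) * (Rm a * (Rm (-t₁) * Hm D * Rm t₂)) * Rm (-t₂) =
        (Rm (-u₁) * Rm a * Rm (-t₁)) * Hm D * (Rm t₂ * Rm (-t₂)) := by
      simp only [Matrix.mul_assoc]
    have h5 : Rm (-u₁) * (ε • (Rm u₁ * Hm D' * Rm (-u₂) * Rm b)) * Rm (-t₂) =
        ε • ((Rm (-u₁) * Rm u₁) * Hm D' * (Rm (-u₂) * Rm b * Rm (-t₂))) := by
      rw [Matrix.mul_smul, Matrix.smul_mul]
      simp only [Matrix.mul_assoc]
    rw [h4, h5, Rm_mul, Rm_mul, Rm_mul, Rm_mul, Rm_mul, Rm_mul, add_neg_cancel, neg_add_cancel,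
      Rm_zero, one_mul, mul_one] at h3
    have h6 : -u₁ + a + -t₁ = a - t₁ - u₁ := by ring
    have h7 : -u₂ + b + -t₂ = b - t₂ - u₂ := by ring
    rw [h6, h7] at h3
    exact h3
  set α := (a - t₁ - u₁) / 2 with hα
  set β := (b - t₂ - u₂) / 2 with hβ
  have m00 := congrFun (congrFun e2 0) 0
  have m01 := congrFun (congrFun e2 0) 1
  have m10 := congrFun (congrFun e2 1) 0
  have m11 := congrFun (congrFun e2 1) 1
  simp [Rm, Hm, Matrix.mul_apply, Fin.sum_univ_two, ← hα, ← hβ] at m00 m01 m10 m11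
  have x1 : 0 < exp (D / 2) := exp_pos _
  have x2 : 0 < exp (-(D / 2)) := exp_pos _
  have y1 : 0 < exp (D' / 2) := exp_pos _
  have y2 : 0 < exp (-(D' / 2)) := exp_pos _
  have hε2 : ε * ε = 1 := by rcases hε with h | h <;> rw [h] <;> norm_num
  have hx : exp (D / 2) * exp (-(D / 2)) = 1 := by rw [← exp_add]; simp
  have hy : exp (D' / 2) * exp (-(D' / 2)) = 1 := by rw [← exp_add]; simp
  have x3 : 1 < exp (D / 2) := one_lt_exp_iff.2 (by linarith)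
  have y3 : 1 < exp (D' / 2) := one_lt_exp_iff.2 (by linarith)
  -- m10 : sin α e^{D/2} = ε e^{-D'/2} sin β ; m01 : -(sin α e^{-D/2}) = ε (-(e^{D'/2} sin β))
  have s1 : sin α * exp (D / 2) = ε * (exp (-(D' / 2)) * sin β) := m10
  have s2 : sin α * exp (-(D / 2)) = ε * (exp (D' / 2) * sin β) := by
    have : -(sin α * exp (-(D / 2))) = -(ε * (exp (D' / 2) * sin β)) := by
      rw [← mul_neg, ← mul_neg, ← neg_mul]
      simpa using m01
    linarith
  have c1 : cos α * exp (D / 2) = ε * (exp (D' / 2) * cos β) := m00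
  have c2 : cos α * exp (-(D / 2)) = ε * (exp (-(D' / 2)) * cos β) := m11
  have hsα : sin α = 0 := by
    have h8 : sin α * (exp (D / 2) * exp (D' / 2) - exp (-(D / 2)) * exp (-(D' / 2))) = 0 := by
      have h9 : sin α * exp (D / 2) * exp (D' / 2) = ε * sin β := by
        rw [s1]
        calc ε * (exp (-(D' / 2)) * sin β) * exp (D' / 2) =
            ε * sin β * (exp (D' / 2) * exp (-(D' / 2))) := by ring
          _ = ε * sin β := by rw [hy, mul_one]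
      have h10 : sin α * exp (-(D / 2)) * exp (-(D' / 2)) = ε * sin β := by
        rw [s2]
        calc ε * (exp (D' / 2) * sin β) * exp (-(D' / 2)) =
            ε * sin β * (exp (D' / 2) * exp (-(D' / 2))) := by ring
          _ = ε * sin β := by rw [hy, mul_one]
      linarith
    rcases mul_eq_zero.1 h8 with h9 | h9
    · exact h9
    · exfalso
      have h10 : 1 < exp (D / 2) * exp (D' / 2) := by nlinarith
      have h11 : exp (-(D / 2)) < 1 := by rw [exp_lt_one_iff]; linarith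
      have h12 : exp (-(D' / 2)) < 1 := by rw [exp_lt_one_iff]; linarith
      have h13 : exp (-(D / 2)) * exp (-(D' / 2)) < 1 := by nlinarith
      linarith
  have hsβ : sin β = 0 := by
    rw [hsα, zero_mul] at s1
    have h9 : ε ≠ 0 := by
      intro h0
      rw [h0] at hε2
      norm_num at hε2
    have := (mul_eq_zero.1 s1.symm).resolve_left h9
    exact (mul_eq_zero.1 this).resolve_left y2.ne'
  have hα2 := sin_sq_add_cos_sq α
  have hβ2 := sin_sq_add_cos_sq β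
  rw [hsα] at hα2
  rw [hsβ] at hβ2
  refine ⟨?_, ?_, ?_⟩
  · have h9 : exp (D / 2) ^ 2 = exp (D' / 2) ^ 2 := by
      have h10 : (cos α * exp (D / 2)) ^ 2 = (ε * (exp (D' / 2) * cos β)) ^ 2 := by rw [c1]
      have h11 : cos α ^ 2 = 1 := by nlinarith
      have h12 : cos β ^ 2 = 1 := by nlinarith
      have h13 : ε ^ 2 = 1 := by nlinarith
      calc exp (D / 2) ^ 2 = cos α ^ 2 * exp (D / 2) ^ 2 := by rw [h11, one_mul]
        _ = (cos α * exp (D / 2)) ^ 2 := by ring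
        _ = (ε * (exp (D' / 2) * cos β)) ^ 2 := h10
        _ = ε ^ 2 * exp (D' / 2) ^ 2 * cos β ^ 2 := by ring
        _ = exp (D' / 2) ^ 2 := by rw [h12, h13]; ring
    have h14 : exp (D / 2) = exp (D' / 2) := by
      have := (sq_eq_sq₀ x1.le y1.le).1 h9
      exact this
    have := exp_injective h14
    linarith
  · have h9 : α ∈ Set.Ioo (-π) π := by
      constructor
      · rw [hα]; linarith [pi_pos, ht₁.1, ht₁.2, hu₁.1, hu₁.2, ha.1, ha.2]
      · rw [hα]; linarith [pi_pos, ht₁.1, ht₁.2, hu₁.1, hu₁.2, ha.1, ha.2]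
    have := (sin_eq_zero_iff_of_lt_of_lt h9.1 h9.2).1 hsα
    rw [hα] at this
    linarith
  · have h9 : β ∈ Set.Ioo (-π) π := by
      constructor
      · rw [hβ]; linarith [pi_pos, ht₂.1, ht₂.2, hu₂.1, hu₂.2, hb.1, hb.2]
      · rw [hβ]; linarith [pi_pos, ht₂.1, ht₂.2, hu₂.1, hu₂.2, hb.1, hb.2]
    have := (sin_eq_zero_iff_of_lt_of_lt h9.1 h9.2).1 hsβ
    rw [hβ] at this
    linarith

end Pool.Agent.Ads89
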