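import Pool.Agent.W_2fbb77_h89.Kak
import Pool.Agent.W_2fbb77_h89.KakU
import Pool.Agent.W_2fbb77_h89.Conv
import Pool.Agent.W_2fbb77_h89.Cyc
import Pool.Agent.W_2fbb77_h89.Cauchy

/-! # MP_2fbb77_gt: the arm lemma

`Clos m l l' s s' a b`: a closed polygon in the anti-de Sitter plane: the upper path `Dm * Pf l s m * Dm`, the
lower path `Pf l' s' m` and two vertical sides of lengths `a`, `b`.

`arm`: for two such polygons with the same edge lengths, the cyclic sequence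
`armSeq`: `-(A - a)`, `S 0 - s 0, …, S (m-1) - s (m-1)`, `-(B - b)`, `S' (m-1) - s' (m-1), …, S' 0 - s' 0`
vanishes or has four alternating signs.

Proof.  `kak` for the upper and lower path of both polygons: `t₁ t₂ D` (upper), `u₁ u₂ Dl` (lower) for the first,
`T₁ T₂ D'`, `U₁ U₂ Dl'` for the second; `kak_unique`: `D = Dl`, `a = t₁ + u₁`, `b = t₂ + u₂`, `D' = Dl'`,
`A = T₁ + U₁`, `B = T₂ + U₂`.  So we have four `Ch`.  `sum_id` for the upper pair (`κ`) and the lower pair (`κ'`):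
`Σ κ n sinh ((S n - s n)/2) Uv n = ye t₂ T₂ D D' - y0 t₁ T₁`,
`Σ κ' n sinh ((S' n - s' n)/2) Uv' n = ye u₂ U₂ D D' - y0 u₁ U₁`.
Let `U = Uc` (upper), `W = Uc` (lower), `N = m + 1`, `Y = cyc U W N`.  Apply `flip3` to the second identity and add:
the coordinate `2` of the right sides cancels (`tanh`), and we get `Σ_{i < 2 N} ĉ i * Y i e = 0` with
`ĉ (n+1) = κ n sinh ((S n - s n)/2)`, `ĉ (2N - (n+1)) = κ' n sinh ((S' n - s' n)/2)`,
`ĉ 0 = -(tan ((T₁ - t₁)/2) + tan ((U₁ - u₁)/2))` (`y0 = - tan (..) • (1, -1, 0)`),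
`ĉ N = -(tan ((T₂ - t₂)/2) + tan ((U₂ - u₂)/2)) / cosh ((D' - D)/2)`.
`ĉ i` has the same sign as `armSeq i`: `sinh`, and `tan x + tan y = sin (x + y) / (cos x cos y)` with
`|x|, |y| < π/4`, `x + y = (A - a)/2`.
If `s, S, s', S'` all vanish (below `m`) then `ĉ` is zero except at `0` and `N`, and `ĉ 0 • (1, -1, 0) + ĉ N •
(-e^{-..}, e^{..}, 0) = 0` gives `ĉ = 0` (`e^{-x} ≠ e^{x}`, `x = (D + D')/2 > 0`).  Otherwise `0`, `N` and one more index
are in `NdY`; `uch`, `cyc_neg` and `cauchy` (with `n = 2 N`) apply. -/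

set_option autoImplicit false

noncomputable section

namespace Pool.Agent.Ads89

open Real

structure Clos (m : ℕ) (l l' s s' : ℕ → ℝ) (a b : ℝ) : Prop where
  hl : ∀ n ≤ m, 0 < l n
  hl' : ∀ n ≤ m, 0 < l' n
  hs : ∀ n < m, 0 ≤ s n
  hs' : ∀ n < m, 0 ≤ s' n
  ha : 0 ≤ a ∧ a < 2 * π
  hb : 0 ≤ b ∧ b < 2 * π
  eq : ∃ ε : ℝ, (ε = 1 ∨ ε = -1) ∧ Rm a * (Dm * Pf l s m * Dm) = ε • (Pf l' s' m * Rm b)

/-- The cyclic sequence (indices `0, …, 2m + 1`): left wall, upper bends, right wall, lower bends in reversed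
order. -/
def armSeq (m : ℕ) (x y : ℝ) (d d' : ℕ → ℝ) (i : ℕ) : ℝ :=
  if i = 0 then x else if i ≤ m then d (i - 1) else if i = m + 1 then y else d' (2 * m + 1 - i)

/-- `x` and `y` have the same sign -/
private def Arm_SS (x y : ℝ) : Prop := (0 < x ↔ 0 < y) ∧ (x < 0 ↔ y < 0)

private theorem Arm_SS_mul {x y x' y' : ℝ} (h : Arm_SS x y) (h' : Arm_SS x' y')
    (hx : x * x' < 0) : y * y' < 0 := by
  rcases mul_neg_iff.1 hx with ⟨h1, h2⟩ | ⟨h1, h2⟩
  · exact mul_neg_of_pos_of_neg (h.1.1 h1) (h'.2.1 h2)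
  · exact mul_neg_of_neg_of_pos (h.2.1 h1) (h'.1.1 h2)

private theorem Arm_SS_zero {x y : ℝ} (h : Arm_SS x y) (hx : x = 0) : y = 0 := by
  subst hx
  rcases lt_trichotomy y 0 with h1 | h1 | h1
  · exact absurd (h.2.2 h1) (lt_irrefl _)
  · exact h1
  · exact absurd (h.1.2 h1) (lt_irrefl _)

private theorem Arm_SS_sinh {κ : ℝ} (hκ : 0 < κ) (x : ℝ) : Arm_SS (κ * sinh (x / 2)) x := by
  constructor
  · rw [mul_pos_iff_of_pos_left hκ, sinh_pos_iff]
    constructor <;> intro h <;> linarith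
  · rw [← neg_pos, ← mul_neg, ← sinh_neg, mul_pos_iff_of_pos_left hκ, sinh_pos_iff]
    constructor <;> intro h <;> linarith

private theorem Arm_tan {x y : ℝ} (hx : |x| < π / 2) (hy : |y| < π / 2) :
    (0 < tan x + tan y ↔ 0 < x + y) ∧ (tan x + tan y < 0 ↔ x + y < 0) := by
  obtain ⟨hx1, hx2⟩ := abs_lt.1 hx
  obtain ⟨hy1, hy2⟩ := abs_lt.1 hy
  have h1 : tan (-y) < tan x ↔ -y < x :=
    strictMonoOn_tan.lt_iff_lt ⟨by linarith, by linarith⟩ ⟨hx1, hx2⟩
  have h2 : tan x < tan (-y) ↔ x < -y :=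
    strictMonoOn_tan.lt_iff_lt ⟨hx1, hx2⟩ ⟨by linarith, by linarith⟩
  rw [tan_neg] at h1 h2
  constructor
  · constructor
    · intro h
      have := h1.1 (by linarith)
      linarith
    · intro h
      have := h1.2 (by linarith)
      linarith
  · constructor
    · intro h
      have := h2.1 (by linarith)
      linarith
    · intro h
      have := h2.2 (by linarith)
      linarith

private theorem Arm_SS_wall {x y z w r : ℝ} (hx : |x| < π / 2) (hy : |y| < π / 2)
    (hr : 0 < r) (hw : w = -(2 * (x + y))) (hz : z = -(tan x + tan y) / r) : Arm_SS z w := by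
  obtain ⟨h1, h2⟩ := Arm_tan hx hy
  subst hw hz
  constructor
  · rw [lt_div_iff₀ hr, zero_mul, neg_pos, neg_pos, h2]
    constructor <;> intro h <;> linarith
  · rw [div_lt_iff₀ hr, zero_mul, neg_lt_zero, neg_lt_zero, h1]
    constructor <;> intro h <;> linarith

private theorem Arm_sum (m : ℕ) (f : ℕ → ℝ) : ∑ i ∈ Finset.range (2 * (m + 1)), f i =
    f 0 + ∑ n ∈ Finset.range m, f (n + 1) + f (m + 1) +
      ∑ n ∈ Finset.range m, f (2 * (m + 1) - (n + 1)) := by
  have h1 : 2 * (m + 1) = (m + 1) + (m + 1) := by ring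
  have h2 : ∑ n ∈ Finset.range m, f (2 * (m + 1) - (n + 1)) =
      ∑ n ∈ Finset.range m, f (m + 1 + (n + 1)) := by
    rw [← Finset.sum_range_reflect]
    refine Finset.sum_congr rfl fun n hn => ?_
    have := Finset.mem_range.1 hn
    congr 1
    omega
  rw [h2, h1, Finset.sum_range_add, Finset.sum_range_succ', Finset.sum_range_succ' _ m]
  simp only [add_zero]
  ring

private theorem Arm_flip (a : Fin 3 → ℝ) (e : Fin 3) :
    flip3 a e = (![1, 1, -1] : Fin 3 → ℝ) e * a e := by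
  unfold flip3
  fin_cases e <;> simp

private theorem Arm_chain {m : ℕ} {l l' s s' : ℕ → ℝ} {a b : ℝ} (h : Clos m l l' s s' a b) :
    ∃ t₁ t₂ u₁ u₂ D : ℝ, Ch l s m t₁ t₂ D ∧ Ch l' s' m u₁ u₂ D ∧ a = t₁ + u₁ ∧ b = t₂ + u₂ := by
  obtain ⟨t₁, t₂, D, a1, a2, a3, a4, hD, hP⟩ := kak l s m h.hl h.hs
  obtain ⟨u₁, u₂, D', b1, b2, b3, b4, hD', hP'⟩ := kak l' s' m h.hl' h.hs'
  obtain ⟨ε, hε, heq⟩ := h.eq
  rw [hP, hP'] at heq
  obtain ⟨e1, e2, e3⟩ := kak_unique hD hD' ⟨a1, a2⟩ ⟨a3, a4⟩ ⟨b1, b2⟩ ⟨b3, b4⟩ h.ha h.hb hε heq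
  subst e1
  exact ⟨t₁, t₂, u₁, u₂, D, ⟨h.hl, h.hs, ⟨a1, a2⟩, ⟨a3, a4⟩, hD, hP⟩,
    ⟨h.hl', h.hs', ⟨b1, b2⟩, ⟨b3, b4⟩, hD', hP'⟩, e2, e3⟩

theorem arm {m : ℕ} {l l' s s' S S' : ℕ → ℝ} {a b A B : ℝ} (h : Clos m l l' s s' a b)
    (H : Clos m l l' S S' A B) (q : ℕ → ℝ)
    (hq : q = armSeq m (-(A - a)) (-(B - b)) (fun n => S n - s n) (fun n => S' n - s' n)) :
    (∀ i < 2 * m + 2, q i = 0) ∨ ∃ i₁ i₂ i₃ i₄, i₁ < i₂ ∧ i₂ < i₃ ∧ i₃ < i₄ ∧ i₄ < 2 * m + 2 ∧
      q i₁ * q i₂ < 0 ∧ q i₂ * q i₃ < 0 ∧ q i₃ * q i₄ < 0 := by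
  obtain ⟨t₁, t₂, u₁, u₂, D, C1, C2, ha, hb⟩ := Arm_chain h
  obtain ⟨T₁, T₂, U₁, U₂, D', C1', C2', hA, hB⟩ := Arm_chain H
  obtain ⟨κ, hκ, hsum1⟩ := sum_id C1 C1'
  obtain ⟨κ', hκ', hsum2⟩ := sum_id C2 C2'
  have hrD : 0 < cosh ((D' - D) / 2) := cosh_pos _
  set c0 := -(tan ((T₁ - t₁) / 2) + tan ((U₁ - u₁) / 2)) with hc0
  set cN := -(tan ((T₂ - t₂) / 2) + tan ((U₂ - u₂) / 2)) / cosh ((D' - D) / 2) with hcN
  set c : ℕ → ℝ := armSeq m c0 cN (fun n => κ n * sinh ((S n - s n) / 2))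
    (fun n => κ' n * sinh ((S' n - s' n) / 2)) with hc
  set U := Uc t₁ T₁ l s S m D D' with hU
  set W := Uc u₁ U₁ l' s' S' m D D' with hW
  set Y := cyc U W (m + 1) with hY
  have hc_0 : c 0 = c0 := by
    rw [hc]
    unfold armSeq
    rw [if_pos rfl]
  have hc_up : ∀ n, n < m → c (n + 1) = κ n * sinh ((S n - s n) / 2) := by
    intro n hn
    rw [hc]
    unfold armSeq
    rw [if_neg (by omega), if_pos (by omega), Nat.add_sub_cancel]
  have hc_N : c (m + 1) = cN := by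
    rw [hc]
    unfold armSeq
    rw [if_neg (by omega), if_neg (by omega), if_pos rfl]
  have hc_lo : ∀ n, n < m → c (2 * (m + 1) - (n + 1)) = κ' n * sinh ((S' n - s' n) / 2) := by
    intro n hn
    rw [hc]
    unfold armSeq
    rw [if_neg (by omega), if_neg (by omega), if_neg (by omega)]
    have : 2 * m + 1 - (2 * (m + 1) - (n + 1)) = n := by omega
    rw [this]
  have hU0 : U 0 = ![1, -1, 0] := by
    rw [hU]
    unfold Uc
    rw [if_pos rfl]
  have hW0 : W 0 = ![1, -1, 0] := by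
    rw [hW]
    unfold Uc
    rw [if_pos rfl]
  have hUi : ∀ n, n < m → U (n + 1) = Uv t₁ T₁ l s S n := by
    intro n hn
    rw [hU]
    unfold Uc
    rw [if_neg (by omega), if_pos (by omega), Nat.add_sub_cancel]
  have hWi : ∀ n, n < m → W (n + 1) = Uv u₁ U₁ l' s' S' n := by
    intro n hn
    rw [hW]
    unfold Uc
    rw [if_neg (by omega), if_pos (by omega), Nat.add_sub_cancel]
  have hUN : U (m + 1) = ![-exp (-((D + D') / 2)), exp ((D + D') / 2), 0] := by
    rw [hU]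
    unfold Uc
    rw [if_neg (by omega), if_neg (by omega)]
  have hWN : W (m + 1) = ![-exp (-((D + D') / 2)), exp ((D + D') / 2), 0] := by
    rw [hW]
    unfold Uc
    rw [if_neg (by omega), if_neg (by omega)]
  have hY0 : Y 0 = ![1, -1, 0] := by
    rw [hY]
    unfold cyc
    rw [if_pos (by omega), hU0]
  have hYup : ∀ n, n < m → Y (n + 1) = Uv t₁ T₁ l s S n := by
    intro n hn
    rw [hY]
    unfold cyc
    rw [if_pos (by omega), hUi n hn]
  have hYN : Y (m + 1) = ![-exp (-((D + D') / 2)), exp ((D + D') / 2), 0] := by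
    rw [hY]
    unfold cyc
    rw [if_pos le_rfl, hUN]
  have hYlo : ∀ n, n < m → Y (2 * (m + 1) - (n + 1)) = flip3 (Uv u₁ U₁ l' s' S' n) := by
    intro n hn
    rw [hY]
    unfold cyc
    rw [if_neg (by omega)]
    have : 2 * (m + 1) - (2 * (m + 1) - (n + 1)) = n + 1 := by omega
    rw [this, hWi n hn]
  -- the linear relation
  have hsum : ∀ e : Fin 3, ∑ i ∈ Finset.range (2 * (m + 1)), c i * Y i e = 0 := by
    intro e
    rw [Arm_sum m (fun i => c i * Y i e)]
    have e1 : ∑ n ∈ Finset.range m, c (n + 1) * Y (n + 1) e =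
        ye t₂ T₂ D D' e - y0 t₁ T₁ e := by
      rw [← hsum1 e]
      refine Finset.sum_congr rfl fun n hn => ?_
      rw [hc_up n (Finset.mem_range.1 hn), hYup n (Finset.mem_range.1 hn)]
    have e2 : ∑ n ∈ Finset.range m, c (2 * (m + 1) - (n + 1)) * Y (2 * (m + 1) - (n + 1)) e =
        (![1, 1, -1] : Fin 3 → ℝ) e * (ye u₂ U₂ D D' e - y0 u₁ U₁ e) := by
      rw [← hsum2 e, Finset.mul_sum]
      refine Finset.sum_congr rfl fun n hn => ?_
      rw [hc_lo n (Finset.mem_range.1 hn), hYlo n (Finset.mem_range.1 hn), Arm_flip]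
      ring
    rw [e1, e2, hc_0, hc_N, hY0, hYN, hc0, hcN]
    unfold ye y0
    fin_cases e
    · simp
      ring
    · simp
      ring
    · simp
  -- signs
  have hpi := pi_pos
  have hab : ∀ {x y : ℝ}, 0 ≤ x ∧ x < π / 2 → 0 ≤ y ∧ y < π / 2 → |(x - y) / 2| < π / 2 := by
    intro x y hx hy
    rw [abs_lt]
    constructor <;> linarith
  have hSS : ∀ i, i < 2 * m + 2 → Arm_SS (c i) (q i) := by
    intro i hi
    rcases Nat.eq_zero_or_pos i with h0 | h0
    · subst h0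
      have hq0 : q 0 = -(A - a) := by
        rw [hq]
        unfold armSeq
        rw [if_pos rfl]
      rw [hc_0]
      refine Arm_SS_wall (hab C1'.ht₁ C1.ht₁) (hab C2'.ht₁ C2.ht₁) one_pos ?_ (div_one _).symm
      rw [hq0, ha, hA]
      ring
    · rcases lt_trichotomy i (m + 1) with h1 | h1 | h1
      · obtain ⟨n, rfl⟩ : ∃ n, i = n + 1 := ⟨i - 1, by omega⟩
        have hq0 : q (n + 1) = S n - s n := by
          rw [hq]
          unfold armSeq
          rw [if_neg (by omega), if_pos (by omega), Nat.add_sub_cancel]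
        rw [hc_up n (by omega), hq0]
        exact Arm_SS_sinh (hκ n (by omega)) _
      · subst h1
        have hq0 : q (m + 1) = -(B - b) := by
          rw [hq]
          unfold armSeq
          rw [if_neg (by omega), if_neg (by omega), if_pos rfl]
        rw [hc_N]
        refine Arm_SS_wall (hab C1'.ht₂ C1.ht₂) (hab C2'.ht₂ C2.ht₂) hrD ?_ rfl
        rw [hq0, hb, hB]
        ring
      · obtain ⟨n, hn, rfl⟩ : ∃ n, n < m ∧ i = 2 * (m + 1) - (n + 1) :=
          ⟨2 * m + 1 - i, by omega, by omega⟩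
        have hq0 : q (2 * (m + 1) - (n + 1)) = S' n - s' n := by
          rw [hq]
          unfold armSeq
          rw [if_neg (by omega), if_neg (by omega), if_neg (by omega)]
          have : 2 * m + 1 - (2 * (m + 1) - (n + 1)) = n := by omega
          rw [this]
        rw [hc_lo n hn, hq0]
        exact Arm_SS_sinh (hκ' n hn) _
  by_cases hall : ∀ i < 2 * m + 2, c i = 0
  · exact Or.inl fun i hi => Arm_SS_zero (hSS i hi) (hall i hi)
  · right
    push Not at hall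
    have hM : 0 < (D + D') / 2 := by
      have := C1.hD
      have := C1'.hD
      linarith
    have heM : exp (-((D + D') / 2)) < exp ((D + D') / 2) := exp_lt_exp.2 (by linarith)
    -- a nondegenerate index
    have hnd : ∃ n, n < m ∧ ((0 < s n ∨ 0 < S n) ∨ (0 < s' n ∨ 0 < S' n)) := by
      by_contra hcon
      push Not at hcon
      have hz : ∀ n, n < m → s n = 0 ∧ S n = 0 ∧ s' n = 0 ∧ S' n = 0 := by
        intro n hn
        obtain ⟨⟨g1, g2⟩, g3, g4⟩ := hcon n hn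
        exact ⟨le_antisymm g1 (h.hs n hn), le_antisymm g2 (H.hs n hn),
          le_antisymm g3 (h.hs' n hn), le_antisymm g4 (H.hs' n hn)⟩
      have hup0 : ∀ n, n < m → c (n + 1) = 0 := by
        intro n hn
        obtain ⟨g1, g2, _, _⟩ := hz n hn
        rw [hc_up n hn, g1, g2]
        simp
      have hlo0 : ∀ n, n < m → c (2 * (m + 1) - (n + 1)) = 0 := by
        intro n hn
        obtain ⟨_, _, g1, g2⟩ := hz n hn
        rw [hc_lo n hn, g1, g2]
        simp
      have hrel : ∀ e : Fin 3, c0 * (![1, -1, 0] : Fin 3 → ℝ) e +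
          cN * (![-exp (-((D + D') / 2)), exp ((D + D') / 2), 0] : Fin 3 → ℝ) e = 0 := by
        intro e
        have h1 := hsum e
        rw [Arm_sum m (fun i => c i * Y i e)] at h1
        have e1 : ∑ n ∈ Finset.range m, c (n + 1) * Y (n + 1) e = 0 :=
          Finset.sum_eq_zero fun n hn => by rw [hup0 n (Finset.mem_range.1 hn), zero_mul]
        have e2 : ∑ n ∈ Finset.range m, c (2 * (m + 1) - (n + 1)) *
            Y (2 * (m + 1) - (n + 1)) e = 0 :=
          Finset.sum_eq_zero fun n hn => by rw [hlo0 n (Finset.mem_range.1 hn), zero_mul]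
        rw [e1, e2, hc_0, hc_N, hY0, hYN] at h1
        linarith
      have r0 : c0 * 1 + cN * -exp (-((D + D') / 2)) = 0 := by simpa using hrel 0
      have r1 : c0 * (-1) + cN * exp ((D + D') / 2) = 0 := by simpa using hrel 1
      have r2 : cN * (exp ((D + D') / 2) - exp (-((D + D') / 2))) = 0 := by linarith
      have r3 : cN = 0 := by
        rcases mul_eq_zero.1 r2 with h1 | h1
        · exact h1
        · linarith
      have r4 : c0 = 0 := by
        rw [r3] at r0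
        linarith
      obtain ⟨i, hi, hne⟩ := hall
      apply hne
      rcases Nat.eq_zero_or_pos i with h0 | h0
      · subst h0
        rw [hc_0, r4]
      · rcases lt_trichotomy i (m + 1) with h1 | h1 | h1
        · obtain ⟨n, rfl⟩ : ∃ n, i = n + 1 := ⟨i - 1, by omega⟩
          exact hup0 n (by omega)
        · subst h1
          rw [hc_N, r3]
        · obtain ⟨n, hn, rfl⟩ : ∃ n, n < m ∧ i = 2 * (m + 1) - (n + 1) :=
            ⟨2 * m + 1 - i, by omega, by omega⟩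
          exact hlo0 n hn
    set NdU : ℕ → Prop := fun n => 0 < s (n - 1) ∨ 0 < S (n - 1) with hNdU
    set NdW : ℕ → Prop := fun n => 0 < s' (n - 1) ∨ 0 < S' (n - 1) with hNdW
    have HU : UCh U (m + 1) NdU := uch C1 C1'
    have HW : UCh W (m + 1) NdW := uch C2 C2'
    have hd : ∀ i j k, i < j → j < k → k < 2 * (m + 1) → NdY NdU NdW (m + 1) i →
        NdY NdU NdW (m + 1) j → NdY NdU NdW (m + 1) k → det3 (Y i) (Y j) (Y k) < 0 :=
      fun i j k hij hjk hk hi hj hkk =>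
        cyc_neg HU HW (by rw [hU0, hW0]) (by rw [hUN, hWN]) (Nat.succ_pos m) hij hjk hk hi hj hkk
    have hcz : ∀ i < 2 * (m + 1), ¬ NdY NdU NdW (m + 1) i → c i = 0 := by
      intro i hi hnd'
      unfold NdY at hnd'
      push Not at hnd'
      obtain ⟨n1, n2, n3, n4⟩ := hnd'
      rcases lt_trichotomy i (m + 1) with h1 | h1 | h1
      · obtain ⟨n, rfl⟩ : ∃ n, i = n + 1 := ⟨i - 1, by omega⟩
        have g := n3 (by omega) h1
        simp only [hNdU, Nat.add_sub_cancel, not_or, not_lt] at g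
        rw [hc_up n (by omega), le_antisymm g.1 (h.hs n (by omega)),
          le_antisymm g.2 (H.hs n (by omega))]
        simp
      · exact absurd h1 n2
      · obtain ⟨n, hn, rfl⟩ : ∃ n, n < m ∧ i = 2 * (m + 1) - (n + 1) :=
          ⟨2 * m + 1 - i, by omega, by omega⟩
        have g := n4 h1 hi
        have g0 : 2 * (m + 1) - (2 * (m + 1) - (n + 1)) = n + 1 := by omega
        rw [g0] at g
        simp only [hNdW, Nat.add_sub_cancel, not_or, not_lt] at g
        rw [hc_lo n hn, le_antisymm g.1 (h.hs' n hn), le_antisymm g.2 (H.hs' n hn)]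
        simp
    have h3 : ∃ i j k, i < j ∧ j < k ∧ k < 2 * (m + 1) ∧ NdY NdU NdW (m + 1) i ∧
        NdY NdU NdW (m + 1) j ∧ NdY NdU NdW (m + 1) k := by
      obtain ⟨n, hn, hor⟩ := hnd
      have z0 : NdY NdU NdW (m + 1) 0 := Or.inl rfl
      have zN : NdY NdU NdW (m + 1) (m + 1) := Or.inr (Or.inl rfl)
      rcases hor with hor | hor
      · refine ⟨0, n + 1, m + 1, by omega, by omega, by omega, z0, ?_, zN⟩
        refine Or.inr (Or.inr (Or.inl ⟨by omega, by omega, ?_⟩))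
        show 0 < s (n + 1 - 1) ∨ 0 < S (n + 1 - 1)
        rwa [Nat.add_sub_cancel]
      · refine ⟨0, m + 1, 2 * (m + 1) - (n + 1), by omega, by omega, by omega, z0, zN, ?_⟩
        refine Or.inr (Or.inr (Or.inr ⟨by omega, by omega, ?_⟩))
        have g0 : 2 * (m + 1) - (2 * (m + 1) - (n + 1)) = n + 1 := by omega
        rw [g0]
        show 0 < s' (n + 1 - 1) ∨ 0 < S' (n + 1 - 1)
        rwa [Nat.add_sub_cancel]
    have h2m : 2 * (m + 1) = 2 * m + 2 := by ring
    obtain ⟨i₁, i₂, i₃, i₄, g1, g2, g3, g4, g5, g6, g7⟩ :=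
      cauchy (2 * (m + 1)) Y (NdY NdU NdW (m + 1)) hd c hcz h3 hsum (by rw [h2m]; exact hall)
    rw [h2m] at g4
    exact ⟨i₁, i₂, i₃, i₄, g1, g2, g3, g4,
      Arm_SS_mul (hSS _ (by omega)) (hSS _ (by omega)) g5,
      Arm_SS_mul (hSS _ (by omega)) (hSS _ (by omega)) g6,
      Arm_SS_mul (hSS _ (by omega)) (hSS _ (by omega)) g7⟩

end Pool.Agent.Ads89
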