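import Pool.Agent.W_2fbb77_h89.Jump

/-! # MP_2fbb77_gt: averaging of two chains, the sum

`sum_id`: telescope `jump` for `Q = Qc t₁ l s n`, `G = Qc T₁ l S n`; `yv (Q * Hm l) (G * Hm l) = yv Q G`;
`κ n = 1 / (2 hc hc')`, positive by `Pos.trace_pos` (`Ch.Qc_pos`, `Ch.Ec_pos`).  Start: `Ec 0 = Rm (-t₁)`,
`Rm (-T₁) * Rm t₁ = Rm (-(T₁ - t₁))`.  End: `Ch.Qc_last`:
`c = Hm D' * Rm (-(T₂ - t₂)) * Hm (-D)`, with half trace `cos φ * cosh ((D'-D)/2)`, `φ = (T₂ - t₂)/2`, and entries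
`c 0 1 = sin φ * exp ((D+D')/2)`, `c 1 0 = - sin φ * exp (-(D+D')/2)`,
`(c 0 0 - c 1 1)/2 = cos φ * sinh ((D'-D)/2)`. -/

set_option autoImplicit false

noncomputable section

namespace Pool.Agent.Ads89

open Real

/-- Sum of the positions of the vertex `n` in the two chains. -/
def Uv (t T : ℝ) (l s S : ℕ → ℝ) (n : ℕ) : Fin 3 → ℝ :=
  vec (cj (Qc t l s n) Xm) + vec (cj (Qc T l S n) Xm)

def y0 (t₁ T₁ : ℝ) : Fin 3 → ℝ := ![-tan ((T₁ - t₁) / 2), tan ((T₁ - t₁) / 2), 0]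

def ye (t₂ T₂ D D' : ℝ) : Fin 3 → ℝ :=
  ![-(tan ((T₂ - t₂) / 2) / cosh ((D' - D) / 2)) * exp (-((D + D') / 2)),
    tan ((T₂ - t₂) / 2) / cosh ((D' - D) / 2) * exp ((D + D') / 2), tanh ((D' - D) / 2)]

private theorem avg_mul (t T : ℝ) (l s S : ℕ → ℝ) (n : ℕ) :
    Qc T l S n * (Qc t l s n).adjugate = Ec T l S n * (Ec t l s n).adjugate := by
  rw [Qc, Qc, Matrix.adjugate_mul_distrib, Matrix.mul_assoc, ← Matrix.mul_assoc (Hm (l n)),
    adj_Hm, Hm_mul, add_neg_cancel, Hm_zero, one_mul]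

private theorem avg_hc (t T : ℝ) (l s S : ℕ → ℝ) (n : ℕ) :
    hc (Qc t l s n) (Qc T l S n) = hc (Ec t l s n) (Ec T l S n) := by
  unfold hc
  rw [avg_mul]

private theorem avg_yv (t T : ℝ) (l s S : ℕ → ℝ) (n : ℕ) :
    yv (Qc t l s n) (Qc T l S n) = yv (Ec t l s n) (Ec T l S n) := by
  unfold yv
  rw [avg_hc, avg_mul]

private theorem avg_start (t T : ℝ) (l s S : ℕ → ℝ) :
    yv (Ec t l s 0) (Ec T l S 0) = y0 t T := by
  have h1 : Ec T l S 0 * (Ec t l s 0).adjugate = Rm (t - T) := by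
    rw [Ec_zero, Ec_zero, adj_Rm, neg_neg, Rm_mul]
    congr 1
    ring
  have h2 : (t - T) / 2 = -((T - t) / 2) := by ring
  have e00 : (Rm (t - T)) 0 0 = cos ((T - t) / 2) := by simp [Rm, h2]
  have e01 : (Rm (t - T)) 0 1 = sin ((T - t) / 2) := by simp [Rm, h2]
  have e10 : (Rm (t - T)) 1 0 = -sin ((T - t) / 2) := by simp [Rm, h2]
  have e11 : (Rm (t - T)) 1 1 = cos ((T - t) / 2) := by simp [Rm, h2]
  have h3 : hc (Ec t l s 0) (Ec T l S 0) = cos ((T - t) / 2) := by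
    unfold hc
    rw [h1, e00, e11]
    ring
  unfold yv y0
  rw [h3, h1, e00, e01, e10, e11, tan_eq_sin_div_cos, sub_self, zero_div, zero_div, neg_div]

private theorem avg_end {l s S : ℕ → ℝ} {m : ℕ} {t₁ t₂ D T₁ T₂ D' : ℝ} (H : Ch l s m t₁ t₂ D)
    (H' : Ch l S m T₁ T₂ D') : yv (Qc t₁ l s m) (Qc T₁ l S m) = ye t₂ T₂ D D' := by
  have h1 : Qc T₁ l S m * (Qc t₁ l s m).adjugate = Hm D' * Rm (t₂ - T₂) * Hm (-D) := by
    rw [H.Qc_last, H'.Qc_last, Matrix.adjugate_mul_distrib, adj_Rm, adj_Hm, neg_neg,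
      Matrix.mul_assoc, ← Matrix.mul_assoc (Rm (-T₂)), Rm_mul, ← Matrix.mul_assoc]
    congr 3
    ring
  have h2 : (t₂ - T₂) / 2 = -((T₂ - t₂) / 2) := by ring
  have x1 : exp (D' / 2) * exp (-(D / 2)) = exp ((D' - D) / 2) := by
    rw [← exp_add]
    ring_nf
  have x2 : exp (D' / 2) * exp (D / 2) = exp ((D + D') / 2) := by
    rw [← exp_add]
    ring_nf
  have x3 : exp (-(D' / 2)) * exp (-(D / 2)) = exp (-((D + D') / 2)) := by
    rw [← exp_add]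
    ring_nf
  have x4 : exp (-(D' / 2)) * exp (D / 2) = exp (-((D' - D) / 2)) := by
    rw [← exp_add]
    ring_nf
  have e00 : (Hm D' * Rm (t₂ - T₂) * Hm (-D)) 0 0 =
      cos ((T₂ - t₂) / 2) * exp ((D' - D) / 2) := by
    rw [← x1]
    simp [Hm, Rm, Matrix.mul_apply, Fin.sum_univ_two, h2, neg_div]
    ring
  have e01 : (Hm D' * Rm (t₂ - T₂) * Hm (-D)) 0 1 =
      sin ((T₂ - t₂) / 2) * exp ((D + D') / 2) := by
    rw [← x2]
    simp [Hm, Rm, Matrix.mul_apply, Fin.sum_univ_two, h2, neg_div]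
    ring
  have e10 : (Hm D' * Rm (t₂ - T₂) * Hm (-D)) 1 0 =
      -(sin ((T₂ - t₂) / 2) * exp (-((D + D') / 2))) := by
    rw [← x3]
    simp [Hm, Rm, Matrix.mul_apply, Fin.sum_univ_two, h2, neg_div]
    ring
  have e11 : (Hm D' * Rm (t₂ - T₂) * Hm (-D)) 1 1 =
      cos ((T₂ - t₂) / 2) * exp (-((D' - D) / 2)) := by
    rw [← x4]
    simp [Hm, Rm, Matrix.mul_apply, Fin.sum_univ_two, h2, neg_div]
    ring
  have hcos : 0 < cos ((T₂ - t₂) / 2) := by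
    have a1 := H.ht₂.1
    have a2 := H.ht₂.2
    have a3 := H'.ht₂.1
    have a4 := H'.ht₂.2
    exact cos_pos_of_mem_Ioo ⟨by linarith [pi_pos], by linarith [pi_pos]⟩
  have hcosh : 0 < cosh ((D' - D) / 2) := cosh_pos _
  have h3 : hc (Qc t₁ l s m) (Qc T₁ l S m) = cos ((T₂ - t₂) / 2) * cosh ((D' - D) / 2) := by
    unfold hc
    rw [h1, e00, e11, cosh_eq]
    ring
  unfold yv ye
  rw [h3, h1, e00, e01, e10, e11, tan_eq_sin_div_cos, tanh_eq_sinh_div_cosh]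
  have hs : (cos ((T₂ - t₂) / 2) * exp ((D' - D) / 2) -
      cos ((T₂ - t₂) / 2) * exp (-((D' - D) / 2))) / 2 =
      cos ((T₂ - t₂) / 2) * sinh ((D' - D) / 2) := by
    rw [sinh_eq]
    ring
  rw [hs, mul_div_mul_left _ _ hcos.ne']
  congr 1
  · field_simp
  · congr 1
    field_simp

theorem sum_id {l s S : ℕ → ℝ} {m : ℕ} {t₁ t₂ D T₁ T₂ D' : ℝ} (H : Ch l s m t₁ t₂ D)
    (H' : Ch l S m T₁ T₂ D') : ∃ κ : ℕ → ℝ, (∀ n < m, 0 < κ n) ∧ ∀ e : Fin 3,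
      ∑ n ∈ Finset.range m, κ n * sinh ((S n - s n) / 2) * Uv t₁ T₁ l s S n e =
        ye t₂ T₂ D D' e - y0 t₁ T₁ e := by
  have hQ : ∀ n ≤ m, 0 < hc (Qc t₁ l s n) (Qc T₁ l S n) := fun n hn => by
    unfold hc
    linarith [Pos.trace_pos (H.Qc_pos hn) (H'.Qc_pos hn)]
  have hE : ∀ n ≤ m, 0 < hc (Ec t₁ l s n) (Ec T₁ l S n) := fun n hn => by
    unfold hc
    linarith [Pos.trace_pos (H.Ec_pos hn) (H'.Ec_pos hn)]
  refine ⟨fun n => 1 / (2 * hc (Qc t₁ l s n) (Qc T₁ l S n) *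
    hc (Ec t₁ l s (n + 1)) (Ec T₁ l S (n + 1))), ?_, ?_⟩
  · intro n hn
    have h1 := hQ n hn.le
    have h2 := hE (n + 1) hn
    positivity
  · intro e
    have h1 : ∀ n ∈ Finset.range m, 1 / (2 * hc (Qc t₁ l s n) (Qc T₁ l S n) *
        hc (Ec t₁ l s (n + 1)) (Ec T₁ l S (n + 1))) * sinh ((S n - s n) / 2) *
        Uv t₁ T₁ l s S n e =
        yv (Ec t₁ l s (n + 1)) (Ec T₁ l S (n + 1)) e - yv (Ec t₁ l s n) (Ec T₁ l S n) e := by
      intro n hn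
      rw [Finset.mem_range] at hn
      have h2 := hQ n hn.le
      have h3 := hE (n + 1) hn
      rw [Ec_succ, Ec_succ] at h3
      have h4 := jump (det_Qc t₁ l s n) (det_Qc T₁ l S n) (s n) (S n) h2.ne' h3.ne' e
      rw [Ec_succ, Ec_succ, h4, avg_yv]
      unfold Uv
      rw [Pi.add_apply]
      ring
    rw [Finset.sum_congr rfl h1,
      Finset.sum_range_sub (fun n => yv (Ec t₁ l s n) (Ec T₁ l S n) e) m, avg_start,
      ← avg_yv, avg_end H H']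

end Pool.Agent.Ads89
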