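import Pool.Agent.W_2fbb77_h89.Defs

/-! # MP_2fbb77_gt: nodes of a polygon and bent data

For a polygon `P` (indices modulo `k`) and a side `i`: `node i j`, `i + 1 ≤ j ≤ i + k - 1`, is the vertex `p i` for
`j = i + 1`, the vertex `p (i - 1)` for `j = i + k - 1`, and otherwise the foot on the side `i` of the common
perpendicular of the sides `i` and `j`.  `tau i j` is the unit tangent vector of the side `i` at `node i j` in the
direction of increasing `j`; `len i j` is the distance from `node i j` to `node i (j + 1)` (`i + 1 ≤ j ≤ i + k - 2`,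
the gap `(i, j)`).

`BD P u ς A ξ s` (bent data): what a pleated surface `Surf P u f ς` looks like near the boundary of `P`:
`A i j` is the linear isometric embedding that describes `f` near the gap `(i, j)`, `ξ i j` its future directed unit
normal and `s i j ≥ 0` the bending angle at the foot `node i j` (`i + 2 ≤ j ≤ i + k - 2`). -/

set_option autoImplicit false

noncomputable section

namespace Pool.Agent.Ads89

/-- Lorentzian cross product: `mink (cross a b) c = det3 a b c`. -/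
def cross (a b : Fin 3 → ℝ) : Fin 3 → ℝ :=
  ![a 1 * b 2 - a 2 * b 1, a 2 * b 0 - a 0 * b 2, a 1 * b 0 - a 0 * b 1]

theorem mink_cross (a b c : Fin 3 → ℝ) : mink (cross a b) c = det3 a b c := by
  simp [mink, cross, det3]
  ring

variable {k : ℕ} {n : ℤ → ℕ}

namespace Polygon

variable (P : Polygon k n)

def node (i j : ℤ) : Fin 3 → ℝ :=
  if j = i + 1 then P.p i
  else if j = i + k - 1 then P.p (i - 1)
  else (1 / √(mink (P.v i) (P.v j) ^ 2 - 1)) • (P.v j - mink (P.v i) (P.v j) • P.v i)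

def tau (i j : ℤ) : Fin 3 → ℝ := cross (P.v i) (P.node i j)

def len (i j : ℤ) : ℝ := Real.arsinh (mink (P.tau i j) (P.node i (j + 1)))

end Polygon

/-- Bent data. -/
structure BD (P : Polygon k n) (u : ℤ → Fin 4 → ℝ) (ς : ℝ)
    (A : ℤ → ℤ → (Fin 3 → ℝ) →ₗ[ℝ] (Fin 4 → ℝ)) (ξ : ℤ → ℤ → Fin 4 → ℝ) (s : ℤ → ℤ → ℝ) : Prop where
  iso : ∀ i j : ℤ, i + 1 ≤ j → j ≤ i + k - 2 → ∀ y z, ads (A i j y) (A i j z) = mink y z
  nrm : ∀ i j : ℤ, i + 1 ≤ j → j ≤ i + k - 2 → ads (ξ i j) (ξ i j) = -1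
  perp : ∀ i j : ℤ, i + 1 ≤ j → j ≤ i + k - 2 → ∀ y, ads (A i j y) (ξ i j) = 0
  fut : ∀ i j : ℤ, i + 1 ≤ j → j ≤ i + k - 2 → ∀ y ∈ H2, 0 < om (A i j y) (ξ i j)
  side : ∀ i j : ℤ, i + 1 ≤ j → j ≤ i + k - 2 → A i j (P.v i) = u i
  corner : ∀ i : ℤ, A (i + 1) (i + k - 1) = A i (i + 1) ∧ ξ (i + 1) (i + k - 1) = ξ i (i + 1)
  bendA : ∀ i j : ℤ, i + 2 ≤ j → j ≤ i + k - 2 → A i j (P.tau i j) =
    Real.cosh (s i j) • A i (j - 1) (P.tau i j) - (ς * Real.sinh (s i j)) • ξ i (j - 1)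
  bendN : ∀ i j : ℤ, i + 2 ≤ j → j ≤ i + k - 2 → A i j (P.node i j) = A i (j - 1) (P.node i j)
  bendX : ∀ i j : ℤ, i + 2 ≤ j → j ≤ i + k - 2 → ξ i j =
    Real.cosh (s i j) • ξ i (j - 1) - (ς * Real.sinh (s i j)) • A i (j - 1) (P.tau i j)
  nonneg : ∀ i j : ℤ, i + 2 ≤ j → j ≤ i + k - 2 → 0 ≤ s i j
  symm : ∀ i j : ℤ, i + 2 ≤ j → j ≤ i + k - 2 → s j (i + k) = s i j
  perA : ∀ i j : ℤ, A (i + k) (j + k) = A i j
  perX : ∀ i j : ℤ, ξ (i + k) (j + k) = ξ i j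
  perS : ∀ i j : ℤ, s (i + k) (j + k) = s i j
  cross : ∀ i l j m : ℤ, i < l → l < j → j < m → m < i + k → s i j = 0 ∨ s l m = 0
  leaf : ∀ i j : ℤ, i + 2 ≤ j → j ≤ i + k - 2 → 0 < s i j → A i (j - 1) (P.v j) = u j

/-- The bent data describe the map `f` at the nodes. -/
def Agree (P : Polygon k n) (f : (Fin 3 → ℝ) → Fin 4 → ℝ)
    (A : ℤ → ℤ → (Fin 3 → ℝ) →ₗ[ℝ] (Fin 4 → ℝ)) : Prop :=
  ∀ i j : ℤ, i + 1 ≤ j → j ≤ i + k - 2 →
    f (P.node i j) = A i j (P.node i j) ∧ f (P.node i (j + 1)) = A i j (P.node i (j + 1))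

end Pool.Agent.Ads89
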