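import Pool.Agent.W_2fbb77_h89.Bd0

/-! # MP_2fbb77_gt: linear algebra in signature (2,2) -/

set_option autoImplicit false

noncomputable section

namespace Pool.Agent.Ads89

section four

variable {a b c d u x y z : Fin 4 → ℝ}

theorem ads_comm (x y : Fin 4 → ℝ) : ads x y = ads y x := by
  simp [ads]; ring

theorem ads_add_left (x y z : Fin 4 → ℝ) : ads (x + y) z = ads x z + ads y z := by
  simp [ads]; ring

theorem ads_add_right (x y z : Fin 4 → ℝ) : ads z (x + y) = ads z x + ads z y := by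
  simp [ads]; ring

theorem ads_sub_left (x y z : Fin 4 → ℝ) : ads (x - y) z = ads x z - ads y z := by
  simp [ads]; ring

theorem ads_sub_right (x y z : Fin 4 → ℝ) : ads z (x - y) = ads z x - ads z y := by
  simp [ads]; ring

theorem ads_smul_left (t : ℝ) (x y : Fin 4 → ℝ) : ads (t • x) y = t * ads x y := by
  simp [ads]; ring

theorem ads_smul_right (t : ℝ) (x y : Fin 4 → ℝ) : ads x (t • y) = t * ads x y := by
  simp [ads]; ring

theorem ads_neg_left (x y : Fin 4 → ℝ) : ads (-x) y = -ads x y := by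
  simp [ads]; ring

theorem ads_neg_right (x y : Fin 4 → ℝ) : ads x (-y) = -ads x y := by
  simp [ads]; ring

theorem om_add_left (x y z : Fin 4 → ℝ) : om (x + y) z = om x z + om y z := by
  simp [om]; ring

theorem om_smul_left (t : ℝ) (x y : Fin 4 → ℝ) : om (t • x) y = t * om x y := by
  simp [om]; ring

theorem om_add_right (x y z : Fin 4 → ℝ) : om z (x + y) = om z x + om z y := by
  simp [om]; ring

theorem om_smul_right (t : ℝ) (x y : Fin 4 → ℝ) : om x (t • y) = t * om x y := by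
  simp [om]; ring

theorem om_swap (x y : Fin 4 → ℝ) : om x y = -om y x := by
  simp only [om]; ring

theorem om_self (x : Fin 4 → ℝ) : om x x = 0 := by
  simp [om]; ring

/-- In the Lorentzian space `a^⊥` (`a` unit timelike): unit timelike vectors `b, c` of `a^⊥` are in the same sheet
if and only if `om a b`, `om a c` have the same sign.

Proof.  `n = a₂² + a₃² = 1 + a₀² + a₁²`.  Let `q(b, c) = b₀ c₀ + b₁ c₁ - (a₀ b₀ + a₁ b₁) (a₀ c₀ + a₁ c₁) / n` (positive definite
on `ℝ²`).  From `ads a b = 0`: `a₀ b₀ + a₁ b₁ = a₂ b₂ + a₃ b₃`, and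
`n (b₂ c₂ + b₃ c₃) = (a₂ b₂ + a₃ b₃) (a₂ c₂ + a₃ c₃) + om a b * om a c`.  So `ads b c = q(b, c) - om a b * om a c / n`,
`q(b, b) = om a b ^ 2 / n - 1`, and `q(b, c)² ≤ q(b, b) q(c, c) < (om a b * om a c / n)²`
(`q(b,b) q(c,c) - q(b,c)² = (b₀ c₁ - b₁ c₀)² / n`). -/
theorem sheet (ha : ads a a = -1) (hb : ads b b = -1) (hc : ads c c = -1) (hab : ads a b = 0)
    (hac : ads a c = 0) : ads b c * (om a b * om a c) < 0 := by
  simp only [ads] at ha hb hc hab hac
  have hN : 0 < 1 + a 0 ^ 2 + a 1 ^ 2 := by positivity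
  set N := 1 + a 0 ^ 2 + a 1 ^ 2 with hNd
  have hN' : a 2 ^ 2 + a 3 ^ 2 = N := by rw [hNd]; linarith
  have hab' : a 2 * b 2 + a 3 * b 3 = a 0 * b 0 + a 1 * b 1 := by linarith
  have hac' : a 2 * c 2 + a 3 * c 3 = a 0 * c 0 + a 1 * c 1 := by linarith
  have key : ∀ x y : Fin 4 → ℝ, a 2 * x 2 + a 3 * x 3 = a 0 * x 0 + a 1 * x 1 →
      a 2 * y 2 + a 3 * y 3 = a 0 * y 0 + a 1 * y 1 →
      N * (x 0 * y 0 + x 1 * y 1 - x 2 * y 2 - x 3 * y 3) =
        (x 0 * y 0 + x 1 * y 1 + (a 0 * x 1 - a 1 * x 0) * (a 0 * y 1 - a 1 * y 0)) -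
          om a x * om a y := by
    intro x y hx hy
    have e1 : N * (x 2 * y 2 + x 3 * y 3) =
        (a 2 * x 2 + a 3 * x 3) * (a 2 * y 2 + a 3 * y 3) + om a x * om a y := by
      rw [← hN']; simp only [om]; ring
    have e2 : N * (x 0 * y 0 + x 1 * y 1) = (x 0 * y 0 + x 1 * y 1 +
        (a 0 * x 1 - a 1 * x 0) * (a 0 * y 1 - a 1 * y 0)) +
        (a 0 * x 0 + a 1 * x 1) * (a 0 * y 0 + a 1 * y 1) := by
      rw [hNd]; ring
    rw [hx, hy] at e1
    linear_combination e2 - e1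
  have kbc := key b c hab' hac'
  have kbb := key b b hab' hab'
  have kcc := key c c hac' hac'
  have hbb : b 0 * b 0 + b 1 * b 1 - b 2 * b 2 - b 3 * b 3 = -1 := hb
  have hcc : c 0 * c 0 + c 1 * c 1 - c 2 * c 2 - c 3 * c 3 = -1 := hc
  rw [hbb] at kbb
  rw [hcc] at kcc
  set X := om a b
  set Y := om a c
  set q := b 0 * c 0 + b 1 * c 1 + (a 0 * b 1 - a 1 * b 0) * (a 0 * c 1 - a 1 * c 0) with hq
  have q1 : b 0 * b 0 + b 1 * b 1 + (a 0 * b 1 - a 1 * b 0) * (a 0 * b 1 - a 1 * b 0) =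
      X * X - N := by linarith
  have q2 : c 0 * c 0 + c 1 * c 1 + (a 0 * c 1 - a 1 * c 0) * (a 0 * c 1 - a 1 * c 0) =
      Y * Y - N := by linarith
  have p1 : 0 ≤ X * X - N := by
    rw [← q1]; nlinarith [mul_self_nonneg (b 0), mul_self_nonneg (b 1),
      mul_self_nonneg (a 0 * b 1 - a 1 * b 0)]
  have p2 : 0 ≤ Y * Y - N := by
    rw [← q2]; nlinarith [mul_self_nonneg (c 0), mul_self_nonneg (c 1),
      mul_self_nonneg (a 0 * c 1 - a 1 * c 0)]
  have cs : q ^ 2 ≤ (X * X - N) * (Y * Y - N) := by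
    rw [← q1, ← q2]
    have : (b 0 * b 0 + b 1 * b 1 + (a 0 * b 1 - a 1 * b 0) * (a 0 * b 1 - a 1 * b 0)) *
        (c 0 * c 0 + c 1 * c 1 + (a 0 * c 1 - a 1 * c 0) * (a 0 * c 1 - a 1 * c 0)) - q ^ 2 =
        N * (b 0 * c 1 - b 1 * c 0) ^ 2 := by
      rw [hq, hNd]; ring
    have h2 : 0 ≤ N * (b 0 * c 1 - b 1 * c 0) ^ 2 := by positivity
    linarith
  have lt : q ^ 2 < (X * Y) ^ 2 := by
    have : (X * X - N) * (Y * Y - N) < (X * Y) ^ 2 := by
      have : (X * Y) ^ 2 - (X * X - N) * (Y * Y - N) =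
        N * (X * X - N) + N * (Y * Y - N) + N * N := by ring
      have h3 : 0 ≤ N * (X * X - N) := mul_nonneg hN.le p1
      have h4 : 0 ≤ N * (Y * Y - N) := mul_nonneg hN.le p2
      have h5 : 0 < N * N := mul_pos hN hN
      linarith
    linarith
  have habs : |q| < |X * Y| := by
    rwa [sq_lt_sq] at lt
  have fin : q * (X * Y) < (X * Y) ^ 2 := by
    calc q * (X * Y) ≤ |q * (X * Y)| := le_abs_self _
      _ = |q| * |X * Y| := abs_mul _ _
      _ < |X * Y| * |X * Y| := mul_lt_mul_of_pos_right habs (lt_of_le_of_lt (abs_nonneg _) habs)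
      _ = (X * Y) ^ 2 := by rw [← abs_mul, abs_mul_self, sq]
  have h6 : N * (ads b c * (X * Y)) < 0 := by
    have : N * (ads b c * (X * Y)) = (N * ads b c) * (X * Y) := by ring
    rw [this, ads, kbc]
    nlinarith
  by_contra hcon
  have := mul_nonneg hN.le (not_lt.mp hcon)
  linarith

/-- Expansion in an orthonormal basis: the matrix with columns `a, b, c, d` times its transpose with signs is the
identity, and a left inverse of a square matrix is a right inverse. -/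
theorem expand4 (haa : ads a a = -1) (hbb : ads b b = -1) (hcc : ads c c = 1) (hdd : ads d d = 1)
    (hab : ads a b = 0) (hac : ads a c = 0) (had : ads a d = 0) (hbc : ads b c = 0)
    (hbd : ads b d = 0) (hcd : ads c d = 0) (x : Fin 4 → ℝ) :
    x = -ads x a • a - ads x b • b + ads x c • c + ads x d • d := by
  have h1 : (Matrix.of ![![a 0, a 1, a 2, a 3], ![b 0, b 1, b 2, b 3], ![c 0, c 1, c 2, c 3],
      ![d 0, d 1, d 2, d 3]] : Matrix (Fin 4) (Fin 4) ℝ) *
      Matrix.of ![![-a 0, -b 0, c 0, d 0], ![-a 1, -b 1, c 1, d 1], ![a 2, b 2, -c 2, -d 2],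
        ![a 3, b 3, -c 3, -d 3]] = 1 := by
    simp only [ads] at haa hbb hcc hdd hab hac had hbc hbd hcd
    ext i j
    fin_cases i <;> fin_cases j <;>
      simp [Matrix.mul_apply, Fin.sum_univ_four] <;> linarith
  have h2 := mul_eq_one_comm.mp h1
  have h3 : ∀ i j, (Matrix.of ![![-a 0, -b 0, c 0, d 0], ![-a 1, -b 1, c 1, d 1],
      ![a 2, b 2, -c 2, -d 2], ![a 3, b 3, -c 3, -d 3]] *
      (Matrix.of ![![a 0, a 1, a 2, a 3], ![b 0, b 1, b 2, b 3], ![c 0, c 1, c 2, c 3],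
      ![d 0, d 1, d 2, d 3]] : Matrix (Fin 4) (Fin 4) ℝ)) i j =
      (1 : Matrix (Fin 4) (Fin 4) ℝ) i j := by
    intro i j; rw [h2]
  have e00 := h3 0 0
  have e01 := h3 0 1
  have e02 := h3 0 2
  have e03 := h3 0 3
  have e11 := h3 1 1
  have e12 := h3 1 2
  have e13 := h3 1 3
  have e22 := h3 2 2
  have e23 := h3 2 3
  have e33 := h3 3 3
  simp [Matrix.mul_apply, Fin.sum_univ_four] at e00 e01 e02 e03 e11 e12 e13 e22 e23 e33
  ext i
  fin_cases i <;> simp [ads]
  · linear_combination (-x 0) * e00 - x 1 * e01 + x 2 * e02 + x 3 * e03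
  · linear_combination (-x 0) * e01 - x 1 * e11 + x 2 * e12 + x 3 * e13
  · linear_combination (-x 0) * e02 - x 1 * e12 - x 2 * e22 - x 3 * e23
  · linear_combination (-x 0) * e03 - x 1 * e13 - x 2 * e23 - x 3 * e33

end four

end Pool.Agent.Ads89
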