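import Pool.Agent.W_2fbb77_h89.Leaf3
import Pool.Agent.W_2fbb77_h89.Lor4

/-! # MP_2fbb77_gt: the embedding near a gap

`Ctx`: a pleated surface with its lamination.  `gpn i j` is the normalized gap point, `emb f L x` the linear
isometric embedding that describes `f` near a point `x` on no leaf.

* `gpn_mem`: sum of two points of `H2` (`mink_le_neg_one`: `mink (gp) (gp) ≤ -4`).
* `emb_flat`: `Pleated.flat` (`LF.gp_node`: `gpn` is on no leaf).
* `emb_nonsep`: if `y ∈ H2` is not separated from `gpn i j` then `f y = emb (gpn i j) y`.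
* `emb_node`: `LF.gp_node`. -/

set_option autoImplicit false

noncomputable section

namespace Pool.Agent.Ads89

variable {k : ℕ} {n : ℤ → ℕ}

/-- A pleated surface with its lamination. -/
structure Ctx (P : Polygon k n) (u : ℤ → Fin 4 → ℝ) (f : (Fin 3 → ℝ) → Fin 4 → ℝ) (ς : ℝ)
    (L : Set (Fin 3 → ℝ)) : Prop where
  hk : 4 ≤ k
  hn : ∀ i : ℤ, 3 ≤ n i
  hς : ς = 1 ∨ ς = -1
  uper : ∀ i : ℤ, u (i + k) = u i
  uunit : ∀ i : ℤ, ads (u i) (u i) = 1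
  surf : Surf P u f ς
  pl : Pleated f L
  inv : ∀ w ∈ L, ∀ i : ℤ, refl3 (P.v i) w ∈ L

def Flat (f : (Fin 3 → ℝ) → Fin 4 → ℝ) (L : Set (Fin 3 → ℝ)) (x : Fin 3 → ℝ)
    (A : (Fin 3 → ℝ) →ₗ[ℝ] (Fin 4 → ℝ)) : Prop :=
  (∀ y z, ads (A y) (A z) = mink y z) ∧ ∀ y ∈ H2, (∀ w ∈ L, 0 ≤ mink x w * mink y w) → f y = A y

open Classical in
def emb (f : (Fin 3 → ℝ) → Fin 4 → ℝ) (L : Set (Fin 3 → ℝ)) (x : Fin 3 → ℝ) :
    (Fin 3 → ℝ) →ₗ[ℝ] (Fin 4 → ℝ) :=
  if h : ∃ A, Flat f L x A then h.choose else 0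

/-- Normalized gap point. -/
def gpn (P : Polygon k n) (i j : ℤ) : Fin 3 → ℝ := (1 / √(-mink (gp P i j) (gp P i j))) • gp P i j

variable {P : Polygon k n} {u : ℤ → Fin 4 → ℝ} {f : (Fin 3 → ℝ) → Fin 4 → ℝ} {ς : ℝ}
  {L : Set (Fin 3 → ℝ)} {i j : ℤ}

theorem Ctx.lf (C : Ctx P u f ς L) : LF P L := ⟨C.pl.unit, C.pl.neg_mem, C.pl.disj, C.inv⟩

theorem gpn_per (P : Polygon k n) (i j : ℤ) : gpn P (i + k) (j + k) = gpn P i j := by
  have h : j + (k : ℤ) + 1 = (j + 1) + k := by ring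
  simp only [gpn, gp, h, P.node_per]

theorem Bd1_norm {c : Fin 3 → ℝ} (h : mink c c < 0) (h2 : 0 < c 2) :
    0 < 1 / √(-mink c c) ∧ (1 / √(-mink c c)) • c ∈ H2 := by
  have h3 : 0 < √(-mink c c) := Real.sqrt_pos.2 (by linarith)
  have h4 : √(-mink c c) ^ 2 = -mink c c := Real.sq_sqrt (by linarith)
  refine ⟨by positivity, ?_, ?_⟩
  · rw [mink_smul_left, mink_smul_right]
    have h5 : 1 / √(-mink c c) * (1 / √(-mink c c) * mink c c) =
        mink c c / √(-mink c c) ^ 2 := by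
      field_simp
    rw [h5, h4, div_neg, div_self (by linarith)]
  · show 0 < (1 / √(-mink c c)) * c 2
    positivity

theorem Bd1_add {a b : Fin 3 → ℝ} (ha : a ∈ H2) (hb : b ∈ H2) :
    mink (a + b) (a + b) < 0 ∧ 0 < (a + b) 2 := by
  have h1 := mink_le_neg_one ha hb
  refine ⟨?_, ?_⟩
  · rw [mink_add_left, mink_add_right, mink_add_right, mink_comm b a, ha.1, hb.1]
    linarith
  · show 0 < a 2 + b 2
    have := ha.2
    have := hb.2
    linarith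

theorem Ctx.Bd1_gp (C : Ctx P u f ς L) (h1 : i + 1 ≤ j) (h2 : j ≤ i + k - 2) :
    mink (gp P i j) (gp P i j) < 0 ∧ 0 < (gp P i j) 2 :=
  Bd1_add (P.node_mem C.hk C.hn h1 (by omega)) (P.node_mem C.hk C.hn (by omega) (by omega))

theorem Ctx.gpn_mem (C : Ctx P u f ς L) (h1 : i + 1 ≤ j) (h2 : j ≤ i + k - 2) :
    gpn P i j ∈ H2 :=
  (Bd1_norm (C.Bd1_gp h1 h2).1 (C.Bd1_gp h1 h2).2).2

theorem Ctx.gpn_side (C : Ctx P u f ς L) (h1 : i + 1 ≤ j) (h2 : j ≤ i + k - 2) :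
    mink (gpn P i j) (P.v i) = 0 := by
  have h3 : mink (gp P i j) (P.v i) = 0 := by
    rw [gp, mink_add_left, P.node_side C.hk h1 (by omega),
      P.node_side C.hk (by omega) (by omega), add_zero]
  rw [gpn, mink_smul_left, h3, mul_zero]

/-- `gpn` is a positive multiple of `gp`. -/
theorem Ctx.gpn_pos (C : Ctx P u f ς L) (h1 : i + 1 ≤ j) (h2 : j ≤ i + k - 2) :
    ∃ t : ℝ, 0 < t ∧ gpn P i j = t • gp P i j :=
  ⟨_, (Bd1_norm (C.Bd1_gp h1 h2).1 (C.Bd1_gp h1 h2).2).1, rfl⟩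

theorem Ctx.Bd1_ne (C : Ctx P u f ς L) (h1 : i + 1 ≤ j) (h2 : j ≤ i + k - 2) :
    ∀ w ∈ L, mink (gpn P i j) w ≠ 0 := by
  intro w hw
  obtain ⟨t, ht, h3⟩ := C.gpn_pos h1 h2
  rw [h3, mink_smul_left]
  exact mul_ne_zero ht.ne' (LF.gp_node C.hk C.hn C.lf hw h1 h2).1

theorem Ctx.emb_flat (C : Ctx P u f ς L) (h1 : i + 1 ≤ j) (h2 : j ≤ i + k - 2) :
    Flat f L (gpn P i j) (emb f L (gpn P i j)) := by
  have h3 : ∃ A, Flat f L (gpn P i j) A := by
    obtain ⟨A, hA, hA'⟩ := C.pl.flat (gpn P i j) (C.gpn_mem h1 h2) (C.Bd1_ne h1 h2)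
    exact ⟨A, hA, hA'⟩
  rw [emb, dif_pos h3]
  exact h3.choose_spec

theorem Ctx.Bd1_sep (C : Ctx P u f ς L) (h1 : i + 1 ≤ j) (h2 : j ≤ i + k - 2) {a b : ℝ}
    (ha : 0 ≤ a) (hb : 0 ≤ b) : ∀ w ∈ L,
    0 ≤ mink (gpn P i j) w * mink (a • P.node i j + b • P.node i (j + 1)) w := by
  intro w hw
  obtain ⟨t, ht, h3⟩ := C.gpn_pos h1 h2
  obtain ⟨_, h4, h5⟩ := LF.gp_node C.hk C.hn C.lf hw h1 h2
  rw [h3, mink_smul_left, mink_add_left, mink_smul_left, mink_smul_left]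
  have h6 : t * mink (gp P i j) w * (a * mink (P.node i j) w + b * mink (P.node i (j + 1)) w) =
      t * (a * (mink (gp P i j) w * mink (P.node i j) w) +
        b * (mink (gp P i j) w * mink (P.node i (j + 1)) w)) := by ring
  rw [h6]
  positivity

/-- Points of the segment between two consecutive nodes. -/
theorem Ctx.emb_seg (C : Ctx P u f ς L) (h1 : i + 1 ≤ j) (h2 : j ≤ i + k - 2) {a b : ℝ}
    (ha : 0 ≤ a) (hb : 0 ≤ b) (h : a • P.node i j + b • P.node i (j + 1) ∈ H2) :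
    f (a • P.node i j + b • P.node i (j + 1)) =
      emb f L (gpn P i j) (a • P.node i j + b • P.node i (j + 1)) :=
  (C.emb_flat h1 h2).2 _ h (C.Bd1_sep h1 h2 ha hb)

theorem Ctx.emb_node (C : Ctx P u f ς L) (h1 : i + 1 ≤ j) (h2 : j ≤ i + k - 2) :
    f (P.node i j) = emb f L (gpn P i j) (P.node i j) ∧
      f (P.node i (j + 1)) = emb f L (gpn P i j) (P.node i (j + 1)) := by
  constructor
  · have h3 := C.emb_seg (a := 1) (b := 0) h1 h2 zero_le_one le_rfl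
    rw [one_smul, zero_smul, add_zero] at h3
    exact h3 (P.node_mem C.hk C.hn h1 (by omega))
  · have h3 := C.emb_seg (a := 0) (b := 1) h1 h2 le_rfl zero_le_one
    rw [one_smul, zero_smul, zero_add] at h3
    exact h3 (P.node_mem C.hk C.hn (by omega) (by omega))

end Pool.Agent.Ads89
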