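import Pool.Agent.W_2fbb77_h89.Inn

/-! # MP_2fbb77_gt: the normal vector near a gap

* `exists_normal`: let `x = gpn i j`, `A = emb x` and `ξ` the vector of `Surf.convex` at `x`.  Then `ads (A y) ξ = 0` for all
  `y`: (1) `x` is a positive combination of the nodes `a = node i j`, `b = node i (j+1)` (`gpn_pos`), `f a = A a`, `f b = A b`,
  `ς ads (f a) ξ ≥ 0`, `ς ads (f b) ξ ≥ 0`, and `ads (A x) ξ = 0`, so both vanish (`ς ≠ 0`).  `a, b` span `(v i)^⊥`.
  (2) `z` from `Ctx.inner`: `z' = refl3 (v i) z = z - 2 mink z (v i) • v i`, `z + z' ∈ (v i)^⊥`, so `ads (A z + A z') ξ = 0` and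
  `ς ads (A z) ξ ≥ 0`, `ς ads (A z') ξ ≥ 0` give `ads (A z) ξ = 0`.  `a, b, z` are independent: `det3 (v i) a b ≠ 0`
  (`det3 (v i) a b = mink (tau i j) b > 0`, `order`) and `mink z (v i) < 0`.
  `om (A x) ξ > 0` by `convex`, and for every `y ∈ H2`: `om (A y) ξ > 0` by `sheet` with base point `ξ` (`b = A x`, `c = A y`,
  `ads (A x) (A y) = mink x y ≤ -1 < 0`).
* `nvec x` is such a `ξ` (choice); `normal_unique`: it is determined by `A`: if `ξ, ξ'` are unit timelike, orthogonal to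
  `A y` for all `y`, then `ξ' = ± ξ` (`expand4` with `ξ`, `A e₃`, `A e₁`, `A e₂`, where `e₁, e₂, e₃` is the standard basis of `ℝ³`:
  `ξ' = - ads ξ' ξ • ξ`, `(ads ξ' ξ)² = 1`), and `om (A y) ξ > 0`, `om (A y) ξ' > 0` exclude `-`.
* `emb_eq`: if no leaf separates two gap points `x, y` (`0 < mink x w * mink y w` for all `w ∈ L`) then `emb x = emb y`: the
  points of `H2` that are not separated from `x` and from `y` are the same (`mink x w * mink z w ≥ 0` iff
  `mink y w * mink z w ≥ 0`), and both maps are equal to `f` there; they contain the two nodes `a, b` of the gap of `x` and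
  the point `z` of `Ctx.inner` for the gap of `x`, which are independent: `linear_ext`.
* `emb_corner`, `emb_leaf`, `emb_foot`: from `LF.gp_corner`, `LF.gp_leaf`, `LF.gp_foot` (positive multiples, `gpn_pos`). -/

set_option autoImplicit false

noncomputable section

namespace Pool.Agent.Ads89

variable {k : ℕ} {n : ℤ → ℕ} {P : Polygon k n} {u : ℤ → Fin 4 → ℝ}
  {f : (Fin 3 → ℝ) → Fin 4 → ℝ} {ς : ℝ} {L : Set (Fin 3 → ℝ)} {i j l m : ℤ}

/-- `ξ` is the future directed unit normal of the embedding `A`. -/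
def IsNormal (A : (Fin 3 → ℝ) →ₗ[ℝ] (Fin 4 → ℝ)) (ξ : Fin 4 → ℝ) : Prop :=
  ads ξ ξ = -1 ∧ (∀ y, ads (A y) ξ = 0) ∧ ∀ y ∈ H2, 0 < om (A y) ξ

open Classical in
def nvec (A : (Fin 3 → ℝ) →ₗ[ℝ] (Fin 4 → ℝ)) : Fin 4 → ℝ :=
  if h : ∃ ξ, IsNormal A ξ then h.choose else 0

/-- Cramer expansion. -/
private theorem Bd2_cramer (a b c y : Fin 3 → ℝ) :
    det3 a b c • y = det3 y b c • a + det3 a y c • b + det3 a b y • c := by
  ext i
  fin_cases i <;> simp [det3] <;> ring

private theorem Bd2_phi {a b v z : Fin 3 → ℝ} (φ : (Fin 3 → ℝ) →ₗ[ℝ] ℝ) (hd : det3 v a b ≠ 0)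
    (hv : mink v v = 1) (hav : mink a v = 0) (hbv : mink b v = 0) (ha : φ a = 0) (hb : φ b = 0)
    (hz : mink z v ≠ 0) (hφz : φ z = 0) (y : Fin 3 → ℝ) : φ y = 0 := by
  have h1 := Bd2_cramer v a b z
  have h2 : det3 v a b * mink z v = det3 z a b := by
    have h3 := congrArg (fun t => mink t v) h1
    simp only [mink_add_left, mink_smul_left, hv, hav, hbv] at h3
    linarith
  have h4 : det3 z a b ≠ 0 := by
    rw [← h2]
    exact mul_ne_zero hd hz
  have h5 : φ v = 0 := by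
    have h6 := congrArg φ h1
    simp only [map_add, map_smul, smul_eq_mul, ha, hb, hφz] at h6
    have h7 : det3 z a b * φ v = 0 := by linarith
    rcases mul_eq_zero.1 h7 with h8 | h8
    · exact absurd h8 h4
    · exact h8
  have h9 := congrArg φ (Bd2_cramer v a b y)
  simp only [map_add, map_smul, smul_eq_mul, ha, hb, h5] at h9
  have h10 : det3 v a b * φ y = 0 := by linarith
  rcases mul_eq_zero.1 h10 with h8 | h8
  · exact absurd h8 hd
  · exact h8

private theorem Bd2_perp {a b v y : Fin 3 → ℝ} (φ : (Fin 3 → ℝ) →ₗ[ℝ] ℝ) (hd : det3 v a b ≠ 0)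
    (hv : mink v v = 1) (hav : mink a v = 0) (hbv : mink b v = 0) (ha : φ a = 0) (hb : φ b = 0)
    (hy : mink y v = 0) : φ y = 0 := by
  have hv0 : v ≠ 0 := by
    rintro rfl
    simp [mink] at hv
  have h1 : det3 y a b = 0 := det3_eq_zero hv0 (by rw [mink_comm]; exact hy)
    (by rw [mink_comm]; exact hav) (by rw [mink_comm]; exact hbv)
  have h9 := congrArg φ (Bd2_cramer v a b y)
  simp only [map_add, map_smul, smul_eq_mul, ha, hb, h1] at h9
  have h10 : det3 v a b * φ y = 0 := by linarith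
  rcases mul_eq_zero.1 h10 with h8 | h8
  · exact absurd h8 hd
  · exact h8

/-- the linear functional `y ↦ ads (A y) ξ` -/
private def Bd2_fun (A : (Fin 3 → ℝ) →ₗ[ℝ] (Fin 4 → ℝ)) (ξ : Fin 4 → ℝ) :
    (Fin 3 → ℝ) →ₗ[ℝ] ℝ where
  toFun y := ads (A y) ξ
  map_add' x y := by rw [map_add, ads_add_left]
  map_smul' t x := by rw [map_smul, ads_smul_left]; rfl

private theorem Bd2_fun_apply (A : (Fin 3 → ℝ) →ₗ[ℝ] (Fin 4 → ℝ)) (ξ : Fin 4 → ℝ)
    (y : Fin 3 → ℝ) : Bd2_fun A ξ y = ads (A y) ξ := rfl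

private theorem Ctx.Bd2_det (C : Ctx P u f ς L) (h1 : i + 1 ≤ j) (h2 : j ≤ i + k - 2) :
    det3 (P.v i) (P.node i j) (P.node i (j + 1)) ≠ 0 := by
  have h := (P.order C.hk C.hn h1 (l := j + 1) (by omega) (by omega)).1
  rw [Polygon.tau, mink_cross] at h
  exact h.ne'

theorem Ctx.exists_normal (C : Ctx P u f ς L) (h1 : i + 1 ≤ j) (h2 : j ≤ i + k - 2) :
    ∃ ξ, IsNormal (emb f L (gpn P i j)) ξ ∧ ∀ y ∈ H2, 0 ≤ ς * ads (f y) ξ := by
  have hx := C.gpn_mem h1 h2
  obtain ⟨hiso, hfl⟩ := C.emb_flat h1 h2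
  set A := emb f L (gpn P i j) with hA
  obtain ⟨ξ, e1, e2, e3, e4⟩ := C.surf.convex _ hx
  have hfx : f (gpn P i j) = A (gpn P i j) := hfl _ hx fun w _ => mul_self_nonneg _
  obtain ⟨ha, hb⟩ := C.emb_node h1 h2
  rw [← hA] at ha hb
  have hna : P.node i j ∈ H2 := P.node_mem C.hk C.hn h1 (by omega)
  have hnb : P.node i (j + 1) ∈ H2 := P.node_mem C.hk C.hn (by omega) (by omega)
  obtain ⟨t, ht, hgt⟩ := C.gpn_pos h1 h2
  have hφx : Bd2_fun A ξ (gpn P i j) = 0 := by
    rw [Bd2_fun_apply, ← hfx, ads_comm]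
    exact e2
  have hsum : Bd2_fun A ξ (P.node i j) + Bd2_fun A ξ (P.node i (j + 1)) = 0 := by
    rw [hgt, map_smul, gp, map_add, smul_eq_mul] at hφx
    rcases mul_eq_zero.1 hφx with h | h
    · exact absurd h ht.ne'
    · exact h
  have hsa : 0 ≤ ς * Bd2_fun A ξ (P.node i j) := by
    rw [Bd2_fun_apply, ← ha]
    exact e4 _ hna
  have hsb : 0 ≤ ς * Bd2_fun A ξ (P.node i (j + 1)) := by
    rw [Bd2_fun_apply, ← hb]
    exact e4 _ hnb
  have hboth : ∀ r s : ℝ, r + s = 0 → 0 ≤ ς * r → 0 ≤ ς * s → r = 0 := by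
    intro r s h3 h4 h5
    rcases C.hς with h | h
    · rw [h] at h4 h5
      linarith
    · rw [h] at h4 h5
      linarith
  have hφa : Bd2_fun A ξ (P.node i j) = 0 := hboth _ _ hsum hsa hsb
  have hφb : Bd2_fun A ξ (P.node i (j + 1)) = 0 := by linarith
  obtain ⟨z, hz, hzv, hz', hsep, hsep'⟩ := C.inner h1 h2
  have hfz : f z = A z := hfl _ hz.1 hsep
  have hfz' : f (refl3 (P.v i) z) = A (refl3 (P.v i) z) := hfl _ hz' hsep'
  have hd := C.Bd2_det h1 h2
  have hva : mink (P.node i j) (P.v i) = 0 := P.node_side C.hk h1 (by omega)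
  have hvb : mink (P.node i (j + 1)) (P.v i) = 0 := P.node_side C.hk (by omega) (by omega)
  have hzz : mink (z + refl3 (P.v i) z) (P.v i) = 0 := by
    rw [refl3, mink_add_left, mink_sub_left, mink_smul_left, P.unit]
    ring
  have hφzz := Bd2_perp (Bd2_fun A ξ) hd (P.unit i) hva hvb hφa hφb hzz
  rw [map_add] at hφzz
  have hφz : Bd2_fun A ξ z = 0 := by
    refine hboth _ _ hφzz ?_ ?_
    · rw [Bd2_fun_apply, ← hfz]
      exact e4 _ hz.1
    · rw [Bd2_fun_apply, ← hfz']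
      exact e4 _ hz'
  have hall : ∀ y, ads (A y) ξ = 0 := fun y =>
    Bd2_phi (Bd2_fun A ξ) hd (P.unit i) hva hvb hφa hφb hzv.ne hφz y
  refine ⟨ξ, ⟨e1, hall, fun y hy => ?_⟩, e4⟩
  have h5 := sheet e1 (b := A (gpn P i j)) (c := A y) (by rw [hiso]; exact hx.1)
    (by rw [hiso]; exact hy.1) (by rw [ads_comm]; exact hall _) (by rw [ads_comm]; exact hall _)
  rw [hiso] at h5
  have h6 := mink_le_neg_one hx hy
  have h7 : 0 < om ξ (A (gpn P i j)) * om ξ (A y) := by
    by_contra h8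
    push Not at h8
    nlinarith
  rw [hfx] at e3
  rw [om_swap ξ (A (gpn P i j)), om_swap ξ (A y)] at h7
  have h9 : 0 < om (A (gpn P i j)) ξ * om (A y) ξ := by linarith
  exact (pos_iff_pos_of_mul_pos h9).1 e3

theorem normal_unique {A : (Fin 3 → ℝ) →ₗ[ℝ] (Fin 4 → ℝ)} {ξ ξ' : Fin 4 → ℝ}
    (hA : ∀ y z, ads (A y) (A z) = mink y z) (h : IsNormal A ξ) (h' : IsNormal A ξ') : ξ' = ξ := by
  obtain ⟨h1, h2, h3⟩ := h
  obtain ⟨h1', h2', h3'⟩ := h'
  have he := expand4 (a := ξ) (b := A ![0, 0, 1]) (c := A ![1, 0, 0]) (d := A ![0, 1, 0]) h1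
    (by rw [hA]; simp [mink]) (by rw [hA]; simp [mink]) (by rw [hA]; simp [mink])
    (by rw [ads_comm]; exact h2 _) (by rw [ads_comm]; exact h2 _) (by rw [ads_comm]; exact h2 _)
    (by rw [hA]; simp [mink]) (by rw [hA]; simp [mink]) (by rw [hA]; simp [mink]) ξ'
  rw [ads_comm ξ' (A ![0, 0, 1]), ads_comm ξ' (A ![1, 0, 0]), ads_comm ξ' (A ![0, 1, 0]),
    h2', h2', h2'] at he
  simp only [zero_smul, add_zero, sub_zero] at he
  set c := ads ξ' ξ with hc
  have he3 : (![0, 0, 1] : Fin 3 → ℝ) ∈ H2 := by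
    refine ⟨by simp [mink], by simp⟩
  have h4 := h3 _ he3
  have h5 := h3' _ he3
  have h6 : ads ξ' ξ' = -1 := h1'
  have h7 : c ^ 2 = 1 := by
    rw [he, ads_smul_left, ads_smul_right, h1] at h6
    linarith
  have h8 : 0 < -c := by
    rw [he, om_smul_right] at h5
    exact (pos_iff_pos_of_mul_pos h5).2 h4
  have h9 : -c = 1 := by nlinarith
  rw [he, h9, one_smul]

theorem Ctx.nvec_spec (C : Ctx P u f ς L) (h1 : i + 1 ≤ j) (h2 : j ≤ i + k - 2) :
    IsNormal (emb f L (gpn P i j)) (nvec (emb f L (gpn P i j))) ∧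
      ∀ y ∈ H2, 0 ≤ ς * ads (f y) (nvec (emb f L (gpn P i j))) := by
  have h := C.exists_normal h1 h2
  obtain ⟨ξ, h3, h4⟩ := h
  have h5 : ∃ ξ, IsNormal (emb f L (gpn P i j)) ξ := ⟨ξ, h3⟩
  have h6 : IsNormal (emb f L (gpn P i j)) (nvec (emb f L (gpn P i j))) := by
    rw [nvec, dif_pos h5]
    exact h5.choose_spec
  have h7 := normal_unique (C.emb_flat h1 h2).1 h3 h6
  exact ⟨h6, fun y hy => by rw [h7]; exact h4 y hy⟩

theorem Ctx.emb_eq (C : Ctx P u f ς L) (h1 : i + 1 ≤ j) (h2 : j ≤ i + k - 2) (h3 : l + 1 ≤ m)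
    (h4 : m ≤ l + k - 2) (h : ∀ w ∈ L, 0 < mink (gpn P i j) w * mink (gpn P l m) w) :
    emb f L (gpn P i j) = emb f L (gpn P l m) := by
  obtain ⟨-, hfA⟩ := C.emb_flat h1 h2
  obtain ⟨-, hfB⟩ := C.emb_flat h3 h4
  set A := emb f L (gpn P i j) with hA
  set B := emb f L (gpn P l m) with hB
  have hAB : ∀ y ∈ H2, (∀ w ∈ L, 0 ≤ mink (gpn P i j) w * mink y w) → A y = B y := by
    intro y hy hsep
    rw [← hfA y hy hsep, hfB y hy]
    intro w hw
    have e1 := h w hw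
    have e2 := hsep w hw
    have e3 : 0 ≤ mink (gpn P i j) w ^ 2 * (mink (gpn P l m) w * mink y w) := by
      have := mul_nonneg e1.le e2
      linarith
    have e4 : 0 < mink (gpn P i j) w ^ 2 := by
      refine sq_pos_of_ne_zero ?_
      intro e5
      rw [e5, zero_mul] at e1
      exact lt_irrefl _ e1
    exact nonneg_of_mul_nonneg_right e3 e4
  obtain ⟨t, ht, hgt⟩ := C.gpn_pos h1 h2
  have ha : A (P.node i j) = B (P.node i j) := by
    refine hAB _ (P.node_mem C.hk C.hn h1 (by omega)) fun w hw => ?_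
    have e1 := (C.lf.gp_node C.hk C.hn hw h1 h2).2.1
    rw [hgt, mink_smul_left, mul_assoc]
    exact mul_nonneg ht.le e1
  have hb : A (P.node i (j + 1)) = B (P.node i (j + 1)) := by
    refine hAB _ (P.node_mem C.hk C.hn (by omega) (by omega)) fun w hw => ?_
    have e1 := (C.lf.gp_node C.hk C.hn hw h1 h2).2.2
    rw [hgt, mink_smul_left, mul_assoc]
    exact mul_nonneg ht.le e1
  obtain ⟨z, hz, hzv, hz', hsep, hsep'⟩ := C.inner h1 h2
  have hz : A z = B z := hAB _ hz.1 hsep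
  have hd := C.Bd2_det h1 h2
  have hva : mink (P.node i j) (P.v i) = 0 := P.node_side C.hk h1 (by omega)
  have hvb : mink (P.node i (j + 1)) (P.v i) = 0 := P.node_side C.hk (by omega) (by omega)
  have hdz : det3 z (P.node i j) (P.node i (j + 1)) ≠ 0 := by
    have h5 := congrArg (fun t => mink t (P.v i))
      (Bd2_cramer (P.v i) (P.node i j) (P.node i (j + 1)) z)
    simp only [mink_add_left, mink_smul_left, P.unit, hva, hvb] at h5
    have h6 : det3 z (P.node i j) (P.node i (j + 1)) =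
        det3 (P.v i) (P.node i j) (P.node i (j + 1)) * mink z (P.v i) := by linarith
    rw [h6]
    exact mul_ne_zero hd hzv.ne
  exact linear_ext hdz hz ha hb

private theorem Ctx.Bd2_pos (C : Ctx P u f ς L) (h1 : i + 1 ≤ j) (h2 : j ≤ i + k - 2)
    (h3 : l + 1 ≤ m) (h4 : m ≤ l + k - 2) {w : Fin 3 → ℝ}
    (h : 0 < mink (gp P i j) w * mink (gp P l m) w) :
    0 < mink (gpn P i j) w * mink (gpn P l m) w := by
  obtain ⟨t, ht, hgt⟩ := C.gpn_pos h1 h2
  obtain ⟨s, hs, hgs⟩ := C.gpn_pos h3 h4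
  rw [hgt, hgs, mink_smul_left, mink_smul_left]
  have e1 : t * mink (gp P i j) w * (s * mink (gp P l m) w) =
      (t * s) * (mink (gp P i j) w * mink (gp P l m) w) := by ring
  rw [e1]
  exact mul_pos (mul_pos ht hs) h

theorem Ctx.emb_corner (C : Ctx P u f ς L) (i : ℤ) :
    emb f L (gpn P (i + 1) (i + k - 1)) = emb f L (gpn P i (i + 1)) := by
  have hk : (4 : ℤ) ≤ k := by exact_mod_cast C.hk
  refine C.emb_eq (by omega) (by omega) (by omega) (by omega) fun w hw => ?_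
  refine C.Bd2_pos (by omega) (by omega) (by omega) (by omega) ?_
  rw [mul_comm]
  exact C.lf.gp_corner C.hk C.hn hw i

theorem Ctx.emb_leaf (C : Ctx P u f ς L) (h1 : i + 2 ≤ j) (h2 : j ≤ i + k - 2)
    (h0 : P.tau i j ∈ L) :
    emb f L (gpn P i (j - 1)) = emb f L (gpn P j (i + k)) ∧
      emb f L (gpn P i j) = emb f L (gpn P j (i + k - 1)) := by
  have hk : (4 : ℤ) ≤ k := by exact_mod_cast C.hk
  constructor
  · refine C.emb_eq (by omega) (by omega) (by omega) (by omega) fun w hw => ?_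
    refine C.Bd2_pos (by omega) (by omega) (by omega) (by omega) ?_
    exact (C.lf.gp_leaf C.hk C.hn hw h1 h2 h0).1
  · refine C.emb_eq (by omega) (by omega) (by omega) (by omega) fun w hw => ?_
    refine C.Bd2_pos (by omega) (by omega) (by omega) (by omega) ?_
    exact (C.lf.gp_leaf C.hk C.hn hw h1 h2 h0).2

theorem Ctx.emb_foot (C : Ctx P u f ς L) (h1 : i + 2 ≤ j) (h2 : j ≤ i + k - 2)
    (h0 : P.tau i j ∉ L) : emb f L (gpn P i (j - 1)) = emb f L (gpn P i j) := by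
  refine C.emb_eq (by omega) (by omega) (by omega) (by omega) fun w hw => ?_
  refine C.Bd2_pos (by omega) (by omega) (by omega) (by omega) ?_
  exact C.lf.gp_foot C.hk C.hn hw h1 h2 h0

end Pool.Agent.Ads89
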