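import Pool.Agent.W_2fbb77_h89.Bend

/-! # MP_2fbb77_gt: the bent data of a surface

(`A = emb (gpn i (j-1))`, `A' = emb (gpn i j)`, `ξ = nvec A`, `ξ' = nvec A'`, `x = node i j`, `τ = tau i j`; see `Bend.lean`.)
* `bend` is the chosen `s`.  `bend_foot`: if `tau i j ∉ L` then `A = A'` (`emb_foot`) and
  `A τ = cosh s • A τ - (ς sinh s) • ξ` gives `sinh s = 0`, `s = 0`.
* `bend_symm`: if `tau i j ∉ L` both are zero (`tau j (i+k) = - tau i j`, `neg_mem`; `tau_per`, `gpn_per`).  If `tau i j ∈ L`: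
  by `emb_leaf`, `emb (gpn j (i+k)) = A`, `emb (gpn j (i+k-1)) = A'`, so at the foot `(j, i+k)`, with `τ' = - τ`, `s'` = its bend:
  `A τ' = cosh s' • A' τ' - (ς sinh s') • ξ'`, i.e. `A τ = cosh s' • A' τ + (ς sinh s') • ξ'`.  Inverting the equations of
  `exists_bend`: `A τ = cosh s • A' τ + (ς sinh s) • ξ'`.  `A' τ` and `ξ'` are orthogonal, `ads (A' τ) (A' τ) = 1`,
  `ads ξ' ξ' = -1`, so `sinh s = sinh s'`.
* `surf_bd`: `A i j = emb (gpn i j)`, `ξ i j = nvec (A i j)`, `s i j = bend`; `cross`: `bend_foot` and `LF.cross_leaf`;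
  `leaf`: `0 < s` gives `tau i j ∈ L`, `emb_leaf`, `emb_side` for the gap `(j, i+k)`.  Periodicity: `gpn_per`; `bend`
  should be defined so that it is periodic, e.g. as `arsinh (ς * ads (A i j (tau i j)) (ξ i (j-1)))`
  (`ads (A' τ) ξ = - β`, so `s = arsinh (- ς β)`), with `gpn_per`, `tau_per`. -/

set_option autoImplicit false

noncomputable section

namespace Pool.Agent.Ads89

variable {k : ℕ} {n : ℤ → ℕ} {P : Polygon k n} {u : ℤ → Fin 4 → ℝ}
  {f : (Fin 3 → ℝ) → Fin 4 → ℝ} {ς : ℝ} {L : Set (Fin 3 → ℝ)} {i j l m : ℤ}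

theorem Ctx.bend_foot (C : Ctx P u f ς L) (h1 : i + 2 ≤ j) (h2 : j ≤ i + k - 2)
    (h0 : P.tau i j ∉ L) : bend P f L ς i j = 0 := by
  have h3 : gA P f L i j = gA P f L i (j - 1) := (C.emb_foot h1 h2 h0).symm
  have h4 : ads (gA P f L i (j - 1) (P.tau i j)) (nvec (gA P f L i (j - 1))) = 0 :=
    (C.nvec_spec (i := i) (j := j - 1) (by omega) (by omega)).1.2.1 _
  rw [bend, h3, h4, mul_zero, Real.arsinh_zero]

theorem Ctx.bend_symm (C : Ctx P u f ς L) (h1 : i + 2 ≤ j) (h2 : j ≤ i + k - 2) :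
    bend P f L ς j (i + k) = bend P f L ς i j := by
  have ht := P.tau_symm C.hk h1 h2
  by_cases h0 : P.tau i j ∈ L
  · obtain ⟨h3, h4⟩ := C.emb_leaf h1 h2 h0
    obtain ⟨_, h5, h6⟩ := C.bend_spec h1 h2
    have h7 : ads (nvec (gA P f L i (j - 1))) (nvec (gA P f L i (j - 1))) = -1 :=
      (C.nvec_spec (i := i) (j := j - 1) (by omega) (by omega)).1.1
    have h8 : ads (gA P f L i (j - 1) (P.tau i j)) (nvec (gA P f L i (j - 1))) = 0 :=
      (C.nvec_spec (i := i) (j := j - 1) (by omega) (by omega)).1.2.1 _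
    have h9 : ads (gA P f L i (j - 1) (P.tau i j)) (gA P f L i (j - 1) (P.tau i j)) = 1 := by
      rw [gA, (C.emb_flat (i := i) (j := j - 1) (by omega) (by omega)).1,
        P.tau_unit C.hk C.hn (by omega) (by omega)]
    have h3' : gA P f L j (i + k) = gA P f L i (j - 1) := h3.symm
    have h4' : gA P f L j (i + k - 1) = gA P f L i j := h4.symm
    have h10 : ads (gA P f L i j (P.tau i j)) (nvec (gA P f L i (j - 1))) =
        ς * Real.sinh (bend P f L ς i j) := by
      rw [h5, ads_sub_left, ads_smul_left, ads_smul_left, h7, h8]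
      ring
    have h11 : ads (gA P f L i (j - 1) (P.tau i j)) (nvec (gA P f L i j)) =
        -(ς * Real.sinh (bend P f L ς i j)) := by
      rw [h6, ads_sub_right, ads_smul_right, ads_smul_right, h8, h9]
      ring
    have h12 : bend P f L ς j (i + k) =
        Real.arsinh (ς * ads (gA P f L j (i + k) (P.tau j (i + k)))
          (nvec (gA P f L j (i + k - 1)))) := rfl
    have h13 : bend P f L ς i j =
        Real.arsinh (ς * ads (gA P f L i j (P.tau i j)) (nvec (gA P f L i (j - 1)))) := rfl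
    rw [h12, h3', h4', ht, map_neg, ads_neg_left, h11, neg_neg, ← h10, ← h13]
  · have h3 : P.tau j (i + k) ∉ L := fun h => h0 (by
      have := C.pl.neg_mem _ h
      rwa [ht, neg_neg] at this)
    rw [C.bend_foot h1 h2 h0, C.bend_foot (by omega) (by omega) h3]

theorem Ctx.bd (C : Ctx P u f ς L) :
    BD P u ς (gA P f L) (fun i j => nvec (gA P f L i j)) (bend P f L ς) where
  iso := fun i j h1 h2 => (C.emb_flat h1 h2).1
  nrm := fun i j h1 h2 => (C.nvec_spec h1 h2).1.1
  perp := fun i j h1 h2 => (C.nvec_spec h1 h2).1.2.1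
  fut := fun i j h1 h2 => (C.nvec_spec h1 h2).1.2.2
  side := fun i j h1 h2 => C.emb_side h1 h2
  corner := fun i => ⟨C.emb_corner i, congrArg nvec (C.emb_corner i)⟩
  bendA := fun i j h1 h2 => (C.bend_spec h1 h2).2.1
  bendN := fun i j h1 h2 => by
    have h3 := (C.emb_node (i := i) (j := j) (by omega) (by omega)).1
    have h4 := (C.emb_node (i := i) (j := j - 1) (by omega) (by omega)).2
    rw [sub_add_cancel] at h4
    exact h3.symm.trans h4
  bendX := fun i j h1 h2 => (C.bend_spec h1 h2).2.2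
  nonneg := fun i j h1 h2 => (C.bend_spec h1 h2).1
  symm := fun i j h1 h2 => C.bend_symm h1 h2
  perA := fun i j => by rw [gA, gA, gpn_per]
  perX := fun i j => by
    show nvec (gA P f L (i + k) (j + k)) = nvec (gA P f L i j)
    rw [gA, gA, gpn_per]
  perS := fun i j => by
    have h : j + (k : ℤ) - 1 = (j - 1) + k := by ring
    rw [bend, bend, gA, gA, gA, gA, h, gpn_per, gpn_per, P.tau_per]
  cross := fun i l j m h1 h2 h3 h4 => by
    by_cases h5 : P.tau i j ∈ L
    · by_cases h6 : P.tau l m ∈ L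
      · exact (LF.cross_leaf C.hk C.hn C.lf h1 h2 h3 h4 h5 h6).elim
      · exact Or.inr (C.bend_foot (by omega) (by omega) h6)
    · exact Or.inl (C.bend_foot (by omega) (by omega) h5)
  leaf := fun i j h1 h2 h3 => by
    by_cases h4 : P.tau i j ∈ L
    · have h5 := (C.emb_leaf h1 h2 h4).1
      have h6 := C.emb_side (i := j) (j := i + k) (by omega) (by omega)
      rw [gA, h5, h6]
    · rw [C.bend_foot h1 h2 h4] at h3
      exact (lt_irrefl _ h3).elim

theorem Ctx.agree (C : Ctx P u f ς L) : Agree P f (gA P f L) := by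
  intro i j h1 h2
  exact C.emb_node h1 h2

theorem Ctx.surf_bd (C : Ctx P u f ς L) : ∃ A ξ s, BD P u ς A ξ s ∧ Agree P f A :=
  ⟨_, _, _, C.bd, C.agree⟩

end Pool.Agent.Ads89
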