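import Pool.Agent.W_2fbb77_h89.Bd2

/-! # MP_2fbb77_gt: bending at the feet, and the bent data of a surface

* `exists_bend`: let `A = emb (gpn i (j-1))`, `A' = emb (gpn i j)`, `ξ = nvec A`, `ξ' = nvec A'`, `x = node i j`, `τ = tau i j`,
  `i + 2 ≤ j ≤ i + k - 2`.  `A x = f x = A' x` (`emb_node`), `A (v i) = u i = A' (v i)` (`emb_side`).  `A' τ` and `ξ'` are
  orthogonal to `A x` and `u i`; by `expand4` with the basis `A x, ξ, A τ, u i`:
  `A' τ = α • A τ + β • ξ`, `ξ' = γ • A τ + δ • ξ`, with `α² - β² = 1`, `δ² - γ² = 1`, `α γ = β δ`.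
  `om (A x) ξ > 0`, `om (A x) ξ' > 0`, so by `sheet` (base point `A x`) `ads ξ ξ' < 0`, i.e. `δ > 0`.
  Convexity (`nvec_spec`): with `y = node i (j+1) = cosh l • x + sinh l • τ`: `ς ads (A' y) ξ = ς sinh l * (-β) ≥ 0`; with
  `y = node i (j-1)`, a combination `cosh l' • x - sinh l' • τ` (`node_succ`, `tau_succ` for `j-1`, inverted):
  `ς ads (A y) ξ' = - ς sinh l' γ ≥ 0`.  From `α γ = β δ`, `δ > 0`: if `α > 0` then `γ = β`, `δ = α`; if `α < 0` then `γ = -β`,
  `δ = -α`, so `ς β ≤ 0` and `ς β ≥ 0`, `β = 0`, `α = -1`: then for small `t > 0` the points `cosh t • x ± sinh t • τ` are in the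
  two gaps (nonnegative combinations of the nodes, `emb_seg`), and `f` has the same value `cosh t • A x - sinh t • A τ` at both,
  contradiction to `Surf.inj`.  So `α > 0`; `s = arsinh (- ς β) ≥ 0`, `cosh s = α`, `β = - ς sinh s`.
  (`bend` is this `s`: `ads (A' τ) ξ = - β`.) -/

set_option autoImplicit false

noncomputable section

namespace Pool.Agent.Ads89

variable {k : ℕ} {n : ℤ → ℕ} {P : Polygon k n} {u : ℤ → Fin 4 → ℝ}
  {f : (Fin 3 → ℝ) → Fin 4 → ℝ} {ς : ℝ} {L : Set (Fin 3 → ℝ)} {i j l m : ℤ}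

/-- The embedding at the gap `(i, j)`. -/
def gA (P : Polygon k n) (f : (Fin 3 → ℝ) → Fin 4 → ℝ) (L : Set (Fin 3 → ℝ)) (i j : ℤ) :
    (Fin 3 → ℝ) →ₗ[ℝ] (Fin 4 → ℝ) := emb f L (gpn P i j)

def bend (P : Polygon k n) (f : (Fin 3 → ℝ) → Fin 4 → ℝ) (L : Set (Fin 3 → ℝ)) (ς : ℝ) (i j : ℤ) :
    ℝ := Real.arsinh (ς * ads (gA P f L i j (P.tau i j)) (nvec (gA P f L i (j - 1))))

theorem Ctx.bend_spec (C : Ctx P u f ς L) (h1 : i + 2 ≤ j) (h2 : j ≤ i + k - 2) :
    0 ≤ bend P f L ς i j ∧
    gA P f L i j (P.tau i j) = Real.cosh (bend P f L ς i j) • gA P f L i (j - 1) (P.tau i j) -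
      (ς * Real.sinh (bend P f L ς i j)) • nvec (gA P f L i (j - 1)) ∧
    nvec (gA P f L i j) = Real.cosh (bend P f L ς i j) • nvec (gA P f L i (j - 1)) -
      (ς * Real.sinh (bend P f L ς i j)) • gA P f L i (j - 1) (P.tau i j) := by
  have hk : (4 : ℤ) ≤ k := by exact_mod_cast C.hk
  have g1 : i + 1 ≤ j - 1 := by omega
  have g2 : j - 1 ≤ i + k - 2 := by omega
  have g3 : i + 1 ≤ j := by omega
  have hbend : bend P f L ς i j =
    Real.arsinh (ς * ads (gA P f L i j (P.tau i j)) (nvec (gA P f L i (j - 1)))) := rfl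
  have hisoA : ∀ y z, ads (gA P f L i (j - 1) y) (gA P f L i (j - 1) z) = mink y z :=
    (C.emb_flat g1 g2).1
  have hisoA' : ∀ y z, ads (gA P f L i j y) (gA P f L i j z) = mink y z :=
    (C.emb_flat g3 h2).1
  have hAv : gA P f L i (j - 1) (P.v i) = u i := C.emb_side g1 g2
  have hA'v : gA P f L i j (P.v i) = u i := C.emb_side g3 h2
  have hn1 : f (P.node i (j - 1)) = gA P f L i (j - 1) (P.node i (j - 1)) :=
    (C.emb_node g1 g2).1
  have hn2 : f (P.node i j) = gA P f L i (j - 1) (P.node i j) := by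
    have h := (C.emb_node g1 g2).2
    rw [sub_add_cancel] at h
    exact h
  have hn3 : f (P.node i j) = gA P f L i j (P.node i j) := (C.emb_node g3 h2).1
  have hn4 : f (P.node i (j + 1)) = gA P f L i j (P.node i (j + 1)) := (C.emb_node g3 h2).2
  obtain ⟨⟨n1, n2, n3⟩, cv⟩ := C.nvec_spec g1 g2
  obtain ⟨⟨n1', n2', n3'⟩, cv'⟩ := C.nvec_spec g3 h2
  change ads (nvec (gA P f L i (j - 1))) (nvec (gA P f L i (j - 1))) = -1 at n1
  change ∀ y, ads (gA P f L i (j - 1) y) (nvec (gA P f L i (j - 1))) = 0 at n2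
  change ∀ y ∈ H2, 0 < om (gA P f L i (j - 1) y) (nvec (gA P f L i (j - 1))) at n3
  change ∀ y ∈ H2, 0 ≤ ς * ads (f y) (nvec (gA P f L i (j - 1))) at cv
  change ads (nvec (gA P f L i j)) (nvec (gA P f L i j)) = -1 at n1'
  change ∀ y, ads (gA P f L i j y) (nvec (gA P f L i j)) = 0 at n2'
  change ∀ y ∈ H2, 0 < om (gA P f L i j y) (nvec (gA P f L i j)) at n3'
  change ∀ y ∈ H2, 0 ≤ ς * ads (f y) (nvec (gA P f L i j)) at cv'
  have hseg1 : ∀ a b : ℝ, 0 ≤ a → 0 ≤ b → a • P.node i (j - 1) + b • P.node i j ∈ H2 →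
      f (a • P.node i (j - 1) + b • P.node i j) =
        gA P f L i (j - 1) (a • P.node i (j - 1) + b • P.node i j) := by
    intro a b ha hb h
    have h3 := C.emb_seg (j := j - 1) (a := a) (b := b) g1 g2 ha hb
    rw [sub_add_cancel] at h3
    exact h3 h
  have hseg2 : ∀ a b : ℝ, 0 ≤ a → 0 ≤ b → a • P.node i j + b • P.node i (j + 1) ∈ H2 →
      f (a • P.node i j + b • P.node i (j + 1)) =
        gA P f L i j (a • P.node i j + b • P.node i (j + 1)) := by
    intro a b ha hb h
    exact C.emb_seg g3 h2 ha hb h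
  rw [hbend]
  generalize gA P f L i (j - 1) = A at *
  generalize gA P f L i j = A' at *
  generalize hξ : nvec A = ξ at *
  generalize hξ' : nvec A' = ξ' at *
  have hx : P.node i j ∈ H2 := P.node_mem C.hk C.hn g3 (by omega)
  have hxm : P.node i (j - 1) ∈ H2 := P.node_mem C.hk C.hn g1 (by omega)
  have hxp : P.node i (j + 1) ∈ H2 := P.node_mem C.hk C.hn (by omega) (by omega)
  have htt : mink (P.tau i j) (P.tau i j) = 1 := P.tau_unit C.hk C.hn g3 (by omega)
  have htx : mink (P.tau i j) (P.node i j) = 0 := P.tau_node i j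
  have htv : mink (P.tau i j) (P.v i) = 0 := P.tau_side i j
  have hxv : mink (P.node i j) (P.v i) = 0 := P.node_side C.hk g3 (by omega)
  have hvv : mink (P.v i) (P.v i) = 1 := P.unit i
  have hl : 0 < P.len i j := P.len_pos C.hk C.hn g3 h2
  have hl' : 0 < P.len i (j - 1) := P.len_pos C.hk C.hn g1 g2
  have hs1 := P.node_succ C.hk C.hn g3 h2
  have hs2 := P.node_succ C.hk C.hn g1 g2
  have hs3 := P.tau_succ C.hk C.hn g1 g2
  rw [sub_add_cancel] at hs2 hs3
  generalize P.len i j = l at *
  generalize P.len i (j - 1) = l' at *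
  have hs4 : P.node i (j - 1) = Real.cosh l' • P.node i j - Real.sinh l' • P.tau i j := by
    have hcs := Real.cosh_sq l'
    rw [hs2, hs3]
    ext t
    simp only [Pi.sub_apply, Pi.smul_apply, Pi.add_apply, smul_eq_mul]
    linear_combination (-(P.node i (j - 1) t)) * hcs
  have hxx : A (P.node i j) = A' (P.node i j) := hn2.symm.trans hn3
  have huu : ads (u i) (u i) = 1 := C.uunit i
  -- expansions
  have hexp := expand4 (a := A (P.node i j)) (b := ξ) (c := A (P.tau i j)) (d := u i)
    (by rw [hisoA]; exact hx.1) n1 (by rw [hisoA]; exact htt) huu (n2 _)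
    (by rw [hisoA, mink_comm]; exact htx) (by rw [← hAv, hisoA]; exact hxv)
    (by rw [ads_comm]; exact n2 _) (by rw [← hAv, ads_comm]; exact n2 _)
    (by rw [← hAv, hisoA]; exact htv)
  have hτ' : A' (P.tau i j) = ads (A' (P.tau i j)) (A (P.tau i j)) • A (P.tau i j) -
      ads (A' (P.tau i j)) ξ • ξ := by
    have h := hexp (A' (P.tau i j))
    have h3 : ads (A' (P.tau i j)) (A (P.node i j)) = 0 := by
      rw [hxx, hisoA']
      exact htx
    have h4 : ads (A' (P.tau i j)) (u i) = 0 := by
      rw [← hA'v, hisoA']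
      exact htv
    rw [h3, h4, neg_zero, zero_smul, zero_smul, add_zero, zero_sub] at h
    calc A' (P.tau i j) = _ := h
      _ = _ := by abel
  have hξe : ξ' = ads ξ' (A (P.tau i j)) • A (P.tau i j) - ads ξ' ξ • ξ := by
    have h := hexp ξ'
    have h3 : ads ξ' (A (P.node i j)) = 0 := by
      rw [hxx, ads_comm]
      exact n2' _
    have h4 : ads ξ' (u i) = 0 := by
      rw [← hA'v, ads_comm]
      exact n2' _
    rw [h3, h4, neg_zero, zero_smul, zero_smul, add_zero, zero_sub] at h
    calc ξ' = _ := h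
      _ = _ := by abel
  set α := ads (A' (P.tau i j)) (A (P.tau i j)) with hα
  set β := ads (A' (P.tau i j)) ξ with hβ
  set γ := ads ξ' (A (P.tau i j)) with hγ
  set δ := ads ξ' ξ with hδ
  have hAtt : ads (A (P.tau i j)) (A (P.tau i j)) = 1 := by rw [hisoA]; exact htt
  have hAtξ : ads (A (P.tau i j)) ξ = 0 := n2 _
  have hξAt : ads ξ (A (P.tau i j)) = 0 := by rw [ads_comm]; exact n2 _
  have q1 : α ^ 2 - β ^ 2 = 1 := by
    have h : ads (A' (P.tau i j)) (A' (P.tau i j)) = 1 := by rw [hisoA']; exact htt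
    rw [hτ'] at h
    simp only [ads_sub_left, ads_sub_right, ads_smul_left, ads_smul_right, hAtt, hAtξ, hξAt, n1]
      at h
    linarith
  have q2 : δ ^ 2 - γ ^ 2 = 1 := by
    have h := n1'
    rw [hξe] at h
    simp only [ads_sub_left, ads_sub_right, ads_smul_left, ads_smul_right, hAtt, hAtξ, hξAt, n1]
      at h
    linarith
  have q3 : α * γ - β * δ = 0 := by
    have h := n2' (P.tau i j)
    rw [hξe, hτ'] at h
    simp only [ads_sub_left, ads_sub_right, ads_smul_left, ads_smul_right, hAtt, hAtξ, hξAt, n1]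
      at h
    linarith
  have q4 : δ < 0 := by
    have h := sheet (a := A (P.node i j)) (b := ξ') (c := ξ) (by rw [hisoA]; exact hx.1) n1' n1
      (by rw [hxx]; exact n2' _) (n2 _)
    have h3 := n3 _ hx
    have h4 := n3' _ hx
    rw [← hxx] at h4
    have h5 := mul_pos h4 h3
    by_contra h6
    push Not at h6
    nlinarith
  have q5 : 0 ≤ ς * β := by
    have h := cv _ hxp
    rw [hn4, hs1, map_add, map_smul, map_smul, ads_add_left, ads_smul_left, ads_smul_left,
      ← hxx, n2, mul_zero, zero_add, ← hβ] at h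
    have h3 : 0 < Real.sinh l := Real.sinh_pos_iff.2 hl
    have h4 : 0 ≤ Real.sinh l * (ς * β) := by linarith
    exact nonneg_of_mul_nonneg_right h4 h3
  have q6 : ς * γ ≤ 0 := by
    have h := cv' _ hxm
    have h5 : ads (A (P.tau i j)) ξ' = γ := by rw [ads_comm]
    rw [hn1, hs4, map_sub, map_smul, map_smul, ads_sub_left, ads_smul_left, ads_smul_left,
      hxx, n2', mul_zero, zero_sub, h5] at h
    have h3 : 0 < Real.sinh l' := Real.sinh_pos_iff.2 hl'
    by_contra h6
    push Not at h6
    nlinarith [mul_pos h3 h6]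
  have hς2 : ς ^ 2 = 1 := by
    rcases C.hς with h | h <;> rw [h] <;> norm_num
  have q7 : γ ^ 2 = β ^ 2 := by
    have h3 : (α * γ) ^ 2 = (β * δ) ^ 2 := by
      have : α * γ = β * δ := by linarith
      rw [this]
    have h4 : α ^ 2 = 1 + β ^ 2 := by linarith
    have h5 : δ ^ 2 = 1 + γ ^ 2 := by linarith
    rw [mul_pow, mul_pow, h4, h5] at h3
    linarith
  have q8 : 0 < α := by
    by_contra h3
    push Not at h3
    -- then α = δ
    have h4 : α = δ := by
      have h5 : (α - δ) * (α + δ) = 0 := by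
        have : α ^ 2 - δ ^ 2 = 0 := by linarith
        linarith
      rcases mul_eq_zero.1 h5 with h6 | h6
      · linarith
      · linarith
    have h5 : γ = β := by
      have h6 : δ * (γ - β) = 0 := by
        rw [h4] at q3
        linarith
      rcases mul_eq_zero.1 h6 with h7 | h7
      · exact absurd h7 q4.ne
      · linarith
    have h6 : β = 0 := by
      rw [h5] at q6
      have h7 : ς * β = 0 := le_antisymm q6 q5
      have h8 : ς ^ 2 * β = 0 := by
        calc ς ^ 2 * β = ς * (ς * β) := by ring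
          _ = 0 := by rw [h7, mul_zero]
      rw [hς2, one_mul] at h8
      exact h8
    have h7 : α = -1 := by
      rw [h6] at q1
      nlinarith
    rw [h6, h7, zero_smul, sub_zero, neg_smul, one_smul] at hτ'
    -- the two points
    obtain ⟨t, ht0, htl, htl'⟩ : ∃ t : ℝ, 0 < t ∧ t ≤ l ∧ t ≤ l' :=
      ⟨min l l', lt_min hl hl', min_le_left _ _, min_le_right _ _⟩
    have hst : 0 < Real.sinh t := Real.sinh_pos_iff.2 ht0
    have hsl : 0 < Real.sinh l := Real.sinh_pos_iff.2 hl
    have hsl' : 0 < Real.sinh l' := Real.sinh_pos_iff.2 hl'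
    have hct : 0 < Real.cosh t := Real.cosh_pos t
    have hmem : ∀ e : ℝ, e ^ 2 = 1 →
        Real.cosh t • P.node i j + (e * Real.sinh t) • P.tau i j ∈ H2 := by
      intro e he
      refine mem_H2_of_mink hx ?_ ?_
      · simp only [mink_add_left, mink_add_right, mink_smul_left, mink_smul_right, hx.1, htt,
          htx, mink_comm (P.node i j) (P.tau i j)]
        have := Real.cosh_sq t
        nlinarith
      · simp only [mink_add_right, mink_smul_right, hx.1, htx,
          mink_comm (P.node i j) (P.tau i j)]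
        linarith
    have hp1 : Real.cosh t • P.node i j + (1 * Real.sinh t) • P.tau i j =
        (Real.sinh (l - t) / Real.sinh l) • P.node i j +
          (Real.sinh t / Real.sinh l) • P.node i (j + 1) := by
      rw [hs1, Real.sinh_sub]
      ext r
      simp only [Pi.smul_apply, Pi.add_apply, smul_eq_mul]
      field_simp
      ring
    have hp2 : Real.cosh t • P.node i j + ((-1) * Real.sinh t) • P.tau i j =
        (Real.sinh t / Real.sinh l') • P.node i (j - 1) +
          (Real.sinh (l' - t) / Real.sinh l') • P.node i j := by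
      rw [hs4, Real.sinh_sub]
      ext r
      simp only [Pi.smul_apply, Pi.add_apply, Pi.sub_apply, smul_eq_mul]
      field_simp
      ring
    have hm1 := hmem 1 (by norm_num)
    have hm2 := hmem (-1) (by norm_num)
    have hf1 : f (Real.cosh t • P.node i j + (1 * Real.sinh t) • P.tau i j) =
        A' (Real.cosh t • P.node i j + (1 * Real.sinh t) • P.tau i j) := by
      rw [hp1]
      apply hseg2
      · exact div_nonneg (Real.sinh_nonneg_iff.2 (by linarith)) hsl.le
      · exact div_nonneg hst.le hsl.le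
      · rw [← hp1]
        exact hm1
    have hf2 : f (Real.cosh t • P.node i j + ((-1) * Real.sinh t) • P.tau i j) =
        A (Real.cosh t • P.node i j + ((-1) * Real.sinh t) • P.tau i j) := by
      rw [hp2]
      apply hseg1
      · exact div_nonneg hst.le hsl'.le
      · exact div_nonneg (Real.sinh_nonneg_iff.2 (by linarith)) hsl'.le
      · rw [← hp2]
        exact hm2
    have hff : f (Real.cosh t • P.node i j + (1 * Real.sinh t) • P.tau i j) =
        f (Real.cosh t • P.node i j + ((-1) * Real.sinh t) • P.tau i j) := by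
      rw [hf1, hf2, map_add, map_smul, map_smul, map_add, map_smul, map_smul, hτ', ← hxx,
        smul_neg]
      simp only [one_mul, neg_mul, neg_smul]
    have heq := C.surf.inj hm1 hm2 hff
    have h8 := congrArg (fun y => mink y (P.tau i j)) heq
    simp only [mink_add_left, mink_smul_left, htt, mink_comm (P.node i j) (P.tau i j), htx] at h8
    linarith
  have q9 : α = -δ := by
    have h5 : (α - δ) * (α + δ) = 0 := by
      have : α ^ 2 - δ ^ 2 = 0 := by linarith
      linarith
    rcases mul_eq_zero.1 h5 with h6 | h6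
    · linarith
    · linarith
  have q10 : γ = -β := by
    have h6 : α * (γ + β) = 0 := by
      have : δ = -α := by linarith
      rw [this] at q3
      linarith
    rcases mul_eq_zero.1 h6 with h7 | h7
    · exact absurd h7 q8.ne'
    · linarith
  have hsinh : Real.sinh (Real.arsinh (ς * β)) = ς * β := Real.sinh_arsinh _
  have hcosh : Real.cosh (Real.arsinh (ς * β)) = α := by
    rw [Real.cosh_arsinh]
    have h3 : 1 + (ς * β) ^ 2 = α ^ 2 := by
      rw [mul_pow, hς2]
      linarith
    rw [h3, Real.sqrt_sq q8.le]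
  have hsς : ς * Real.sinh (Real.arsinh (ς * β)) = β := by
    rw [hsinh]
    calc ς * (ς * β) = ς ^ 2 * β := by ring
      _ = β := by rw [hς2, one_mul]
  refine ⟨Real.arsinh_nonneg_iff.2 q5, ?_, ?_⟩
  · rw [hcosh, hsς]
    exact hτ'
  · rw [hcosh, hsς]
    calc ξ' = γ • A (P.tau i j) - δ • ξ := hξe
      _ = α • ξ - β • A (P.tau i j) := by
        rw [q10, q9, neg_smul, neg_smul]
        abel

end Pool.Agent.Ads89
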