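import Mathlib

/-! # MP_2fbb77_gt: sign changes in lists

`ch L` is the number of sign changes in the list `L`, zeros ignored; `chA s L` is the number of sign changes in
`s :: L` for a sign `s ≠ 0`; `lastS s L` is the last nonzero sign of `s :: L`. -/

set_option autoImplicit false

namespace Pool.Agent.Ads89

/-- Number of sign changes in `s :: L` (`s ≠ 0`), zeros ignored. -/
def chA : SignType → List SignType → ℕ
  | _, [] => 0
  | s, x :: L => if x = 0 then chA s L else (if x = s then 0 else 1) + chA x L

/-- Number of sign changes in a list, zeros ignored. -/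
def ch : List SignType → ℕ
  | [] => 0
  | x :: L => if x = 0 then ch L else chA x L

def lastS : SignType → List SignType → SignType
  | s, [] => s
  | s, x :: L => lastS (if x = 0 then s else x) L

variable {s x y : SignType} {L L₁ L₂ α : List SignType}

theorem chA_append (s : SignType) (L₁ L₂ : List SignType) :
    chA s (L₁ ++ L₂) = chA s L₁ + chA (lastS s L₁) L₂ := by
  induction L₁ generalizing s with
  | nil => simp [chA, lastS]
  | cons a L ih =>
    simp only [List.cons_append, chA, lastS]
    split_ifs with h1 h2
    · exact ih s
    · rw [ih a]; ring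
    · rw [ih a]; ring

theorem ch_eq_chA (hs : s ≠ 0) (L : List SignType) : ch (s :: L) = chA s L := by
  simp [ch, hs]

theorem chA_le (s y : SignType) (L : List SignType) :
    chA s L ≤ (if y = s then 0 else 1) + chA y L := by
  induction L with
  | nil => simp [chA]
  | cons a L ih =>
    simp only [chA]
    by_cases h : a = 0
    · simp only [h, if_true]
      exact ih
    · simp only [h, if_false]
      have : (if a = s then 0 else 1) ≤ (if y = s then 0 else 1) + (if a = y then 0 else 1) := by
        by_cases h1 : a = s
        · simp [h1]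
        · by_cases h2 : a = y
          · subst h2
            simp [h1]
          · simp [h1, h2]
      omega

theorem lastS_ne_zero (hs : s ≠ 0) (L : List SignType) : lastS s L ≠ 0 := by
  induction L generalizing s with
  | nil => exact hs
  | cons a L ih =>
    simp only [lastS]
    split_ifs with h
    · exact ih hs
    · exact ih h

theorem chA_single (s y : SignType) (hy : y ≠ 0) : chA s [y] = if y = s then 0 else 1 := by
  simp [chA, hy]

theorem ch_cons_zero (L : List SignType) : ch (0 :: L) = ch L := by
  simp [ch]

theorem ch_cons_ne (hs : s ≠ 0) (L : List SignType) : ch (s :: L) = chA s L := ch_eq_chA hs L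

theorem chA_cons_zero (s : SignType) (L : List SignType) : chA s (0 :: L) = chA s L := by
  simp [chA]

theorem chA_cons_ne (hx : x ≠ 0) (s : SignType) (L : List SignType) :
    chA s (x :: L) = (if x = s then 0 else 1) + chA x L := by
  simp [chA, hx]

/-- Splitting at a nonzero sign. -/
theorem ch_split (hy : y ≠ 0) (L₁ L₂ : List SignType) :
    ch (L₁ ++ y :: L₂) = ch (L₁ ++ [y]) + ch (y :: L₂) := by
  induction L₁ with
  | nil => simp [ch, hy, chA]
  | cons a L ih =>
    rw [List.cons_append, List.cons_append]
    by_cases h1 : a = 0
    · subst h1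
      rw [ch_cons_zero, ch_cons_zero, ih]
    · rw [ch_cons_ne h1, ch_cons_ne h1, ch_cons_ne hy, chA_append, chA_append, chA_single _ _ hy,
        chA_cons_ne hy]
      omega

theorem ch_le_chA (y : SignType) (L : List SignType) : ch L ≤ chA y L := by
  induction L with
  | nil => simp [ch]
  | cons a L ih =>
    by_cases h : a = 0
    · subst h
      rw [ch_cons_zero, chA_cons_zero]
      exact ih
    · rw [ch_cons_ne h, chA_cons_ne h]
      omega

/-- Inserting a nonzero sign. -/
theorem ch_insert (hy : y ≠ 0) (L₁ L₂ : List SignType) :
    ch (L₁ ++ L₂) ≤ ch (L₁ ++ [y]) + ch (y :: L₂) := by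
  induction L₁ with
  | nil =>
    rw [List.nil_append, ch_cons_ne hy]
    have := ch_le_chA y L₂
    omega
  | cons a L ih =>
    rw [List.cons_append, List.cons_append]
    by_cases h1 : a = 0
    · subst h1
      rw [ch_cons_zero, ch_cons_zero]
      exact ih
    · rw [ch_cons_ne h1, ch_cons_ne h1, ch_cons_ne hy, chA_append, chA_append, chA_single _ _ hy]
      have := chA_le (lastS a L) y L₂
      omega

theorem chA_zeros (h : ∀ a ∈ L, a = 0) (s : SignType) : chA s L = 0 ∧ lastS s L = s := by
  induction L with
  | nil => simp [chA, lastS]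
  | cons a L ih =>
    have ha : a = 0 := h a (by simp)
    subst ha
    have := ih fun b hb => h b (by simp [hb])
    simp only [chA, lastS, if_true]
    exact this

theorem ch_zeros_left (h : ∀ a ∈ L, a = 0) (L' : List SignType) : ch (L ++ L') = ch L' := by
  induction L with
  | nil => rfl
  | cons a L ih =>
    have ha : a = 0 := h a (by simp)
    subst ha
    rw [List.cons_append, ch_cons_zero]
    exact ih fun b hb => h b (by simp [hb])

theorem ch_zeros_right (h : ∀ a ∈ L, a = 0) (L' : List SignType) : ch (L' ++ L) = ch L' := by
  induction L' with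
  | nil =>
    rw [List.nil_append]
    have := ch_zeros_left h []
    rw [List.append_nil] at this
    rw [this]
  | cons a L' ih =>
    by_cases ha : a = 0
    · subst ha
      rw [List.cons_append, ch_cons_zero, ch_cons_zero, ih]
    · rw [List.cons_append, ch_cons_ne ha, ch_cons_ne ha, chA_append, (chA_zeros h _).1, add_zero]

/-- A zero inside a list can be removed. -/
theorem ch_zero_mid (L₁ L₂ : List SignType) : ch (L₁ ++ 0 :: L₂) = ch (L₁ ++ L₂) := by
  induction L₁ with
  | nil => rw [List.nil_append, List.nil_append, ch_cons_zero]
  | cons a L ih =>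
    rw [List.cons_append, List.cons_append]
    by_cases h1 : a = 0
    · subst h1
      rw [ch_cons_zero, ch_cons_zero, ih]
    · rw [ch_cons_ne h1, ch_cons_ne h1, chA_append, chA_append, chA_cons_zero]

theorem chA_sublist {L' : List SignType} (h : L'.Sublist L) (s : SignType) :
    chA s L' ≤ chA s L := by
  induction h generalizing s with
  | slnil => exact le_refl _
  | cons a h ih =>
    by_cases ha : a = 0
    · subst ha
      rw [chA_cons_zero]
      exact ih s
    · rw [chA_cons_ne ha]
      rename_i l₁ l₂
      exact (ih s).trans (chA_le s a l₂)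
  | cons_cons a h ih =>
    by_cases ha : a = 0
    · subst ha
      rw [chA_cons_zero, chA_cons_zero]
      exact ih s
    · rw [chA_cons_ne ha, chA_cons_ne ha]
      have := ih a
      omega

/-- Sublists have at most as many sign changes. -/
theorem ch_sublist {L' : List SignType} (h : L'.Sublist L) : ch L' ≤ ch L := by
  induction h with
  | slnil => exact le_refl _
  | cons a h ih =>
    by_cases ha : a = 0
    · subst ha
      rw [ch_cons_zero]
      exact ih
    · rw [ch_cons_ne ha]
      exact ih.trans (ch_le_chA _ _)
  | cons_cons a h ih =>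
    by_cases ha : a = 0
    · subst ha
      rw [ch_cons_zero, ch_cons_zero]
      exact ih
    · rw [ch_cons_ne ha, ch_cons_ne ha]
      exact chA_sublist h a

theorem ch_nonpos_aux (hα : ∀ a ∈ α, a = 0 ∨ a = -1) (hx : x = 1 ∨ x = -1) :
    chA (-1) (α ++ [x]) = (if x = 1 then 1 else 0) ∧
      chA 1 (α ++ [x]) = (if x = 1 then (if ∃ a ∈ α, a ≠ 0 then 2 else 0) else 1) := by
  induction α with
  | nil => rcases hx with rfl | rfl <;> decide
  | cons a α ih =>
    obtain ⟨h1, h2⟩ := ih fun b hb => hα b (by simp [hb])
    rcases hα a (by simp) with rfl | rfl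
    · rw [List.cons_append, chA_cons_zero, chA_cons_zero, h1, h2]
      simp
    · rw [List.cons_append, chA_cons_ne (by decide), chA_cons_ne (by decide), h1]
      rcases hx with rfl | rfl <;> simp

/-- Sign changes of `y, α, x` where `α` consists of zeros and `-1`. -/
theorem ch_nonpos (hα : ∀ a ∈ α, a = 0 ∨ a = -1) (hx : x = 1 ∨ x = -1) (hy : y = 1 ∨ y = -1) :
    ch (y :: (α ++ [x])) = if y = x then (if y = 1 ∧ ∃ a ∈ α, a ≠ 0 then 2 else 0) else 1 := by
  obtain ⟨h1, h2⟩ := ch_nonpos_aux hα hx
  rcases hy with rfl | rfl
  · rw [ch_cons_ne (by decide), h2]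
    rcases hx with rfl | rfl <;> simp
  · rw [ch_cons_ne (by decide), h1]
    rcases hx with rfl | rfl <;> simp

end Pool.Agent.Ads89
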