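import Pool.Agent.W_2fbb77_h89.Mat

/-! # MP_2fbb77_gt: positivity along a chain

`Ec t l s n = R(-t) * Pc l s n` is the frame before the edge `n`, `Qc t l s n = Ec t l s n * Hm (l n)` the frame
at the end of the edge `n` (at the vertex `n`, before the bend, if `n < m`; at the right end if `n = m`).
`Ec t l s (n + 1) = Qc t l s n * Bm (s n)`.

`Pos E`: `0 ≤ E 0 1 < E 0 0`, `E 1 0 ≤ 0 < E 1 0 + E 1 1`.

Forward: the first row of `Ec 0` is `(cos (t₁/2), sin (t₁/2))`, `0 ≤ t₁/2 < π/4`, so `0 ≤ E 0 1 < E 0 0`; this is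
preserved by multiplication on the right by `Hm l` (`l > 0`) and by `Bm s` (`s ≥ 0`: the difference is
multiplied by `cosh (s/2) - sinh (s/2) > 0`).
Backward: the last frame is `Qc m = Hm D * Rm (-t₂)` (`Ch.Qc_last`), with second row
`e^{-D/2} (-sin (t₂/2), cos (t₂/2))`; `E 1 0 ≤ 0 < E 1 0 + E 1 1` is preserved by multiplication on the right by
`Hm (-l)` and by `Bm (-s)` (`s ≥ 0`); `Ec n = Qc n * Hm (-(l n))`, `Qc n = Ec (n+1) * Bm (-(s n))`.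
So do a downward induction from `m`, e.g. prove it for `n = m - j`, `j ≤ m`, by induction on `j`.
`Qc_strict`: `Qc n = Ec (n + 1) * Bm (-(s n))`, so `(Qc n) 1 0 = cosh (s/2) E10 - sinh (s/2) E11 < 0` for
`E = Ec (n+1)`, as `E10 ≤ 0 < E11`. -/

set_option autoImplicit false

noncomputable section

namespace Pool.Agent.Ads89

open Real

def Ec (t : ℝ) (l s : ℕ → ℝ) (n : ℕ) : M2 := Rm (-t) * Pc l s n

def Qc (t : ℝ) (l s : ℕ → ℝ) (n : ℕ) : M2 := Ec t l s n * Hm (l n)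

/-- Positivity of a frame. -/
def Pos (E : M2) : Prop := 0 ≤ E 0 1 ∧ E 0 1 < E 0 0 ∧ E 1 0 ≤ 0 ∧ 0 < E 1 0 + E 1 1

/-- A chain with `m` bends `s n ≥ 0` and `m + 1` edges of lengths `l n > 0`, with its decomposition. -/
structure Ch (l s : ℕ → ℝ) (m : ℕ) (t₁ t₂ D : ℝ) : Prop where
  hl : ∀ n ≤ m, 0 < l n
  hs : ∀ n < m, 0 ≤ s n
  ht₁ : 0 ≤ t₁ ∧ t₁ < π / 2
  ht₂ : 0 ≤ t₂ ∧ t₂ < π / 2
  hD : 0 < D
  hP : Pf l s m = Rm t₁ * Hm D * Rm (-t₂)

variable {l s : ℕ → ℝ} {m : ℕ} {t₁ t₂ D : ℝ}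

theorem Ec_zero (t : ℝ) (l s : ℕ → ℝ) : Ec t l s 0 = Rm (-t) := by
  simp [Ec, Pc]

theorem Ec_succ (t : ℝ) (l s : ℕ → ℝ) (n : ℕ) : Ec t l s (n + 1) = Qc t l s n * Bm (s n) := by
  simp only [Ec, Qc, Pc, Matrix.mul_assoc]

theorem det_Ec (t : ℝ) (l s : ℕ → ℝ) (n : ℕ) : (Ec t l s n).det = 1 := by
  rw [Ec, Matrix.det_mul, det_Rm, det_Pc, one_mul]

theorem det_Qc (t : ℝ) (l s : ℕ → ℝ) (n : ℕ) : (Qc t l s n).det = 1 := by
  rw [Qc, Matrix.det_mul, det_Ec, det_Hm, one_mul]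

theorem Ch.Qc_last (H : Ch l s m t₁ t₂ D) : Qc t₁ l s m = Hm D * Rm (-t₂) := by
  have h1 : Qc t₁ l s m = Rm (-t₁) * Pf l s m := by
    simp only [Qc, Ec, Pf, Matrix.mul_assoc]
  rw [h1, H.hP, ← Matrix.mul_assoc, ← Matrix.mul_assoc, Rm_mul, neg_add_cancel, Rm_zero, one_mul]

private def FP (E : M2) : Prop := 0 ≤ E 0 1 ∧ E 0 1 < E 0 0

private def BP (E : M2) : Prop := E 1 0 ≤ 0 ∧ 0 < E 1 0 + E 1 1

private theorem FP.H {E : M2} (h : FP E) {x : ℝ} (hx : 0 ≤ x) : FP (E * Hm x) := by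
  obtain ⟨h1, h2⟩ := h
  have e1 : (1 : ℝ) ≤ exp (x / 2) := one_le_exp (by linarith)
  have e2 : exp (-(x / 2)) ≤ 1 := exp_le_one_iff.2 (by linarith)
  have e3 : 0 < exp (-(x / 2)) := exp_pos _
  have a1 : (E * Hm x) 0 1 = E 0 1 * exp (-(x / 2)) := by
    simp [Hm, Matrix.mul_apply, Fin.sum_univ_two]
  have a0 : (E * Hm x) 0 0 = E 0 0 * exp (x / 2) := by
    simp [Hm, Matrix.mul_apply, Fin.sum_univ_two]
  unfold FP
  rw [a0, a1]
  exact ⟨by positivity, by nlinarith⟩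

private theorem FP.B {E : M2} (h : FP E) {x : ℝ} (hx : 0 ≤ x) : FP (E * Bm x) := by
  obtain ⟨h1, h2⟩ := h
  have e1 : 0 ≤ sinh (x / 2) := sinh_nonneg_iff.2 (by linarith)
  have e2 : 0 < cosh (x / 2) := cosh_pos _
  have e3 : 0 < cosh (x / 2) - sinh (x / 2) := by
    rw [cosh_sub_sinh]
    exact exp_pos _
  have a1 : (E * Bm x) 0 1 = E 0 0 * sinh (x / 2) + E 0 1 * cosh (x / 2) := by
    simp [Bm, Matrix.mul_apply, Fin.sum_univ_two]
  have a0 : (E * Bm x) 0 0 = E 0 0 * cosh (x / 2) + E 0 1 * sinh (x / 2) := by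
    simp [Bm, Matrix.mul_apply, Fin.sum_univ_two]
  have h0 : 0 < E 0 0 := h1.trans_lt h2
  unfold FP
  rw [a0, a1]
  exact ⟨by positivity, by nlinarith [mul_pos (sub_pos.2 h2) e3]⟩

private theorem BP.H {E : M2} (h : BP E) {x : ℝ} (hx : 0 ≤ x) : BP (E * Hm (-x)) := by
  obtain ⟨h1, h2⟩ := h
  have e1 : (1 : ℝ) ≤ exp (x / 2) := one_le_exp (by linarith)
  have e2 : exp (-(x / 2)) ≤ 1 := exp_le_one_iff.2 (by linarith)
  have e3 : 0 < exp (-(x / 2)) := exp_pos _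
  have a1 : (E * Hm (-x)) 1 0 = E 1 0 * exp (-(x / 2)) := by
    simp [Hm, Matrix.mul_apply, Fin.sum_univ_two, neg_div]
  have a0 : (E * Hm (-x)) 1 1 = E 1 1 * exp (x / 2) := by
    simp [Hm, Matrix.mul_apply, Fin.sum_univ_two, neg_div]
  unfold BP
  rw [a0, a1]
  exact ⟨by nlinarith, by nlinarith⟩

private theorem BP.B {E : M2} (h : BP E) {x : ℝ} (hx : 0 ≤ x) : BP (E * Bm (-x)) := by
  obtain ⟨h1, h2⟩ := h
  have e1 : 0 ≤ sinh (x / 2) := sinh_nonneg_iff.2 (by linarith)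
  have e2 : 0 < cosh (x / 2) := cosh_pos _
  have e3 : 0 < cosh (x / 2) - sinh (x / 2) := by
    rw [cosh_sub_sinh]
    exact exp_pos _
  have a1 : (E * Bm (-x)) 1 0 = E 1 0 * cosh (x / 2) - E 1 1 * sinh (x / 2) := by
    simp [Bm, Matrix.mul_apply, Fin.sum_univ_two, neg_div]
    ring
  have a0 : (E * Bm (-x)) 1 1 = -(E 1 0 * sinh (x / 2)) + E 1 1 * cosh (x / 2) := by
    simp [Bm, Matrix.mul_apply, Fin.sum_univ_two, neg_div]
  unfold BP
  rw [a0, a1]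
  have h0 : 0 < E 1 1 := by linarith
  have h3 := mul_nonneg h0.le e1
  have h4 := mul_nonneg (neg_nonneg.2 h1) e2.le
  exact ⟨by linarith, by nlinarith [mul_pos h2 e3]⟩

private theorem BP.Bs {E : M2} (h : BP E) {x : ℝ} (hx : 0 < x) : (E * Bm (-x)) 1 0 < 0 := by
  obtain ⟨h1, h2⟩ := h
  have e1 : 0 < sinh (x / 2) := sinh_pos_iff.2 (by linarith)
  have e2 : 0 < cosh (x / 2) := cosh_pos _
  have a1 : (E * Bm (-x)) 1 0 = E 1 0 * cosh (x / 2) - E 1 1 * sinh (x / 2) := by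
    simp [Bm, Matrix.mul_apply, Fin.sum_univ_two, neg_div]
    ring
  have h0 : 0 < E 1 1 := by linarith
  have h3 := mul_pos h0 e1
  have h4 := mul_nonneg (neg_nonneg.2 h1) e2.le
  rw [a1]
  linarith

private theorem Ch.fwd (H : Ch l s m t₁ t₂ D) : ∀ n ≤ m, FP (Ec t₁ l s n) := by
  intro n
  induction n with
  | zero =>
    intro _
    rw [Ec_zero]
    have a1 : (Rm (-t₁)) 0 1 = sin (t₁ / 2) := by simp [Rm, neg_div]
    have a0 : (Rm (-t₁)) 0 0 = cos (t₁ / 2) := by simp [Rm, neg_div]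
    unfold FP
    rw [a0, a1]
    have h1 := H.ht₁.1
    have h2 := H.ht₁.2
    refine ⟨sin_nonneg_of_nonneg_of_le_pi (by linarith) (by linarith [pi_pos]), ?_⟩
    rw [← cos_pi_div_two_sub]
    exact cos_lt_cos_of_nonneg_of_le_pi (by linarith) (by linarith [pi_pos]) (by linarith)
  | succ n ih =>
    intro hn
    rw [Ec_succ, Qc]
    exact ((ih (by omega)).H (H.hl n (by omega)).le).B (H.hs n (by omega))

private theorem Qc_mul (t : ℝ) (l s : ℕ → ℝ) (n : ℕ) : Ec t l s n = Qc t l s n * Hm (-(l n)) := by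
  rw [Qc, Matrix.mul_assoc, Hm_mul, add_neg_cancel, Hm_zero, mul_one]

private theorem Qc_eq (t : ℝ) (l s : ℕ → ℝ) (n : ℕ) :
    Qc t l s n = Ec t l s (n + 1) * Bm (-(s n)) := by
  rw [Ec_succ, Matrix.mul_assoc, Bm_mul, add_neg_cancel, Bm_zero, mul_one]

private theorem Ch.bwd (H : Ch l s m t₁ t₂ D) : ∀ j n : ℕ, n + j = m → BP (Qc t₁ l s n) := by
  intro j
  induction j with
  | zero =>
    intro n hn
    have hn' : n = m := by omega
    subst hn'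
    rw [H.Qc_last]
    have a1 : (Hm D * Rm (-t₂)) 1 0 = -(exp (-(D / 2)) * sin (t₂ / 2)) := by
      simp [Hm, Rm, Matrix.mul_apply, Fin.sum_univ_two, neg_div]
    have a0 : (Hm D * Rm (-t₂)) 1 1 = exp (-(D / 2)) * cos (t₂ / 2) := by
      simp [Hm, Rm, Matrix.mul_apply, Fin.sum_univ_two, neg_div]
    unfold BP
    rw [a0, a1]
    have h1 := H.ht₂.1
    have h2 := H.ht₂.2
    have h3 : 0 ≤ sin (t₂ / 2) :=
      sin_nonneg_of_nonneg_of_le_pi (by linarith) (by linarith [pi_pos])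
    have h4 : sin (t₂ / 2) < cos (t₂ / 2) := by
      rw [← cos_pi_div_two_sub]
      exact cos_lt_cos_of_nonneg_of_le_pi (by linarith) (by linarith [pi_pos]) (by linarith)
    have h5 : 0 < exp (-(D / 2)) := exp_pos _
    exact ⟨by nlinarith [mul_nonneg h5.le h3], by nlinarith [mul_pos h5 (sub_pos.2 h4)]⟩
  | succ j ih =>
    intro n hn
    have h1 := ih (n + 1) (by omega)
    have h2 : BP (Ec t₁ l s (n + 1)) := by
      rw [Qc_mul]
      exact h1.H (H.hl _ (by omega)).le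
    rw [Qc_eq]
    exact h2.B (H.hs n (by omega))

private theorem Ch.bwdE (H : Ch l s m t₁ t₂ D) {n : ℕ} (hn : n ≤ m) : BP (Ec t₁ l s n) := by
  rw [Qc_mul]
  exact (H.bwd (m - n) n (by omega)).H (H.hl n hn).le

theorem Ch.Ec_pos (H : Ch l s m t₁ t₂ D) {n : ℕ} (hn : n ≤ m) : Pos (Ec t₁ l s n) :=
  ⟨(H.fwd n hn).1, (H.fwd n hn).2, (H.bwdE hn).1, (H.bwdE hn).2⟩

theorem Ch.Qc_pos (H : Ch l s m t₁ t₂ D) {n : ℕ} (hn : n ≤ m) : Pos (Qc t₁ l s n) := by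
  have h1 : FP (Qc t₁ l s n) := (H.fwd n hn).H (H.hl n hn).le
  have h2 := H.bwd (m - n) n (by omega)
  exact ⟨h1.1, h1.2, h2.1, h2.2⟩

theorem Ch.Qc_strict (H : Ch l s m t₁ t₂ D) {n : ℕ} (hn : n < m) (h : 0 < s n) :
    (Qc t₁ l s n) 1 0 < 0 := by
  rw [Qc_eq]
  exact (H.bwdE (n := n + 1) (by omega)).Bs h

/-- The trace of `F E⁻¹` is positive. -/
theorem Pos.trace_pos {E F : M2} (hE : Pos E) (hF : Pos F) :
    0 < (F * E.adjugate) 0 0 + (F * E.adjugate) 1 1 := by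
  obtain ⟨h1, h2, h3, h4⟩ := hE
  obtain ⟨g1, g2, g3, g4⟩ := hF
  have e1 : (F * E.adjugate) 0 0 + (F * E.adjugate) 1 1 =
      F 0 0 * E 1 1 + F 0 1 * (-E 1 0) + (-F 1 0) * E 0 1 + F 1 1 * E 0 0 := by
    rw [Matrix.adjugate_fin_two]
    simp [Matrix.mul_apply, Fin.sum_univ_two]
    ring
  rw [e1]
  have a1 : 0 < F 0 0 * E 1 1 := mul_pos (by linarith) (by linarith)
  have a2 : 0 ≤ F 0 1 * (-E 1 0) := mul_nonneg g1 (by linarith)
  have a3 : 0 ≤ (-F 1 0) * E 0 1 := mul_nonneg (by linarith) h1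
  have a4 : 0 < F 1 1 * E 0 0 := mul_pos (by linarith) (by linarith)
  linarith

end Pool.Agent.Ads89
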