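import Pool.Agent.W_2fbb77_h89.Count

/-! # MP_2fbb77_gt: the combinatorial lemma

The vertices are `0, …, k-1` in cyclic order, on the equator of a sphere.  `T i j` is the sign of the upper chord
`i j` (or of the equator edge if `i, j` are adjacent), `B i j` the sign of the lower chord (or of the same equator
edge).  `cycSeq k T B i x`, `x = 0, …, 2k-5`, is the cyclic sequence of the signs at `i`: `T i (i+1), …, T i (i-1)`
(`x ≤ k - 2`), `B i (i-2), …, B i (i+2)` (`x ≥ k - 1`).

`comb`: if for every `i` all signs at `i` are zero or there are four alternating signs, then all are zero.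

Proof.  `V` = the set of `i < k` with some nonzero sign at `i` (live).  Suppose `V` is not empty; for `i ∈ V` the four
alternating signs go to live vertices, in particular `2 ≤ |V|`.
For `a < b` in `V` which are consecutive in `V`, or `a = min V`, `b = max V`, put `x(a,b) = T a b` if this is not `0`,
otherwise `B a b` if this is not `0`, otherwise `1`.  Let `T' a b = T' b a = x(a,b)` for these pairs, `T' = T` for the
other pairs `i ≠ j` in `V`, and `T' = 0` if one of `i, j` is not in `V` or `i = j`.  The same for `B'` (with the same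
`x(a,b)`).  Then `T' i j = T i j` if `T i j ≠ 0`, `i ≠ j` (`i, j < k`); `B' i j = B i j` if `B i j ≠ 0`: for the special pairs:
if `a, b` are adjacent (cyclically) then `T a b = B a b` (`heq`), otherwise not both `T a b` and `B a b` are `≠ 0` by `hdigon`
(all vertices strictly between are dead; for `a = min V`, `b = max V` use the arc from `b` to `a + k`).
`count` applies to `T'` and to `B'`: crossing: a special pair crosses no pair of elements of `V`.  So
`∑_{i ∈ V} (ch (fan k T' i) + ch (fan k B' i)) + 8 ≤ 4 |V|`.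
On the other hand `4 ≤ ch (fan k T' i) + ch (fan k B' i)` for `i ∈ V`: let `x_s` be the first nonzero sign of
`fan k T' i`; it is at the next vertex of `V` after `i` (cyclically) and is also the first nonzero sign of
`fan k B' i`; let `x_e` be the last nonzero sign of `fan k T' i`, at the previous vertex, also the last nonzero sign of
`fan k B' i`.  Let `σ₁, …, σ₄` be the alternating signs, `r` of them in the upper part.  Tool: if a list `L` has a sublist
`[x_s] ++ [σ₁, …, σ_r] ++ [x_e]` (weakly: the first and the last may coincide with `σ₁`, `σ_r`) then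
`ch L ≥ [x_s ≠ σ₁] + (r - 1) + [σ_r ≠ x_e]` (`1 ≤ r`), and `ch L ≥ [x_s ≠ x_e]`.  For `1 ≤ r ≤ 3` the sum is at least
`[x_s ≠ σ₁] + (r-1) + [σ_r ≠ x_e] + [x_s ≠ σ₄] + (4-r-1) + [σ_(r+1) ≠ x_e] ≥ 2 + 1 + 1` since `σ₁ ≠ σ₄`,
`σ_r ≠ σ_(r+1)`; for `r = 4`: `3 + [x_s ≠ σ₁] + [σ₄ ≠ x_e] + [x_s ≠ x_e] ≥ 4` since `σ₁ ≠ σ₄`; for `r = 0` the same for
the lower part.
(`fan k T' i = (List.range' 1 (k-1)).map (fun d => T' i ((i + d) % k))`.)
Contradiction: `4 |V| + 8 ≤ 4 |V|`. -/

set_option autoImplicit false

namespace Pool.Agent.Ads89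

/-- The cyclic sequence of signs at the vertex `i` (indices `0, …, 2k - 5`). -/
def cycSeq (k : ℕ) (T B : ℕ → ℕ → SignType) (i x : ℕ) : SignType :=
  if x ≤ k - 2 then T i ((i + x + 1) % k) else B i ((i + (2 * k - 3 - x)) % k)

/-- Four alternating signs among the first `n` terms of a sequence. -/
def Alt4 (n : ℕ) (c : ℕ → SignType) : Prop :=
  ∃ i₁ i₂ i₃ i₄, i₁ < i₂ ∧ i₂ < i₃ ∧ i₃ < i₄ ∧ i₄ < n ∧ c i₁ ≠ 0 ∧ c i₂ = -c i₁ ∧ c i₃ = c i₁ ∧
    c i₄ = -c i₁

theorem Comb_fan (k : ℕ) (lab : ℕ → ℕ → SignType) {i : ℕ} (hi : i < k) :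
    fan k lab i = Count_seg (fun d => lab i ((i + d) % k)) 1 k := by
  unfold fan Count_seg
  have e1 : k - 1 = (k - 1 - i) + i := by omega
  have e2 : List.range' 1 (k - 1) = List.range' 1 (k - 1 - i) ++ List.range' (k - i) i := by
    conv_lhs => rw [e1]
    rw [← List.range'_append_1]
    have : 1 + (k - 1 - i) = k - i := by omega
    rw [this]
  rw [e2, List.map_append]
  congr 1
  · rw [List.range'_eq_map_range, List.range'_eq_map_range, List.map_map, List.map_map]
    refine List.map_congr_left fun j hj => ?_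
    rw [List.mem_range] at hj
    simp only [Function.comp]
    rw [Nat.mod_eq_of_lt (by omega)]
    congr 1
    omega
  · rw [List.range'_eq_map_range, List.map_map]
    refine List.map_congr_left fun j hj => ?_
    rw [List.mem_range] at hj
    simp only [Function.comp]
    congr 1
    have : i + (k - i + j) = j + k := by omega
    rw [this, Nat.add_mod_right, Nat.mod_eq_of_lt (by omega)]

theorem Comb_chA_weak (f : ℕ → SignType) (b : ℕ) (Q : List ℕ) :
    ∀ (a : ℕ) (s : SignType), (∀ q ∈ Q, a ≤ q ∧ q < b) → Q.Pairwise (· ≤ ·) →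
      chA s (Q.map f) ≤ chA s (Count_seg f a b) := by
  induction Q with
  | nil => intro a s _ _; simp [chA]
  | cons q Q ih =>
    intro a s hQ hP
    obtain ⟨h1, h2⟩ := hQ q (by simp)
    rw [List.pairwise_cons] at hP
    have hsub : (Count_seg f q b).Sublist (Count_seg f a b) := by
      have e1 : Count_seg f q b = f q :: Count_seg f (q + 1) b := by
        rw [Count_seg_split f (le_refl q) h2]
        simp [Count_seg]
      rw [e1, Count_seg_split f h1 h2]
      exact List.sublist_append_right _ _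
    have e1 : Count_seg f q b = f q :: Count_seg f (q + 1) b := by
      rw [Count_seg_split f (le_refl q) h2]
      simp [Count_seg]
    refine le_trans ?_ (chA_sublist hsub s)
    have hQ' : ∀ r ∈ Q, q ≤ r ∧ r < b := fun r hr => ⟨hP.1 r hr, (hQ r (by simp [hr])).2⟩
    rw [List.map_cons]
    by_cases h0 : f q = 0
    · rw [h0, chA_cons_zero]
      exact ih q s hQ' hP.2
    · rw [chA_cons_ne h0, e1, chA_cons_ne h0]
      have := ih q (f q) hQ' hP.2
      rw [e1, chA_cons_ne h0] at this
      simp only [if_true] at this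
      omega

theorem Comb_ch_weak (f : ℕ → SignType) {a b q : ℕ} (Q : List ℕ) (h1 : a ≤ q) (h2 : q < b)
    (h0 : f q ≠ 0) (hQ : ∀ r ∈ Q, q ≤ r ∧ r < b) (hP : Q.Pairwise (· ≤ ·)) :
    ch ((q :: Q).map f) ≤ ch (Count_seg f a b) := by
  have e1 : Count_seg f q b = f q :: Count_seg f (q + 1) b := by
    rw [Count_seg_split f (le_refl q) h2]
    simp [Count_seg]
  have hsub : (Count_seg f q b).Sublist (Count_seg f a b) := by
    rw [e1, Count_seg_split f h1 h2]
    exact List.sublist_append_right _ _
  refine le_trans ?_ (ch_sublist hsub)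
  rw [List.map_cons, ch_cons_ne h0, e1, ch_cons_ne h0]
  have := Comb_chA_weak f b Q q (f q) hQ hP
  rw [e1, chA_cons_ne h0] at this
  simpa using this

theorem Comb_dec4 : ∀ xs xe σ : SignType, xs ≠ 0 → xe ≠ 0 → σ ≠ 0 →
    4 ≤ ch [xs, σ, -σ, σ, -σ, xe] + ch [xs, xe] := by decide

theorem Comb_dec3 : ∀ xs xe σ : SignType, xs ≠ 0 → xe ≠ 0 → σ ≠ 0 →
    4 ≤ ch [xs, σ, -σ, σ, xe] + ch [xs, -σ, xe] := by decide

theorem Comb_dec2 : ∀ xs xe σ : SignType, xs ≠ 0 → xe ≠ 0 → σ ≠ 0 →
    4 ≤ ch [xs, σ, -σ, xe] + ch [xs, -σ, σ, xe] := by decide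

theorem Comb_dec1 : ∀ xs xe σ : SignType, xs ≠ 0 → xe ≠ 0 → σ ≠ 0 →
    4 ≤ ch [xs, σ, xe] + ch [xs, -σ, σ, -σ, xe] := by decide

theorem Comb_dec0 : ∀ xs xe σ : SignType, xs ≠ 0 → xe ≠ 0 → σ ≠ 0 →
    4 ≤ ch [xs, xe] + ch [xs, -σ, σ, -σ, σ, xe] := by decide

/-- The local claim: four alternating signs give four sign changes. -/
theorem Comb_local {k : ℕ} (hk : 4 ≤ k) (t b : ℕ → SignType) (ds de : ℕ) (h1 : 1 ≤ ds)
    (h2 : ds ≤ de) (h3 : de < k) (hs : t ds ≠ 0) (hs' : b ds = t ds) (he : t de ≠ 0)
    (he' : b de = t de) (ht : ∀ d, 1 ≤ d → d < k → t d ≠ 0 → ds ≤ d ∧ d ≤ de)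
    (hb : ∀ d, 1 ≤ d → d < k → b d ≠ 0 → ds ≤ d ∧ d ≤ de)
    (c : ℕ → SignType) (hc : ∀ x, x ≤ k - 2 → c x ≠ 0 → c x = t (x + 1))
    (hc' : ∀ x, k - 2 < x → x < 2 * k - 4 → c x ≠ 0 → c x = b (2 * k - 3 - x))
    (hA : Alt4 (2 * k - 4) c) : 4 ≤ ch (Count_seg t 1 k) + ch (Count_seg b 1 k) := by
  obtain ⟨x₁, x₂, x₃, x₄, h12, h23, h34, h4, g1, g2, g3, g4⟩ := hA
  have n2 : c x₂ ≠ 0 := by rw [g2]; revert g1; generalize c x₁ = z; revert z; decide
  have n3 : c x₃ ≠ 0 := by rw [g3]; exact g1
  have n4 : c x₄ ≠ 0 := by rw [g4]; revert g1; generalize c x₁ = z; revert z; decide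
  have up : ∀ x, x ≤ k - 2 → c x ≠ 0 → ds ≤ x + 1 ∧ x + 1 ≤ de := fun x hx hx0 =>
    ht (x + 1) (by omega) (by omega) (by rw [← hc x hx hx0]; exact hx0)
  have lo : ∀ x, k - 2 < x → x < 2 * k - 4 → c x ≠ 0 →
      ds ≤ 2 * k - 3 - x ∧ 2 * k - 3 - x ≤ de := fun x hx hx' hx0 =>
    hb (2 * k - 3 - x) (by omega) (by omega) (by rw [← hc' x hx hx' hx0]; exact hx0)
  have hsb : b ds ≠ 0 := by rw [hs']; exact hs
  have W := fun (f : ℕ → SignType) (Q : List ℕ) (h0 : f ds ≠ 0)
    (hQ : ∀ r ∈ Q, ds ≤ r ∧ r < k) (hP : Q.Pairwise (· ≤ ·)) =>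
    Comb_ch_weak f (a := 1) (b := k) (q := ds) Q h1 (by omega) h0 hQ hP
  rcases Nat.lt_or_ge (k - 2) x₁ with c1 | c1
  · -- r = 0
    have l1 := lo x₁ (by omega) (by omega) g1
    have l2 := lo x₂ (by omega) (by omega) n2
    have l3 := lo x₃ (by omega) (by omega) n3
    have l4 := lo x₄ (by omega) (by omega) n4
    have U := W t [de] hs (by simp; omega) (by simp)
    have D := W b [2 * k - 3 - x₄, 2 * k - 3 - x₃, 2 * k - 3 - x₂, 2 * k - 3 - x₁, de] hsb
      (by simp; omega) (by simp; omega)
    simp only [List.map_cons, List.map_nil, ← hc' x₄ (by omega) (by omega) n4,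
      ← hc' x₃ (by omega) (by omega) n3, ← hc' x₂ (by omega) (by omega) n2,
      ← hc' x₁ (by omega) (by omega) g1, hs', he', g2, g3, g4] at U D
    have := Comb_dec0 (t ds) (t de) (c x₁) hs he g1
    omega
  · rcases Nat.lt_or_ge (k - 2) x₂ with c2 | c2
    · have l1 := up x₁ (by omega) g1
      have l2 := lo x₂ (by omega) (by omega) n2
      have l3 := lo x₃ (by omega) (by omega) n3
      have l4 := lo x₄ (by omega) (by omega) n4
      have U := W t [x₁ + 1, de] hs (by simp; omega) (by simp; omega)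
      have D := W b [2 * k - 3 - x₄, 2 * k - 3 - x₃, 2 * k - 3 - x₂, de] hsb
        (by simp; omega) (by simp; omega)
      simp only [List.map_cons, List.map_nil, ← hc' x₄ (by omega) (by omega) n4,
        ← hc' x₃ (by omega) (by omega) n3, ← hc' x₂ (by omega) (by omega) n2,
        ← hc x₁ (by omega) g1, hs', he', g2, g3, g4] at U D
      have := Comb_dec1 (t ds) (t de) (c x₁) hs he g1
      omega
    · rcases Nat.lt_or_ge (k - 2) x₃ with c3 | c3
      · have l1 := up x₁ (by omega) g1
        have l2 := up x₂ (by omega) n2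
        have l3 := lo x₃ (by omega) (by omega) n3
        have l4 := lo x₄ (by omega) (by omega) n4
        have U := W t [x₁ + 1, x₂ + 1, de] hs (by simp; omega) (by simp; omega)
        have D := W b [2 * k - 3 - x₄, 2 * k - 3 - x₃, de] hsb
          (by simp; omega) (by simp; omega)
        simp only [List.map_cons, List.map_nil, ← hc' x₄ (by omega) (by omega) n4,
          ← hc' x₃ (by omega) (by omega) n3, ← hc x₂ (by omega) n2,
          ← hc x₁ (by omega) g1, hs', he', g2, g3, g4] at U D
        have := Comb_dec2 (t ds) (t de) (c x₁) hs he g1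
        omega
      · rcases Nat.lt_or_ge (k - 2) x₄ with c4 | c4
        · have l1 := up x₁ (by omega) g1
          have l2 := up x₂ (by omega) n2
          have l3 := up x₃ (by omega) n3
          have l4 := lo x₄ (by omega) (by omega) n4
          have U := W t [x₁ + 1, x₂ + 1, x₃ + 1, de] hs (by simp; omega) (by simp; omega)
          have D := W b [2 * k - 3 - x₄, de] hsb (by simp; omega) (by simp; omega)
          simp only [List.map_cons, List.map_nil, ← hc' x₄ (by omega) (by omega) n4,
            ← hc x₃ (by omega) n3, ← hc x₂ (by omega) n2,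
            ← hc x₁ (by omega) g1, hs', he', g2, g3, g4] at U D
          have := Comb_dec3 (t ds) (t de) (c x₁) hs he g1
          omega
        · have l1 := up x₁ (by omega) g1
          have l2 := up x₂ (by omega) n2
          have l3 := up x₃ (by omega) n3
          have l4 := up x₄ (by omega) n4
          have U := W t [x₁ + 1, x₂ + 1, x₃ + 1, x₄ + 1, de] hs (by simp; omega)
            (by simp; omega)
          have D := W b [de] hsb (by simp; omega) (by simp)
          simp only [List.map_cons, List.map_nil, ← hc x₄ (by omega) n4,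
            ← hc x₃ (by omega) n3, ← hc x₂ (by omega) n2,
            ← hc x₁ (by omega) g1, hs', he', g2, g3, g4] at U D
          have := Comb_dec4 (t ds) (t de) (c x₁) hs he g1
          omega

/-- Special pair: consecutive elements of `V` in the cyclic order. -/
def Comb_Sp (V : Finset ℕ) (i j : ℕ) : Prop :=
  (∀ c ∈ V, c ≤ min i j ∨ max i j ≤ c) ∨ ∀ c ∈ V, min i j ≤ c ∧ c ≤ max i j

theorem Comb_Sp_comm (V : Finset ℕ) (i j : ℕ) : Comb_Sp V i j ↔ Comb_Sp V j i := by
  unfold Comb_Sp
  rw [min_comm, max_comm]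

/-- The common label of a special pair. -/
def Comb_x (T B : ℕ → ℕ → SignType) (i j : ℕ) : SignType :=
  if T i j ≠ 0 then T i j else if B i j ≠ 0 then B i j else 1

theorem Comb_x_ne (T B : ℕ → ℕ → SignType) (i j : ℕ) : Comb_x T B i j ≠ 0 := by
  unfold Comb_x
  split_ifs with h1 h2
  · exact h1
  · exact h2
  · decide

open Classical in
noncomputable def Comb_T (V : Finset ℕ) (T B R : ℕ → ℕ → SignType) (i j : ℕ) : SignType :=
  if i ∈ V ∧ j ∈ V ∧ i ≠ j then (if Comb_Sp V i j then Comb_x T B i j else R i j) else 0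

theorem comb (k : ℕ) (hk : 4 ≤ k) (T B : ℕ → ℕ → SignType) (hT : ∀ i j, T i j = T j i)
    (hB : ∀ i j, B i j = B j i) (heq : ∀ i < k, T i ((i + 1) % k) = B i ((i + 1) % k))
    (hcT : ∀ a p b q, a < p → p < b → b < q → q < k → T a b ≠ 0 → T p q ≠ 0 → T a b ≠ T p q)
    (hcB : ∀ a p b q, a < p → p < b → b < q → q < k → B a b ≠ 0 → B p q ≠ 0 → B a b ≠ B p q)
    (hdigon : ∀ i < k, ∀ d, 2 ≤ d → d ≤ k - 2 →
      (∀ e, 0 < e → e < d → ∀ j < k, j ≠ (i + e) % k → T ((i + e) % k) j = 0 ∧ B ((i + e) % k) j = 0) →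
      T i ((i + d) % k) = 0 ∨ B i ((i + d) % k) = 0)
    (hquad : ∀ i < k, (∀ x < 2 * k - 4, cycSeq k T B i x = 0) ∨
      Alt4 (2 * k - 4) (cycSeq k T B i)) :
    ∀ i < k, ∀ j < k, i ≠ j → T i j = 0 ∧ B i j = 0 := by
  classical
  by_contra hcon
  push Not at hcon
  obtain ⟨i0, hi0, j0, hj0, hij0, hne0⟩ := hcon
  let V := (Finset.range k).filter (fun i => ∃ j < k, j ≠ i ∧ (T i j ≠ 0 ∨ B i j ≠ 0))
  have memV : ∀ i, i ∈ V ↔ i < k ∧ ∃ j < k, j ≠ i ∧ (T i j ≠ 0 ∨ B i j ≠ 0) := by
    intro i
    simp only [V, Finset.mem_filter, Finset.mem_range]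
  have hVk : ∀ i ∈ V, i < k := fun i hi => ((memV i).1 hi).1
  have memT : ∀ i j, i < k → j < k → i ≠ j → T i j ≠ 0 → i ∈ V := fun i j h1 h2 h3 h4 =>
    (memV i).2 ⟨h1, j, h2, h3.symm, Or.inl h4⟩
  have memB : ∀ i j, i < k → j < k → i ≠ j → B i j ≠ 0 → i ∈ V := fun i j h1 h2 h3 h4 =>
    (memV i).2 ⟨h1, j, h2, h3.symm, Or.inr h4⟩
  have zeroT : ∀ i j, i < k → j < k → j ≠ i → i ∉ V → T i j = 0 ∧ B i j = 0 := by
    intro i j h1 h2 h3 h4
    constructor
    · by_contra h
      exact h4 (memT i j h1 h2 (Ne.symm h3) h)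
    · by_contra h
      exact h4 (memB i j h1 h2 (Ne.symm h3) h)
  -- offsets
  have off : ∀ i j, i < k → j < k → i ≠ j → ∃ d, 1 ≤ d ∧ d < k ∧ (i + d) % k = j := by
    intro i j h1 h2 h3
    rcases Nat.lt_or_ge i j with h | h
    · exact ⟨j - i, by omega, by omega, by
        rw [show i + (j - i) = j by omega, Nat.mod_eq_of_lt h2]⟩
    · exact ⟨j + k - i, by omega, by omega, by
        rw [show i + (j + k - i) = j + k by omega, Nat.add_mod_right, Nat.mod_eq_of_lt h2]⟩
  have modne : ∀ i d, i < k → 1 ≤ d → d < k → (i + d) % k ≠ i ∧ (i + d) % k < k := by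
    intro i d h1 h2 h3
    refine ⟨?_, Nat.mod_lt _ (by omega)⟩
    rcases Nat.lt_or_ge (i + d) k with h | h
    · rw [Nat.mod_eq_of_lt h]; omega
    · rw [Nat.mod_eq_sub_mod h, Nat.mod_eq_of_lt (by omega)]; omega
  have modval : ∀ i d, i < k → d < k →
      (i + d < k ∧ (i + d) % k = i + d) ∨ (k ≤ i + d ∧ (i + d) % k = i + d - k) := by
    intro i d h1 h3
    rcases Nat.lt_or_ge (i + d) k with h | h
    · exact Or.inl ⟨h, Nat.mod_eq_of_lt h⟩
    · exact Or.inr ⟨h, by rw [Nat.mod_eq_sub_mod h, Nat.mod_eq_of_lt (by omega)]⟩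
  -- adjacent labels agree
  have adj : ∀ i d, i < k → d = 1 ∨ d = k - 1 → T i ((i + d) % k) = B i ((i + d) % k) := by
    rintro i d hi (rfl | rfl)
    · exact heq i hi
    · have h1 := (modne i (k - 1) hi (by omega) (by omega)).2
      have h2 := heq ((i + (k - 1)) % k) h1
      have h3 : ((i + (k - 1)) % k + 1) % k = i := by
        rw [Nat.mod_add_mod]
        rw [show i + (k - 1) + 1 = i + k by omega, Nat.add_mod_right, Nat.mod_eq_of_lt hi]
      rw [h3] at h2
      rw [hT, hB i]
      exact h2
  -- live vertices have four alternating signs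
  have live : ∀ i ∈ V, Alt4 (2 * k - 4) (cycSeq k T B i) := by
    intro i hi
    obtain ⟨hik, j, hj, hji, hne⟩ := (memV i).1 hi
    rcases hquad i hik with h | h
    · exfalso
      obtain ⟨d, d1, d2, rfl⟩ := off i j hik hj (Ne.symm hji)
      have e1 : T i ((i + d) % k) = 0 := by
        have := h (d - 1) (by omega)
        unfold cycSeq at this
        rw [if_pos (by omega), show i + (d - 1) + 1 = i + d by omega] at this
        exact this
      rcases hne with hne | hne
      · exact hne e1
      · by_cases hd : d = 1 ∨ d = k - 1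
        · rw [← adj i d hik hd] at hne
          exact hne e1
        · have := h (2 * k - 3 - d) (by omega)
          unfold cycSeq at this
          rw [if_neg (by omega), show 2 * k - 3 - (2 * k - 3 - d) = d by omega] at this
          exact hne this
    · exact h
  -- special pairs
  have spec : ∀ i j, i ∈ V → j ∈ V → i ≠ j → Comb_Sp V i j → T i j ≠ 0 → B i j ≠ 0 →
      T i j = B i j := by
    have main : ∀ i d, i ∈ V → 1 ≤ d → d < k → (∀ e, 0 < e → e < d → (i + e) % k ∉ V) →
        T i ((i + d) % k) ≠ 0 → B i ((i + d) % k) ≠ 0 →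
        T i ((i + d) % k) = B i ((i + d) % k) := by
      intro i d hi d1 d2 hno hTn hBn
      by_cases hd : d = 1 ∨ d = k - 1
      · exact adj i d (hVk i hi) hd
      · exfalso
        have := hdigon i (hVk i hi) d (by omega) (by omega) (fun e e1 e2 j hj hje =>
          zeroT _ j (modne i e (hVk i hi) (by omega) (by omega)).2 hj hje (hno e e1 e2))
        rcases this with h | h
        · exact hTn h
        · exact hBn h
    have main' : ∀ i j, i ∈ V → j ∈ V → i < j → Comb_Sp V i j → T i j ≠ 0 → B i j ≠ 0 →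
        T i j = B i j := by
      intro i j hi hj hij hS hTn hBn
      have hik := hVk i hi
      have hjk := hVk j hj
      rcases hS with hS | hS
      · have e1 : (i + (j - i)) % k = j := by
          rw [show i + (j - i) = j by omega, Nat.mod_eq_of_lt hjk]
        have := main i (j - i) hi (by omega) (by omega) (fun e e1 e2 hV => by
          rcases modval i e hik (by omega) with ⟨m1, m2⟩ | ⟨m1, m2⟩
          · rw [m2] at hV
            have := hS _ hV
            omega
          · omega) (by rw [e1]; exact hTn) (by rw [e1]; exact hBn)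
        rw [e1] at this
        exact this
      · have e1 : (j + (i + k - j)) % k = i := by
          rw [show j + (i + k - j) = i + k by omega, Nat.add_mod_right, Nat.mod_eq_of_lt hik]
        have := main j (i + k - j) hj (by omega) (by omega) (fun e e1 e2 hV => by
          rcases modval j e hjk (by omega) with ⟨m1, m2⟩ | ⟨m1, m2⟩
          · rw [m2] at hV
            have := hS _ hV
            omega
          · rw [m2] at hV
            have := hS _ hV
            omega) (by rw [e1, hT]; exact hTn) (by rw [e1, hB]; exact hBn)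
        rw [e1] at this
        rw [hT, hB i]
        exact this
    intro i j hi hj hij hS hTn hBn
    rcases lt_or_gt_of_ne hij with h | h
    · exact main' i j hi hj h hS hTn hBn
    · rw [hT, hB i]
      exact main' j i hj hi h ((Comb_Sp_comm V i j).1 hS) (by rw [hT]; exact hTn)
        (by rw [hB]; exact hBn)
  -- the modified labels
  have hxsymm : ∀ i j, Comb_x T B i j = Comb_x T B j i := by
    intro i j
    unfold Comb_x
    rw [hT i j, hB i j]
  have symm' : ∀ R : ℕ → ℕ → SignType, (∀ i j, R i j = R j i) →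
      ∀ i j, Comb_T V T B R i j = Comb_T V T B R j i := by
    intro R hR i j
    unfold Comb_T
    have e1 : (i ∈ V ∧ j ∈ V ∧ i ≠ j) ↔ (j ∈ V ∧ i ∈ V ∧ j ≠ i) := by
      constructor
      · rintro ⟨a, b, c⟩; exact ⟨b, a, c.symm⟩
      · rintro ⟨a, b, c⟩; exact ⟨b, a, c.symm⟩
    simp only [e1, Comb_Sp_comm V i j, hxsymm i j, hR i j]
  have TT : ∀ i j, i < k → j < k → i ≠ j → T i j ≠ 0 → Comb_T V T B T i j = T i j := by
    intro i j h1 h2 h3 h4
    unfold Comb_T
    rw [if_pos ⟨memT i j h1 h2 h3 h4, memT j i h2 h1 h3.symm (by rw [hT]; exact h4), h3⟩]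
    split_ifs
    · simp [Comb_x, h4]
    · rfl
  have BB : ∀ i j, i < k → j < k → i ≠ j → B i j ≠ 0 → Comb_T V T B B i j = B i j := by
    intro i j h1 h2 h3 h4
    have m1 := memB i j h1 h2 h3 h4
    have m2 := memB j i h2 h1 h3.symm (by rw [hB]; exact h4)
    unfold Comb_T
    rw [if_pos ⟨m1, m2, h3⟩]
    split_ifs with hS
    · unfold Comb_x
      by_cases h5 : T i j = 0
      · simp [h5, h4]
      · rw [if_pos h5]
        exact spec i j m1 m2 h3 hS h5 h4
    · rfl
  have cnt : ∀ R : ℕ → ℕ → SignType, (∀ i j, R i j = R j i) →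
      (∀ a p b q, a < p → p < b → b < q → q < k → R a b ≠ 0 → R p q ≠ 0 → R a b ≠ R p q) →
      ∑ i ∈ V, ch (fan k (Comb_T V T B R) i) + 4 ≤ 2 * V.card := by
    intro R hR hcR
    refine count k (Comb_T V T B R) V hVk (symm' R hR) ?_ ?_ ?_ ?_ ?_
    · intro i j hi
      unfold Comb_T
      rw [if_neg (fun h => hi h.1)]
    · intro a p b q h1 h2 h3 hab hpq
      have mab : a ∈ V ∧ b ∈ V := by
        by_contra h
        apply hab
        unfold Comb_T
        rw [if_neg (fun h' => h ⟨h'.1, h'.2.1⟩)]
      have mpq : p ∈ V ∧ q ∈ V := by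
        by_contra h
        apply hpq
        unfold Comb_T
        rw [if_neg (fun h' => h ⟨h'.1, h'.2.1⟩)]
      have s1 : ¬ Comb_Sp V a b := by
        rintro (h | h)
        · have := h p mpq.1; omega
        · have := h q mpq.2; omega
      have s2 : ¬ Comb_Sp V p q := by
        rintro (h | h)
        · have := h b mab.2; omega
        · have := h a mab.1; omega
      have e1 : Comb_T V T B R a b = R a b := by
        unfold Comb_T
        rw [if_pos ⟨mab.1, mab.2, by omega⟩, if_neg s1]
      have e2 : Comb_T V T B R p q = R p q := by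
        unfold Comb_T
        rw [if_pos ⟨mpq.1, mpq.2, by omega⟩, if_neg s2]
      rw [e1] at hab ⊢
      rw [e2] at hpq ⊢
      exact hcR a p b q h1 h2 h3 (hVk q mpq.2) hab hpq
    · intro a ha b hb hab hc
      unfold Comb_T
      have hS : Comb_Sp V a b := Or.inl (fun c hcV => by
        have := hc c hcV; omega)
      rw [if_pos ⟨ha, hb, by omega⟩, if_pos hS]
      exact Comb_x_ne _ _ _ _
    · intro a ha b hb hab hc
      unfold Comb_T
      have hS : Comb_Sp V a b := Or.inr (fun c hcV => by
        have := hc c hcV; omega)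
      rw [if_pos ⟨ha, hb, by omega⟩, if_pos hS]
      exact Comb_x_ne _ _ _ _
    · have m1 : i0 ∈ V := by
        by_cases h : T i0 j0 = 0
        · exact memB i0 j0 hi0 hj0 hij0 (hne0 h)
        · exact memT i0 j0 hi0 hj0 hij0 h
      have m2 : j0 ∈ V := by
        by_cases h : T i0 j0 = 0
        · exact memB j0 i0 hj0 hi0 hij0.symm (by rw [hB]; exact hne0 h)
        · exact memT j0 i0 hj0 hi0 hij0.symm (by rw [hT]; exact h)
      have : ({i0, j0} : Finset ℕ) ⊆ V := by
        intro x hx
        simp only [Finset.mem_insert, Finset.mem_singleton] at hx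
        rcases hx with rfl | rfl
        · exact m1
        · exact m2
      have := Finset.card_le_card this
      rw [Finset.card_pair hij0] at this
      exact this
  -- every live vertex has at least four sign changes
  have four : ∀ i ∈ V, 4 ≤ ch (fan k (Comb_T V T B T) i) + ch (fan k (Comb_T V T B B) i) := by
    intro i hi
    have hik := hVk i hi
    rw [Comb_fan k _ hik, Comb_fan k _ hik]
    -- the set of offsets of live vertices
    let F := (Finset.range k).filter (fun d => 1 ≤ d ∧ (i + d) % k ∈ V)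
    have memF : ∀ d, d ∈ F ↔ d < k ∧ 1 ≤ d ∧ (i + d) % k ∈ V := by
      intro d
      simp only [F, Finset.mem_filter, Finset.mem_range]
    have hF : F.Nonempty := by
      obtain ⟨_, j, hj, hji, hne⟩ := (memV i).1 hi
      obtain ⟨d, d1, d2, rfl⟩ := off i j hik hj (Ne.symm hji)
      refine ⟨d, (memF d).2 ⟨d2, d1, ?_⟩⟩
      rcases hne with h | h
      · exact memT _ i hj hik hji (by rw [hT]; exact h)
      · exact memB _ i hj hik hji (by rw [hB]; exact h)
    obtain ⟨ds, hds, hmin⟩ : ∃ ds ∈ F, ∀ d ∈ F, ds ≤ d := ⟨F.min' hF, F.min'_mem hF, fun d hd => F.min'_le d hd⟩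
    obtain ⟨de, hde, hmax⟩ : ∃ de ∈ F, ∀ d ∈ F, d ≤ de := ⟨F.max' hF, F.max'_mem hF, fun d hd => F.le_max' d hd⟩
    obtain ⟨ds1, ds2, ds3⟩ := (memF ds).1 hds
    obtain ⟨de1, de2, de3⟩ := (memF de).1 hde
    have offc : ∀ c ∈ V, c ≠ i → ∃ d ∈ F, (i < c ∧ d = c - i) ∨ (c < i ∧ d = c + k - i) := by
      intro c hc hci
      have hck := hVk c hc
      rcases lt_or_gt_of_ne hci with h | h
      · refine ⟨c + k - i, (memF _).2 ⟨by omega, by omega, ?_⟩, Or.inr ⟨h, rfl⟩⟩
        rw [show i + (c + k - i) = c + k by omega, Nat.add_mod_right, Nat.mod_eq_of_lt hck]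
        exact hc
      · refine ⟨c - i, (memF _).2 ⟨by omega, by omega, ?_⟩, Or.inl ⟨h, rfl⟩⟩
        rw [show i + (c - i) = c by omega, Nat.mod_eq_of_lt hck]
        exact hc
    have sps : Comb_Sp V i ((i + ds) % k) := by
      rcases modval i ds hik ds1 with ⟨m1, m2⟩ | ⟨m1, m2⟩
      · rw [m2]
        left
        intro c hc
        by_cases hci : c = i
        · omega
        · obtain ⟨d, hd, h⟩ := offc c hc hci
          have := hVk c hc
          have := hmin d hd
          omega
      · rw [m2]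
        right
        intro c hc
        by_cases hci : c = i
        · omega
        · obtain ⟨d, hd, h⟩ := offc c hc hci
          have := hVk c hc
          have := hmin d hd
          omega
    have spe : Comb_Sp V i ((i + de) % k) := by
      rcases modval i de hik de1 with ⟨m1, m2⟩ | ⟨m1, m2⟩
      · rw [m2]
        right
        intro c hc
        by_cases hci : c = i
        · omega
        · obtain ⟨d, hd, h⟩ := offc c hc hci
          have := hVk c hc
          have := hmax d hd
          have := (memF d).1 hd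
          omega
      · rw [m2]
        left
        intro c hc
        by_cases hci : c = i
        · omega
        · obtain ⟨d, hd, h⟩ := offc c hc hci
          have := hVk c hc
          have := hmax d hd
          have := (memF d).1 hd
          omega
    have nes := (modne i ds hik ds2 ds1).1
    have nee := (modne i de hik de2 de1).1
    have vals : ∀ R : ℕ → ℕ → SignType, Comb_T V T B R i ((i + ds) % k) =
        Comb_x T B i ((i + ds) % k) := by
      intro R
      unfold Comb_T
      rw [if_pos ⟨hi, ds3, nes.symm⟩, if_pos sps]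
    have vale : ∀ R : ℕ → ℕ → SignType, Comb_T V T B R i ((i + de) % k) =
        Comb_x T B i ((i + de) % k) := by
      intro R
      unfold Comb_T
      rw [if_pos ⟨hi, de3, nee.symm⟩, if_pos spe]
    have rng : ∀ R : ℕ → ℕ → SignType, ∀ d, 1 ≤ d → d < k →
        Comb_T V T B R i ((i + d) % k) ≠ 0 → ds ≤ d ∧ d ≤ de := by
      intro R d d1 d2 hd
      have hm : (i + d) % k ∈ V := by
        by_contra h
        apply hd
        unfold Comb_T
        rw [if_neg (fun h' => h h'.2.1)]
      have := (memF d).2 ⟨d2, d1, hm⟩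
      exact ⟨hmin d this, hmax d this⟩
    refine Comb_local hk (fun d => Comb_T V T B T i ((i + d) % k))
      (fun d => Comb_T V T B B i ((i + d) % k)) ds de ds2 (hmax ds hds) de1 ?_ ?_ ?_ ?_
      (rng T) (rng B) (cycSeq k T B i) ?_ ?_ (live i hi)
    · simp only [vals]
      exact Comb_x_ne _ _ _ _
    · simp only [vals]
    · simp only [vale]
      exact Comb_x_ne _ _ _ _
    · simp only [vale]
    · intro x hx hx0
      have e1 : cycSeq k T B i x = T i ((i + (x + 1)) % k) := by
        unfold cycSeq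
        rw [if_pos hx, add_assoc]
      rw [e1] at hx0
      have := modne i (x + 1) hik (by omega) (by omega)
      simp only [e1]
      rw [TT i _ hik this.2 this.1.symm hx0]
    · intro x hx hx' hx0
      have e1 : cycSeq k T B i x = B i ((i + (2 * k - 3 - x)) % k) := by
        unfold cycSeq
        rw [if_neg (by omega)]
      rw [e1] at hx0
      have := modne i (2 * k - 3 - x) hik (by omega) (by omega)
      simp only [e1]
      rw [BB i _ hik this.2 this.1.symm hx0]
  have c1 := cnt T hT hcT
  have c2 := cnt B hB hcB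
  have c3 : ∑ i ∈ V, 4 ≤ ∑ i ∈ V, (ch (fan k (Comb_T V T B T) i) + ch (fan k (Comb_T V T B B) i)) :=
    Finset.sum_le_sum four
  rw [Finset.sum_add_distrib, Finset.sum_const, smul_eq_mul] at c3
  omega

end Pool.Agent.Ads89
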