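import Pool.Agent.W_2fbb77_h89.ChList

/-! # MP_2fbb77_gt: counting sign changes in a polygon with signed chords

`ch L` is the number of sign changes in the list `L`, zeros ignored; `chA s L` is the number of sign changes in
`s :: L` for a sign `s ≠ 0`.  `fan k lab i` is the list of the signs `lab i (i+1), …, lab i (k-1), lab i 0, …,
lab i (i-1)`.

`count`: the vertices are the elements of the finite set `V` of numbers `< k` in their cyclic order; `lab` is a
symmetric sign function on pairs, zero unless both are in `V`; crossing pairs with nonzero signs have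
DIFFERENT signs; consecutive elements of `V` (and the pair `min V, max V`) have nonzero signs.  Then the sum over
`i ∈ V` of the number of sign changes in the fan of `i` is at most `2 |V| - 4`.

Tools about lists are proved in `ChList.lean` (`ch_split`, `ch_insert`, `ch_zero_mid`, `ch_zeros_left`, `ch_nonpos`, ...):
(T1) `ch (L₁ ++ [y] ++ L₂) = ch (L₁ ++ [y]) + ch ([y] ++ L₂)` for `y ≠ 0`;
(T2) inserting a nonzero sign `y` anywhere does not decrease `ch`:
  `ch (L₁ ++ L₂) ≤ ch (L₁ ++ [y]) + ch ([y] ++ L₂)` (compare the last nonzero sign of `L₁`, `y`, and the first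
  nonzero sign of `L₂`);
(T3) zeros can be removed; (T4) if all the elements of `α` are `0` or `-1` then `ch ([y] ++ α ++ [x]) =
  (0 if y = x = -1; 1 if y ≠ x; 0 if y = x = 1 and α = zeros; 2 if y = x = 1 and α has a `-1`)` for `x, y ∈ {1, -1}`.

Main induction.  For `a < b` in `V` call `(a, b)` admissible if `lab p q ≠ 1` for all `p ∈ (a, b)` and all `q < a` or
`q > b` (no + chord crosses).  Its label is `x = lab a b` if this is not `0`, and `x = 1` otherwise.  CLAIM, by
strong induction on `b - a`, for admissible `(a, b)`:
`ch ([lab a (a+1), …, lab a (b-1)] ++ [x]) + ∑_{i ∈ V, a < i < b} ch (fan k lab i) +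
  ch ([x] ++ [lab b (a+1), …, lab b (b-1)]) ≤ 2 * |{i ∈ V | a < i < b}|`.
* If there is no element of `V` in `(a, b)`: everything is `0`.
* Otherwise let `c` be the LARGEST `c ∈ (a, b)` with `lab a c = 1` if there is one, otherwise the smallest element
  of `V` in `(a, b)`.  Then `y := lab a c ≠ 0` (second case: consecutive), `(a, c)` is admissible (a + chord crossing
  the + chord `(a, c)` is excluded; in the second case there are no vertices in between).  `(c, b)` is
  admissible: a + chord `(p, q)`, `p ∈ (c, b)`, `q ∉ [c, b]`: `q ∉ [a, b]` contradicts that `(a, b)` is admissible, `q = a`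
  contradicts the choice of `c`, `q ∈ (a, c)`: it crosses the + chord `(a, c)` (in the second case `q ∉ V`).
  Let `z` be the label of `(c, b)`.  By (T1), (T2) and the induction hypotheses for `(a, c)` and `(c, b)`, the left side
  for `(a, b)` is at most `2 |V ∩ (a, c)| + 2 |V ∩ (c, b)| + K` with
  `K = ch ([y] ++ α ++ [x]) + ch ([z] ++ γ ++ [y]) + ch ([x] ++ β ++ [z])`, where
  `α = lab a` on `(c, b)`, `β = lab b` on `(a, c)`, `γ = lab c` on `(b, k)` and `[0, a)`.
  (`fan k lab c = [c+1 … b-1] ++ [b] ++ γ₁ ++ γ₂ ++ [a] ++ [a+1 … c-1]`: use (T2) for `z` at the place of `b`.)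
  It remains to show `K ≤ 2`.
* `α, β, γ` contain only `0` and `-1`: `α` by the choice of `c`, `γ` because `(a, b)` is admissible, `β`: a + chord
  `(b, q)`, `q ∈ (a, c)`, crosses the + chord `(a, c)` (second case: `q ∉ V`).
  - `x = -1`: then `lab a b = -1`, so nothing `-1` crosses it: `γ = 0`.  `K = [y = 1] + [z ≠ y] + [z = 1] ≤ 2`.
  - `x = 1, y = -1`: then `c` is the next vertex, `β = 0`, `K = 1 + [z = 1] + [z = -1] = 2`.
  - `x = 1, y = 1, z = -1`: `lab c b = -1`, so `α = 0` (its chords cross `(c, b)`), `K = 0 + 1 + 1 = 2`.
  - `x = y = z = 1`: `K = 2 [α ≠ 0] + 2 [γ ≠ 0] + 2 [β ≠ 0]` and at most one of `α, β, γ` is not zero, because chords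
    `(a, q)`, `q ∈ (c, b)`, and `(c, r)`, `r ∉ [a, b]`, and `(b, q')`, `q' ∈ (a, c)`, cross each other pairwise and all
    have sign `-1`.
Conclusion: take `a = min V`, `b = max V` (admissible, as nothing is outside), `x = lab a b ≠ 0`;
`ch (fan k lab a) = ch ([lab a (a+1) … lab a (b-1)] ++ [x])` as the other entries are zero, the same for `b`. -/

set_option autoImplicit false

namespace Pool.Agent.Ads89

def fan (k : ℕ) (lab : ℕ → ℕ → SignType) (i : ℕ) : List SignType :=
  (List.range' (i + 1) (k - 1 - i)).map (lab i) ++ (List.range i).map (lab i)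

/-- `[f a, …, f (b - 1)]`. -/
def Count_seg (f : ℕ → SignType) (a b : ℕ) : List SignType := (List.range' a (b - a)).map f

theorem Count_seg_split (f : ℕ → SignType) {a c b : ℕ} (h1 : a ≤ c) (h2 : c < b) :
    Count_seg f a b = Count_seg f a c ++ f c :: Count_seg f (c + 1) b := by
  unfold Count_seg
  have e1 : b - a = (c - a) + ((b - (c + 1)) + 1) := by omega
  have e2 : List.range' a (b - a) = List.range' a (c - a) ++ c :: List.range' (c + 1) (b - (c + 1)) := by
    rw [e1, ← List.range'_append_1, List.range'_succ]
    have : a + (c - a) = c := by omega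
    rw [this]
  rw [e2, List.map_append, List.map_cons]

theorem Count_mem_seg {f : ℕ → SignType} {a b : ℕ} {x : SignType} (h : x ∈ Count_seg f a b) :
    ∃ j, a ≤ j ∧ j < b ∧ f j = x := by
  unfold Count_seg at h
  rw [List.mem_map] at h
  obtain ⟨j, hj, rfl⟩ := h
  rw [List.mem_range'_1] at hj
  exact ⟨j, hj.1, by omega, rfl⟩

theorem Count_seg_mem {f : ℕ → SignType} {a b j : ℕ} (h1 : a ≤ j) (h2 : j < b) :
    f j ∈ Count_seg f a b := by
  unfold Count_seg
  rw [List.mem_map]
  exact ⟨j, by rw [List.mem_range'_1]; omega, rfl⟩

theorem Count_fan (k : ℕ) (lab : ℕ → ℕ → SignType) {i : ℕ} :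
    fan k lab i = Count_seg (lab i) (i + 1) k ++ Count_seg (lab i) 0 i := by
  unfold fan Count_seg
  have e1 : k - (i + 1) = k - 1 - i := by omega
  rw [e1, Nat.sub_zero, List.range_eq_range']

/-- The label of a pair. -/
def Count_lb (x : SignType) : SignType := if x = 0 then 1 else x

theorem Count_lb_ne (x : SignType) : Count_lb x ≠ 0 := by
  unfold Count_lb
  split_ifs with h
  · decide
  · exact h

theorem Count_lb_or (x : SignType) : Count_lb x = 1 ∨ Count_lb x = -1 := by
  revert x; decide

theorem Count_lb_neg {x : SignType} (h : Count_lb x = -1) : x = -1 := by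
  revert x; decide

theorem Count_ins (x : SignType) (L₁ L₂ : List SignType) :
    ch (L₁ ++ x :: L₂) ≤ ch (L₁ ++ [Count_lb x]) + ch (Count_lb x :: L₂) := by
  by_cases h : x = 0
  · subst h
    rw [ch_zero_mid]
    exact ch_insert (Count_lb_ne 0) L₁ L₂
  · have : Count_lb x = x := by simp [Count_lb, h]
    rw [this, ch_split h]

theorem Count_lb_self {x : SignType} (h : x ≠ 0) : Count_lb x = x := by simp [Count_lb, h]

theorem count (k : ℕ) (lab : ℕ → ℕ → SignType) (V : Finset ℕ) (hV : ∀ i ∈ V, i < k)
    (hsymm : ∀ i j, lab i j = lab j i) (hdead : ∀ i j, i ∉ V → lab i j = 0)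
    (hcross : ∀ a p b q, a < p → p < b → b < q → lab a b ≠ 0 → lab p q ≠ 0 → lab a b ≠ lab p q)
    (hcons : ∀ a ∈ V, ∀ b ∈ V, a < b → (∀ c ∈ V, c ≤ a ∨ b ≤ c) → lab a b ≠ 0)
    (hwrap : ∀ a ∈ V, ∀ b ∈ V, a < b → (∀ c ∈ V, a ≤ c ∧ c ≤ b) → lab a b ≠ 0)
    (h2 : 2 ≤ V.card) :
    ∑ i ∈ V, ch (fan k lab i) + 4 ≤ 2 * V.card := by
  classical
  have hdead' : ∀ i j, j ∉ V → lab i j = 0 := fun i j h => by rw [hsymm]; exact hdead j i h
  have claim : ∀ n a b, b - a ≤ n → a ∈ V → b ∈ V → a < b →
      (∀ p q, a < p → p < b → (q < a ∨ b < q) → lab p q ≠ 1) →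
      ch (Count_seg (lab a) (a + 1) b ++ [Count_lb (lab a b)]) +
        ∑ i ∈ V.filter (fun i => a < i ∧ i < b), ch (fan k lab i) +
        ch (Count_lb (lab a b) :: Count_seg (lab b) (a + 1) b) ≤
      2 * (V.filter (fun i => a < i ∧ i < b)).card := by
    intro n
    induction n with
    | zero => intro a b h1 _ _ h2; omega
    | succ n ih =>
      intro a b hn ha hb hab hadm
      by_cases hemp : ∀ c ∈ V, ¬ (a < c ∧ c < b)
      · have e1 : V.filter (fun i => a < i ∧ i < b) = ∅ := by
          rw [Finset.filter_eq_empty_iff]
          exact fun c hc => hemp c hc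
        have z1 : ∀ x ∈ Count_seg (lab a) (a + 1) b, x = 0 := by
          intro x hx
          obtain ⟨j, j1, j2, rfl⟩ := Count_mem_seg hx
          exact hdead' a j fun hj => hemp j hj ⟨by omega, j2⟩
        have z2 : ∀ x ∈ Count_seg (lab b) (a + 1) b, x = 0 := by
          intro x hx
          obtain ⟨j, j1, j2, rfl⟩ := Count_mem_seg hx
          exact hdead' b j fun hj => hemp j hj ⟨by omega, j2⟩
        have t1 : ch [Count_lb (lab a b)] = 0 := by
          rw [ch_cons_ne (Count_lb_ne _)]
          simp [chA]
        have t2 : ch (Count_lb (lab a b) :: Count_seg (lab b) (a + 1) b) = 0 := by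
          rw [ch_cons_ne (Count_lb_ne _), (chA_zeros z2 _).1]
        rw [e1, ch_zeros_left z1, t1, t2]
        simp
      · push Not at hemp
        obtain ⟨c, hcV, hac, hcb, hy, hc3, hc4, hc5, hc6, hc7⟩ : ∃ c, c ∈ V ∧ a < c ∧ c < b ∧
            lab a c ≠ 0 ∧ (∀ p q, a < p → p < c → (q < a ∨ c < q) → lab p q ≠ 1) ∧
            (∀ p q, c < p → p < b → (q < c ∨ b < q) → lab p q ≠ 1) ∧
            (∀ j, c < j → j < b → lab a j ≠ 1) ∧ (∀ j, a < j → j < c → lab b j ≠ 1) ∧
            (lab a c = 1 ∨ ∀ j, a < j → j < c → j ∉ V) := by
          by_cases hp : ∃ c, a < c ∧ c < b ∧ lab a c = 1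
          · -- the largest such c
            let F := (Finset.range b).filter (fun c => a < c ∧ lab a c = 1)
            have hF : F.Nonempty := by
              obtain ⟨c, h1, h2, h3⟩ := hp
              exact ⟨c, by simp [F, h1, h2, h3]⟩
            have hcF := F.max'_mem hF
            have hmax : ∀ j ∈ F, j ≤ F.max' hF := fun j hj => F.le_max' j hj
            generalize F.max' hF = c at hcF hmax
            simp only [F, Finset.mem_filter, Finset.mem_range] at hcF
            obtain ⟨hcb, hac, hl⟩ := hcF
            have hm : ∀ j, c < j → j < b → lab a j ≠ 1 := by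
              intro j j1 j2 j3
              have := hmax j (by
                simp only [F, Finset.mem_filter, Finset.mem_range]
                exact ⟨j2, by omega, j3⟩)
              omega
            have hcV : c ∈ V := by
              by_contra h
              rw [hdead' a c h] at hl
              exact absurd hl (by decide)
            refine ⟨c, hcV, hac, hcb, by rw [hl]; decide, ?_, ?_, hm, ?_, Or.inl hl⟩
            · intro p q p1 p2 hq hpq
              rcases hq with hq | hq
              · have := hcross q a p c hq p1 p2 (by rw [hsymm, hpq]; decide) (by rw [hl]; decide)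
                rw [hsymm, hpq, hl] at this
                exact this rfl
              · have := hcross a p c q p1 p2 hq (by rw [hl]; decide) (by rw [hpq]; decide)
                rw [hpq, hl] at this
                exact this rfl
            · intro p q p1 p2 hq hpq
              rcases hq with hq | hq
              · rcases lt_trichotomy q a with h | h | h
                · exact hadm p q (by omega) p2 (Or.inl h) hpq
                · subst h
                  exact hm p p1 p2 (by rw [hsymm]; exact hpq)
                · have := hcross a q c p h hq p1 (by rw [hl]; decide)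
                    (by rw [hsymm, hpq]; decide)
                  rw [hsymm q p, hpq, hl] at this
                  exact this rfl
              · exact hadm p q (by omega) p2 (Or.inr hq) hpq
            · intro j j1 j2 hj
              have := hcross a j c b j1 j2 hcb (by rw [hl]; decide) (by rw [hsymm, hj]; decide)
              rw [hsymm j b, hj, hl] at this
              exact this rfl
          · push Not at hp
            obtain ⟨c0, hc0, h01, h02⟩ := hemp
            let F := V.filter (fun c => a < c ∧ c < b)
            have hF : F.Nonempty := ⟨c0, by simp [F, hc0, h01, h02]⟩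
            have hcF := F.min'_mem hF
            have hmin : ∀ j ∈ F, F.min' hF ≤ j := fun j hj => F.min'_le j hj
            generalize F.min' hF = c at hcF hmin
            simp only [F, Finset.mem_filter] at hcF
            obtain ⟨hcV, hac, hcb⟩ := hcF
            have hno : ∀ j, a < j → j < c → j ∉ V := by
              intro j j1 j2 j3
              have := hmin j (by simp only [F, Finset.mem_filter]; exact ⟨j3, j1, by omega⟩)
              omega
            refine ⟨c, hcV, hac, hcb, ?_, ?_, ?_, fun j j1 j2 => hp j (by omega) j2, ?_,
              Or.inr hno⟩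
            · refine hcons a ha c hcV hac fun d hd => ?_
              by_contra hh
              push Not at hh
              exact hno d hh.1 hh.2 hd
            · intro p q p1 p2 _ hpq
              rw [hdead p q (hno p p1 p2)] at hpq
              exact absurd hpq (by decide)
            · intro p q p1 p2 hq hpq
              rcases hq with hq | hq
              · rcases lt_trichotomy q a with h | h | h
                · exact hadm p q (by omega) p2 (Or.inl h) hpq
                · subst h
                  exact hp p (by omega) p2 (by rw [hsymm]; exact hpq)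
                · rw [hdead' p q (hno q h hq)] at hpq
                  exact absurd hpq (by decide)
              · exact hadm p q (by omega) p2 (Or.inr hq) hpq
            · intro j j1 j2 hj
              rw [hdead' b j (hno j j1 j2)] at hj
              exact absurd hj (by decide)
        -- induction hypotheses
        have I1 := ih a c (by omega) ha hcV hac hc3
        have I2 := ih c b (by omega) hcV hb hcb hc4
        have hlb : Count_lb (lab a c) = lab a c := Count_lb_self hy
        rw [hlb] at I1
        -- the filter
        have hfil : V.filter (fun i => a < i ∧ i < b) =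
            insert c (V.filter (fun i => a < i ∧ i < c) ∪ V.filter (fun i => c < i ∧ i < b)) := by
          ext i
          simp only [Finset.mem_filter, Finset.mem_insert, Finset.mem_union]
          constructor
          · rintro ⟨h1, h2, h3⟩
            rcases lt_trichotomy i c with h | h | h
            · exact Or.inr (Or.inl ⟨h1, h2, h⟩)
            · exact Or.inl h
            · exact Or.inr (Or.inr ⟨h1, h, h3⟩)
          · rintro (rfl | ⟨h1, h2, h3⟩ | ⟨h1, h2, h3⟩)
            · exact ⟨hcV, hac, hcb⟩
            · exact ⟨h1, h2, by omega⟩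
            · exact ⟨h1, by omega, h3⟩
        have hdis : Disjoint (V.filter (fun i => a < i ∧ i < c)) (V.filter (fun i => c < i ∧ i < b)) := by
          rw [Finset.disjoint_left]
          intro i h1 h2
          simp only [Finset.mem_filter] at h1 h2
          omega
        have hnot : c ∉ V.filter (fun i => a < i ∧ i < c) ∪ V.filter (fun i => c < i ∧ i < b) := by
          simp
        rw [hfil, Finset.sum_insert hnot, Finset.sum_union hdis, Finset.card_insert_of_notMem hnot,
          Finset.card_union_of_disjoint hdis]
        -- abbreviations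
        have A1 : ch (Count_seg (lab a) (a + 1) b ++ [Count_lb (lab a b)]) =
            ch (Count_seg (lab a) (a + 1) c ++ [lab a c]) +
            ch (lab a c :: (Count_seg (lab a) (c + 1) b ++ [Count_lb (lab a b)])) := by
          rw [Count_seg_split (lab a) (show a + 1 ≤ c by omega) hcb, List.append_assoc,
            List.cons_append, ch_split hy]
        have A2 : ch (fan k lab c) ≤ ch (Count_seg (lab c) (c + 1) b ++ [Count_lb (lab c b)]) +
            (ch (Count_lb (lab c b) :: ((Count_seg (lab c) (b + 1) k ++ Count_seg (lab c) 0 a) ++
              [lab a c])) + ch (lab a c :: Count_seg (lab c) (a + 1) c)) := by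
          rw [Count_fan, Count_seg_split (lab c) (show c + 1 ≤ b by omega) (hV b hb),
            Count_seg_split (lab c) (Nat.zero_le a) hac, List.append_assoc, List.cons_append,
            ← List.append_assoc (Count_seg (lab c) (b + 1) k)]
          refine (Count_ins _ _ _).trans ?_
          refine Nat.add_le_add_left ?_ _
          have hy' : lab c a ≠ 0 := by rw [hsymm]; exact hy
          rw [← List.cons_append, ch_split hy', hsymm c a, List.cons_append]
        have A3 : ch (Count_lb (lab a b) :: Count_seg (lab b) (a + 1) b) ≤
            ch (Count_lb (lab a b) :: (Count_seg (lab b) (a + 1) c ++ [Count_lb (lab c b)])) +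
            ch (Count_lb (lab c b) :: Count_seg (lab b) (c + 1) b) := by
          rw [Count_seg_split (lab b) (show a + 1 ≤ c by omega) hcb, ← List.cons_append,
            hsymm b c]
          exact (Count_ins _ _ _).trans (le_of_eq (by rw [List.cons_append]))
        -- the key inequality
        have K : ch (lab a c :: (Count_seg (lab a) (c + 1) b ++ [Count_lb (lab a b)])) +
            ch (Count_lb (lab c b) :: ((Count_seg (lab c) (b + 1) k ++ Count_seg (lab c) 0 a) ++
              [lab a c])) +
            ch (Count_lb (lab a b) :: (Count_seg (lab b) (a + 1) c ++ [Count_lb (lab c b)])) ≤ 2 := by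
          have or3 : ∀ x : SignType, x ≠ 1 → x = 0 ∨ x = -1 := by decide
          have hα : ∀ x ∈ Count_seg (lab a) (c + 1) b, x = 0 ∨ x = -1 := by
            intro x hx
            obtain ⟨j, j1, j2, rfl⟩ := Count_mem_seg hx
            exact or3 _ (hc5 j (by omega) j2)
          have hβ : ∀ x ∈ Count_seg (lab b) (a + 1) c, x = 0 ∨ x = -1 := by
            intro x hx
            obtain ⟨j, j1, j2, rfl⟩ := Count_mem_seg hx
            exact or3 _ (hc6 j (by omega) j2)
          have hγ' : ∀ x ∈ Count_seg (lab c) (b + 1) k ++ Count_seg (lab c) 0 a,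
              ∃ j, (j < a ∨ b < j) ∧ lab c j = x := by
            intro x hx
            rw [List.mem_append] at hx
            rcases hx with hx | hx
            · obtain ⟨j, j1, j2, rfl⟩ := Count_mem_seg hx
              exact ⟨j, Or.inr (by omega), rfl⟩
            · obtain ⟨j, j1, j2, rfl⟩ := Count_mem_seg hx
              exact ⟨j, Or.inl j2, rfl⟩
          have hγ : ∀ x ∈ Count_seg (lab c) (b + 1) k ++ Count_seg (lab c) 0 a,
              x = 0 ∨ x = -1 := by
            intro x hx
            obtain ⟨j, j1, rfl⟩ := hγ' x hx
            exact or3 _ (hadm c j hac hcb j1)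
          have hy1 : lab a c = 1 ∨ lab a c = -1 := by
            revert hy
            generalize lab a c = y
            revert y
            decide
          have hx1 := Count_lb_or (lab a b)
          have hz1 := Count_lb_or (lab c b)
          rw [ch_nonpos hα hx1 hy1, ch_nonpos hγ hy1 hz1, ch_nonpos hβ hz1 hx1]
          -- exclusions
          have ex1 : Count_lb (lab a b) = -1 →
              ¬ ∃ x ∈ Count_seg (lab c) (b + 1) k ++ Count_seg (lab c) 0 a, x ≠ 0 := by
            rintro hxx ⟨x, hx, hx0⟩
            have hab1 := Count_lb_neg hxx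
            obtain ⟨j, j1, rfl⟩ := hγ' x hx
            rcases hγ _ hx with h | h
            · exact hx0 h
            · rcases j1 with j1 | j1
              · have := hcross j a c b j1 hac hcb (by rw [hsymm]; exact hx0) (by rw [hab1]; decide)
                rw [hsymm, h, hab1] at this
                exact this rfl
              · have := hcross a c b j hac hcb j1 (by rw [hab1]; decide) hx0
                rw [h, hab1] at this
                exact this rfl
          have ex2 : lab a c = -1 → ¬ ∃ x ∈ Count_seg (lab b) (a + 1) c, x ≠ 0 := by
            rintro hyy ⟨x, hx, hx0⟩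
            rcases hc7 with h | h
            · rw [hyy] at h
              exact absurd h (by decide)
            · obtain ⟨j, j1, j2, rfl⟩ := Count_mem_seg hx
              exact hx0 (hdead' b j (h j (by omega) j2))
          have ex3 : Count_lb (lab c b) = -1 → ¬ ∃ x ∈ Count_seg (lab a) (c + 1) b, x ≠ 0 := by
            rintro hzz ⟨x, hx, hx0⟩
            have hcb1 := Count_lb_neg hzz
            obtain ⟨j, j1, j2, rfl⟩ := Count_mem_seg hx
            rcases hα _ hx with h | h
            · exact hx0 h
            · have := hcross a c j b hac (by omega) j2 hx0 (by rw [hcb1]; decide)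
              rw [h, hcb1] at this
              exact this rfl
          have ex4 : (∃ x ∈ Count_seg (lab a) (c + 1) b, x ≠ 0) →
              ¬ ∃ x ∈ Count_seg (lab c) (b + 1) k ++ Count_seg (lab c) 0 a, x ≠ 0 := by
            rintro ⟨x, hx, hx0⟩ ⟨x', hx', hx0'⟩
            obtain ⟨j, j1, j2, rfl⟩ := Count_mem_seg hx
            obtain ⟨j', j1', rfl⟩ := hγ' x' hx'
            have g1 := (hα _ hx).resolve_left hx0
            have g2 := (hγ _ hx').resolve_left hx0'
            rcases j1' with h | h
            · have := hcross j' a c j h hac (by omega) (by rw [hsymm]; exact hx0') hx0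
              rw [hsymm, g2, g1] at this
              exact this rfl
            · have := hcross a c j j' hac (by omega) (by omega) hx0 hx0'
              rw [g2, g1] at this
              exact this rfl
          have ex5 : (∃ x ∈ Count_seg (lab a) (c + 1) b, x ≠ 0) →
              ¬ ∃ x ∈ Count_seg (lab b) (a + 1) c, x ≠ 0 := by
            rintro ⟨x, hx, hx0⟩ ⟨x', hx', hx0'⟩
            obtain ⟨j, j1, j2, rfl⟩ := Count_mem_seg hx
            obtain ⟨j', j1', j2', rfl⟩ := Count_mem_seg hx'
            have g1 := (hα _ hx).resolve_left hx0
            have g2 := (hβ _ hx').resolve_left hx0'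
            have := hcross a j' j b (by omega) (by omega) j2 hx0 (by rw [hsymm]; exact hx0')
            rw [g1, hsymm j' b, g2] at this
            exact this rfl
          have ex6 : (∃ x ∈ Count_seg (lab b) (a + 1) c, x ≠ 0) →
              ¬ ∃ x ∈ Count_seg (lab c) (b + 1) k ++ Count_seg (lab c) 0 a, x ≠ 0 := by
            rintro ⟨x, hx, hx0⟩ ⟨x', hx', hx0'⟩
            obtain ⟨j, j1, j2, rfl⟩ := Count_mem_seg hx
            obtain ⟨j', j1', rfl⟩ := hγ' x' hx'
            have g1 := (hβ _ hx).resolve_left hx0
            have g2 := (hγ _ hx').resolve_left hx0'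
            rcases j1' with h | h
            · have := hcross j' j c b (by omega) j2 hcb (by rw [hsymm]; exact hx0')
                (by rw [hsymm]; exact hx0)
              rw [hsymm, g2, hsymm j b, g1] at this
              exact this rfl
            · have := hcross j c b j' j2 hcb h (by rw [hsymm]; exact hx0) hx0'
              rw [hsymm j b, g2, g1] at this
              exact this rfl
          have d1 : (1 : SignType) ≠ -1 := by decide
          have d2 : (-1 : SignType) ≠ 1 := by decide
          by_cases ha' : ∃ x ∈ Count_seg (lab a) (c + 1) b, x ≠ 0 <;>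
          by_cases hb' : ∃ x ∈ Count_seg (lab b) (a + 1) c, x ≠ 0 <;>
          by_cases hg' : ∃ x ∈ Count_seg (lab c) (b + 1) k ++ Count_seg (lab c) 0 a, x ≠ 0 <;>
          simp only [ha', hb', hg', and_true, and_false, if_false, not_true, not_false_iff,
            imp_false, forall_true_left, forall_const] at ex1 ex2 ex3 ex4 ex5 ex6 ⊢ <;>
          rcases hx1 with h1 | h1 <;> rcases hy1 with h2 | h2 <;> rcases hz1 with h3 | h3 <;>
          simp [h1, h2, h3, d1, d2] at ex1 ex2 ex3 ⊢
        have hlb2 : Count_lb (lab c b) = Count_lb (lab c b) := rfl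
        omega
  -- conclusion
  have hVne : V.Nonempty := Finset.card_pos.1 (by omega)
  obtain ⟨a, ha, hamin⟩ : ∃ a ∈ V, ∀ c ∈ V, a ≤ c := ⟨V.min' hVne, V.min'_mem hVne, fun c hc => V.min'_le c hc⟩
  obtain ⟨b, hb, hbmax⟩ : ∃ b ∈ V, ∀ c ∈ V, c ≤ b := ⟨V.max' hVne, V.max'_mem hVne, fun c hc => V.le_max' c hc⟩
  have hab : a < b := by
    by_contra h
    have : V ⊆ {a} := by
      intro c hc
      have h1 := hamin c hc
      have h2 := hbmax c hc
      rw [Finset.mem_singleton]
      omega
    have := Finset.card_le_card this
    rw [Finset.card_singleton] at this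
    omega
  have hlab : lab a b ≠ 0 := hwrap a ha b hb hab fun c hc => ⟨hamin c hc, hbmax c hc⟩
  have C := claim (b - a) a b le_rfl ha hb hab (by
    intro p q p1 p2 hq hpq
    have hqV : q ∉ V := by
      intro hqV
      have h1 := hamin q hqV
      have h2 := hbmax q hqV
      omega
    rw [hdead' p q hqV] at hpq
    exact absurd hpq (by decide))
  rw [Count_lb_self hlab] at C
  have hfil : V = insert a (insert b (V.filter (fun i => a < i ∧ i < b))) := by
    ext i
    simp only [Finset.mem_filter, Finset.mem_insert]
    constructor
    · intro h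
      have h1 := hamin i h
      have h2 := hbmax i h
      by_cases e1 : i = a
      · exact Or.inl e1
      · by_cases e2 : i = b
        · exact Or.inr (Or.inl e2)
        · exact Or.inr (Or.inr ⟨h, by omega, by omega⟩)
    · rintro (rfl | rfl | h)
      · exact ha
      · exact hb
      · exact h.1
  have n1 : b ∉ V.filter (fun i => a < i ∧ i < b) := by simp
  have n2 : a ∉ insert b (V.filter (fun i => a < i ∧ i < b)) := by
    simp only [Finset.mem_insert, Finset.mem_filter]
    omega
  have Fa : ch (fan k lab a) = ch (Count_seg (lab a) (a + 1) b ++ [lab a b]) := by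
    rw [Count_fan, Count_seg_split (lab a) (show a + 1 ≤ b by omega) (hV b hb), List.append_assoc,
      List.cons_append, ch_split hlab]
    have z : ∀ x ∈ Count_seg (lab a) (b + 1) k ++ Count_seg (lab a) 0 a, x = 0 := by
      intro x hx
      rw [List.mem_append] at hx
      rcases hx with hx | hx <;> obtain ⟨j, j1, j2, rfl⟩ := Count_mem_seg hx
      · exact hdead' a j fun hj => by have := hbmax j hj; omega
      · exact hdead' a j fun hj => by have := hamin j hj; omega
    rw [ch_cons_ne hlab, (chA_zeros z _).1, add_zero]
  have hlab' : lab b a ≠ 0 := by rw [hsymm]; exact hlab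
  have Fb : ch (fan k lab b) = ch (lab a b :: Count_seg (lab b) (a + 1) b) := by
    rw [Count_fan, Count_seg_split (lab b) (Nat.zero_le a) hab, ← List.append_assoc,
      ch_split hlab', hsymm b a]
    have z : ∀ x ∈ Count_seg (lab b) (b + 1) k ++ Count_seg (lab b) 0 a, x = 0 := by
      intro x hx
      rw [List.mem_append] at hx
      rcases hx with hx | hx <;> obtain ⟨j, j1, j2, rfl⟩ := Count_mem_seg hx
      · exact hdead' b j fun hj => by have := hbmax j hj; omega
      · exact hdead' b j fun hj => by have := hamin j hj; omega
    rw [ch_zeros_left z, ch_cons_ne hlab]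
    simp [chA]
  have hcard : V.card = (V.filter (fun i => a < i ∧ i < b)).card + 2 := by
    conv_lhs => rw [hfil]
    rw [Finset.card_insert_of_notMem n2, Finset.card_insert_of_notMem n1]
  have hsum : ∑ i ∈ V, ch (fan k lab i) = ch (fan k lab a) + (ch (fan k lab b) +
      ∑ i ∈ V.filter (fun i => a < i ∧ i < b), ch (fan k lab i)) := by
    conv_lhs => rw [hfil]
    rw [Finset.sum_insert n2, Finset.sum_insert n1]
  rw [hsum, hcard, Fa, Fb]
  omega

end Pool.Agent.Ads89
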