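import Mathlib

/-! # MP_2fbb77_gt: definitions

* `mink` is the Minkowski form of `ℝ^{2,1}`, `H2` the hyperbolic plane (hyperboloid model);
* `ads` is the form of signature `(2,2)` on `ℝ⁴`, `AdS = {x | ads x x = -1}` the anti-de Sitter space,
  time oriented by `om`: a vector `ξ` tangent to `AdS` at `x` with `ads ξ ξ = -1` is future directed if
  `0 < om x ξ`;
* `refl3 v`, `refl4 u` are the reflections in `v^⊥` and in `u^⊥`;
* `Polygon k n` is a compact convex `k`-gon of `H2` (the indices are integers modulo `k`, that is, all the data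
  are `k`-periodic): outward unit normals `v i` of the sides, vertices `p i` (between the sides `i` and
  `i + 1`), with the angle `π / n i` at `p i`;
* `Pleated f L`: the map `f : H2 → AdS` is totally geodesic outside the family of disjoint geodesics `w^⊥`,
  `w ∈ L`;
* `Surf P u f ς`: `f` is an embedded pleated surface, equivariant with respect to the group generated by the
  reflections in the sides of `P` (acting on `AdS` by the reflections in `(u i)^⊥`), and convex towards the
  future (`ς = 1`) or the past (`ς = -1`);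
* `Core P Q`: the two boundary components of the convex core of a globally hyperbolic maximal compact
  anti-de Sitter manifold with this symmetry; `P` and `Q` are the quotients of the future and of the past
  boundary component by the group.  Either the two components are disjoint or (Fuchsian case) the convex core is a
  totally geodesic surface. -/

set_option autoImplicit false

noncomputable section

namespace Pool.Agent.Ads89

/-- Minkowski form of `ℝ^{2,1}`. -/
def mink (x y : Fin 3 → ℝ) : ℝ := x 0 * y 0 + x 1 * y 1 - x 2 * y 2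

/-- The form of signature `(2,2)`. -/
def ads (x y : Fin 4 → ℝ) : ℝ := x 0 * y 0 + x 1 * y 1 - x 2 * y 2 - x 3 * y 3

/-- Time orientation of `AdS`. -/
def om (x y : Fin 4 → ℝ) : ℝ := x 2 * y 3 - x 3 * y 2

/-- The hyperbolic plane. -/
def H2 : Set (Fin 3 → ℝ) := {x | mink x x = -1 ∧ 0 < x 2}

/-- Anti-de Sitter space. -/
def AdS : Set (Fin 4 → ℝ) := {x | ads x x = -1}

/-- Reflection in `v^⊥` (`mink v v = 1`). -/
def refl3 (v x : Fin 3 → ℝ) : Fin 3 → ℝ := x - (2 * mink x v) • v

/-- Reflection in `u^⊥` (`ads u u = 1`). -/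
def refl4 (u x : Fin 4 → ℝ) : Fin 4 → ℝ := x - (2 * ads x u) • u

/-- The determinant of three vectors of `ℝ³`. -/
def det3 (a b c : Fin 3 → ℝ) : ℝ :=
  a 0 * (b 1 * c 2 - b 2 * c 1) - a 1 * (b 0 * c 2 - b 2 * c 0) + a 2 * (b 0 * c 1 - b 1 * c 0)

/-- A compact convex polygon of `H2` with `k` sides and with the angle `π / n i` at the vertex `p i` between
the sides `i` and `i + 1`; `v i` is the outward unit normal of the side `i` (`neg`: all vertices that are not on the
side `j` are on the inner side of `(v j)^⊥`; `orient`: the sides are numbered in one of the two directions). -/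
structure Polygon (k : ℕ) (n : ℤ → ℕ) where
  v : ℤ → Fin 3 → ℝ
  p : ℤ → Fin 3 → ℝ
  v_per : ∀ i : ℤ, v (i + k) = v i
  p_per : ∀ i : ℤ, p (i + k) = p i
  unit : ∀ i : ℤ, mink (v i) (v i) = 1
  mem : ∀ i : ℤ, p i ∈ H2
  inc : ∀ i : ℤ, mink (p i) (v i) = 0
  inc' : ∀ i : ℤ, mink (p i) (v (i + 1)) = 0
  neg : ∀ i j : ℤ, i + 2 ≤ j → j ≤ i + k - 1 → mink (p i) (v j) < 0
  angle : ∀ i : ℤ, mink (v i) (v (i + 1)) = -Real.cos (Real.pi / n i)
  orient : ∀ i : ℤ, 0 < det3 (v i) (v (i + 1)) (p i)

/-- The polygon as a set. -/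
def Polygon.region {k : ℕ} {n : ℤ → ℕ} (P : Polygon k n) : Set (Fin 3 → ℝ) :=
  {x | x ∈ H2 ∧ ∀ i : ℤ, mink x (P.v i) ≤ 0}

/-- `L` is a set of geodesics `w^⊥`, `w ∈ L`, pairwise equal or disjoint, and `f` is totally geodesic on the
closure of every component of the complement of their union: for every `x` on none of the geodesics there is a
linear isometric embedding that coincides with `f` at all points that no geodesic of `L` separates from `x`. -/
structure Pleated (f : (Fin 3 → ℝ) → Fin 4 → ℝ) (L : Set (Fin 3 → ℝ)) : Prop where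
  unit : ∀ w ∈ L, mink w w = 1
  neg_mem : ∀ w ∈ L, -w ∈ L
  disj : ∀ w ∈ L, ∀ w' ∈ L, w' = w ∨ w' = -w ∨ 1 ≤ |mink w w'|
  flat : ∀ x ∈ H2, (∀ w ∈ L, mink x w ≠ 0) →
    ∃ A : (Fin 3 → ℝ) →ₗ[ℝ] (Fin 4 → ℝ), (∀ y z, ads (A y) (A z) = mink y z) ∧
      ∀ y ∈ H2, (∀ w ∈ L, 0 ≤ mink x w * mink y w) → f y = A y

/-- An embedded pleated surface `f : H2 → AdS`, equivariant with respect to the reflection group of the polygon
`P` (the reflection in the side `i` acts on `AdS` as the reflection in `(u i)^⊥`), with `f P` in the chamber of the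
`u i`; at every point there is a support plane with future directed unit normal `ξ` such that the surface
lies in the past of the plane (`ς = 1`) or in its future (`ς = -1`). -/
structure Surf {k : ℕ} {n : ℤ → ℕ} (P : Polygon k n) (u : ℤ → Fin 4 → ℝ)
    (f : (Fin 3 → ℝ) → Fin 4 → ℝ) (ς : ℝ) : Prop where
  maps : ∀ x ∈ H2, f x ∈ AdS
  inj : Set.InjOn f H2
  pleated : ∃ L, Pleated f L ∧ ∀ w ∈ L, ∀ i : ℤ, refl3 (P.v i) w ∈ L
  equiv : ∀ i : ℤ, ∀ x ∈ H2, f (refl3 (P.v i) x) = refl4 (u i) (f x)
  chamber : ∀ x ∈ P.region, ∀ i : ℤ, ads (f x) (u i) ≤ 0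
  convex : ∀ x ∈ H2, ∃ ξ, ads ξ ξ = -1 ∧ ads ξ (f x) = 0 ∧ 0 < om (f x) ξ ∧
    ∀ y ∈ H2, 0 ≤ ς * ads (f y) ξ

/-- The convex core of a globally hyperbolic maximal compact anti-de Sitter manifold with polygonal reflection
symmetry: the reflections in the sides of the polygon act by the reflections in the planes `(u i)^⊥`, `fp` and
`fm` are the universal coverings of the future and of the past boundary component (with their induced
hyperbolic metrics), and `P`, `Q` are the quotients of these metrics by the group.  The two components are disjoint,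
or the convex core is a totally geodesic surface (Fuchsian case). -/
structure Core {k : ℕ} {n : ℤ → ℕ} (P Q : Polygon k n) where
  u : ℤ → Fin 4 → ℝ
  u_per : ∀ i : ℤ, u (i + k) = u i
  u_unit : ∀ i : ℤ, ads (u i) (u i) = 1
  fp : (Fin 3 → ℝ) → Fin 4 → ℝ
  fm : (Fin 3 → ℝ) → Fin 4 → ℝ
  surf_p : Surf P u fp 1
  surf_m : Surf Q u fm (-1)
  disjoint : (∀ x ∈ H2, ∀ y ∈ H2, fp x ≠ fm y) ∨
    ∃ A : (Fin 3 → ℝ) →ₗ[ℝ] (Fin 4 → ℝ), (∀ y z, ads (A y) (A z) = mink y z) ∧
      ∀ x ∈ H2, fp x = A x ∧ fm x = A x

end Pool.Agent.Ads89
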