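import Pool.Agent.W_2fbb77_h89.Rig1

/-! # MP_2fbb77_gt: no digons

* `digon`: `i + 2 ≤ j ≤ i + k - 2`, all `l` with `i < l < j` dead: all bends at `l` equal and `h l = g l`, `h (l-1) = g (l-1)`.  Then
  not both (`0 < s i j` or `0 < S i j`) and (`0 < s' i j` or `0 < S' i j`).  Take `Φ` with `Mt` (upper) at `(i, i+1)`; `h i = g i`
  (`l = i + 1`), so `Mt` (lower) at `(i, i+1)`.  For `i + 2 ≤ m < j`: `s i m = s m (i+k) = S m (i+k) = S i m` (`symm`, `m` dead), the
  same for `s'`, so `Mt` (upper and lower) at `(i, m)` for `i + 1 ≤ m ≤ j - 1`.  Along the dead sides: `Mt` (upper) at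
  `(i+1, i+k-1)` (`corner`), backwards to `(i+1, i+2)`, `corner`, ..., to `(j-1, j)`, `corner`: `(j, j+k-2)`, and
  `Φ (u j) = v j` (`side`); also `Φ (u i) = v i`.
  If `0 < s i j` then `A i (j-1) (P.v j) = u j` (`leaf`), and applying `Φ`: `B i (j-1) (P.v j) = v j`; if `0 < S i j` the same
  two equations in the other order (`Φ` is injective).  Similarly `A' i (j-1) (Q.v j) = u j`.  So with
  `g = mink (P.v i) (P.v j) = ads (u i) (u j) = mink (Q.v i) (Q.v j)` both `A i (j-1) (P.node i j)` and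
  `A' i (j-1) (Q.node i j)` are `(1/√(g² - 1)) • (u j - g • u i)` (`node_foot`), contradiction to `hdis`. -/

set_option autoImplicit false

noncomputable section

namespace Pool.Agent.Ads89

open Real

variable {k : ℕ} {n : ℤ → ℕ} {P Q : Polygon k n} {u v : ℤ → Fin 4 → ℝ} {ς : ℝ}
  {A A' B B' : ℤ → ℤ → (Fin 3 → ℝ) →ₗ[ℝ] (Fin 4 → ℝ)} {ξ ξ' η η' : ℤ → ℤ → Fin 4 → ℝ}
  {s s' S S' : ℤ → ℤ → ℝ} {i j : ℤ} {Φ : (Fin 4 → ℝ) ≃ₗ[ℝ] (Fin 4 → ℝ)}

theorem dig_up (hk : 4 ≤ k) (hn : ∀ i : ℤ, 3 ≤ n i) (HA : BD P u ς A ξ s) (HB : BD P v ς B η S)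
    (h1 : i + 1 ≤ j) (m : ℕ) (h2 : j + m ≤ i + k - 2)
    (hs : ∀ l : ℤ, j < l → l ≤ j + m → s i l = S i l) (h : Mt Φ A ξ B η i j) :
    Mt Φ A ξ B η i (j + m) := by
  induction m with
  | zero => simpa using h
  | succ m ih =>
    have h0 : Mt Φ A ξ B η i (j + m) :=
      ih (by push_cast at h2; linarith) (fun l h3 h4 => hs l h3 (by push_cast; linarith))
    have h3 := Mt.fwd (Φ := Φ) (j := j + m + 1) hk hn HA HB (by omega)
      (by push_cast at h2; linarith) (hs _ (by omega) (by push_cast; linarith))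
      (by rwa [add_sub_cancel_right])
    have h4 : j + ((m + 1 : ℕ) : ℤ) = j + m + 1 := by push_cast; ring
    rwa [h4]

theorem dig_down (hk : 4 ≤ k) (hn : ∀ i : ℤ, 3 ≤ n i) (hς : ς = 1 ∨ ς = -1)
    (HA : BD P u ς A ξ s) (HB : BD P v ς B η S)
    (h2 : j ≤ i + k - 2) (m : ℕ) (h1 : i + 1 ≤ j - m)
    (hs : ∀ l : ℤ, j - m < l → l ≤ j → s i l = S i l) (h : Mt Φ A ξ B η i j) :
    Mt Φ A ξ B η i (j - m) := by
  induction m with
  | zero => simpa using h
  | succ m ih =>
    have h0 : Mt Φ A ξ B η i (j - m) :=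
      ih (by push_cast at h1; linarith) (fun l h3 h4 => hs l (by push_cast; linarith) h4)
    have h3 := Mt.bwd (Φ := Φ) (j := j - m) hk hn hς HA HB (by push_cast at h1; linarith)
      (by omega) (hs _ (by push_cast; linarith) (by omega)) h0
    have h4 : j - ((m + 1 : ℕ) : ℤ) = j - m - 1 := by push_cast; ring
    rwa [h4]

theorem dig_img {g : ℝ} {w : Fin 4 → ℝ} {w' : ℤ → Fin 4 → ℝ} (hk : 4 ≤ k) (HA : BD P w' ς A ξ s) (hij : i + 2 ≤ j)
    (hji : j ≤ i + k - 2) (h : A i (j - 1) (P.v j) = w) (hg : mink (P.v i) (P.v j) = g) :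
    A i (j - 1) (P.node i j) = (1 / √(g ^ 2 - 1)) • (w - g • w' i) := by
  rw [P.node_foot hk hij hji, map_smul, map_sub, map_smul, h,
    HA.side i (j - 1) (by omega) (by omega), hg]

theorem digon (hk : 4 ≤ k) (hn : ∀ i : ℤ, 3 ≤ n i) (HA : BD P u 1 A ξ s) (HB : BD P v 1 B η S)
    (HA' : BD Q u (-1) A' ξ' s') (HB' : BD Q v (-1) B' η' S') {h g : ℤ → ℝ}
    (h1 : ∀ i : ℤ, Height P Q A A' ξ ξ' i (h i)) (h2 : ∀ i : ℤ, Height P Q B B' η η' i (g i))
    (hdA : ∀ i j : ℤ, i + 2 ≤ j → j ≤ i + k - 2 → A i (j - 1) (P.node i j) ≠ A' i (j - 1) (Q.node i j))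
    (hij : i + 2 ≤ j) (hji : j ≤ i + k - 2)
    (hdead : ∀ l : ℤ, i < l → l < j → h l = g l ∧ h (l - 1) = g (l - 1) ∧
      ∀ m : ℤ, l + 2 ≤ m → m ≤ l + k - 2 → s l m = S l m ∧ s' l m = S' l m) :
    s i j = S i j ∨ s' i j = S' i j := by
  have hk' : (4 : ℤ) ≤ k := by exact_mod_cast hk
  by_contra hcon
  rw [not_or] at hcon
  obtain ⟨c1, c2⟩ := hcon
  have c1' : 0 < s i j ∨ 0 < S i j := by
    have n1 := HA.nonneg i j hij hji
    have n2 := HB.nonneg i j hij hji
    by_contra h3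
    rw [not_or, not_lt, not_lt] at h3
    exact c1 (by linarith [h3.1, h3.2])
  have c2' : 0 < s' i j ∨ 0 < S' i j := by
    have n1 := HA'.nonneg i j hij hji
    have n2 := HB'.nonneg i j hij hji
    by_contra h3
    rw [not_or, not_lt, not_lt] at h3
    exact c2 (by linarith [h3.1, h3.2])
  obtain ⟨Φ, hΦ, h0⟩ := exists_phi hk HA HB i
  have hi : h i = g i := by
    have h3 := (hdead (i + 1) (by omega) (by omega)).2.1
    rwa [add_sub_cancel_right] at h3
  have h0' : Mt Φ A' ξ' B' η' i (i + 1) :=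
    Mt.vert hk hn HA HB HA' HB' (h1 i) (hi ▸ h2 i) h0
  -- bends at the side `i`
  have hsi : ∀ m : ℤ, i + 2 ≤ m → m < j → s i m = S i m ∧ s' i m = S' i m := by
    intro m h3 h4
    obtain ⟨-, -, h5⟩ := hdead m (by omega) h4
    obtain ⟨h6, h7⟩ := h5 (i + k) (by omega) (by omega)
    rw [HA.symm i m h3 (by omega), HB.symm i m h3 (by omega)] at h6
    rw [HA'.symm i m h3 (by omega), HB'.symm i m h3 (by omega)] at h7
    exact ⟨h6, h7⟩
  obtain ⟨t, ht⟩ : ∃ t : ℕ, (t : ℤ) = j - 1 - (i + 1) := ⟨(j - 1 - (i + 1)).toNat, by omega⟩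
  have ht' : i + 1 + (t : ℤ) = j - 1 := by omega
  have hm : Mt Φ A ξ B η i (j - 1) := by
    have h3 := dig_up (i := i) (j := i + 1) hk hn HA HB le_rfl t (by omega)
      (fun l h4 h5 => (hsi l (by omega) (by omega)).1) h0
    rwa [ht'] at h3
  have hm' : Mt Φ A' ξ' B' η' i (j - 1) := by
    have h3 := dig_up (i := i) (j := i + 1) hk hn HA' HB' le_rfl t (by omega)
      (fun l h4 h5 => (hsi l (by omega) (by omega)).2) h0'
    rwa [ht'] at h3
  -- along the dead sides
  have hd : ∀ m : ℕ, i + m ≤ j - 1 → Mt Φ A ξ B η (i + m) (i + m + 1) := by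
    intro m
    induction m with
    | zero => intro _; simpa using h0
    | succ m ih =>
      intro h3
      have h4 := (Mt.corner HA HB (i + m)).mp (ih (by push_cast at h3; linarith))
      have h5 := dig_down (i := i + m + 1) (j := i + m + k - 1) hk hn (Or.inl rfl) HA HB
        (by omega) (k - 3) (by omega) (fun l h5 h6 =>
          ((hdead (i + m + 1) (by omega) (by push_cast at h3; linarith)).2.2 l
            (by omega) (by omega)).1) h4
      have h6 : i + m + (k : ℤ) - 1 - ((k - 3 : ℕ) : ℤ) = i + m + 1 + 1 := by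
        have : ((k - 3 : ℕ) : ℤ) = (k : ℤ) - 3 := by omega
        rw [this]; ring
      rw [h6] at h5
      have h7 : i + ((m + 1 : ℕ) : ℤ) = i + m + 1 := by push_cast; ring
      rwa [h7]
  have hj : Mt Φ A ξ B η j (j + k - 2) := by
    have h3 := hd (t + 1) (by push_cast; omega)
    have h4 : i + ((t + 1 : ℕ) : ℤ) = j - 1 := by push_cast; omega
    rw [h4] at h3
    have h5 := (Mt.corner HA HB (j - 1)).mp h3
    rwa [show j - 1 + 1 = j by ring, show j - 1 + (k : ℤ) - 1 = j + k - 2 by ring] at h5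
  have hui : Φ (u i) = v i := by
    have h3 := HA.side i (i + 1) le_rfl (by omega)
    have h4 := HB.side i (i + 1) le_rfl (by omega)
    rw [h0.1, h3] at h4
    exact h4
  have huj : Φ (u j) = v j := by
    have h3 := HA.side j (j + k - 2) (by omega) le_rfl
    have h4 := HB.side j (j + k - 2) (by omega) le_rfl
    rw [hj.1, h3] at h4
    exact h4
  have hA : A i (j - 1) (P.v j) = u j := by
    rcases c1' with h3 | h3
    · exact HA.leaf i j hij hji h3
    · have h4 := HB.leaf i j hij hji h3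
      rw [hm.1, ← huj] at h4
      exact Φ.injective h4
  have hA' : A' i (j - 1) (Q.v j) = u j := by
    rcases c2' with h3 | h3
    · exact HA'.leaf i j hij hji h3
    · have h4 := HB'.leaf i j hij hji h3
      rw [hm'.1, ← huj] at h4
      exact Φ.injective h4
  have g1 : mink (P.v i) (P.v j) = ads (u i) (u j) := by
    rw [← HA.iso i (j - 1) (by omega) (by omega), hA, HA.side i (j - 1) (by omega) (by omega)]
  have g2 : mink (Q.v i) (Q.v j) = ads (u i) (u j) := by
    rw [← HA'.iso i (j - 1) (by omega) (by omega), hA', HA'.side i (j - 1) (by omega) (by omega)]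
  exact hdA i j hij hji ((dig_img hk HA hij hji hA g1).trans (dig_img hk HA' hij hji hA' g2).symm)

end Pool.Agent.Ads89
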