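import Pool.Agent.W_2fbb77_h89.Poly

/-! # MP_2fbb77_gt: order of the nodes of a side

(`g i j = mink (v i) (v j)`; see `Poly.lean`.)
* `mink (tau i j) (node i l) = det3 (v i) (node i j) (node i l)`.  (`order`)  For feet `j < l`:
  `= det3 (v i) (v j) (v l) / (√.. √..) > 0`.  For `j = i + 1` and a foot `l`: `det3 (v i) (p i) (v l) / √..` and
  `det3 (v i) (p i) (v l) = -mink (p i) (cross (v i) (v l))`; with `vert` and `mink_cross_cross`:
  `mink (p i) (cross (v i) (v l)) = (1/√..) (g i i * g (i+1) l - g i l * g (i+1) i) < 0`, as `g (i+1) l ≤ 0`... precisely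
  `g (i+1) l ≤ 0` and `- g i l * g (i+1) i < 0`.  For `l = i + k - 1`: `p (i-1) = (1/√..) • cross (v i) (v (i-1))`, and
  `det3 (v i) (node i j) (p (i-1)) = mink (cross (v i) (node i j)) (p (i - 1))`, similarly.
  For `j = i + 1`, `l = i + k - 1` combine both: `(g i i g (i+1) (i-1) - g i (i-1) g (i+1) i) ..`; `g (i+1) (i-1) < -1` if
  `4 ≤ k`.
* `node_succ`: in the plane `(v i)^⊥` the vectors `node i j`, `tau i j` are an orthonormal basis and
  `node i (j+1) = - mink (node i j) (node i (j+1)) • node i j + mink (tau i j) (node i (j+1)) • tau i j`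
  (`expand3`-like: the difference is orthogonal to `v i`, `node i j`, `tau i j`); `mink (tau ..) .. = sinh len > 0` and
  `- mink .. = cosh len` as it is positive with square `1 + sinh²`.  `tau_succ`: apply `cross (v i)`, with
  `cross (v i) (tau i j) = node i j` (`cross_cross`). -/

set_option autoImplicit false

noncomputable section

namespace Pool.Agent.Ads89

variable {k : ℕ} {n : ℤ → ℕ}

namespace Polygon

variable (P : Polygon k n) {i j l : ℤ}

theorem order (hk : 4 ≤ k) (hn : ∀ i : ℤ, 3 ≤ n i) (h1 : i + 1 ≤ j) (h2 : j < l)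
    (h3 : l ≤ i + k - 1) : 0 < mink (P.tau i j) (P.node i l) ∧ mink (P.tau i l) (P.node i j) < 0 := by
  have hk' : (4 : ℤ) ≤ k := by exact_mod_cast hk
  have anti : mink (P.tau i l) (P.node i j) = -mink (P.tau i j) (P.node i l) := by
    rw [tau, tau, mink_cross, mink_cross]
    simp only [det3]
    ring
  suffices h : 0 < mink (P.tau i j) (P.node i l) from ⟨h, by rw [anti]; linarith⟩
  have hsl := P.node_side hk (show i + 1 ≤ l by omega) h3
  have hsj := P.node_side hk h1 (show j ≤ i + k - 1 by omega)
  have sq1 : ∀ a b : ℤ, a + 2 ≤ b → b ≤ a + k - 2 → 0 < √(mink (P.v a) (P.v b) ^ 2 - 1) := by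
    intro a b h4 h5
    have := P.far hk hn a b h4 h5
    exact Real.sqrt_pos.mpr (by nlinarith)
  have sq2 : ∀ a : ℤ, 0 < √(1 - mink (P.v a) (P.v (a + 1)) ^ 2) := by
    intro a
    have := P.g_adj hn a
    exact Real.sqrt_pos.mpr (by nlinarith [this.1, this.2])
  rcases eq_or_lt_of_le h1 with h4 | h4
  · rw [← h4, P.tau_first hk hn, neg_smul, mink_neg_left, mink_smul_left, mink_sub_left,
      mink_smul_left, mink_comm (P.v i) (P.node i l), hsl]
    have key : mink (P.v (i + 1)) (P.node i l) < 0 := by
      rcases eq_or_lt_of_le h3 with h5 | h5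
      · rw [h5, P.node_last hk, mink_comm]
        exact P.neg (i - 1) (i + 1) (by omega) (by omega)
      · rw [P.node_foot hk (by omega) (by omega), mink_smul_right, mink_sub_right, mink_smul_right,
          mink_comm (P.v (i + 1)) (P.v i)]
        have g1 := P.g_neg hk hn (show i + 1 < l by omega) (by omega)
        have g2 := P.far hk hn i l (by omega) (by omega)
        have g3 := P.g_adj hn i
        have s1 := sq1 i l (by omega) (by omega)
        exact mul_neg_of_pos_of_neg (by positivity) (by nlinarith)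
    have s2 := sq2 i
    have : 0 < 1 / √(1 - mink (P.v i) (P.v (i + 1)) ^ 2) * (-mink (P.v (i + 1)) (P.node i l)) :=
      mul_pos (by positivity) (by linarith)
    linarith
  rcases eq_or_lt_of_le h3 with h5 | h5
  · have hneg : mink (P.tau i l) (P.node i j) < 0 := by
      rw [h5, P.tau_last hk hn, mink_smul_left, mink_sub_left, mink_smul_left,
        mink_comm (P.v i) (P.node i j), hsj, P.node_foot hk (by omega) (by omega), mink_smul_right,
        mink_sub_right, mink_smul_right]
      have g1 := P.g_neg hk hn (show i - 1 < j by omega) (by omega)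
      have g2 := P.far hk hn i j (by omega) (by omega)
      have g3 := P.g_adj hn (i - 1)
      have s1 := sq1 i j (by omega) (by omega)
      have s2 := sq2 (i - 1)
      rw [sub_add_cancel] at g3 s2
      have h6 : mink (P.v (i - 1)) (P.v j) - mink (P.v i) (P.v j) * mink (P.v (i - 1)) (P.v i) < 0 := by
        nlinarith
      have h7 : 1 / √(mink (P.v i) (P.v j) ^ 2 - 1) *
          (mink (P.v (i - 1)) (P.v j) - mink (P.v i) (P.v j) * mink (P.v (i - 1)) (P.v i)) < 0 :=
        mul_neg_of_pos_of_neg (by positivity) h6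
      rw [mul_zero, sub_zero]
      exact mul_neg_of_pos_of_neg (by positivity) h7
    rw [anti] at hneg
    linarith
  · rw [tau, mink_cross, P.node_foot hk (show i + 2 ≤ j by omega) (by omega),
      P.node_foot hk (show i + 2 ≤ l by omega) (by omega)]
    have hD := P.orient3 hk i j l (by omega) h2 (by omega)
    have s1 := sq1 i j (by omega) (by omega)
    have s2 := sq1 i l (by omega) (by omega)
    have e : det3 (P.v i)
        ((1 / √(mink (P.v i) (P.v j) ^ 2 - 1)) • (P.v j - mink (P.v i) (P.v j) • P.v i))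
        ((1 / √(mink (P.v i) (P.v l) ^ 2 - 1)) • (P.v l - mink (P.v i) (P.v l) • P.v i)) =
        (1 / √(mink (P.v i) (P.v j) ^ 2 - 1)) * (1 / √(mink (P.v i) (P.v l) ^ 2 - 1)) *
          det3 (P.v i) (P.v j) (P.v l) := by
      simp only [det3, Pi.smul_apply, Pi.sub_apply, smul_eq_mul]
      ring
    rw [e]
    positivity

theorem len_pos (hk : 4 ≤ k) (hn : ∀ i : ℤ, 3 ≤ n i) (h1 : i + 1 ≤ j) (h2 : j ≤ i + k - 2) :
    0 < P.len i j := by
  rw [len, Real.arsinh_pos_iff]
  exact (P.order hk hn h1 (by omega) (by omega)).1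

theorem cross_tau (hk : 4 ≤ k) (h1 : i + 1 ≤ j) (h2 : j ≤ i + k - 1) :
    cross (P.v i) (P.tau i j) = P.node i j := by
  rw [tau, cross_cross, P.unit, mink_comm (P.v i), P.node_side hk h1 h2, one_smul, zero_smul, sub_zero]

theorem node_succ (hk : 4 ≤ k) (hn : ∀ i : ℤ, 3 ≤ n i) (h1 : i + 1 ≤ j) (h2 : j ≤ i + k - 2) :
    P.node i (j + 1) = Real.cosh (P.len i j) • P.node i j + Real.sinh (P.len i j) • P.tau i j := by
  have hk' : (4 : ℤ) ≤ k := by exact_mod_cast hk
  have hS : Real.sinh (P.len i j) = mink (P.tau i j) (P.node i (j + 1)) := by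
    rw [len, Real.sinh_arsinh]
  have e := expand3 (P.v i) (P.node i j) (P.tau i j) (P.node i (j + 1))
  rw [P.det3_frame hk hn h1 (by omega), one_smul, P.node_side hk (by omega) (by omega), zero_smul,
    zero_add] at e
  have e1 : cross (P.tau i j) (P.v i) = -P.node i j := by
    rw [← P.cross_tau hk h1 (by omega)]
    ext a
    fin_cases a <;> simp [cross] <;> ring
  have e2 : cross (P.v i) (P.node i j) = P.tau i j := rfl
  rw [e1, e2, mink_comm (P.node i (j + 1)) (P.tau i j), ← hS] at e
  have m1 := P.node_mem hk hn h1 (show j ≤ i + k - 1 by omega)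
  have m2 := P.node_mem hk hn (show i + 1 ≤ j + 1 by omega) (by omega)
  have hc := mink_le_neg_one m2 m1
  set c := mink (P.node i (j + 1)) (P.node i j) with hcd
  set S := Real.sinh (P.len i j) with hSd
  have e3 : mink (P.node i (j + 1)) (P.node i (j + 1)) = -1 := m2.1
  have e4 : -c ^ 2 + S ^ 2 = -1 := by
    rw [e] at e3
    simp only [mink_add_left, mink_add_right, mink_smul_left, mink_smul_right, mink_neg_left,
      mink_neg_right, P.tau_node, P.tau_unit hk hn h1 (show j ≤ i + k - 1 by omega), m1.1,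
      mink_comm (P.node i j) (P.tau i j)] at e3
    linarith
  have e5 : Real.cosh (P.len i j) = -c := by
    have h5 := Real.cosh_sq (P.len i j)
    rw [← hSd] at h5
    have h6 : Real.cosh (P.len i j) ^ 2 = (-c) ^ 2 := by rw [h5]; linarith
    have h7 := Real.cosh_pos (P.len i j)
    exact (sq_eq_sq₀ h7.le (by linarith)).mp h6
  rw [e5]
  rw [e]
  simp only [smul_neg, neg_smul]

theorem tau_succ (hk : 4 ≤ k) (hn : ∀ i : ℤ, 3 ≤ n i) (h1 : i + 1 ≤ j) (h2 : j ≤ i + k - 2) :
    P.tau i (j + 1) = Real.sinh (P.len i j) • P.node i j + Real.cosh (P.len i j) • P.tau i j := by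
  have hk' : (4 : ℤ) ≤ k := by exact_mod_cast hk
  have e1 : cross (P.v i) (P.tau i j) = P.node i j := P.cross_tau hk h1 (by omega)
  have e2 : cross (P.v i) (P.node i j) = P.tau i j := rfl
  have lin : ∀ (a b : ℝ) (x y : Fin 3 → ℝ),
      cross (P.v i) (a • x + b • y) = a • cross (P.v i) x + b • cross (P.v i) y := by
    intro a b x y
    ext q
    fin_cases q <;> simp [cross] <;> ring
  rw [tau, P.node_succ hk hn h1 h2, lin, e1, e2]
  abel

end Polygon

end Pool.Agent.Ads89
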