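import Pool.Agent.W_2fbb77_h89.Fr1
import Pool.Agent.W_2fbb77_h89.Poly2

/-! # MP_2fbb77_gt: the path along a side

* `path`: along the side `i`, from the frame at the first vertex (`x = A i (i+1) (p i)`, `ξ i (i+1)`,
  `e = A i (i+1) (tau i (i+1))`) to the frame in the gap `i + 1 + m` at `node i (i+1+m)`:
  product of `Hm (len i (i+1+q)) * Bm (-ς s i (i+2+q))`, `q < m` (induction; `node_succ`, `tau_succ`, `bendA`,
  `bendX`, `bendN`), and then `Hm (len i (i+1+m))` to the other end of the gap.  For `ς = 1` the product is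
  `Dm * Pf l s m * Dm` (`Dm_Hm`, `Dm_Bm`, `Dm_Dm`; `pc_conj`), for `ς = -1` it is `Pf l s m`. -/

set_option autoImplicit false

noncomputable section

namespace Pool.Agent.Ads89

open Real

variable {k : ℕ} {n : ℤ → ℕ}

/-- Frame at the end of the gap `(i, i + 1 + m)` in terms of the frame at the first vertex. -/
theorem path {P : Polygon k n} {u : ℤ → Fin 4 → ℝ} {ς : ℝ}
    {A : ℤ → ℤ → (Fin 3 → ℝ) →ₗ[ℝ] (Fin 4 → ℝ)} {ξ : ℤ → ℤ → Fin 4 → ℝ} {s : ℤ → ℤ → ℝ}
    (hk : 4 ≤ k) (hn : ∀ i : ℤ, 3 ≤ n i) (hς : ς = 1 ∨ ς = -1) (H : BD P u ς A ξ s) (i : ℤ) (m : ℕ)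
    (hm : m + 3 ≤ k) (M : M2) :
    Psi (A i (i + 1 + m) (P.node i (i + 2 + m))) (ξ i (i + 1 + m))
      (A i (i + 1 + m) (P.tau i (i + 2 + m))) M =
    Psi (A i (i + 1) (P.p i)) (ξ i (i + 1)) (A i (i + 1) (P.tau i (i + 1)))
      (cj (Pf (fun q => P.len i (i + 1 + q)) (fun q => -(ς * s i (i + 2 + q))) m) M) := by
  have hkz : (4 : ℤ) ≤ k := by exact_mod_cast hk
  induction m generalizing M with
  | zero =>
    have h1 := P.node_succ hk hn (i := i) (j := i + 1) le_rfl (by omega)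
    have h2 := P.tau_succ hk hn (i := i) (j := i + 1) le_rfl (by omega)
    have e1 : i + 2 + ((0 : ℕ) : ℤ) = i + 1 + 1 := by push_cast; ring
    have e2 : i + 1 + ((0 : ℕ) : ℤ) = i + 1 := by push_cast; ring
    rw [e1, e2, h1, h2, P.node_first hk, map_add, map_add, map_smul, map_smul, map_smul,
      map_smul, Psi_H]
    simp only [Pf, Pc, Matrix.one_mul, e2]
  | succ m ih =>
    have hmz : (m : ℤ) + 4 ≤ k := by exact_mod_cast hm
    have e1 : i + 2 + ((m + 1 : ℕ) : ℤ) = (i + 2 + m) + 1 := by push_cast; ring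
    have e2 : i + 1 + ((m + 1 : ℕ) : ℤ) = i + 2 + m := by push_cast; ring
    have e3 : i + 2 + (m : ℤ) - 1 = i + 1 + m := by ring
    have hj1 : i + 1 ≤ i + 2 + (m : ℤ) := by omega
    have hj2 : i + 2 + (m : ℤ) ≤ i + k - 2 := by omega
    have hj3 : i + 2 ≤ i + 2 + (m : ℤ) := by omega
    have h1 := P.node_succ hk hn (i := i) (j := i + 2 + m) hj1 hj2
    have h2 := P.tau_succ hk hn (i := i) (j := i + 2 + m) hj1 hj2
    have hN := H.bendN i (i + 2 + m) hj3 hj2
    have hA := H.bendA i (i + 2 + m) hj3 hj2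
    have hX := H.bendX i (i + 2 + m) hj3 hj2
    rw [e3] at hN hA hX
    set t : ℝ := -(ς * s i (i + 2 + m)) with ht
    have hc : cosh (s i (i + 2 + m)) = cosh t := by
      rw [ht, cosh_neg]
      rcases hς with h | h <;> simp [h]
    have hs' : -(ς * sinh (s i (i + 2 + m))) = sinh t := by
      rw [ht, sinh_neg]
      rcases hς with h | h <;> simp [h]
    rw [sub_eq_add_neg, ← neg_smul, hc, hs'] at hA hX
    have hP : Pf (fun q => P.len i (i + 1 + q)) (fun q => -(ς * s i (i + 2 + q))) (m + 1) =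
        Pf (fun q => P.len i (i + 1 + q)) (fun q => -(ς * s i (i + 2 + q))) m * Bm t *
          Hm (P.len i (i + 2 + m)) := by
      simp only [Pf, Pc]
      rw [ht, e2]
    rw [e1, e2, h1, h2, map_add, map_add, map_smul, map_smul, map_smul, map_smul, Psi_H, hN, hA,
      hX, Psi_B, ih (by omega), hP, cj_mul, cj_mul]

end Pool.Agent.Ads89
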