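import Pool.Agent.W_2fbb77_h89.Fr1
import Pool.Agent.W_2fbb77_h89.Poly2

/-! # MP_2fbb77_gt: heights at the vertices

* Heights (`exists_height`): at the vertex `p i`: `x = A i (i+1) (P.p i)`, `ξ`, `y = A' i (i+1) (Q.p i)`, `η = ξ' i (i+1)`.
  `e := A i (i+1) (P.tau i (i+1)) = A' i (i+1) (Q.tau i (i+1))` (`tau_first` with `g = - cos (π / n i)` for `P` and `Q`;
  `A i (i+1) (v i) = u i`, `A i (i+1) (v (i+1)) = A (i+1) (i+k-1) (v (i+1)) = u (i+1)` by `corner`, `side`).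
  `y, η` are orthogonal to `e`, `u i`; `expand4` with `x, ξ, e, u i`: `y = α x + β ξ`, `η = γ x + δ ξ`, `α² + β² = 1 = γ² + δ²`,
  `α γ + β δ = 0`, and `om y η = (α δ - β γ) om x ξ`, both `> 0` (`fut`, `p i ∈ H2`), so `δ = α`, `γ = - β`.  `h ∈ [0, 2π)` with
  `α = cos h`, `β = - sin h` (e.g. from `Complex.arg`).
* At the last vertex of the side `i` (`p (i-1) = node i (i+k-1)`): `A i (i+k-2) = A (i-1) i` by `corner` at `i - 1`
  (`ξ` too), so the relation with `h (i-1)` holds for the end frames; the end vectors `e` of the two paths agree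
  by `tau_last`. -/

set_option autoImplicit false

noncomputable section

namespace Pool.Agent.Ads89

open Real

variable {k : ℕ} {n : ℤ → ℕ}

/-- The height at the vertex `i`: the relation between the upper and the lower frame. -/
def Height (P Q : Polygon k n) (A A' : ℤ → ℤ → (Fin 3 → ℝ) →ₗ[ℝ] (Fin 4 → ℝ))
    (ξ ξ' : ℤ → ℤ → Fin 4 → ℝ) (i : ℤ) (h : ℝ) : Prop :=
  0 ≤ h ∧ h < 2 * π ∧
    A' i (i + 1) (Q.p i) = cos h • A i (i + 1) (P.p i) - sin h • ξ i (i + 1) ∧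
    ξ' i (i + 1) = sin h • A i (i + 1) (P.p i) + cos h • ξ i (i + 1)

variable {P Q : Polygon k n} {u : ℤ → Fin 4 → ℝ}
  {A A' : ℤ → ℤ → (Fin 3 → ℝ) →ₗ[ℝ] (Fin 4 → ℝ)} {ξ ξ' : ℤ → ℤ → Fin 4 → ℝ} {s s' : ℤ → ℤ → ℝ}

theorem fr3_first {P : Polygon k n} {u : ℤ → Fin 4 → ℝ} {ς : ℝ}
    {A : ℤ → ℤ → (Fin 3 → ℝ) →ₗ[ℝ] (Fin 4 → ℝ)} {ξ : ℤ → ℤ → Fin 4 → ℝ} {s : ℤ → ℤ → ℝ}
    (hk : 4 ≤ k) (hn : ∀ i : ℤ, 3 ≤ n i) (H : BD P u ς A ξ s) (i : ℤ) :
    A i (i + 1) (P.tau i (i + 1)) = -(1 / √(1 - (-cos (π / n i)) ^ 2)) •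
      (u (i + 1) - (-cos (π / n i)) • u i) := by
  have hkz : (4 : ℤ) ≤ k := by exact_mod_cast hk
  have h1 : A i (i + 1) (P.v i) = u i := H.side i (i + 1) le_rfl (by omega)
  have h2 : A i (i + 1) (P.v (i + 1)) = u (i + 1) := by
    rw [← (H.corner i).1]
    exact H.side (i + 1) (i + k - 1) (by omega) (by omega)
  rw [P.tau_first hk hn, map_smul, map_sub, map_smul, h1, h2, P.angle]

theorem fr3_last {P : Polygon k n} {u : ℤ → Fin 4 → ℝ} {ς : ℝ}
    {A : ℤ → ℤ → (Fin 3 → ℝ) →ₗ[ℝ] (Fin 4 → ℝ)} {ξ : ℤ → ℤ → Fin 4 → ℝ} {s : ℤ → ℤ → ℝ}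
    (hk : 4 ≤ k) (hn : ∀ i : ℤ, 3 ≤ n i) (H : BD P u ς A ξ s) (i : ℤ) :
    A i (i + k - 2) (P.tau i (i + k - 1)) = (1 / √(1 - (-cos (π / n (i - 1))) ^ 2)) •
      (u (i - 1) - (-cos (π / n (i - 1))) • u i) := by
  have hkz : (4 : ℤ) ≤ k := by exact_mod_cast hk
  have h1 : A i (i + k - 2) (P.v i) = u i := H.side i (i + k - 2) (by omega) (by omega)
  have h2 : A i (i + k - 2) (P.v (i - 1)) = u (i - 1) := by
    have h3 := (H.corner (i - 1)).1
    rw [show i - 1 + 1 = i by ring, show i - 1 + (k : ℤ) - 1 = i + k - 2 by ring] at h3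
    rw [h3]
    exact H.side (i - 1) i (by omega) (by omega)
  have h4 := P.angle (i - 1)
  rw [show i - 1 + 1 = i by ring] at h4
  rw [P.tau_last hk hn, map_smul, map_sub, map_smul, h1, h2, h4]

theorem fr3_alg {α β γ δ : ℝ} (q1 : α ^ 2 + β ^ 2 = 1) (q2 : γ ^ 2 + δ ^ 2 = 1)
    (q3 : α * γ + β * δ = 0) (q4 : 0 < α * δ - β * γ) : δ = α ∧ γ = -β := by
  have q5 : α * δ - β * γ = 1 := by
    have h1 : (α * δ - β * γ) ^ 2 = 1 := by
      have : (α * δ - β * γ) ^ 2 = (α ^ 2 + β ^ 2) * (γ ^ 2 + δ ^ 2) - (α * γ + β * δ) ^ 2 := by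
        ring
      rw [this, q1, q2, q3]
      norm_num
    nlinarith
  have q6 : (δ - α) ^ 2 + (γ + β) ^ 2 = 0 := by nlinarith
  have q7 : (δ - α) ^ 2 = 0 := by nlinarith [sq_nonneg (δ - α), sq_nonneg (γ + β)]
  have q8 : (γ + β) ^ 2 = 0 := by nlinarith [sq_nonneg (δ - α), sq_nonneg (γ + β)]
  have q9 := pow_eq_zero_iff (two_ne_zero) |>.1 q7
  have q10 := pow_eq_zero_iff (two_ne_zero) |>.1 q8
  constructor <;> linarith

theorem fr3_angle {α β : ℝ} (h : α ^ 2 + β ^ 2 = 1) : ∃ t : ℝ, 0 ≤ t ∧ t < 2 * π ∧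
    α = cos t ∧ β = -sin t := by
  set z : ℂ := ⟨α, -β⟩ with hz
  have hn : ‖z‖ = 1 := by
    have h1 : ‖z‖ ^ 2 = 1 := by
      rw [← Complex.normSq_eq_norm_sq, Complex.normSq_apply]
      simp only [hz]
      nlinarith
    have h2 : 0 ≤ ‖z‖ := norm_nonneg _
    nlinarith
  have hz0 : z ≠ 0 := by
    intro h0
    rw [h0, norm_zero] at hn
    norm_num at hn
  have hc : cos (Complex.arg z) = α := by
    rw [Complex.cos_arg hz0, hn, div_one]
  have hs : sin (Complex.arg z) = -β := by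
    rw [Complex.sin_arg, hn, div_one]
  have h1 := Complex.neg_pi_lt_arg z
  have h2 := Complex.arg_le_pi z
  have hp := pi_pos
  rcases lt_or_ge (Complex.arg z) 0 with h3 | h3
  · refine ⟨Complex.arg z + 2 * π, by linarith, by linarith, ?_, ?_⟩
    · rw [cos_add_two_pi, hc]
    · rw [sin_add_two_pi, hs]
      ring
  · refine ⟨Complex.arg z, h3, by linarith, hc.symm, ?_⟩
    rw [hs]
    ring

/-- The unit tangent vectors at the first vertex agree. -/
theorem tan_first (hk : 4 ≤ k) (hn : ∀ i : ℤ, 3 ≤ n i) (H : BD P u 1 A ξ s) (H' : BD Q u (-1) A' ξ' s')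
    (i : ℤ) : A i (i + 1) (P.tau i (i + 1)) = A' i (i + 1) (Q.tau i (i + 1)) := by
  rw [fr3_first hk hn H, fr3_first hk hn H']

theorem tan_last (hk : 4 ≤ k) (hn : ∀ i : ℤ, 3 ≤ n i) (H : BD P u 1 A ξ s) (H' : BD Q u (-1) A' ξ' s')
    (i : ℤ) : A i (i + k - 2) (P.tau i (i + k - 1)) = A' i (i + k - 2) (Q.tau i (i + k - 1)) := by
  rw [fr3_last hk hn H, fr3_last hk hn H']

theorem exists_height (hk : 4 ≤ k) (hn : ∀ i : ℤ, 3 ≤ n i) (hu : ∀ i : ℤ, ads (u i) (u i) = 1)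
    (H : BD P u 1 A ξ s) (H' : BD Q u (-1) A' ξ' s') (i : ℤ) : ∃ h, Height P Q A A' ξ ξ' i h := by
  have hkz : (4 : ℤ) ≤ k := by exact_mod_cast hk
  have g1 : i + 1 ≤ i + 1 := le_rfl
  have g2 : i + 1 ≤ i + k - 2 := by omega
  have g3 : i + 1 ≤ i + k - 1 := by omega
  have hte := tan_first hk hn H H' i
  set x := A i (i + 1) (P.p i) with hx
  set y := A' i (i + 1) (Q.p i) with hy
  set e := A i (i + 1) (P.tau i (i + 1)) with he
  set a := ξ i (i + 1) with ha
  set b := ξ' i (i + 1) with hb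
  have uA : A i (i + 1) (P.v i) = u i := H.side i (i + 1) g1 g2
  have uA' : A' i (i + 1) (Q.v i) = u i := H'.side i (i + 1) g1 g2
  have tnP := P.tau_node i (i + 1)
  rw [P.node_first hk] at tnP
  have tnQ := Q.tau_node i (i + 1)
  rw [Q.node_first hk] at tnQ
  have xx : ads x x = -1 := by rw [hx, H.iso i (i + 1) g1 g2]; exact (P.mem i).1
  have yy : ads y y = -1 := by rw [hy, H'.iso i (i + 1) g1 g2]; exact (Q.mem i).1
  have aa : ads a a = -1 := H.nrm i (i + 1) g1 g2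
  have bb : ads b b = -1 := H'.nrm i (i + 1) g1 g2
  have ee : ads e e = 1 := by
    rw [he, H.iso i (i + 1) g1 g2]
    exact P.tau_unit hk hn g1 g3
  have uu : ads (u i) (u i) = 1 := hu i
  have xa : ads x a = 0 := H.perp i (i + 1) g1 g2 _
  have xe : ads x e = 0 := by
    rw [hx, he, H.iso i (i + 1) g1 g2, mink_comm]
    exact tnP
  have xu : ads x (u i) = 0 := by
    rw [hx, ← uA, H.iso i (i + 1) g1 g2]
    exact P.inc i
  have ae : ads a e = 0 := by rw [ads_comm]; exact H.perp i (i + 1) g1 g2 _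
  have au : ads a (u i) = 0 := by rw [ads_comm, ← uA]; exact H.perp i (i + 1) g1 g2 _
  have eu : ads e (u i) = 0 := by
    rw [he, ← uA, H.iso i (i + 1) g1 g2]
    exact P.tau_side i (i + 1)
  have yb : ads y b = 0 := H'.perp i (i + 1) g1 g2 _
  have ye : ads y e = 0 := by
    rw [hy, hte, H'.iso i (i + 1) g1 g2, mink_comm]
    exact tnQ
  have yu : ads y (u i) = 0 := by
    rw [hy, ← uA', H'.iso i (i + 1) g1 g2]
    exact Q.inc i
  have be : ads b e = 0 := by rw [ads_comm, hte]; exact H'.perp i (i + 1) g1 g2 _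
  have bu : ads b (u i) = 0 := by rw [ads_comm, ← uA']; exact H'.perp i (i + 1) g1 g2 _
  have fx : 0 < om x a := H.fut i (i + 1) g1 g2 _ (P.mem i)
  have fy : 0 < om y b := H'.fut i (i + 1) g1 g2 _ (Q.mem i)
  have Ey := expand4 xx aa ee uu xa xe xu ae au eu y
  have Eb := expand4 xx aa ee uu xa xe xu ae au eu b
  rw [ye, yu, zero_smul, zero_smul, add_zero, add_zero] at Ey
  rw [be, bu, zero_smul, zero_smul, add_zero, add_zero] at Eb
  set α := -ads y x with hα
  set β := -ads y a with hβ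
  set γ := -ads b x with hγ
  set δ := -ads b a with hδ
  have Ey' : y = α • x + β • a := by rw [Ey, hβ]; module
  have Eb' : b = γ • x + δ • a := by rw [Eb, hδ]; module
  have ax : ads a x = 0 := by rw [ads_comm]; exact xa
  have q1 : α ^ 2 + β ^ 2 = 1 := by
    have h1 : ads (α • x + β • a) (α • x + β • a) = -1 := by rw [← Ey']; exact yy
    rw [ads_add_left, ads_add_right, ads_add_right, ads_smul_left, ads_smul_right, ads_smul_left,
      ads_smul_right, ads_smul_left, ads_smul_right, ads_smul_left, ads_smul_right, xx, aa, xa,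
      ax] at h1
    linarith
  have q2 : γ ^ 2 + δ ^ 2 = 1 := by
    have h1 : ads (γ • x + δ • a) (γ • x + δ • a) = -1 := by rw [← Eb']; exact bb
    rw [ads_add_left, ads_add_right, ads_add_right, ads_smul_left, ads_smul_right, ads_smul_left,
      ads_smul_right, ads_smul_left, ads_smul_right, ads_smul_left, ads_smul_right, xx, aa, xa,
      ax] at h1
    linarith
  have q3 : α * γ + β * δ = 0 := by
    have h1 : ads (α • x + β • a) (γ • x + δ • a) = 0 := by rw [← Ey', ← Eb']; exact yb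
    rw [ads_add_left, ads_add_right, ads_add_right, ads_smul_left, ads_smul_right, ads_smul_left,
      ads_smul_right, ads_smul_left, ads_smul_right, ads_smul_left, ads_smul_right, xx, aa, xa,
      ax] at h1
    linarith
  have q4 : 0 < α * δ - β * γ := by
    have h1 : om y b = (α * δ - β * γ) * om x a := by
      rw [Ey', Eb', om_add_left, om_add_right, om_add_right, om_smul_left, om_smul_right,
        om_smul_left, om_smul_right, om_smul_left, om_smul_right, om_smul_left, om_smul_right,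
        om_self, om_self, om_swap a x]
      ring
    rw [h1] at fy
    exact (pos_iff_pos_of_mul_pos fy).2 fx
  obtain ⟨q7, q8⟩ := fr3_alg q1 q2 q3 q4
  obtain ⟨t, ht0, ht1, ht2, ht3⟩ := fr3_angle q1
  refine ⟨t, ht0, ht1, ?_, ?_⟩
  · change y = cos t • x - sin t • a
    rw [Ey', ht2, ht3]
    module
  · change b = sin t • x + cos t • a
    rw [Eb', q7, q8, ht2, ht3]
    module

end Pool.Agent.Ads89
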