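import Pool.Agent.W_2fbb77_h89.Arm
import Pool.Agent.W_2fbb77_h89.Fr2
import Pool.Agent.W_2fbb77_h89.Fr3

/-! # MP_2fbb77_gt: the closed polygons in the mirror planes

* `clos`: `F = Psi` of the lower start frame.  `Psi_upper_start = F ∘ cj (Rm a)` (`x = cos h y + sin h η`,
  `ξ = cos h η - sin h y`), `Psi_upper_end = Psi_upper_start ∘ cj (Dm Pf Dm)`, `Psi_lower_end = F ∘ cj Pf'`,
  `Psi_upper_end = Psi_lower_end ∘ cj (Rm b)`.  So `F (cj (Rm a * (Dm * Pf * Dm)) M) = F (cj (Pf' * Rm b) M)` for all `M`;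
  `F` is injective on matrices of equal trace (`y, η, e` independent: take products with `ads`), and
  `cj g M = cj g' M` for all `M`, `det g = det g' = 1`, gives `g = g'` or `g = - g'` (`cj_eq`: `g⁻¹ g'` commutes with `Xm`,
  `Dm`, so it is scalar with determinant 1). -/

set_option autoImplicit false

noncomputable section

namespace Pool.Agent.Ads89

open Real

theorem Frame_trace {g : M2} (hg : g.det = 1) (M : M2) :
    cj g M 0 0 + cj g M 1 1 = M 0 0 + M 1 1 := by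
  have h : Matrix.trace (cj g M) = Matrix.trace M := by
    unfold cj
    rw [Matrix.mul_assoc, Matrix.trace_mul_comm, Matrix.mul_assoc, adj_mul hg, Matrix.mul_one]
  simpa [Matrix.trace_fin_two] using h

theorem Frame_rot (x ξ y η e : Fin 4 → ℝ) (t : ℝ) (hy : y = cos t • x - sin t • ξ)
    (hη : η = sin t • x + cos t • ξ) (M : M2) : Psi x ξ e M = Psi y η e (cj (Rm t) M) := by
  have h := sin_sq_add_cos_sq t
  have h1 : cos t • y + sin t • η = x := by
    rw [hy, hη]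
    ext j
    simp only [Pi.add_apply, Pi.sub_apply, Pi.smul_apply, smul_eq_mul]
    linear_combination (x j) * h
  have h2 : cos t • η - sin t • y = ξ := by
    rw [hy, hη]
    ext j
    simp only [Pi.add_apply, Pi.sub_apply, Pi.smul_apply, smul_eq_mul]
    linear_combination (ξ j) * h
  rw [← Psi_R, h1, h2]

theorem Frame_det_D {g : M2} (hg : g.det = 1) : (Dm * g * Dm).det = 1 := by
  rw [Matrix.det_mul, Matrix.det_mul, hg]
  simp [Dm, Matrix.det_fin_two]

theorem Frame_ads_comm (x y : Fin 4 → ℝ) : ads x y = ads y x := by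
  simp [ads]
  ring

variable {k : ℕ} {n : ℤ → ℕ}

variable {P Q : Polygon k n} {u : ℤ → Fin 4 → ℝ}
  {A A' : ℤ → ℤ → (Fin 3 → ℝ) →ₗ[ℝ] (Fin 4 → ℝ)} {ξ ξ' : ℤ → ℤ → Fin 4 → ℝ} {s s' : ℤ → ℤ → ℝ}

theorem clos (hk : 4 ≤ k) (hn : ∀ i : ℤ, 3 ≤ n i) (hu : ∀ i : ℤ, ads (u i) (u i) = 1)
    (H : BD P u 1 A ξ s) (H' : BD Q u (-1) A' ξ' s') (h : ℤ → ℝ)
    (hh : ∀ i : ℤ, Height P Q A A' ξ ξ' i (h i)) (i : ℤ) :
    Clos (k - 3) (fun q => P.len i (i + 1 + q)) (fun q => Q.len i (i + 1 + q))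
      (fun q => s i (i + 2 + q)) (fun q => s' i (i + 2 + q)) (h i) (h (i - 1)) := by
  have e1 : i + 1 + ((k - 3 : ℕ) : ℤ) = i + k - 2 := by omega
  have e2 : i + 2 + ((k - 3 : ℕ) : ℤ) = i + k - 1 := by omega
  obtain ⟨ha0, ha1, hy, hη⟩ := hh i
  obtain ⟨hb0, hb1, hy', hη'⟩ := hh (i - 1)
  rw [sub_add_cancel] at hy' hη'
  have hcor := H.corner (i - 1)
  have hcor' := H'.corner (i - 1)
  rw [sub_add_cancel, show i - 1 + (k : ℤ) - 1 = i + k - 2 by ring] at hcor hcor'
  refine ⟨?_, ?_, ?_, ?_, ⟨ha0, ha1⟩, ⟨hb0, hb1⟩, ?_⟩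
  · intro q hq
    exact P.len_pos hk hn (by omega) (by omega)
  · intro q hq
    exact Q.len_pos hk hn (by omega) (by omega)
  · intro q hq
    exact H.nonneg _ _ (by omega) (by omega)
  · intro q hq
    exact H'.nonneg _ _ (by omega) (by omega)
  · have hP := path hk hn (Or.inl rfl) H i (k - 3) (by omega)
    have hQ := path hk hn (Or.inr rfl) H' i (k - 3) (by omega)
    simp only [e1, e2, one_mul, neg_one_mul, neg_neg] at hP hQ
    rw [pf_conj] at hP
    rw [P.node_last hk, hcor.1, hcor.2] at hP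
    rw [Q.node_last hk, hcor'.1, hcor'.2] at hQ
    have ht2 := tan_last hk hn H H' i
    rw [hcor.1, hcor'.1] at ht2
    have ht1 := tan_first hk hn H H' i
    set U := Dm * Pf (fun q : ℕ => P.len i (i + 1 + q)) (fun q : ℕ => s i (i + 2 + q)) (k - 3) * Dm
      with hU
    set L := Pf (fun q : ℕ => Q.len i (i + 1 + q)) (fun q : ℕ => s' i (i + 2 + q)) (k - 3) with hL
    have hdU : U.det = 1 := Frame_det_D (det_Pf _ _ _)
    have hdL : L.det = 1 := det_Pf _ _ _
    have hd1 : (Rm (h i) * U).det = 1 := by rw [Matrix.det_mul, det_Rm, hdU, one_mul]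
    have hd2 : (L * Rm (h (i - 1))).det = 1 := by rw [Matrix.det_mul, det_Rm, hdL, one_mul]
    have hi1 : i + 1 ≤ i + 1 := le_rfl
    have hi2 : i + 1 ≤ i + (k : ℤ) - 2 := by omega
    have key : ∀ M, cj (Rm (h i) * U) M = cj (L * Rm (h (i - 1))) M := by
      intro M
      have hM : Psi (A' i (i + 1) (Q.p i)) (ξ' i (i + 1)) (A' i (i + 1) (Q.tau i (i + 1)))
          (cj (Rm (h i) * U) M) =
          Psi (A' i (i + 1) (Q.p i)) (ξ' i (i + 1)) (A' i (i + 1) (Q.tau i (i + 1)))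
          (cj (L * Rm (h (i - 1))) M) := by
        rw [cj_mul (Rm (h i)) U M, cj_mul L (Rm (h (i - 1))) M, ← Frame_rot _ _ _ _ _ _ hy hη, ← hQ,
          ← ht1, ← hP, ← ht2]
        exact Frame_rot _ _ _ _ _ _ hy' hη' M
      refine Psi_inj ?_ ?_ ?_ ?_ ?_ ?_ ?_ hM
      · rw [H'.iso i (i + 1) hi1 hi2]
        exact (Q.mem i).1
      · exact H'.nrm i (i + 1) hi1 hi2
      · rw [H'.iso i (i + 1) hi1 hi2]
        exact Q.tau_unit hk hn hi1 (by omega)
      · exact H'.perp i (i + 1) hi1 hi2 _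
      · rw [H'.iso i (i + 1) hi1 hi2, mink_comm]
        have := Q.tau_node i (i + 1)
        rw [Q.node_first hk] at this
        exact this
      · rw [Frame_ads_comm]
        exact H'.perp i (i + 1) hi1 hi2 _
      · rw [Frame_trace hd1, Frame_trace hd2]
    rcases cj_eq hd1 hd2 key with h1 | h1
    · exact ⟨1, Or.inl rfl, by rw [one_smul]; exact h1⟩
    · exact ⟨-1, Or.inr rfl, by rw [neg_one_smul]; exact h1⟩

end Pool.Agent.Ads89
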