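import Pool.Agent.W_2fbb77_h89.Hop
import Pool.Agent.W_2fbb77_h89.Bd3

/-! # MP_2fbb77_gt: a surface is described by a gap as long as no bent leaf separates

* `near`: let a leaf separate the gap point `g = gpn i j` from `x ∈ P.region`.  Among the pairs `(a, b) ∈ sepSet P L g x` (not empty by
  `sep_red`) choose one with the smallest number of elements of `sepSet P L g (node a b)` (`Set.exists_min_image`, `sep_finite`).
  Let `w = tau a b`, `z = node a b`, and let `c = gpn a b` if `mink g w > 0`, `c = gpn a (b-1)` if `mink g w < 0` (the gap on the side of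
  `g`).  CLAIM: no `w' ∈ L` separates `g` and `c`.  Otherwise `w' ≠ ± w`, `mink z w' ≠ 0` has the sign of `mink c w'` (as in
  `sep_foot`), so `w'` separates `g` and `z`; by `sep_trans` (with the roles: `w` separates `x` and `g`, `z` on `w`, `w'` separates `z` and
  `g`) `w'` separates `x` and `g`; by `sep_red` we may take `w' = ± tau a' b'`, `(a', b') ∈ sepSet P L g x`; with
  `z' = node a' b'` (on `w'`): `sepSet g z' ⊂ sepSet g z`: if `w''` separates `g` and `z'` then, as `w'` separates `z` and `g` and `z'` is on `w'`,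
  `sep_trans` gives that `w''` separates `z` and `g`; and `(a', b')` is in `sepSet g z` but not in `sepSet g z'` (`mink z' w' = 0`,
  `tau_node`, `mink_comm`).  Contradiction to the choice.  Then `0 < mink g w' * mink c w'` for all `w' ∈ L` as both factors are not zero
  (`Ctx.Bd1_ne`).
* `bend_zero`: if `bend i j = 0` then `gA i (j-1) = gA i j`: they agree at `tau i j` (`bend_spec` with `cosh 0 = 1`, `sinh 0 = 0`),
  at `node i j` (`emb_node`, both equal to `f (node i j)`) and at `v i` (`emb_side`): `linear_ext` with `det3_frame`.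
* `flat_gap`: strong induction on `(sepSet P L (gpn P i j) x).ncard`.  If no leaf separates `gpn i j` and `x`: `emb_flat`.
  Otherwise take `(a, b)` from `near`, `w = tau a b`.  `bend a b = 0`: otherwise `0 < bend a b` (`bend_spec`) and the hypothesis contradicts that
  `w` separates.  Let `c` be the gap on the side of `g`, `c'` the other one (`gpn a b`, `gpn a (b-1)`).  `emb g = emb c` (`Ctx.emb_eq`),
  `emb c = emb c'` (`bend_zero`).  By `sep_foot` every `w' ∈ L` that separates `c'` and `x` separates `g` and `x`; so the hypothesis holds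
  for `c'` (if `0 < bend l m` then `tau l m ∈ L` by `bend_foot`) and `sepSet c' x ⊂ sepSet g x` (`(a, b)` is not in it).  Induction. -/

set_option autoImplicit false

noncomputable section

namespace Pool.Agent.Ads89

variable {k : ℕ} {n : ℤ → ℕ} {P : Polygon k n} {u : ℤ → Fin 4 → ℝ}
  {f : (Fin 3 → ℝ) → Fin 4 → ℝ} {ς : ℝ} {L : Set (Fin 3 → ℝ)} {w w' x z g : Fin 3 → ℝ} {i j a b : ℤ}

private theorem Hop2_claim (C : Ctx P u f ς L) (hgr : g ∈ P.region) (hx : x ∈ P.region)
    (h1 : a + 2 ≤ b) (h2 : b ≤ a + k - 2) (h0 : P.tau a b ∈ L)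
    (hsep : mink g (P.tau a b) * mink x (P.tau a b) < 0)
    (hmin : ∀ q ∈ sepSet P L g x,
      (sepSet P L g (P.node a b)).ncard ≤ (sepSet P L g (P.node q.1 q.2)).ncard)
    (hgn : ∀ w' ∈ L, mink g w' ≠ 0) (c : Fin 3 → ℝ)
    (hc : ∀ w' ∈ L, mink c w' ≠ 0 ∧ 0 ≤ mink c w' * mink (P.node a b) w')
    (hcw : 0 < mink g (P.tau a b) * mink c (P.tau a b)) :
    ∀ w' ∈ L, 0 < mink g w' * mink c w' := by
  intro w' hw'
  have hk : (4 : ℤ) ≤ k := by exact_mod_cast C.hk
  by_contra hcon
  obtain ⟨hc1, hc2⟩ := hc w' hw'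
  have hneg : mink g w' * mink c w' < 0 :=
    lt_of_le_of_ne (not_lt.1 hcon) (mul_ne_zero (hgn w' hw') hc1)
  have hzm : P.node a b ∈ H2 := P.node_mem C.hk C.hn (by omega) (by omega)
  have hz0 : mink (P.node a b) (P.tau a b) = 0 := by rw [mink_comm, P.tau_node]
  have hzw : mink (P.node a b) w' ≠ 0 := by
    intro hz
    have hu : mink (P.tau a b) (P.tau a b) = 1 := C.lf.unit _ h0
    rcases orth_unit hzm hz0 hz hu (C.lf.unit _ hw') with h | h | h
    · rcases C.lf.disj _ h0 _ hw' with h' | h' | h'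
      · rw [h'] at hneg
        linarith
      · rw [h', mink_neg_right, mink_neg_right] at hneg
        linarith
      · linarith
    · rw [← h] at hneg
      linarith
    · have h' : w' = -P.tau a b := by rw [h, neg_neg]
      rw [h', mink_neg_right, mink_neg_right] at hneg
      linarith
  have hgz : mink (P.node a b) w' * mink g w' < 0 := by
    have h3 : 0 < mink c w' * mink (P.node a b) w' :=
      lt_of_le_of_ne hc2 (mul_ne_zero hc1 hzw).symm
    by_contra h4
    have h5 : 0 ≤ (mink c w' * mink (P.node a b) w') * (mink (P.node a b) w' * mink g w') :=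
      mul_nonneg h3.le (not_lt.1 h4)
    have h6 : (mink c w' * mink (P.node a b) w') * (mink (P.node a b) w' * mink g w') =
        mink (P.node a b) w' ^ 2 * (mink g w' * mink c w') := by ring
    rw [h6] at h5
    have h7 : 0 < mink (P.node a b) w' ^ 2 := by positivity
    have h8 := mul_neg_of_pos_of_neg h7 hneg
    linarith
  have hxg : mink x w' * mink g w' < 0 :=
    C.lf.sep_trans h0 hw' hx.1 hgr.1 hzm (by rw [mul_comm]; exact hsep) hz0 hgz
  obtain ⟨q, hq, hqw⟩ := LF.sep_red C.hk C.hn C.lf hw' hgr hx (by rw [mul_comm]; exact hxg)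
  obtain ⟨q1, q2, q3, q4, q5, q6⟩ := id hq
  have hz'm : P.node q.1 q.2 ∈ H2 := P.node_mem C.hk C.hn (by omega) (by omega)
  have hz'0 : mink (P.node q.1 q.2) (P.tau q.1 q.2) = 0 := by rw [mink_comm, P.tau_node]
  have hqz : mink (P.node a b) (P.tau q.1 q.2) * mink g (P.tau q.1 q.2) < 0 := by
    rcases hqw with h | h
    · rw [← h]; exact hgz
    · rw [h, mink_neg_right, mink_neg_right] at hgz
      linarith
  have hss : sepSet P L g (P.node q.1 q.2) ⊂ sepSet P L g (P.node a b) := by
    refine (Set.ssubset_iff_of_subset ?_).2 ⟨q, ?_, ?_⟩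
    · rintro r ⟨r1, r2, r3, r4, r5, r6⟩
      refine ⟨r1, r2, r3, r4, r5, ?_⟩
      have := C.lf.sep_trans q5 r5 hzm hgr.1 hz'm hqz hz'0 (by rw [mul_comm]; exact r6)
      rw [mul_comm]
      exact this
    · exact ⟨q1, q2, q3, q4, q5, by rw [mul_comm]; exact hqz⟩
    · rintro ⟨-, -, -, -, -, r6⟩
      rw [hz'0, mul_zero] at r6
      exact lt_irrefl _ r6
  have h9 := Set.ncard_lt_ncard hss (sep_finite P L g (P.node a b))
  have h10 := hmin q hq
  omega

theorem Ctx.near (C : Ctx P u f ς L) (h1 : i + 1 ≤ j) (h2 : j ≤ i + k - 2) (hx : x ∈ P.region)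
    (hw : w ∈ L) (h : mink (gpn P i j) w * mink x w < 0) :
    ∃ a b : ℤ, (a, b) ∈ sepSet P L (gpn P i j) x ∧
      (0 < mink (gpn P i j) (P.tau a b) →
        ∀ w' ∈ L, 0 < mink (gpn P i j) w' * mink (gpn P a b) w') ∧
      (mink (gpn P i j) (P.tau a b) < 0 →
        ∀ w' ∈ L, 0 < mink (gpn P i j) w' * mink (gpn P a (b - 1)) w') := by
  have hk : (4 : ℤ) ≤ k := by exact_mod_cast C.hk
  have hgr := C.gpn_region h1 h2
  obtain ⟨q0, hq0, -⟩ := LF.sep_red C.hk C.hn C.lf hw hgr hx h
  obtain ⟨⟨a, b⟩, hab, hmin⟩ := Set.exists_min_image (sepSet P L (gpn P i j) x)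
    (fun q => (sepSet P L (gpn P i j) (P.node q.1 q.2)).ncard)
    (sep_finite P L (gpn P i j) x) ⟨q0, hq0⟩
  obtain ⟨a1, a2, a3, a4, a5, a6⟩ := id hab
  dsimp only at a1 a2 a3 a4 a5 a6 hmin
  refine ⟨a, b, hab, fun hs => ?_, fun hs => ?_⟩
  · refine Hop2_claim C hgr hx a3 a4 a5 a6 hmin (C.Bd1_ne h1 h2) _ (fun w' hw' => ?_) ?_
    · obtain ⟨t, ht, h3⟩ := C.gpn_pos (i := a) (j := b) (by omega) (by omega)
      obtain ⟨g1, g2, -⟩ := LF.gp_node C.hk C.hn C.lf hw' (i := a) (j := b) (by omega) (by omega)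
      refine ⟨C.Bd1_ne (by omega) (by omega) w' hw', ?_⟩
      rw [h3, mink_smul_left, mul_assoc]
      exact mul_nonneg ht.le g2
    · exact mul_pos hs (C.gap_side a3 a4).1
  · refine Hop2_claim C hgr hx a3 a4 a5 a6 hmin (C.Bd1_ne h1 h2) _ (fun w' hw' => ?_) ?_
    · obtain ⟨t, ht, h3⟩ := C.gpn_pos (i := a) (j := b - 1) (by omega) (by omega)
      obtain ⟨g1, -, g2⟩ := LF.gp_node C.hk C.hn C.lf hw' (i := a) (j := b - 1) (by omega)
        (by omega)
      refine ⟨C.Bd1_ne (by omega) (by omega) w' hw', ?_⟩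
      rw [h3, mink_smul_left, mul_assoc]
      rw [sub_add_cancel] at g2
      exact mul_nonneg ht.le g2
    · exact mul_pos_of_neg_of_neg hs (C.gap_side a3 a4).2

theorem Ctx.bend_zero (C : Ctx P u f ς L) (h1 : i + 2 ≤ j) (h2 : j ≤ i + k - 2)
    (h : bend P f L ς i j = 0) : gA P f L i (j - 1) = gA P f L i j := by
  have hk : (4 : ℤ) ≤ k := by exact_mod_cast C.hk
  have hd : det3 (P.v i) (P.node i j) (P.tau i j) ≠ 0 := by
    rw [P.det3_frame C.hk C.hn (by omega) (by omega)]
    exact one_ne_zero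
  refine linear_ext hd ?_ ?_ ?_
  · rw [gA, gA, C.emb_side (by omega) (by omega), C.emb_side (by omega) (by omega)]
  · have h3 := (C.emb_node (i := i) (j := j) (by omega) (by omega)).1
    have h4 := (C.emb_node (i := i) (j := j - 1) (by omega) (by omega)).2
    rw [sub_add_cancel] at h4
    exact h4.symm.trans h3
  · obtain ⟨-, h5, -⟩ := C.bend_spec h1 h2
    rw [h, Real.cosh_zero, Real.sinh_zero, mul_zero, zero_smul, sub_zero, one_smul] at h5
    exact h5.symm

theorem Ctx.flat_gap (C : Ctx P u f ς L) (h1 : i + 1 ≤ j) (h2 : j ≤ i + k - 2)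
    (hx : x ∈ P.region) (h : ∀ a b : ℤ, a + 2 ≤ b → b ≤ a + k - 2 → 0 < bend P f L ς a b →
      0 ≤ mink (gpn P i j) (P.tau a b) * mink x (P.tau a b)) : f x = gA P f L i j x := by
  have hk : (4 : ℤ) ≤ k := by exact_mod_cast C.hk
  obtain ⟨N, hN⟩ : ∃ N : ℕ, (sepSet P L (gpn P i j) x).ncard = N := ⟨_, rfl⟩
  induction N using Nat.strong_induction_on generalizing i j with
  | _ N ih =>
    by_cases hs : ∀ w ∈ L, 0 ≤ mink (gpn P i j) w * mink x w
    · exact (C.emb_flat h1 h2).2 x hx.1 hs
    push Not at hs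
    obtain ⟨w, hw, hws⟩ := hs
    obtain ⟨a, b, hab, n1, n2⟩ := C.near h1 h2 hx hw hws
    obtain ⟨a1, a2, a3, a4, a5, a6⟩ := id hab
    dsimp only at a1 a2 a3 a4 a5 a6
    have hgm : gpn P i j ∈ H2 := C.gpn_mem h1 h2
    have hb0 : bend P f L ς a b = 0 := by
      rcases lt_or_eq_of_le (C.bend_spec a3 a4).1 with h3 | h3
      · have := h a b a3 a4 h3
        linarith
      · exact h3.symm
    have hbz := C.bend_zero a3 a4 hb0
    obtain ⟨s1, s2⟩ := C.gap_side a3 a4
    have step : ∀ c : ℤ, a + 1 ≤ c → c ≤ a + k - 2 →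
        (∀ w' ∈ L, mink (gpn P a c) w' * mink x w' < 0 →
          mink (gpn P i j) w' * mink x w' < 0) →
        0 ≤ mink (gpn P a c) (P.tau a b) * mink x (P.tau a b) → f x = gA P f L a c x := by
      intro c c1 c2 c3 c4
      refine ih _ ?_ c1 c2 (fun l m l1 l2 l3 => ?_) rfl
      · rw [← hN]
        refine Set.ncard_lt_ncard ?_ (sep_finite P L (gpn P i j) x)
        refine (Set.ssubset_iff_of_subset ?_).2 ⟨(a, b), hab, ?_⟩
        · rintro r ⟨r1, r2, r3, r4, r5, r6⟩
          exact ⟨r1, r2, r3, r4, r5, c3 _ r5 r6⟩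
        · rintro ⟨-, -, -, -, -, r6⟩
          dsimp only at r6
          linarith
      · by_contra hcon
        have h5 : P.tau l m ∈ L := by
          by_contra h6
          rw [C.bend_foot l1 l2 h6] at l3
          exact lt_irrefl _ l3
        have h6 := c3 _ h5 (not_le.1 hcon)
        have h7 := h l m l1 l2 l3
        linarith
    rcases lt_or_gt_of_ne (C.Bd1_ne h1 h2 _ a5) with hg | hg
    · -- `g` on the negative side
      have hxp : 0 < mink x (P.tau a b) := by
        by_contra h3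
        have := mul_nonneg_of_nonpos_of_nonpos hg.le (not_lt.1 h3)
        linarith
      have e1 : gA P f L i j = gA P f L a (b - 1) :=
        C.emb_eq h1 h2 (by omega) (by omega) (n2 hg)
      rw [e1, hbz]
      refine step b (by omega) (by omega) (fun w' hw' h3 => ?_) ?_
      · exact (C.sep_foot a3 a4 a5 hgm hx.1 a6 hw').1 hxp h3
      · exact (mul_pos s1 hxp).le
    · have hxp : mink x (P.tau a b) < 0 := by
        by_contra h3
        have := mul_nonneg hg.le (not_lt.1 h3)
        linarith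
      have e1 : gA P f L i j = gA P f L a b :=
        C.emb_eq h1 h2 (by omega) (by omega) (n1 hg)
      rw [e1, ← hbz]
      refine step (b - 1) (by omega) (by omega) (fun w' hw' h3 => ?_) ?_
      · exact (C.sep_foot a3 a4 a5 hgm hx.1 a6 hw').2 hxp h3
      · exact (mul_pos_of_neg_of_neg s2 hxp).le

end Pool.Agent.Ads89
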