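import Pool.Agent.W_2fbb77_h89.Rig1

/-! # MP_2fbb77_gt: rigidity

* `rigid`: all bends and heights equal.  `Φ` from `exists_phi` at `(0, 1)`.  By `fwd`, `bwd` along a side and `corner`:
  `Mt` holds for the upper data at all gaps (induction on `i` upwards and downwards: `(i, i+1) ↔ (i+1, i+k-1) ↔ (i+1, i+2)`).
  `Φ (u i) = v i` by `side`. -/

set_option autoImplicit false

noncomputable section

namespace Pool.Agent.Ads89

open Real

variable {k : ℕ} {n : ℤ → ℕ} {P Q : Polygon k n} {u v : ℤ → Fin 4 → ℝ} {ς : ℝ}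
  {A A' B B' : ℤ → ℤ → (Fin 3 → ℝ) →ₗ[ℝ] (Fin 4 → ℝ)} {ξ ξ' η η' : ℤ → ℤ → Fin 4 → ℝ}
  {s s' S S' : ℤ → ℤ → ℝ} {i j : ℤ} {Φ : (Fin 4 → ℝ) ≃ₗ[ℝ] (Fin 4 → ℝ)}

theorem rig_up (hk : 4 ≤ k) (hn : ∀ i : ℤ, 3 ≤ n i) (HA : BD P u ς A ξ s) (HB : BD P v ς B η S)
    (h1 : i + 1 ≤ j) (m : ℕ) (h2 : j + m ≤ i + k - 2)
    (hs : ∀ l : ℤ, j < l → l ≤ j + m → s i l = S i l) (h : Mt Φ A ξ B η i j) :
    Mt Φ A ξ B η i (j + m) := by
  induction m with
  | zero => simpa using h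
  | succ m ih =>
    have h0 : Mt Φ A ξ B η i (j + m) :=
      ih (by push_cast at h2; linarith) (fun l h3 h4 => hs l h3 (by push_cast; linarith))
    have h3 := Mt.fwd (Φ := Φ) (j := j + m + 1) hk hn HA HB (by omega)
      (by push_cast at h2; linarith) (hs _ (by omega) (by push_cast; linarith))
      (by rwa [add_sub_cancel_right])
    have h4 : j + ((m + 1 : ℕ) : ℤ) = j + m + 1 := by push_cast; ring
    rwa [h4]

theorem rig_down (hk : 4 ≤ k) (hn : ∀ i : ℤ, 3 ≤ n i) (hς : ς = 1 ∨ ς = -1)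
    (HA : BD P u ς A ξ s) (HB : BD P v ς B η S)
    (h2 : j ≤ i + k - 2) (m : ℕ) (h1 : i + 1 ≤ j - m)
    (hs : ∀ l : ℤ, j - m < l → l ≤ j → s i l = S i l) (h : Mt Φ A ξ B η i j) :
    Mt Φ A ξ B η i (j - m) := by
  induction m with
  | zero => simpa using h
  | succ m ih =>
    have h0 : Mt Φ A ξ B η i (j - m) :=
      ih (by push_cast at h1; linarith) (fun l h3 h4 => hs l (by push_cast; linarith) h4)
    have h3 := Mt.bwd (Φ := Φ) (j := j - m) hk hn hς HA HB (by push_cast at h1; linarith)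
      (by omega) (hs _ (by push_cast; linarith) (by omega)) h0
    have h4 : j - ((m + 1 : ℕ) : ℤ) = j - m - 1 := by push_cast; ring
    rwa [h4]

theorem rigid (hk : 4 ≤ k) (hn : ∀ i : ℤ, 3 ≤ n i) (HA : BD P u 1 A ξ s) (HB : BD P v 1 B η S)
    (HA' : BD Q u (-1) A' ξ' s') (HB' : BD Q v (-1) B' η' S') {h : ℤ → ℝ}
    (h1 : ∀ i : ℤ, Height P Q A A' ξ ξ' i (h i)) (h2 : ∀ i : ℤ, Height P Q B B' η η' i (h i))
    (hs : ∀ i j : ℤ, i + 2 ≤ j → j ≤ i + k - 2 → s i j = S i j) :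
    ∃ Φ : (Fin 4 → ℝ) ≃ₗ[ℝ] (Fin 4 → ℝ), (∀ x y, ads (Φ x) (Φ y) = ads x y) ∧
      (∀ i : ℤ, Φ (u i) = v i) ∧ (∀ i : ℤ, Mt Φ A ξ B η i (i + 1)) ∧ ∀ i : ℤ, Mt Φ A' ξ' B' η' i (i + 1) := by
  have hk' : (4 : ℤ) ≤ k := by exact_mod_cast hk
  obtain ⟨Φ, hΦ, h0⟩ := exists_phi hk HA HB 0
  have hup : ∀ i : ℤ, Mt Φ A ξ B η i (i + 1) → Mt Φ A ξ B η (i + 1) (i + 1 + 1) := by
    intro i hi
    have h3 := (Mt.corner HA HB i).mp hi
    have h4 := rig_down (i := i + 1) (j := i + k - 1) hk hn (Or.inl rfl) HA HB (by omega) (k - 3)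
      (by omega) (fun l h5 h6 => hs _ _ (by omega) (by omega)) h3
    have h5 : i + (k : ℤ) - 1 - ((k - 3 : ℕ) : ℤ) = i + 1 + 1 := by
      have : ((k - 3 : ℕ) : ℤ) = (k : ℤ) - 3 := by omega
      rw [this]; ring
    rwa [h5] at h4
  have hdown : ∀ i : ℤ, Mt Φ A ξ B η (i + 1) (i + 1 + 1) → Mt Φ A ξ B η i (i + 1) := by
    intro i hi
    have h4 := rig_up (i := i + 1) (j := i + 1 + 1) hk hn HA HB (by omega) (k - 3)
      (by omega) (fun l h5 h6 => hs _ _ (by omega) (by omega)) hi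
    have h5 : i + 1 + 1 + ((k - 3 : ℕ) : ℤ) = i + (k : ℤ) - 1 := by
      have : ((k - 3 : ℕ) : ℤ) = (k : ℤ) - 3 := by omega
      rw [this]; ring
    rw [h5] at h4
    exact (Mt.corner HA HB i).mpr h4
  have hall : ∀ i : ℤ, Mt Φ A ξ B η i (i + 1) := by
    intro i
    induction i using Int.induction_on with
    | zero => exact h0
    | succ i ih => exact hup _ ih
    | pred i ih =>
      refine hdown _ ?_
      rwa [sub_add_cancel]
  refine ⟨Φ, hΦ, ?_, hall, ?_⟩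
  · intro i
    have h3 := HA.side i (i + 1) le_rfl (by omega)
    have h4 := HB.side i (i + 1) le_rfl (by omega)
    rw [(hall i).1, h3] at h4
    exact h4
  · intro i
    exact Mt.vert hk hn HA HB HA' HB' (h1 i) (h2 i) (hall i)

end Pool.Agent.Ads89
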