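import Pool.Agent.W_2fbb77_h89.TileB

/-! # MP_2fbb77_gt: the images of the polygon cover the hyperbolic plane

Let `q = p 0 + p 2`: `mink q (v i) < 0` for all `i` (`neg`, `inc`, `inc'`, `v_red`; `k ≥ 4`), `c > 0` with `mink q (v i) ≤ -c` for all `i` (finitely many
`i` modulo `k`).  For `x ∈ H2`: `mink x q ≤ -2 < 0`.

`bounded_ball`: `K R = {y ∈ H2 | - R ≤ mink y q}` is compact: closed (continuity), and bounded: for `p ∈ H2`, `y ∈ H2`:
`- mink y p = y 2 * p 2 - y 0 * p 0 - y 1 * p 1 ≥ y 2 * p 2 - √(y 0² + y 1²) √(p 0² + p 1²) ≥ y 2 * (p 2 - √(p 2² - 1))` and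
`y 0² + y 1² = y 2² - 1`; so `y 2 ≤ R / (p 2 - √(p 2² - 1))`.  (`Metric.isCompact_of_isClosed_isBounded`.)

`tile`: fix `x`, `R = - mink x q`.  Let `U` be the union over `y ∈ P.region` of the balls `ball y (ε y)` of `local_move`.  `K R \ U` is compact and
does not meet `P.region`, so the continuous function `m y = max over 0 ≤ i < k of mink y (v i)` (`Finset.sup'`), which is positive outside the region,
has a positive lower bound `δ` there (if the set is not empty).  CLAIM by strong induction on `N : ℕ`: if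
`y ∈ H2`, `- mink y q ≤ R`, `- mink y q ≤ 2 δ c N` then `y` can be moved into the region.  If `y ∈ U`: `local_move`.  Otherwise
`mink y (v i) ≥ δ` for some `i`; `y' = refl3 (v i) y ∈ H2` (`refl3_mem`), `- mink y' q = - mink y q + 2 mink y (v i) * mink (v i) q ≤
- mink y q - 2 δ c`.  `N = 0` is impossible as `- mink y q > 0`. -/

set_option autoImplicit false

noncomputable section

namespace Pool.Agent.Ads89

variable {k : ℕ} {n : ℤ → ℕ} {P : Polygon k n} {x y z q : Fin 3 → ℝ}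

private theorem TileC_cont (q : Fin 3 → ℝ) : Continuous (fun y : Fin 3 → ℝ => mink y q) := by
  unfold mink
  fun_prop

private theorem TileC_cont' : Continuous (fun y : Fin 3 → ℝ => mink y y) := by
  unfold mink
  fun_prop

private theorem TileC_H2 (y : Fin 3 → ℝ) : y ∈ H2 ↔ mink y y = -1 ∧ 1 ≤ y 2 := by
  constructor
  · rintro ⟨h1, h2⟩
    refine ⟨h1, ?_⟩
    simp only [mink] at h1
    nlinarith [sq_nonneg (y 0), sq_nonneg (y 1)]
  · rintro ⟨h1, h2⟩
    exact ⟨h1, by linarith⟩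

theorem compact_ball {p : Fin 3 → ℝ} (hp : p ∈ H2) (R : ℝ) :
    IsCompact {y : Fin 3 → ℝ | y ∈ H2 ∧ -R ≤ mink y p} := by
  obtain ⟨hp1, hp2⟩ := hp
  simp only [mink] at hp1
  obtain ⟨ρ, hρ⟩ : ∃ ρ : ℝ, ρ = √(p 0 ^ 2 + p 1 ^ 2) := ⟨_, rfl⟩
  have hρ0 : 0 ≤ ρ := by rw [hρ]; exact Real.sqrt_nonneg _
  have hρ2 : ρ ^ 2 = p 0 ^ 2 + p 1 ^ 2 := by rw [hρ]; exact Real.sq_sqrt (by positivity)
  have hρp : ρ < p 2 := by
    by_contra h
    have h1 : p 2 ^ 2 ≤ ρ ^ 2 := pow_le_pow_left₀ hp2.le (not_lt.1 h) 2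
    rw [hρ2] at h1
    linarith [hp1, sq (p 0), sq (p 1), sq (p 2)]
  have hd : 0 < p 2 - ρ := by linarith
  have hcl : IsClosed {y : Fin 3 → ℝ | y ∈ H2 ∧ -R ≤ mink y p} := by
    have e : {y : Fin 3 → ℝ | y ∈ H2 ∧ -R ≤ mink y p} =
        ({y : Fin 3 → ℝ | mink y y = -1} ∩ {y | 1 ≤ y 2}) ∩ {y | -R ≤ mink y p} := by
      ext y
      show (y ∈ H2 ∧ -R ≤ mink y p) ↔ ((mink y y = -1 ∧ 1 ≤ y 2) ∧ -R ≤ mink y p)
      rw [TileC_H2]
    rw [e]
    exact ((isClosed_eq TileC_cont' continuous_const).inter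
      (isClosed_le continuous_const (continuous_apply 2))).inter
      (isClosed_le continuous_const (TileC_cont p))
  refine (isCompact_closedBall (0 : Fin 3 → ℝ) (|R| / (p 2 - ρ))).of_isClosed_subset hcl ?_
  rintro y ⟨⟨hy1, hy2⟩, hy3⟩
  simp only [mink] at hy1 hy3
  have e1 : y 0 ^ 2 + y 1 ^ 2 ≤ y 2 ^ 2 := by nlinarith
  have e2 : (y 0 * p 0 + y 1 * p 1) ^ 2 ≤ (y 2 * ρ) ^ 2 := by
    have e3 : (y 0 * p 0 + y 1 * p 1) ^ 2 ≤ (y 0 ^ 2 + y 1 ^ 2) * (p 0 ^ 2 + p 1 ^ 2) := by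
      nlinarith [sq_nonneg (y 0 * p 1 - y 1 * p 0)]
    rw [mul_pow, hρ2]
    exact e3.trans (mul_le_mul_of_nonneg_right e1 (by positivity))
  have e4 : y 0 * p 0 + y 1 * p 1 ≤ y 2 * ρ :=
    (abs_le_of_sq_le_sq' e2 (mul_nonneg hy2.le hρ0)).2
  have e5 : y 2 ≤ |R| / (p 2 - ρ) := by
    rw [le_div_iff₀ hd]
    have := le_abs_self R
    nlinarith
  have e6 : |y 0| ≤ y 2 := abs_le_of_sq_le_sq (by nlinarith [sq_nonneg (y 1)]) hy2.le
  have e7 : |y 1| ≤ y 2 := abs_le_of_sq_le_sq (by nlinarith [sq_nonneg (y 0)]) hy2.le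
  rw [mem_closedBall_zero_iff, pi_norm_le_iff_of_nonneg (by positivity)]
  intro i
  rw [Real.norm_eq_abs]
  fin_cases i
  · exact e6.trans e5
  · exact e7.trans e5
  · show |y 2| ≤ _
    rw [abs_of_pos hy2]
    exact e5

private theorem TileC_neg (hk : 4 ≤ k) (P : Polygon k n) (l : ℤ) :
    mink (P.v l) (P.p 0 + P.p 2) < 0 := by
  have hk' : (4 : ℤ) ≤ k := by exact_mod_cast hk
  rw [mink_comm, mink_add_left]
  obtain ⟨l', h1, h2, h3⟩ := P.v_red hk 0 l
  rw [h3]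
  have a0 := P.p_le hk 0 l'
  have a2 := P.p_le hk 2 l'
  rcases eq_or_lt_of_le h1 with h | h
  · have := P.neg 2 k (by omega) (by omega)
    have e : P.v (k : ℤ) = P.v 0 := by
      have := P.v_per 0
      rwa [zero_add] at this
    rw [e] at this
    rw [← h] at a0 ⊢
    linarith
  · rcases eq_or_lt_of_le (Int.add_one_le_of_lt h) with h' | h'
    · have := P.neg 2 (1 + k) (by omega) (by omega)
      rw [P.v_per 1] at this
      rw [zero_add] at h'
      rw [← h'] at a0 ⊢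
      linarith
    · have := P.neg 0 l' (by omega) (by omega)
      linarith

open Filter Topology in
theorem tile (hk : 4 ≤ k) (hn : ∀ i : ℤ, 3 ≤ n i) (P : Polygon k n) (hx : x ∈ H2) :
    ∃ y ∈ P.region, Mv P x y := by
  obtain ⟨q, hq⟩ : ∃ q : Fin 3 → ℝ, q = P.p 0 + P.p 2 := ⟨_, rfl⟩
  have hqv : ∀ i : ℤ, mink (P.v i) q < 0 := fun i => by rw [hq]; exact TileC_neg hk P i
  obtain ⟨S, hS⟩ : ∃ S : Set ℝ, S = {t | ∃ y, Mv P x y ∧ t = -mink y q} := ⟨_, rfl⟩
  have hne : S.Nonempty := ⟨-mink x q, by rw [hS]; exact ⟨x, Mv.refl x, rfl⟩⟩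
  have hqle : ∀ y ∈ H2, mink y q ≤ mink y (P.p 0) - 1 ∧ mink y (P.p 0) ≤ -1 := by
    intro y hy
    have h1 := mink_le_neg_one hy (P.mem 0)
    have h2 := mink_le_neg_one hy (P.mem 2)
    rw [hq, mink_add_right]
    exact ⟨by linarith, h1⟩
  have hbdd : BddBelow S := by
    refine ⟨0, ?_⟩
    rw [hS]
    rintro t ⟨y, hy, rfl⟩
    have h1 := hqle y (hy.mem hx)
    linarith [h1.1, h1.2]
  obtain ⟨u, hu1, hu2, hu3⟩ := exists_seq_tendsto_sInf hne hbdd
  have hu4 : ∀ m, ∃ y, Mv P x y ∧ u m = -mink y q := by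
    intro m
    have := hu3 m
    rw [hS] at this
    exact this
  choose y hy1 hy2 using hu4
  have hyK : ∀ m, y m ∈ {y : Fin 3 → ℝ | y ∈ H2 ∧ -(u 0) ≤ mink y (P.p 0)} := by
    intro m
    have h1 := (hy1 m).mem hx
    have h2 := hqle _ h1
    have h3 := hu1 (Nat.zero_le m)
    have h4 := hy2 m
    exact ⟨h1, by linarith [h2.1]⟩
  obtain ⟨a, ha, φ, hφ, hlim⟩ := (compact_ball (P.mem 0) (u 0)).tendsto_subseq hyK
  have hlim2 : Tendsto (fun m => -mink (y (φ m)) q) atTop (𝓝 (-mink a q)) :=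
    (((TileC_cont q).neg).tendsto a).comp hlim
  have hlim3 : Tendsto (fun m => -mink (y (φ m)) q) atTop (𝓝 (sInf S)) := by
    have h1 := hu2.comp hφ.tendsto_atTop
    refine h1.congr fun m => ?_
    exact hy2 (φ m)
  have hinf : sInf S = -mink a q := tendsto_nhds_unique hlim3 hlim2
  have hreg : a ∈ P.region := by
    refine ⟨ha.1, fun i => ?_⟩
    by_contra hc
    rw [not_le] at hc
    have h1 : ∀ m, sInf S ≤
        -mink (y (φ m)) q + 2 * mink (y (φ m)) (P.v i) * mink (P.v i) q := by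
      intro m
      apply csInf_le hbdd
      rw [hS]
      refine ⟨_, Mv.step _ _ i (hy1 (φ m)), ?_⟩
      rw [refl3, mink_sub_left, mink_smul_left]
      ring
    have h2 : Tendsto (fun m => -mink (y (φ m)) q + 2 * mink (y (φ m)) (P.v i) * mink (P.v i) q)
        atTop (𝓝 (-mink a q + 2 * mink a (P.v i) * mink (P.v i) q)) :=
      (((TileC_cont q).neg.add (((TileC_cont (P.v i)).const_mul 2).mul_const _)).tendsto a).comp
        hlim
    have h3 := ge_of_tendsto' h2 h1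
    rw [hinf] at h3
    have h4 := mul_neg_of_pos_of_neg hc (hqv i)
    linarith
  obtain ⟨ε, hε, hmove⟩ := local_move hk hn hreg
  obtain ⟨m, hm⟩ := ((Metric.tendsto_nhds.1 hlim) ε hε).exists
  obtain ⟨z, hz1, hz2⟩ := hmove (y (φ m)) ((hy1 (φ m)).mem hx) hm
  exact ⟨z, hz1, (hy1 (φ m)).trans hz2⟩

end Pool.Agent.Ads89
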