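import Pool.Agent.W_2fbb77_h89.Zero
import Pool.Agent.W_2fbb77_h89.Rig
import Pool.Agent.W_2fbb77_h89.Dig
import Pool.Agent.W_2fbb77_h89.Bd3
import Pool.Agent.W_2fbb77_h89.Frame
import Pool.Agent.W_2fbb77_h89.Hop2
import Pool.Agent.W_2fbb77_h89.TileC

/-! # MP_2fbb77_gt: the theorem

* `unique_data`: two bent data over the same pair of polygons differ by a linear isometry: the differences of the
  heights and of the bends satisfy the hypotheses of `all_zero` (`arm` with `clos` at the mirrors, `digon`, the sign rule at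
  crossings), so they vanish; then `rigid`.
* `core_data`: the bent data and the heights of a core (periodic heights by reduction modulo `k`).
* `region_eq`, `whole_eq`: two pleated surfaces with the same bends whose data differ by `Φ` are mapped to each
  other by `Φ`, first on the polygon (`exists_gap` for the first lamination, `flat_gap` for the second), then on `H2`
  (`tile`).
* `unique`: the theorem. -/

set_option autoImplicit false

noncomputable section

namespace Pool.Agent.Ads89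

open Real

variable {k : ℕ} {n : ℤ → ℕ} {P Q : Polygon k n}

theorem unique_data (hk : 4 ≤ k) (hn : ∀ i : ℤ, 3 ≤ n i) {u v : ℤ → Fin 4 → ℝ}
    (huu : ∀ i : ℤ, ads (u i) (u i) = 1) (hvv : ∀ i : ℤ, ads (v i) (v i) = 1)
    {A A' B B' : ℤ → ℤ → (Fin 3 → ℝ) →ₗ[ℝ] (Fin 4 → ℝ)} {ξ ξ' η η' : ℤ → ℤ → Fin 4 → ℝ}
    {s s' S S' : ℤ → ℤ → ℝ} {h g : ℤ → ℝ}
    (HA : BD P u 1 A ξ s) (HA' : BD Q u (-1) A' ξ' s') (HB : BD P v 1 B η S)
    (HB' : BD Q v (-1) B' η' S') (hh : ∀ i : ℤ, Height P Q A A' ξ ξ' i (h i))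
    (hper : ∀ i : ℤ, h (i + k) = h i) (hg : ∀ i : ℤ, Height P Q B B' η η' i (g i))
    (gper : ∀ i : ℤ, g (i + k) = g i)
    (hd : (∀ i j : ℤ, i + 2 ≤ j → j ≤ i + k - 2 →
      A i (j - 1) (P.node i j) ≠ A' i (j - 1) (Q.node i j)) ∨
      (∀ i j : ℤ, i + 2 ≤ j → j ≤ i + k - 2 →
      B i (j - 1) (P.node i j) ≠ B' i (j - 1) (Q.node i j)) ∨
      ∀ i j : ℤ, i + 2 ≤ j → j ≤ i + k - 2 → s i j = 0 ∧ S i j = 0) :
    ∃ Φ : (Fin 4 → ℝ) ≃ₗ[ℝ] (Fin 4 → ℝ), (∀ x y, ads (Φ x) (Φ y) = ads x y) ∧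
      (∀ i : ℤ, Φ (u i) = v i) ∧
      (∀ i j : ℤ, i + 2 ≤ j → j ≤ i + k - 2 → s i j = S i j ∧ s' i j = S' i j) ∧
      ∀ i j : ℤ, i + 1 ≤ j → j ≤ i + k - 2 → Mt Φ A ξ B η i j ∧ Mt Φ A' ξ' B' η' i j := by
  have hk' : (4 : ℤ) ≤ k := by exact_mod_cast hk
  -- all differences vanish
  have key : ∀ i : ℤ, (-(g i - h i)) = 0 ∧ ∀ j : ℤ, i + 2 ≤ j → j ≤ i + k - 2 →
      S i j - s i j = 0 ∧ S' i j - s' i j = 0 := by
    refine all_zero hk (e := fun i => -(g i - h i)) (σ := fun i j => S i j - s i j)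
      (σ' := fun i j => S' i j - s' i j) ?_ ?_ ?_ ?_ ?_ ?_ ?_ ?_ ?_
    · intro i
      simp only [hper, gper]
    · intro i j
      simp only [HA.perS, HB.perS]
    · intro i j
      simp only [HA'.perS, HB'.perS]
    · intro i j h1 h2
      simp only [HA.symm i j h1 h2, HB.symm i j h1 h2]
    · intro i j h1 h2
      simp only [HA'.symm i j h1 h2, HB'.symm i j h1 h2]
    · intro i l j m h1 h2 h3 h4
      have c1 := HA.cross i l j m h1 h2 h3 h4
      have c2 := HB.cross i l j m h1 h2 h3 h4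
      have p1 := HA.nonneg i j (by omega) (by omega)
      have p2 := HA.nonneg l m (by omega) (by omega)
      have q1 := HB.nonneg i j (by omega) (by omega)
      have q2 := HB.nonneg l m (by omega) (by omega)
      rcases c1 with c1 | c1 <;> rcases c2 with c2 | c2 <;> simp only [c1, c2]
      · simp
      · have := mul_nonneg q1 p2
        nlinarith
      · have := mul_nonneg p1 q2
        nlinarith
      · simp
    · intro i l j m h1 h2 h3 h4
      have c1 := HA'.cross i l j m h1 h2 h3 h4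
      have c2 := HB'.cross i l j m h1 h2 h3 h4
      have p1 := HA'.nonneg i j (by omega) (by omega)
      have p2 := HA'.nonneg l m (by omega) (by omega)
      have q1 := HB'.nonneg i j (by omega) (by omega)
      have q2 := HB'.nonneg l m (by omega) (by omega)
      rcases c1 with c1 | c1 <;> rcases c2 with c2 | c2 <;> simp only [c1, c2]
      · simp
      · have := mul_nonneg q1 p2
        nlinarith
      · have := mul_nonneg p1 q2
        nlinarith
      · simp
    · intro i j h1 h2 hl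
      rcases hd with hd | hd | hd
      · have := digon hk hn HA HB HA' HB' hh hg hd h1 h2 (fun l l1 l2 => by
          obtain ⟨a1, a2, a3⟩ := hl l l1 l2
          refine ⟨by linarith, by linarith, fun m m1 m2 => ?_⟩
          obtain ⟨b1, b2⟩ := a3 m m1 m2
          exact ⟨by linarith, by linarith⟩)
        rcases this with h | h
        · left; rw [h]; ring
        · right; rw [h]; ring
      · have := digon hk hn HB HA HB' HA' hg hh hd h1 h2 (fun l l1 l2 => by
          obtain ⟨a1, a2, a3⟩ := hl l l1 l2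
          refine ⟨by linarith, by linarith, fun m m1 m2 => ?_⟩
          obtain ⟨b1, b2⟩ := a3 m m1 m2
          exact ⟨by linarith, by linarith⟩)
        rcases this with h | h
        · left; rw [h]; ring
        · right; rw [h]; ring
      · left
        rw [(hd i j h1 h2).1, (hd i j h1 h2).2]
        ring
    · intro i q hq
      exact arm (clos hk hn huu HA HA' h hh i) (clos hk hn hvv HB HB' g hg i) q hq
  have hgh : g = h := by
    funext i
    have := (key i).1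
    linarith
  subst hgh
  obtain ⟨Φ, h1, h2, h3, h4⟩ := rigid hk hn HA HB HA' HB' hh hg (fun i j i1 i2 => by
    have := ((key i).2 j i1 i2).1
    linarith)
  have hs : ∀ i j : ℤ, i + 2 ≤ j → j ≤ i + k - 2 → s i j = S i j ∧ s' i j = S' i j := by
    intro i j i1 i2
    have := (key i).2 j i1 i2
    constructor <;> linarith [this.1, this.2]
  refine ⟨Φ, h1, h2, hs, fun i j j1 j2 => ?_⟩
  obtain ⟨m, hm⟩ := Int.eq_ofNat_of_zero_le (show 0 ≤ j - (i + 1) by omega)
  have e : j = (i + 1) + m := by omega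
  rw [e]
  exact ⟨rig_up hk hn HA HB (by omega) m (by omega)
      (fun l l1 l2 => (hs i l (by omega) (by omega)).1) (h3 i),
    rig_up hk hn HA' HB' (by omega) m (by omega)
      (fun l l1 l2 => (hs i l (by omega) (by omega)).2) (h4 i)⟩

theorem core_data (hk : 4 ≤ k) (hn : ∀ i : ℤ, 3 ≤ n i) (N : Core P Q) :
    ∃ (L L' : Set (Fin 3 → ℝ)) (h : ℤ → ℝ), Ctx P N.u N.fp 1 L ∧ Ctx Q N.u N.fm (-1) L' ∧
      (∀ i : ℤ, Height P Q (gA P N.fp L) (gA Q N.fm L') (fun i j => nvec (gA P N.fp L i j))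
        (fun i j => nvec (gA Q N.fm L' i j)) i (h i)) ∧ (∀ i : ℤ, h (i + k) = h i) ∧
      ((∀ x ∈ H2, ∀ y ∈ H2, N.fp x ≠ N.fm y) ∨ L = ∅) := by
  obtain ⟨L, L', C, C', hd⟩ : ∃ L L' : Set (Fin 3 → ℝ), Ctx P N.u N.fp 1 L ∧
      Ctx Q N.u N.fm (-1) L' ∧ ((∀ x ∈ H2, ∀ y ∈ H2, N.fp x ≠ N.fm y) ∨ L = ∅) := by
    obtain ⟨L, hL, hLi⟩ := N.surf_p.pleated
    obtain ⟨L', hL', hLi'⟩ := N.surf_m.pleated
    have C' : Ctx Q N.u N.fm (-1) L' :=
      ⟨hk, hn, Or.inr rfl, N.u_per, N.u_unit, N.surf_m, hL', hLi'⟩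
    rcases N.disjoint with hd | ⟨A, hA, hf⟩
    · exact ⟨L, L', ⟨hk, hn, Or.inl rfl, N.u_per, N.u_unit, N.surf_p, hL, hLi⟩, C', Or.inl hd⟩
    · refine ⟨∅, L', ⟨hk, hn, Or.inl rfl, N.u_per, N.u_unit, N.surf_p, ⟨?_, ?_, ?_, ?_⟩, ?_⟩, C',
        Or.inr rfl⟩
      · intro w hw; exact hw.elim
      · intro w hw; exact hw.elim
      · intro w hw; exact hw.elim
      · intro x _ _
        exact ⟨A, hA, fun y hy _ => (hf y hy).1⟩
      · intro w hw; exact hw.elim
  have HA := C.bd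
  have HA' := C'.bd
  choose h0 hh0 using fun i => exists_height hk hn N.u_unit HA HA' i
  have hper : ∀ t : ℝ, Function.Periodic (fun i : ℤ => Height P Q (gA P N.fp L)
      (gA Q N.fm L') (fun i j => nvec (gA P N.fp L i j))
      (fun i j => nvec (gA Q N.fm L' i j)) i t) (k : ℤ) := by
    intro t i
    have e : i + (k : ℤ) + 1 = (i + 1) + k := by ring
    simp only [Height, e, HA.perA, HA'.perA, P.p_per, Q.p_per]
  have hmod : ∀ (i : ℤ) (t : ℝ), Height P Q (gA P N.fp L) (gA Q N.fm L')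
      (fun i j => nvec (gA P N.fp L i j)) (fun i j => nvec (gA Q N.fm L' i j)) (i % k) t →
      Height P Q (gA P N.fp L) (gA Q N.fm L')
      (fun i j => nvec (gA P N.fp L i j)) (fun i j => nvec (gA Q N.fm L' i j)) i t := by
    intro i t ht
    have h1 := (hper t).int_mul (i / k) (i % k)
    have e : i % (k : ℤ) + i / k * k = i := Int.emod_add_ediv_mul i k
    have h2 : Height P Q (gA P N.fp L) (gA Q N.fm L') (fun i j => nvec (gA P N.fp L i j))
      (fun i j => nvec (gA Q N.fm L' i j)) (i % (k : ℤ) + i / k * k) t =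
      Height P Q (gA P N.fp L) (gA Q N.fm L') (fun i j => nvec (gA P N.fp L i j))
      (fun i j => nvec (gA Q N.fm L' i j)) (i % k) t := h1
    rw [e] at h2
    rw [h2]
    exact ht
  refine ⟨L, L', fun i => h0 (i % k), C, C', fun i => hmod i _ (hh0 _), fun i => ?_, hd⟩
  show h0 ((i + k) % k) = h0 (i % k)
  rw [Int.add_emod_right]

theorem core_foot (hk : 4 ≤ k) (hn : ∀ i : ℤ, 3 ≤ n i) (N : Core P Q) {L L' : Set (Fin 3 → ℝ)}
    (C : Ctx P N.u N.fp 1 L) (C' : Ctx Q N.u N.fm (-1) L')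
    (hd : ∀ x ∈ H2, ∀ y ∈ H2, N.fp x ≠ N.fm y) (i j : ℤ) (h1 : i + 2 ≤ j) (h2 : j ≤ i + k - 2) :
    gA P N.fp L i (j - 1) (P.node i j) ≠ gA Q N.fm L' i (j - 1) (Q.node i j) := by
  have e1 := (C.agree i (j - 1) (by omega) (by omega)).2
  have e2 := (C'.agree i (j - 1) (by omega) (by omega)).2
  rw [sub_add_cancel] at e1 e2
  rw [← e1, ← e2]
  exact hd _ (P.node_mem hk hn (by omega) (by omega)) _ (Q.node_mem hk hn (by omega) (by omega))

theorem refl4_refl4 {v : Fin 4 → ℝ} (hv : ads v v = 1) (x : Fin 4 → ℝ) :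
    refl4 v (refl4 v x) = x := by
  have h : ads (x - (2 * ads x v) • v) v = -ads x v := by
    rw [ads_sub_left, ads_smul_left, hv]
    ring
  rw [refl4, refl4, h]
  module

section Whole

variable {u v : ℤ → Fin 4 → ℝ} {f f' : (Fin 3 → ℝ) → Fin 4 → ℝ} {ς : ℝ}
  {L L' : Set (Fin 3 → ℝ)} {Φ : (Fin 4 → ℝ) ≃ₗ[ℝ] (Fin 4 → ℝ)}

theorem region_eq (C : Ctx P u f ς L) (C' : Ctx P v f' ς L')
    (hs : ∀ i j : ℤ, i + 2 ≤ j → j ≤ i + k - 2 → bend P f L ς i j = bend P f' L' ς i j)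
    (hA : ∀ i j : ℤ, i + 1 ≤ j → j ≤ i + k - 2 → ∀ y, gA P f' L' i j y = Φ (gA P f L i j y))
    {x : Fin 3 → ℝ} (hx : x ∈ P.region) : Φ (f x) = f' x := by
  obtain ⟨i, j, h1, h2, h3⟩ := C.exists_gap hx
  have e1 : f x = gA P f L i j x := (C.emb_flat h1 h2).2 x hx.1 h3
  have e2 : f' x = gA P f' L' i j x := C'.flat_gap h1 h2 hx (fun a b ha hb hab => by
    rw [← hs a b ha hb] at hab
    apply h3
    by_contra hc
    rw [C.bend_foot ha hb hc] at hab
    exact lt_irrefl _ hab)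
  rw [e1, e2, hA i j h1 h2]

theorem whole_eq (C : Ctx P u f ς L) (C' : Ctx P v f' ς L')
    (hs : ∀ i j : ℤ, i + 2 ≤ j → j ≤ i + k - 2 → bend P f L ς i j = bend P f' L' ς i j)
    (hA : ∀ i j : ℤ, i + 1 ≤ j → j ≤ i + k - 2 → ∀ y, gA P f' L' i j y = Φ (gA P f L i j y))
    (hΦ : ∀ x y, ads (Φ x) (Φ y) = ads x y) (hu : ∀ i : ℤ, Φ (u i) = v i)
    {x : Fin 3 → ℝ} (hx : x ∈ H2) : Φ (f x) = f' x := by
  obtain ⟨y, hy, hxy⟩ := tile C.hk C.hn P hx
  have key : ∀ z, Mv P x z → z ∈ H2 ∧ (Φ (f z) = f' z → Φ (f x) = f' x) := by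
    intro z hz
    induction hz with
    | refl => exact ⟨hx, id⟩
    | step y i hxy ih =>
      obtain ⟨h1, h2⟩ := ih
      refine ⟨refl3_mem P i h1, fun h => h2 ?_⟩
      have e1 := C.surf.equiv i y h1
      have e2 := C'.surf.equiv i y h1
      have e3 : Φ (refl4 (u i) (f y)) = refl4 (v i) (Φ (f y)) := by
        rw [refl4, refl4, map_sub, map_smul, ← hu i, hΦ]
      rw [e1, e2, e3] at h
      have e4 := congrArg (refl4 (v i)) h
      rwa [refl4_refl4 (C'.uunit i), refl4_refl4 (C'.uunit i)] at e4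
  exact (key y hxy).2 (region_eq C C' hs hA hy)

end Whole

/-- Uniqueness of anti-de Sitter convex cores with polygonal reflection symmetry and given boundary metrics. -/
theorem unique (hk : 4 ≤ k) (hn : ∀ i : ℤ, 3 ≤ n i) (N N' : Core P Q) :
    ∃ Φ : (Fin 4 → ℝ) ≃ₗ[ℝ] (Fin 4 → ℝ), (∀ x y, ads (Φ x) (Φ y) = ads x y) ∧
      (∀ i : ℤ, Φ (N.u i) = N'.u i) ∧ (∀ x ∈ H2, Φ (N.fp x) = N'.fp x) ∧
      ∀ x ∈ H2, Φ (N.fm x) = N'.fm x := by
  obtain ⟨L, L', h, C, C', hh, hper, hN⟩ := core_data hk hn N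
  obtain ⟨M, M', g, D, D', hg, gper, hN'⟩ := core_data hk hn N'
  obtain ⟨Φ, h1, h2, h3, h4⟩ := unique_data hk hn N.u_unit N'.u_unit C.bd C'.bd D.bd D'.bd hh hper
    hg gper (by
      rcases hN with hN | hN
      · exact Or.inl (core_foot hk hn N C C' hN)
      · rcases hN' with hN' | hN'
        · exact Or.inr (Or.inl (core_foot hk hn N' D D' hN'))
        · subst hN
          subst hN'
          exact Or.inr (Or.inr (fun i j i1 i2 => ⟨C.bend_foot i1 i2 (fun h => h.elim),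
            D.bend_foot i1 i2 (fun h => h.elim)⟩)))
  refine ⟨Φ, h1, h2, fun x hx => ?_, fun x hx => ?_⟩
  · exact whole_eq C D (fun i j i1 i2 => (h3 i j i1 i2).1)
      (fun i j i1 i2 => (h4 i j i1 i2).1.1) h1 h2 hx
  · exact whole_eq C' D' (fun i j i1 i2 => (h3 i j i1 i2).2)
      (fun i j i1 i2 => (h4 i j i1 i2).2.1) h1 h2 hx

end Pool.Agent.Ads89
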