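import Pool.Agent.W_2fbb77_h89.Mat
import Pool.Agent.W_2fbb77_h89.Lor4

/-! # MP_2fbb77_gt: from bent data to closed polygons in the mirror planes

`Psi x ξ e M = ((M 0 1 + M 1 0)/2) • x - ((M 0 0 - M 1 1)/2) • ξ + ((M 0 1 - M 1 0)/2) • e` (so `Xm ↦ x`, `Jm ↦ e`,
`Dm ↦ -ξ`, `1 ↦ 0`).
* `Psi_H`: `Psi (cosh l • x + sinh l • e) ξ (sinh l • x + cosh l • e) M = Psi x ξ e (cj (Hm l) M)`,
  `Psi_B`: `Psi x (cosh t • ξ + sinh t • e) (cosh t • e + sinh t • ξ) M = Psi x ξ e (cj (Bm t) M)`,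
  `Psi_R`: `Psi (cos t • x + sin t • ξ) (cos t • ξ - sin t • x) e M = Psi x ξ e (cj (Rm t) M)`:
  every `M` is a linear combination of `1, Xm, Jm, Dm` and `cj g 1 = 1`, so it is enough to check these
  (`cj_Hm_Xm`, ... in `Mat.lean`), or compute entries.
* `cj_eq`: `g⁻¹ g'` commutes with `Xm`, `Dm`, so it is scalar, with determinant 1.
* `Psi_inj`: take products with `x, ξ, e`.
* `pf_conj`: `Dm_Hm`, `Dm_Bm`, `Dm_Dm`, induction. -/

set_option autoImplicit false

noncomputable section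

namespace Pool.Agent.Ads89

open Real

def Psi (x ξ e : Fin 4 → ℝ) (M : M2) : Fin 4 → ℝ :=
  ((M 0 1 + M 1 0) / 2) • x - ((M 0 0 - M 1 1) / 2) • ξ + ((M 0 1 - M 1 0) / 2) • e

theorem Psi_H (x ξ e : Fin 4 → ℝ) (l : ℝ) (M : M2) :
    Psi (cosh l • x + sinh l • e) ξ (sinh l • x + cosh l • e) M = Psi x ξ e (cj (Hm l) M) := by
  have h1 : exp (l / 2) * exp (l / 2) = exp l := by rw [← exp_add]; ring_nf
  have h2 : exp (-(l / 2)) * exp (-(l / 2)) = exp (-l) := by rw [← exp_add]; ring_nf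
  have h3 : exp (l / 2) * exp (-(l / 2)) = 1 := by rw [← exp_add]; simp
  have e00 : cj (Hm l) M 0 0 = M 0 0 := by
    rw [cj, adj_Hm]
    simp [Hm, Matrix.mul_apply, Matrix.vecMul, dotProduct, Fin.sum_univ_two, neg_div]
    linear_combination (M 0 0) * h3
  have e11 : cj (Hm l) M 1 1 = M 1 1 := by
    rw [cj, adj_Hm]
    simp [Hm, Matrix.mul_apply, Matrix.vecMul, dotProduct, Fin.sum_univ_two, neg_div]
    linear_combination (M 1 1) * h3
  have e01 : cj (Hm l) M 0 1 = exp l * M 0 1 := by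
    rw [cj, adj_Hm]
    simp [Hm, Matrix.mul_apply, Matrix.vecMul, dotProduct, Fin.sum_univ_two, neg_div]
    linear_combination (M 0 1) * h1
  have e10 : cj (Hm l) M 1 0 = exp (-l) * M 1 0 := by
    rw [cj, adj_Hm]
    simp [Hm, Matrix.mul_apply, Matrix.vecMul, dotProduct, Fin.sum_univ_two, neg_div]
    linear_combination (M 1 0) * h2
  unfold Psi
  rw [e00, e11, e01, e10]
  ext i
  simp only [Pi.add_apply, Pi.sub_apply, Pi.smul_apply, smul_eq_mul, cosh_eq, sinh_eq]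
  ring

theorem Psi_B (x ξ e : Fin 4 → ℝ) (t : ℝ) (M : M2) :
    Psi x (cosh t • ξ + sinh t • e) (cosh t • e + sinh t • ξ) M = Psi x ξ e (cj (Bm t) M) := by
  have h1 : cosh t = cosh (t / 2) ^ 2 + sinh (t / 2) ^ 2 := by
    rw [← cosh_two_mul]; ring_nf
  have h2 : sinh t = 2 * sinh (t / 2) * cosh (t / 2) := by
    rw [← sinh_two_mul]; ring_nf
  have h3 : cosh (t / 2) ^ 2 = sinh (t / 2) ^ 2 + 1 := cosh_sq (t / 2)
  have ep : (cj (Bm t) M 0 1 + cj (Bm t) M 1 0) / 2 = (M 0 1 + M 1 0) / 2 := by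
    rw [cj, adj_Bm]
    simp [Bm, Matrix.mul_apply, Matrix.vecMul, dotProduct, Fin.sum_univ_two, neg_div]
    linear_combination (M 0 1 + M 1 0) * h3
  have er : (cj (Bm t) M 0 0 - cj (Bm t) M 1 1) / 2 =
      cosh t * ((M 0 0 - M 1 1) / 2) - sinh t * ((M 0 1 - M 1 0) / 2) := by
    rw [cj, adj_Bm, h1, h2]
    simp [Bm, Matrix.mul_apply, Matrix.vecMul, dotProduct, Fin.sum_univ_two, neg_div]
    ring
  have ej : (cj (Bm t) M 0 1 - cj (Bm t) M 1 0) / 2 =
      cosh t * ((M 0 1 - M 1 0) / 2) - sinh t * ((M 0 0 - M 1 1) / 2) := by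
    rw [cj, adj_Bm, h1, h2]
    simp [Bm, Matrix.mul_apply, Matrix.vecMul, dotProduct, Fin.sum_univ_two, neg_div]
    ring
  unfold Psi
  rw [ep, er, ej]
  ext i
  simp only [Pi.add_apply, Pi.sub_apply, Pi.smul_apply, smul_eq_mul]
  ring

theorem Psi_R (x ξ e : Fin 4 → ℝ) (t : ℝ) (M : M2) :
    Psi (cos t • x + sin t • ξ) (cos t • ξ - sin t • x) e M = Psi x ξ e (cj (Rm t) M) := by
  have h1 : cos t = cos (t / 2) ^ 2 - sin (t / 2) ^ 2 := by
    rw [← cos_two_mul' (t / 2)]; ring_nf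
  have h2 : sin t = 2 * sin (t / 2) * cos (t / 2) := by
    rw [← sin_two_mul]; ring_nf
  have h3 : sin (t / 2) ^ 2 + cos (t / 2) ^ 2 = 1 := sin_sq_add_cos_sq (t / 2)
  have ep : (cj (Rm t) M 0 1 + cj (Rm t) M 1 0) / 2 =
      cos t * ((M 0 1 + M 1 0) / 2) + sin t * ((M 0 0 - M 1 1) / 2) := by
    rw [cj, adj_Rm, h1, h2]
    simp [Rm, Matrix.mul_apply, Matrix.vecMul, dotProduct, Fin.sum_univ_two, neg_div]
    ring
  have er : (cj (Rm t) M 0 0 - cj (Rm t) M 1 1) / 2 =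
      cos t * ((M 0 0 - M 1 1) / 2) - sin t * ((M 0 1 + M 1 0) / 2) := by
    rw [cj, adj_Rm, h1, h2]
    simp [Rm, Matrix.mul_apply, Matrix.vecMul, dotProduct, Fin.sum_univ_two, neg_div]
    ring
  have ej : (cj (Rm t) M 0 1 - cj (Rm t) M 1 0) / 2 = (M 0 1 - M 1 0) / 2 := by
    rw [cj, adj_Rm]
    simp [Rm, Matrix.mul_apply, Matrix.vecMul, dotProduct, Fin.sum_univ_two, neg_div]
    linear_combination (M 0 1 - M 1 0) * h3
  unfold Psi
  rw [ep, er, ej]
  ext i
  simp only [Pi.add_apply, Pi.sub_apply, Pi.smul_apply, smul_eq_mul]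
  ring

theorem cj_eq {g g' : M2} (hg : g.det = 1) (hg' : g'.det = 1) (h : ∀ M, cj g M = cj g' M) :
    g = g' ∨ g = -g' := by
  set c : M2 := g'.adjugate * g with hc
  have hcomm : ∀ M : M2, c * M = M * c := by
    intro M
    have h1 := h M
    unfold cj at h1
    calc c * M = g'.adjugate * (g * M * g.adjugate) * g := by
          rw [hc]
          simp only [Matrix.mul_assoc]
          rw [adj_mul hg, Matrix.mul_one]
      _ = g'.adjugate * (g' * M * g'.adjugate) * g := by rw [h1]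
      _ = (g'.adjugate * g') * M * (g'.adjugate * g) := by simp only [Matrix.mul_assoc]
      _ = M * c := by rw [adj_mul hg', Matrix.one_mul]
  have hdet : c.det = 1 := by
    rw [hc, Matrix.det_mul, hg, mul_one]
    have h1 : g'.adjugate.det * g'.det = 1 := by
      rw [← Matrix.det_mul, adj_mul hg', Matrix.det_one]
    rwa [hg', mul_one] at h1
  have hg3 : g = g' * c := by
    rw [hc, ← Matrix.mul_assoc, mul_adj hg', Matrix.one_mul]
  have h1 := hcomm !![1, 0; 0, 0]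
  have h2 := hcomm !![0, 1; 0, 0]
  have e1 : c 0 1 = 0 := by
    have := congrFun (congrFun h1 0) 1
    simp [Matrix.mul_apply, Fin.sum_univ_two] at this
    linarith
  have e2 : c 1 0 = 0 := by
    have := congrFun (congrFun h1 1) 0
    simp [Matrix.mul_apply, Fin.sum_univ_two] at this
    linarith
  have e3 : c 0 0 = c 1 1 := by
    have := congrFun (congrFun h2 0) 1
    simp [Matrix.mul_apply, Fin.sum_univ_two] at this
    linarith
  rw [Matrix.det_fin_two, e1, e2, ← e3] at hdet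
  have h4 : (c 0 0 - 1) * (c 0 0 + 1) = 0 := by linarith
  rcases mul_eq_zero.1 h4 with h5 | h5
  · left
    have h6 : c = 1 := by
      ext i j
      fin_cases i <;> fin_cases j <;> simp [e1, e2, ← e3] <;> linarith
    rw [hg3, h6, Matrix.mul_one]
  · right
    have h6 : c = -1 := by
      ext i j
      fin_cases i <;> fin_cases j <;> simp [e1, e2, ← e3] <;> linarith
    rw [hg3, h6, Matrix.mul_neg, Matrix.mul_one]

theorem Psi_inj {x ξ e : Fin 4 → ℝ} (hx : ads x x = -1) (hξ : ads ξ ξ = -1) (he : ads e e = 1)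
    (h1 : ads x ξ = 0) (h2 : ads x e = 0) (h3 : ads ξ e = 0) {M N : M2}
    (ht : M 0 0 + M 1 1 = N 0 0 + N 1 1) (h : Psi x ξ e M = Psi x ξ e N) : M = N := by
  have h1' : ads ξ x = 0 := by rw [ads_comm]; exact h1
  have h2' : ads e x = 0 := by rw [ads_comm]; exact h2
  have h3' : ads e ξ = 0 := by rw [ads_comm]; exact h3
  have hX : ∀ K : M2, ads (Psi x ξ e K) x = -((K 0 1 + K 1 0) / 2) := by
    intro K
    unfold Psi
    rw [ads_add_left, ads_sub_left, ads_smul_left, ads_smul_left, ads_smul_left, hx, h1', h2']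
    ring
  have hR : ∀ K : M2, ads (Psi x ξ e K) ξ = (K 0 0 - K 1 1) / 2 := by
    intro K
    unfold Psi
    rw [ads_add_left, ads_sub_left, ads_smul_left, ads_smul_left, ads_smul_left, hξ, h1, h3']
    ring
  have hE : ∀ K : M2, ads (Psi x ξ e K) e = (K 0 1 - K 1 0) / 2 := by
    intro K
    unfold Psi
    rw [ads_add_left, ads_sub_left, ads_smul_left, ads_smul_left, ads_smul_left, he, h2, h3]
    ring
  have a1 := hX M
  have a2 := hR M
  have a3 := hE M
  rw [h] at a1 a2 a3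
  rw [hX] at a1
  rw [hR] at a2
  rw [hE] at a3
  ext i j
  fin_cases i <;> fin_cases j <;> simp <;> linarith

theorem pf_conj (l s : ℕ → ℝ) (m : ℕ) : Pf l (fun q => -s q) m = Dm * Pf l s m * Dm := by
  have hc : ∀ m : ℕ, Pc l (fun q => -s q) m = Dm * Pc l s m * Dm := by
    intro m
    induction m with
    | zero => simp [Pc, Dm_Dm]
    | succ m ih =>
      have h1 := Dm_Hm (l m)
      have h2 := Dm_Bm (s m)
      calc Pc l (fun q => -s q) (m + 1) = Pc l (fun q => -s q) m * Hm (l m) * Bm (-s m) := rfl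
        _ = (Dm * Pc l s m * Dm) * (Dm * Hm (l m) * Dm) * (Dm * Bm (s m) * Dm) := by
            rw [ih, h1, h2]
        _ = Dm * (Pc l s m * ((Dm * Dm) * (Hm (l m) * ((Dm * Dm) * (Bm (s m) * Dm))))) := by
            simp only [Matrix.mul_assoc]
        _ = Dm * (Pc l s m * Hm (l m) * Bm (s m)) * Dm := by
            rw [Dm_Dm, Matrix.one_mul, Matrix.one_mul]
            simp only [Matrix.mul_assoc]
  have h1 := Dm_Hm (l m)
  calc Pf l (fun q => -s q) m = Pc l (fun q => -s q) m * Hm (l m) := rfl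
    _ = (Dm * Pc l s m * Dm) * (Dm * Hm (l m) * Dm) := by rw [hc, h1]
    _ = Dm * (Pc l s m * ((Dm * Dm) * (Hm (l m) * Dm))) := by simp only [Matrix.mul_assoc]
    _ = Dm * Pf l s m * Dm := by
        rw [Dm_Dm, Matrix.one_mul, Pf]
        simp only [Matrix.mul_assoc]

end Pool.Agent.Ads89
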