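import Pool.Agent.W_2fbb77_h89.Reg
import Pool.Agent.W_2fbb77_h89.Bd1

/-! # MP_2fbb77_gt: leaves that separate a gap from a point of the polygon

* `sep_trans`: `w` separates `g` and `x`: `z₀ = |mink x w| • g + |mink g w| • x` is orthogonal to `w` and a positive combination of
  points of `H2`.  `mink z w' ≠ 0` (by `h3`), so `w' ≠ ± w`, and by `disjoint_side` (normalize `z₀` with `Bd1_add`/`Bd1_norm`, or use
  `mem_H2_of_mink`), `mink z₀ w'` has the sign of `mink z w'`, opposite to `mink x w'`; as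
  `mink z₀ w' = |mink x w| * mink g w' + |mink g w| * mink x w'`, also `mink g w'` has the sign opposite to `mink x w'`.
* `sep_finite`: `0 ≤ a < k`, `a + 2 ≤ b ≤ a + k - 2`.
* `sep_red`: `w ∈ L` separates two points `g, x` of the polygon.  By `side_or` for all `i`: if always the first alternative
  (with `j = i + k - 1`, `node_last`) then all vertices are on the same side of `w`, and `g`, `x` as well by `region_pos` (for `w` or `-w`),
  contradiction.  So `w = ± tau i m`; shift `i` into `[0, k)` with `tau_per` (`i = i % k + (i / k) * k`; `Function.Periodic.int_mul` or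
  induction).
* `gap_side`: by `gpn_pos`-like positivity, `order` and `tau_node` (`gp i j = node i j + node i (j+1)`).
* `gpn_region`: `gpn` is a positive multiple of a sum of two nodes (`node_region`), and in `H2` (`Ctx.gpn_mem`).
* `sep_foot`: let `w = tau a b ∈ L` separate `g` (in `H2`) from `x` (in `H2`), `z = node a b`, and let `c = gpn a b` if `mink x w > 0`,
  `c = gpn a (b-1)` if `mink x w < 0` (gap on the side of `x`).  If `w' ∈ L` separates `c` and `x` then `w'` separates `g` and `x`: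
  `w' ≠ ± w` (`c`, `x` are on the same side of `w`); `mink z w' ≠ 0` (otherwise `disjoint_side` for the point `z` on both), and
  `mink z w'` has the sign of `mink c w'` (`LF.gp_node`), so `w'` separates `z` and `x`: `sep_trans`.
* `exists_gap`: choose the gap `(i, j)` with the smallest number of elements of `sepSet P L (gpn i j) x` (strong induction on `ncard`).
  If some `w ∈ L` separates `gpn i j` and `x` take `(a, b) ∈ sepSet` by `sep_red`; the gap `c` of `sep_foot` has
  `sepSet c x ⊂ sepSet g x` (`sep_foot`; `(a, b)` is not in `sepSet c x` by `gap_side`). -/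

set_option autoImplicit false

noncomputable section

namespace Pool.Agent.Ads89

variable {k : ℕ} {n : ℤ → ℕ} {P : Polygon k n} {u : ℤ → Fin 4 → ℝ}
  {f : (Fin 3 → ℝ) → Fin 4 → ℝ} {ς : ℝ} {L : Set (Fin 3 → ℝ)} {w w' x z g : Fin 3 → ℝ} {i j a b : ℤ}

theorem LF.sep_trans (H : LF P L) (hw : w ∈ L) (hw' : w' ∈ L) (hg : g ∈ H2) (hx : x ∈ H2)
    (hz : z ∈ H2) (h1 : mink g w * mink x w < 0) (h2 : mink z w = 0)
    (h3 : mink z w' * mink x w' < 0) : mink g w' * mink x w' < 0 := by
  obtain ⟨A, hA⟩ : ∃ A, A = |mink x w| := ⟨_, rfl⟩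
  obtain ⟨B, hB⟩ : ∃ B, B = |mink g w| := ⟨_, rfl⟩
  have hgw : mink g w ≠ 0 := fun h => by rw [h, zero_mul] at h1; exact lt_irrefl _ h1
  have hxw : mink x w ≠ 0 := fun h => by rw [h, mul_zero] at h1; exact lt_irrefl _ h1
  have hA0 : 0 < A := by rw [hA]; exact abs_pos.2 hxw
  have hB0 : 0 < B := by rw [hB]; exact abs_pos.2 hgw
  have h4 : A * mink g w + B * mink x w = 0 := by
    rcases lt_or_gt_of_ne hgw with h5 | h5
    · have h6 : 0 < mink x w := by nlinarith
      rw [hA, hB, abs_of_pos h6, abs_of_neg h5]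
      ring
    · have h6 : mink x w < 0 := by nlinarith
      rw [hA, hB, abs_of_neg h6, abs_of_pos h5]
      ring
  obtain ⟨c, hc⟩ : ∃ c, c = A • g + B • x := ⟨_, rfl⟩
  have hcc : mink c c < 0 := by
    have h5 := mink_le_neg_one hg hx
    have h6 := mul_pos hA0 hB0
    rw [hc, mink_add_left, mink_add_right, mink_add_right, mink_smul_left, mink_smul_right,
      mink_smul_left, mink_smul_right, mink_smul_left, mink_smul_right, mink_smul_left,
      mink_smul_right, mink_comm x g, hg.1, hx.1]
    nlinarith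
  have hc2 : 0 < c 2 := by
    rw [hc]
    show 0 < A * g 2 + B * x 2
    have := mul_pos hA0 hg.2
    have := mul_pos hB0 hx.2
    linarith
  obtain ⟨ht, hmem⟩ := Bd1_norm hcc hc2
  have hcw0 : mink c w = 0 := by
    rw [hc, mink_add_left, mink_smul_left, mink_smul_left, h4]
  have hcw : mink ((1 / √(-mink c c)) • c) w = 0 := by
    rw [mink_smul_left, hcw0, mul_zero]
  have hzw' : mink z w' ≠ 0 := fun h => by rw [h, zero_mul] at h3; exact lt_irrefl _ h3
  have hne : w' ≠ w := fun h => hzw' (by rw [h]; exact h2)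
  have hne' : w' ≠ -w := fun h => hzw' (by rw [h, mink_neg_right, h2, neg_zero])
  have hdis : 1 ≤ |mink w w'| := by
    rcases H.disj w hw w' hw' with h5 | h5 | h5
    · exact absurd h5 hne
    · exact absurd h5 hne'
    · exact h5
  have h5 := disjoint_side hmem hz hcw h2 (H.unit w hw) (H.unit w' hw') hdis hne hne'
  rw [mink_smul_left] at h5
  have h6 : 0 < mink c w' * mink z w' := by
    have h7 : 1 / √(-mink c c) * mink c w' * mink z w' =
        1 / √(-mink c c) * (mink c w' * mink z w') := by ring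
    rw [h7] at h5
    exact (mul_pos_iff_of_pos_left ht).1 h5
  have h7 : mink c w' * mink x w' < 0 := by
    have h8 : (mink c w' * mink z w') * (mink z w' * mink x w') < 0 :=
      mul_neg_of_pos_of_neg h6 h3
    have h9 : (mink c w' * mink z w') * (mink z w' * mink x w') =
        mink z w' ^ 2 * (mink c w' * mink x w') := by ring
    rw [h9] at h8
    have h10 : 0 < mink z w' ^ 2 := by positivity
    by_contra hcon
    exact absurd h8 (not_lt.2 (mul_nonneg h10.le (not_lt.1 hcon)))
  rw [hc, mink_add_left, mink_smul_left, mink_smul_left] at h7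
  have h8 : A * (mink g w' * mink x w') < 0 := by
    have h9 := mul_nonneg hB0.le (mul_self_nonneg (mink x w'))
    nlinarith
  by_contra hcon
  exact absurd h8 (not_lt.2 (mul_nonneg hA0.le (not_lt.1 hcon)))

/-- The leaves that separate `g` and `x`. -/
def sepSet (P : Polygon k n) (L : Set (Fin 3 → ℝ)) (g x : Fin 3 → ℝ) : Set (ℤ × ℤ) :=
  {q | 0 ≤ q.1 ∧ q.1 < k ∧ q.1 + 2 ≤ q.2 ∧ q.2 ≤ q.1 + k - 2 ∧ P.tau q.1 q.2 ∈ L ∧
    mink g (P.tau q.1 q.2) * mink x (P.tau q.1 q.2) < 0}

theorem sep_finite (P : Polygon k n) (L : Set (Fin 3 → ℝ)) (g x : Fin 3 → ℝ) :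
    (sepSet P L g x).Finite := by
  refine ((Set.finite_Icc (0 : ℤ) k).prod (Set.finite_Icc (0 : ℤ) (2 * k))).subset ?_
  rintro q ⟨h1, h2, h3, h4, -⟩
  exact ⟨⟨h1, h2.le⟩, by show (0 : ℤ) ≤ q.2; omega, by show q.2 ≤ 2 * (k : ℤ); omega⟩

private theorem hop_shift (P : Polygon k n) (i j c : ℤ) :
    P.tau (i + c * k) (j + c * k) = P.tau i j := by
  induction c using Int.induction_on with
  | zero => rw [zero_mul, add_zero, add_zero]
  | succ c ih =>
    rw [← ih, ← P.tau_per (i + c * k) (j + c * k)]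
    congr 1 <;> ring
  | pred c ih =>
    rw [← ih, ← P.tau_per (i + (-(c : ℤ) - 1) * k) (j + (-(c : ℤ) - 1) * k)]
    congr 1 <;> ring

/-- constant sign at the vertices -/
private theorem hop_sign (P : Polygon k n) (w : Fin 3 → ℝ)
    (h : ∀ i : ℤ, 0 < mink (P.p i) w * mink (P.p (i - 1)) w) (i : ℤ) :
    0 < mink (P.p 0) w * mink (P.p i) w := by
  have h0 : mink (P.p 0) w ≠ 0 := fun h1 => by
    have h2 := h 0
    rw [h1, zero_mul] at h2
    exact lt_irrefl _ h2
  have step : ∀ x y z : ℝ, 0 < x * y → 0 < z * y → 0 < x * z := by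
    intro x y z h1 h2
    have h3 : y ≠ 0 := fun h4 => by rw [h4, mul_zero] at h1; exact lt_irrefl _ h1
    have h4 : 0 < y ^ 2 := by positivity
    have h5 := mul_pos h1 h2
    have h6 : x * y * (z * y) = y ^ 2 * (x * z) := by ring
    rw [h6] at h5
    exact (mul_pos_iff_of_pos_left h4).1 h5
  induction i using Int.induction_on with
  | zero =>
    exact mul_self_pos.2 h0
  | succ c ih =>
    have h1 := h ((c : ℤ) + 1)
    rw [add_sub_cancel_right] at h1
    exact step _ _ _ ih h1
  | pred c ih =>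
    have h1 := h (-(c : ℤ))
    rw [mul_comm] at h1
    exact step _ _ _ ih h1

theorem LF.sep_red (hk : 4 ≤ k) (hn : ∀ i : ℤ, 3 ≤ n i) (H : LF P L) (hw : w ∈ L)
    (hg : g ∈ P.region) (hx : x ∈ P.region) (h : mink g w * mink x w < 0) :
    ∃ q ∈ sepSet P L g x, w = P.tau q.1 q.2 ∨ w = -P.tau q.1 q.2 := by
  by_cases hall : ∀ i : ℤ, 0 < mink (P.p i) w * mink (P.p (i - 1)) w
  · exfalso
    have h1 := hop_sign P w hall
    rcases lt_trichotomy (mink (P.p 0) w) 0 with h2 | h2 | h2
    · have h3 : ∀ i : ℤ, 0 < mink (P.p i) (-w) := by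
        intro i
        rw [mink_neg_right]
        have h4 := h1 i
        have h5 : mink (P.p i) w < 0 := by
          by_contra hcon
          exact absurd h4 (not_lt.2 (mul_nonpos_of_nonpos_of_nonneg h2.le (not_lt.1 hcon)))
        linarith
      have h4 := region_pos hk hn hg h3
      have h5 := region_pos hk hn hx h3
      rw [mink_neg_right] at h4 h5
      nlinarith
    · have h3 := h1 0
      rw [h2, zero_mul] at h3
      exact lt_irrefl _ h3
    · have h3 : ∀ i : ℤ, 0 < mink (P.p i) w := fun i => (mul_pos_iff_of_pos_left h2).1 (h1 i)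
      have h4 := region_pos hk hn hg h3
      have h5 := region_pos hk hn hx h3
      nlinarith
  · push Not at hall
    obtain ⟨i, hi⟩ := hall
    rcases H.side_or hk hn hw i with h1 | ⟨m, h1, h2, h3⟩
    · exfalso
      have h2 := h1 (i + k - 1) (by omega) le_rfl
      rw [P.node_last hk i] at h2
      linarith
    · have hk0 : (0 : ℤ) < k := by omega
      obtain ⟨c, hc⟩ : ∃ c : ℤ, c = i / k := ⟨_, rfl⟩
      have e1 : P.tau (i + -c * k) (m + -c * k) = P.tau i m := hop_shift P i m (-c)
      have e2 : 0 ≤ i + -c * k ∧ i + -c * k < k := by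
        have h4 := Int.emod_nonneg i hk0.ne'
        have h5 := Int.emod_lt_of_pos i hk0
        have h6 : i % k = i + -c * k := by
          rw [hc, Int.emod_def]
          ring
        rw [← h6]
        exact ⟨h4, h5⟩
      have hmem : P.tau i m ∈ L := by
        rcases h3 with h3 | h3
        · rw [← h3]
          exact hw
        · have h4 := H.neg_mem w hw
          rw [h3, neg_neg] at h4
          exact h4
      have hneg : mink g (P.tau i m) * mink x (P.tau i m) < 0 := by
        rcases h3 with h3 | h3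
        · rw [← h3]
          exact h
        · rw [h3, mink_neg_right, mink_neg_right, neg_mul_neg] at h
          exact h
      refine ⟨(i + -c * k, m + -c * k), ⟨e2.1, e2.2, ?_, ?_, ?_, ?_⟩, ?_⟩
      · show i + -c * k + 2 ≤ m + -c * k
        omega
      · show m + -c * k ≤ i + -c * k + k - 2
        omega
      · show P.tau (i + -c * k) (m + -c * k) ∈ L
        rw [e1]
        exact hmem
      · show mink g (P.tau (i + -c * k) (m + -c * k)) *
          mink x (P.tau (i + -c * k) (m + -c * k)) < 0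
        rw [e1]
        exact hneg
      · show w = P.tau (i + -c * k) (m + -c * k) ∨ w = -P.tau (i + -c * k) (m + -c * k)
        rw [e1]
        exact h3

theorem Ctx.gpn_region (C : Ctx P u f ς L) (h1 : i + 1 ≤ j) (h2 : j ≤ i + k - 2) :
    gpn P i j ∈ P.region := by
  refine ⟨C.gpn_mem h1 h2, fun l => ?_⟩
  obtain ⟨t, ht, h3⟩ := C.gpn_pos h1 h2
  have h4 := (P.node_region C.hk C.hn h1 (by omega)).2 l
  have h5 := (P.node_region C.hk C.hn (i := i) (j := j + 1) (by omega) (by omega)).2 l
  rw [h3, mink_smul_left, gp, mink_add_left]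
  exact mul_nonpos_of_nonneg_of_nonpos ht.le (by linarith)

theorem Ctx.gap_side (C : Ctx P u f ς L) (h1 : a + 2 ≤ b) (h2 : b ≤ a + k - 2) :
    0 < mink (gpn P a b) (P.tau a b) ∧ mink (gpn P a (b - 1)) (P.tau a b) < 0 := by
  obtain ⟨t, ht, h3⟩ := C.gpn_pos (i := a) (j := b) (by omega) h2
  obtain ⟨t', ht', h3'⟩ := C.gpn_pos (i := a) (j := b - 1) (by omega) (by omega)
  have h4 := (P.order C.hk C.hn (i := a) (j := b) (l := b + 1) (by omega) (by omega)
    (by omega)).1
  have h5 := (P.order C.hk C.hn (i := a) (j := b - 1) (l := b) (by omega) (by omega)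
    (by omega)).2
  have h6 := P.tau_node a b
  have h7 : b - 1 + 1 = b := by ring
  constructor
  · rw [h3, mink_smul_left, gp, mink_add_left, mink_comm (P.node a b),
      mink_comm (P.node a (b + 1)), h6, zero_add]
    exact mul_pos ht h4
  · rw [h3', mink_smul_left, gp, mink_add_left, h7, mink_comm (P.node a b),
      mink_comm (P.node a (b - 1)), h6, add_zero]
    exact mul_neg_of_pos_of_neg ht' h5

/-- the common part of `sep_foot` -/
private theorem hop_foot (H : LF P L) {c : Fin 3 → ℝ} (hw : w ∈ L) (hw' : w' ∈ L)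
    (hg : g ∈ H2) (hx : x ∈ H2) (hz : z ∈ H2) (h1 : mink g w * mink x w < 0)
    (h2 : mink z w = 0) (h3 : 0 < mink c w * mink x w) (h4 : 0 ≤ mink c w' * mink z w')
    (h5 : mink c w' * mink x w' < 0) : mink g w' * mink x w' < 0 := by
  have hne : w' ≠ w := by
    rintro rfl
    linarith
  have hne' : w' ≠ -w := by
    rintro rfl
    rw [mink_neg_right, mink_neg_right, neg_mul_neg] at h5
    linarith
  have hdis : 1 ≤ |mink w w'| := by
    rcases H.disj w hw w' hw' with h5 | h5 | h5
    · exact absurd h5 hne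
    · exact absurd h5 hne'
    · exact h5
  have h6 := disjoint_side hz hz h2 h2 (H.unit w hw) (H.unit w' hw') hdis hne hne'
  have h7 : mink z w' ≠ 0 := fun h => by rw [h, mul_zero] at h6; exact lt_irrefl _ h6
  have h8 : mink c w' ≠ 0 := fun h => by rw [h, zero_mul] at h5; exact lt_irrefl _ h5
  have h9 : 0 < mink c w' * mink z w' := lt_of_le_of_ne h4 (mul_ne_zero h8 h7).symm
  refine H.sep_trans hw hw' hg hx hz h1 h2 ?_
  have h10 : (mink c w' * mink z w') * (mink c w' * mink x w') < 0 :=
    mul_neg_of_pos_of_neg h9 h5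
  have h11 : (mink c w' * mink z w') * (mink c w' * mink x w') =
      mink c w' ^ 2 * (mink z w' * mink x w') := by ring
  rw [h11] at h10
  by_contra hcon
  exact absurd h10 (not_lt.2 (mul_nonneg (sq_nonneg _) (not_lt.1 hcon)))

theorem Ctx.sep_foot (C : Ctx P u f ς L) (h1 : a + 2 ≤ b) (h2 : b ≤ a + k - 2)
    (h0 : P.tau a b ∈ L) (hg : g ∈ H2) (hx : x ∈ H2)
    (h : mink g (P.tau a b) * mink x (P.tau a b) < 0) (hw' : w' ∈ L) :
    (0 < mink x (P.tau a b) → mink (gpn P a b) w' * mink x w' < 0 → mink g w' * mink x w' < 0) ∧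
    (mink x (P.tau a b) < 0 → mink (gpn P a (b - 1)) w' * mink x w' < 0 →
      mink g w' * mink x w' < 0) := by
  obtain ⟨hs1, hs2⟩ := C.gap_side h1 h2
  have hz : P.node a b ∈ H2 := P.node_mem C.hk C.hn (by omega) (by omega)
  have hzw : mink (P.node a b) (P.tau a b) = 0 := by
    rw [mink_comm]
    exact P.tau_node a b
  constructor
  · intro h3 h4
    refine hop_foot C.lf h0 hw' hg hx hz h hzw (mul_pos hs1 h3) ?_ h4
    obtain ⟨t, ht, h5⟩ := C.gpn_pos (i := a) (j := b) (by omega) h2
    have h6 := (C.lf.gp_node C.hk C.hn hw' (i := a) (j := b) (by omega) h2).2.1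
    rw [h5, mink_smul_left, mul_assoc]
    exact mul_nonneg ht.le h6
  · intro h3 h4
    refine hop_foot C.lf h0 hw' hg hx hz h hzw (mul_pos_of_neg_of_neg hs2 h3) ?_ h4
    obtain ⟨t, ht, h5⟩ := C.gpn_pos (i := a) (j := b - 1) (by omega) (by omega)
    have h6 := (C.lf.gp_node C.hk C.hn hw' (i := a) (j := b - 1) (by omega) (by omega)).2.2
    rw [sub_add_cancel] at h6
    rw [h5, mink_smul_left, mul_assoc]
    exact mul_nonneg ht.le h6

theorem Ctx.exists_gap (C : Ctx P u f ς L) (hx : x ∈ P.region) :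
    ∃ i j : ℤ, i + 1 ≤ j ∧ j ≤ i + k - 2 ∧ ∀ w ∈ L, 0 ≤ mink (gpn P i j) w * mink x w := by
  have key : ∀ N : ℕ, ∀ i j : ℤ, i + 1 ≤ j → j ≤ i + k - 2 →
      (sepSet P L (gpn P i j) x).ncard = N →
      ∃ i j : ℤ, i + 1 ≤ j ∧ j ≤ i + k - 2 ∧ ∀ w ∈ L, 0 ≤ mink (gpn P i j) w * mink x w := by
    intro N
    induction N using Nat.strong_induction_on with
    | _ N ih =>
      intro i j h1 h2 hN
      by_cases hcon : ∀ w ∈ L, 0 ≤ mink (gpn P i j) w * mink x w
      · exact ⟨i, j, h1, h2, hcon⟩
      push Not at hcon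
      obtain ⟨w, hw, hneg⟩ := hcon
      obtain ⟨⟨a, b⟩, hq, -⟩ := C.lf.sep_red C.hk C.hn hw (C.gpn_region h1 h2) hx hneg
      have hq' := hq
      obtain ⟨-, -, q1, q2, q3, q4⟩ := hq'
      simp only at q1 q2 q3 q4
      have hgH := C.gpn_mem h1 h2
      obtain ⟨hs1, hs2⟩ := C.gap_side q1 q2
      have hx0 : mink x (P.tau a b) ≠ 0 := fun h => by
        rw [h, mul_zero] at q4
        exact lt_irrefl _ q4
      have hfin := sep_finite P L (gpn P i j) x
      rcases lt_or_gt_of_ne hx0 with h3 | h3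
      · refine ih _ ?_ a (b - 1) (by omega) (by omega) rfl
        rw [← hN]
        refine Set.ncard_lt_ncard ?_ hfin
        rw [Set.ssubset_iff_of_subset]
        · refine ⟨(a, b), hq, ?_⟩
          rintro ⟨-, -, -, -, -, h4⟩
          exact absurd h4 (not_lt.2 (mul_pos_of_neg_of_neg hs2 h3).le)
        · rintro q ⟨p1, p2, p3, p4, p5, p6⟩
          exact ⟨p1, p2, p3, p4, p5, (C.sep_foot q1 q2 q3 hgH hx.1 q4 p5).2 h3 p6⟩
      · refine ih _ ?_ a b (by omega) q2 rfl
        rw [← hN]
        refine Set.ncard_lt_ncard ?_ hfin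
        rw [Set.ssubset_iff_of_subset]
        · refine ⟨(a, b), hq, ?_⟩
          rintro ⟨-, -, -, -, -, h4⟩
          exact absurd h4 (not_lt.2 (mul_pos hs1 h3).le)
        · rintro q ⟨p1, p2, p3, p4, p5, p6⟩
          exact ⟨p1, p2, p3, p4, p5, (C.sep_foot q1 q2 q3 hgH hx.1 q4 p5).1 h3 p6⟩
  have hk := C.hk
  exact key _ 0 1 (by omega) (by omega) rfl

end Pool.Agent.Ads89
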