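import Pool.Agent.W_2fbb77_h89.Bd1

/-! # MP_2fbb77_gt: an inner point near a gap, and the image of the normal of the side

* `inner`: there is `z ∈ P.region` with `mink z (v i) < 0`, such that no leaf separates `z` from `x = gpn i j` (weakly), nor
  `refl3 (v i) z` from `x`.  Take `z = (x + ε q)/√(-mink ..)` with `q = P.p (i + 1)` (`mink q (v i) < 0` by `neg`: `P.neg (i+1) (i+k)`
  and `v_per`) and `ε > 0` small.  `z ∈ P.region`.  Let `w ∈ L`.  If `w` has the same (nonzero) sign at `x` and at `q`, fine for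
  all `ε > 0`.  Otherwise the vertices of `P` have both signs (all nodes of the side `i` are combinations of `p i`,
  `p (i-1)`), so by `LF.side_or` (applied to a side `l`, `0 ≤ l < k`, where the sign changes: the first alternative
  is impossible there) `w = ± tau l m` for one of finitely many pairs `(l, m)`, `0 ≤ l < k`, `l + 2 ≤ m ≤ l + k - 2`.  For each of
  these finitely many `w` we need `0 ≤ mink x w * (mink x w + ε mink q w)`, true for small `ε` as `mink x w ≠ 0` (if `w ∈ L`).
  For the reflected point: `mink (refl3 (v i) z) w = mink z (refl3 (v i) w)`, `mink x w = mink x (refl3 (v i) w)`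
  (`mink x (v i) = 0`) and `refl3 (v i) w ∈ L`.
* `emb_side`: let `A = emb (gpn i j)`, `z` from `inner`.  `f z = A z`, `f (refl3 (v i) z) = A (refl3 (v i) z)`, and `equiv`:
  `A z - 2 mink z (v i) • A (v i) = A z - 2 ads (A z) (u i) • u i`, so `mink z (v i) • A (v i) = ads (A z) (u i) • u i`, so
  `A (v i) = μ • u i` with `μ² = 1`; `ads (A z) (u i) = μ mink z (v i)` (as `μ • u i = A (v i)`, `μ² = 1`) is `≤ 0` by `chamber`, so
  `μ = 1`. -/

set_option autoImplicit false

noncomputable section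

namespace Pool.Agent.Ads89

variable {k : ℕ} {n : ℤ → ℕ} {P : Polygon k n} {u : ℤ → Fin 4 → ℝ}
  {f : (Fin 3 → ℝ) → Fin 4 → ℝ} {ς : ℝ} {L : Set (Fin 3 → ℝ)} {i j l m : ℤ}

theorem Inn_pos {a b : ℝ} (h : 0 < a ^ 2 * b) : 0 < b := by
  by_contra hb
  have : a ^ 2 * b ≤ 0 := mul_nonpos_of_nonneg_of_nonpos (sq_nonneg a) (not_lt.1 hb)
  linarith

theorem Inn_refl (v x y : Fin 3 → ℝ) : mink (refl3 v x) y = mink x (refl3 v y) := by
  rw [refl3, refl3, mink_sub_left, mink_sub_right, mink_smul_left, mink_smul_right, mink_comm y v]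
  ring

theorem Inn_refl_self (v x : Fin 3 → ℝ) (hv : mink v v = 1) :
    mink (refl3 v x) (refl3 v x) = mink x x := by
  rw [refl3, mink_sub_left, mink_sub_right, mink_sub_right, mink_smul_left, mink_smul_right,
    mink_smul_left, mink_smul_right, hv, mink_comm v x]
  ring

open Filter Topology in
/-- a leaf that separates the gap point from the vertex `p (i + 1)` is one of finitely many -/
theorem Ctx.Inn_fin (C : Ctx P u f ς L) (h1 : i + 1 ≤ j) (h2 : j ≤ i + k - 2) {w : Fin 3 → ℝ}
    (hw : w ∈ L) (h : mink (gpn P i j) w * mink (P.p (i + 1)) w < 0) :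
    ∃ l ∈ Set.Icc (i + 1) (i + k - 1), ∃ m ∈ Set.Icc (l + 2) (l + k - 2),
      w = P.tau l m ∨ w = -P.tau l m := by
  have hk : (4 : ℤ) ≤ k := by exact_mod_cast C.hk
  have hv := fun l : ℤ => LF.vertex_ne C.hk C.hn C.lf hw l
  -- a sign change
  have hch : ∃ l : ℤ, i + 1 ≤ l ∧ l ≤ i + k - 1 ∧
      mink (P.p (l - 1)) w * mink (P.p l) w < 0 := by
    by_contra hcon
    push Not at hcon
    have hpos : ∀ l : ℤ, i ≤ l → l ≤ i + k - 1 → 0 < mink (P.p i) w * mink (P.p l) w := by
      intro l hl
      induction l, hl using Int.leInduction with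
      | base =>
        intro _
        exact lt_of_le_of_ne (mul_self_nonneg _) (mul_ne_zero (hv i) (hv i)).symm
      | succ l hl ih =>
        intro h3
        have h4 := ih (by omega)
        have h5 := hcon (l + 1) (by omega) h3
        rw [add_sub_cancel_right] at h5
        have h6 : 0 < mink (P.p l) w * mink (P.p (l + 1)) w :=
          lt_of_le_of_ne h5 (mul_ne_zero (hv l) (hv (l + 1))).symm
        have h7 : 0 < (mink (P.p i) w * mink (P.p l) w) * (mink (P.p l) w * mink (P.p (l + 1)) w) :=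
          mul_pos h4 h6
        have h8 : (mink (P.p i) w * mink (P.p l) w) * (mink (P.p l) w * mink (P.p (l + 1)) w) =
            mink (P.p l) w ^ 2 * (mink (P.p i) w * mink (P.p (l + 1)) w) := by ring
        rw [h8] at h7
        exact Inn_pos h7
    have hq := hpos (i + 1) (by omega) (by omega)
    have hlast := hpos (i + k - 1) (by omega) le_rfl
    have hper : P.p (i + k - 1) = P.p (i - 1) := by
      rw [show i + (k : ℤ) - 1 = (i - 1) + k by ring, P.p_per]
    rw [hper] at hlast
    have hself : 0 < mink (P.p i) w * mink (P.p i) w := hpos i le_rfl (by omega)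
    -- nodes
    have hnode : ∀ m : ℤ, i + 1 ≤ m → m ≤ i + k - 1 →
        0 < mink (P.p i) w * mink (P.node i m) w := by
      intro m hm1 hm2
      obtain ⟨a, b, ha, hb, hab, he⟩ := node_comb C.hk C.hn P hm1 hm2
      rw [he, mink_add_left, mink_smul_left, mink_smul_left]
      have h3 : mink (P.p i) w * (a * mink (P.p i) w + b * mink (P.p (i - 1)) w) =
          a * (mink (P.p i) w * mink (P.p i) w) + b * (mink (P.p i) w * mink (P.p (i - 1)) w) := by
        ring
      rw [h3]
      rcases ha.lt_or_eq with h4 | h4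
      · have : 0 < a * (mink (P.p i) w * mink (P.p i) w) := mul_pos h4 hself
        have : 0 ≤ b * (mink (P.p i) w * mink (P.p (i - 1)) w) := mul_nonneg hb hlast.le
        linarith
      · rw [← h4] at hab ⊢
        have : 0 < b * (mink (P.p i) w * mink (P.p (i - 1)) w) := mul_pos (by linarith) hlast
        linarith
    obtain ⟨t, ht, h3⟩ := C.gpn_pos h1 h2
    have h4 : 0 < mink (P.p i) w * mink (gpn P i j) w := by
      rw [h3, gp, mink_smul_left, mink_add_left]
      have h5 := hnode j h1 (by omega)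
      have h6 := hnode (j + 1) (by omega) (by omega)
      have h7 : mink (P.p i) w * (t * (mink (P.node i j) w + mink (P.node i (j + 1)) w)) =
          t * (mink (P.p i) w * mink (P.node i j) w + mink (P.p i) w * mink (P.node i (j + 1)) w) := by
        ring
      rw [h7]
      exact mul_pos ht (by linarith)
    have h5 : 0 < (mink (P.p i) w * mink (gpn P i j) w) *
        (mink (P.p i) w * mink (P.p (i + 1)) w) := mul_pos h4 hq
    have h6 : (mink (P.p i) w * mink (gpn P i j) w) * (mink (P.p i) w * mink (P.p (i + 1)) w) =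
        mink (P.p i) w ^ 2 * (mink (gpn P i j) w * mink (P.p (i + 1)) w) := by ring
    rw [h6] at h5
    have h7 : 0 < mink (gpn P i j) w * mink (P.p (i + 1)) w := Inn_pos h5
    linarith
  obtain ⟨l, hl1, hl2, hl⟩ := hch
  refine ⟨l, ⟨hl1, hl2⟩, ?_⟩
  rcases LF.side_or C.hk C.hn C.lf hw l with h3 | ⟨m, hm1, hm2, h3⟩
  · exfalso
    have h4 := h3 (l + k - 1) (by omega) le_rfl
    rw [P.node_last C.hk] at h4
    linarith [mul_comm (mink (P.p (l - 1)) w) (mink (P.p l) w)]
  · exact ⟨m, ⟨hm1, hm2⟩, h3⟩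

open Filter Topology in
theorem Ctx.Inn_eps (C : Ctx P u f ς L) (h1 : i + 1 ≤ j) (h2 : j ≤ i + k - 2) :
    ∃ ε : ℝ, 0 < ε ∧ ∀ w ∈ L,
      0 ≤ mink (gpn P i j) w * (mink (gpn P i j) w + ε * mink (P.p (i + 1)) w) := by
  set T : Set (Fin 3 → ℝ) := ⋃ l ∈ Set.Icc (i + 1) (i + k - 1),
    ⋃ m ∈ Set.Icc (l + 2) (l + k - 2), {P.tau l m, -P.tau l m} with hT
  have hTf : T.Finite := by
    refine Set.Finite.biUnion (Set.finite_Icc _ _) fun l _ => ?_
    refine Set.Finite.biUnion (Set.finite_Icc _ _) fun m _ => ?_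
    exact Set.toFinite _
  have hev : ∀ᶠ ε : ℝ in 𝓝[>] 0, ∀ w ∈ T, w ∈ L →
      0 < mink (gpn P i j) w * (mink (gpn P i j) w + ε * mink (P.p (i + 1)) w) := by
    rw [Filter.eventually_all_finite hTf]
    intro w _
    by_cases hw : w ∈ L
    · have hc : Continuous (fun ε : ℝ =>
          mink (gpn P i j) w * (mink (gpn P i j) w + ε * mink (P.p (i + 1)) w)) := by fun_prop
      have h0 : 0 < mink (gpn P i j) w * (mink (gpn P i j) w + 0 * mink (P.p (i + 1)) w) := by
        rw [zero_mul, add_zero]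
        exact lt_of_le_of_ne (mul_self_nonneg _)
          (mul_ne_zero (C.Bd1_ne h1 h2 w hw) (C.Bd1_ne h1 h2 w hw)).symm
      have h3 := hc.continuousAt.eventually (Ioi_mem_nhds h0)
      filter_upwards [mem_nhdsWithin_of_mem_nhds h3] with ε hε _
      exact hε
    · exact Eventually.of_forall fun ε h => absurd h hw
  obtain ⟨ε, hε, hε0⟩ := (hev.and self_mem_nhdsWithin).exists
  refine ⟨ε, hε0, fun w hw => ?_⟩
  by_cases h3 : mink (gpn P i j) w * mink (P.p (i + 1)) w < 0
  · obtain ⟨l, hl, m, hm, h4⟩ := C.Inn_fin h1 h2 hw h3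
    have h5 : w ∈ T := by
      rw [hT]
      simp only [Set.mem_iUnion]
      exact ⟨l, hl, m, hm, h4⟩
    exact (hε w h5 hw).le
  · have h4 : mink (gpn P i j) w * (mink (gpn P i j) w + ε * mink (P.p (i + 1)) w) =
        mink (gpn P i j) w ^ 2 + ε * (mink (gpn P i j) w * mink (P.p (i + 1)) w) := by ring
    rw [h4]
    have hε0' : (0 : ℝ) < ε := hε0
    have h5 : 0 ≤ mink (gpn P i j) w * mink (P.p (i + 1)) w := not_lt.1 h3
    positivity

theorem Ctx.inner (C : Ctx P u f ς L) (h1 : i + 1 ≤ j) (h2 : j ≤ i + k - 2) :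
    ∃ z ∈ P.region, mink z (P.v i) < 0 ∧ refl3 (P.v i) z ∈ H2 ∧
      (∀ w ∈ L, 0 ≤ mink (gpn P i j) w * mink z w) ∧
      (∀ w ∈ L, 0 ≤ mink (gpn P i j) w * mink (refl3 (P.v i) z) w) := by
  have hk : (4 : ℤ) ≤ k := by exact_mod_cast C.hk
  obtain ⟨ε, hε, hL⟩ := C.Inn_eps h1 h2
  set x := gpn P i j with hx
  set q := P.p (i + 1) with hq
  have hxm : x ∈ H2 := C.gpn_mem h1 h2
  have hqm : q ∈ H2 := P.mem (i + 1)
  have hxs : mink x (P.v i) = 0 := C.gpn_side h1 h2
  have hqs : mink q (P.v i) < 0 := by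
    have := P.neg (i + 1) (i + k) (by omega) (by omega)
    rwa [P.v_per] at this
  set c : Fin 3 → ℝ := x + ε • q with hc
  have hxq := mink_le_neg_one hxm hqm
  have hcc : mink c c < 0 := by
    rw [hc, mink_add_left, mink_add_right, mink_add_right, mink_smul_left, mink_smul_right,
      mink_smul_left, mink_smul_right, mink_comm q x, hxm.1, hqm.1]
    have : ε * mink x q ≤ 0 := mul_nonpos_of_nonneg_of_nonpos hε.le (by linarith)
    nlinarith
  have hc2 : 0 < c 2 := by
    show 0 < x 2 + ε * q 2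
    have := hxm.2
    have := hqm.2
    positivity
  obtain ⟨ht, hzm⟩ := Bd1_norm hcc hc2
  set t := 1 / √(-mink c c) with htdef
  set z := t • c with hz
  have hzw : ∀ w, mink z w = t * (mink x w + ε * mink q w) := by
    intro w
    rw [hz, hc, mink_smul_left, mink_add_left, mink_smul_left]
  have hzv : mink z (P.v i) < 0 := by
    rw [hzw, hxs, zero_add]
    exact mul_neg_of_pos_of_neg ht (mul_neg_of_pos_of_neg hε hqs)
  have hzL : ∀ w ∈ L, 0 ≤ mink x w * mink z w := by
    intro w hw
    have h3 : mink x w * mink z w = t * (mink x w * (mink x w + ε * mink q w)) := by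
      rw [hzw]
      ring
    rw [h3]
    exact mul_nonneg ht.le (hL w hw)
  refine ⟨z, ⟨hzm, fun l => ?_⟩, hzv, ?_, hzL, ?_⟩
  · obtain ⟨s, hs, h3⟩ := C.gpn_pos h1 h2
    have h4 : mink x (P.v l) ≤ 0 := by
      rw [hx, h3, gp, mink_smul_left, mink_add_left]
      have h5 := (P.node_region C.hk C.hn h1 (by omega)).2 l
      have h6 := (P.node_region C.hk C.hn (i := i) (j := j + 1) (by omega) (by omega)).2 l
      exact mul_nonpos_of_nonneg_of_nonpos hs.le (by linarith)
    have h7 : mink q (P.v l) ≤ 0 := by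
      have h8 := (P.node_region C.hk C.hn (i := i + 1) (j := i + 1 + 1) le_rfl (by omega)).2 l
      rwa [P.node_first C.hk] at h8
    rw [hzw]
    refine mul_nonpos_of_nonneg_of_nonpos ht.le ?_
    have := mul_nonpos_of_nonneg_of_nonpos hε.le h7
    linarith
  · refine mem_H2_of_mink hxm ?_ ?_
    · rw [Inn_refl_self _ _ (P.unit i), hzm.1]
    · rw [mink_comm, Inn_refl, refl3, hxs, mul_zero, zero_smul, sub_zero, mink_comm]
      have := mink_le_neg_one hxm hzm
      linarith
  · intro w hw
    have h3 := hzL _ (C.inv w hw i)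
    have h4 : mink x (refl3 (P.v i) w) = mink x w := by
      rw [refl3, mink_sub_right, mink_smul_right, hxs, mul_zero, sub_zero]
    rw [h4] at h3
    rw [Inn_refl]
    exact h3

theorem Ctx.emb_side (C : Ctx P u f ς L) (h1 : i + 1 ≤ j) (h2 : j ≤ i + k - 2) :
    emb f L (gpn P i j) (P.v i) = u i := by
  obtain ⟨z, hz, hzv, hrz, hzL, hrL⟩ := C.inner h1 h2
  obtain ⟨hiso, hfl⟩ := C.emb_flat h1 h2
  set A := emb f L (gpn P i j) with hA
  have e1 : f z = A z := hfl z hz.1 hzL
  have e2 : f (refl3 (P.v i) z) = A (refl3 (P.v i) z) := hfl _ hrz hrL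
  have e3 := C.surf.equiv i z hz.1
  have hch := C.surf.chamber z hz i
  rw [e1] at hch e3
  rw [e2, refl3, refl4, map_sub, map_smul] at e3
  have e4 : (2 * mink z (P.v i)) • A (P.v i) = (2 * ads (A z) (u i)) • u i := by
    have := congrArg (fun y => A z - y) e3
    simpa using this
  set c := mink z (P.v i) with hc
  set d := ads (A z) (u i) with hd
  have e5 : A (P.v i) = (d / c) • u i := by
    have h3 : (2 * c)⁻¹ • ((2 * c) • A (P.v i)) = A (P.v i) := by
      rw [smul_smul, inv_mul_cancel₀ (by linarith : (2 * c) ≠ 0), one_smul]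
    rw [← h3, e4, smul_smul]
    congr 1
    have : c ≠ 0 := hzv.ne
    field_simp
  have h3 := hiso (P.v i) (P.v i)
  rw [P.unit, e5, ads_smul_left, ads_smul_right, C.uunit, mul_one] at h3
  have h4 : 0 ≤ d / c := div_nonneg_of_nonpos hch hzv.le
  have h5 : d / c = 1 := by nlinarith
  rw [e5, h5, one_smul]

end Pool.Agent.Ads89
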