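import Pool.Agent.W_2fbb77_h89.Chain

/-! # MP_2fbb77_gt: averaging of two chains

`hc Q G` is half of the trace of `c = G Q⁻¹`, `yv Q G` the vector of the traceless part of `c / hc`.

`jump`: `G * Bm S * (Q * Bm s)⁻¹ = G * Bm (S - s) * Q⁻¹` and `Bm (S - s) = cosh t + sinh t Xm`, `t = (S-s)/2`; the
terms with `cosh t` cancel and what remains is the polynomial identity (`Ĝ` = adjugate, `c = G Q̂`,
index `0` = half of the trace, arrow = traceless part)
`c₀ * vec(G X Q̂) - (G X Q̂)₀ * vec(c) = (1/2) (det G * vec(Q X Q̂) + det Q * vec(G X Ĝ))`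
(each coordinate by `ring` after writing out the entries; `field_simp`, `linear_combination`). -/

set_option autoImplicit false

noncomputable section

namespace Pool.Agent.Ads89

open Real

/-- Half of the trace of `G Q⁻¹`. -/
def hc (Q G : M2) : ℝ := ((G * Q.adjugate) 0 0 + (G * Q.adjugate) 1 1) / 2

def yv (Q G : M2) : Fin 3 → ℝ :=
  ![(G * Q.adjugate) 1 0 / hc Q G, (G * Q.adjugate) 0 1 / hc Q G,
    ((G * Q.adjugate) 0 0 - (G * Q.adjugate) 1 1) / 2 / hc Q G]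

theorem Jump_Bm (s : ℝ) : Bm s = cosh (s / 2) • (1 : M2) + sinh (s / 2) • Xm := by
  ext i j
  fin_cases i <;> fin_cases j <;> simp [Bm, Xm]

theorem Jump_mat (Q G : M2) (s S : ℝ) : (G * Bm S) * (Q * Bm s).adjugate =
    cosh ((S - s) / 2) • (G * Q.adjugate) + sinh ((S - s) / 2) • (G * Xm * Q.adjugate) := by
  rw [Matrix.adjugate_mul_distrib, adj_Bm, Matrix.mul_assoc G, ← Matrix.mul_assoc (Bm S), Bm_mul,
    ← sub_eq_add_neg, Jump_Bm, Matrix.add_mul, Matrix.mul_add, Matrix.smul_mul, Matrix.smul_mul,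
    Matrix.mul_smul, Matrix.mul_smul, Matrix.one_mul, Matrix.mul_assoc G]

theorem Jump_alg {h k n m x y w : ℝ} (h0 : h ≠ 0) (h1 : x * h + y * k ≠ 0)
    (hw : w = 2 * (h * m - k * n)) :
    (x * n + y * m) / (x * h + y * k) = n / h + 1 / (2 * h * (x * h + y * k)) * y * w := by
  subst hw
  field_simp
  ring

theorem jump {Q G : M2} (hQ : Q.det = 1) (hG : G.det = 1) (s S : ℝ) (h0 : hc Q G ≠ 0)
    (h1 : hc (Q * Bm s) (G * Bm S) ≠ 0) (e : Fin 3) :
    yv (Q * Bm s) (G * Bm S) e = yv Q G e + 1 / (2 * hc Q G * hc (Q * Bm s) (G * Bm S)) *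
      sinh ((S - s) / 2) * (vec (cj Q Xm) e + vec (cj G Xm) e) := by
  obtain ⟨x, hx⟩ : ∃ x, x = cosh ((S - s) / 2) := ⟨_, rfl⟩
  obtain ⟨y, hy⟩ : ∃ y, y = sinh ((S - s) / 2) := ⟨_, rfl⟩
  obtain ⟨k, hk⟩ : ∃ k, k = ((G * Xm * Q.adjugate) 0 0 + (G * Xm * Q.adjugate) 1 1) / 2 := ⟨_, rfl⟩
  have hm := Jump_mat Q G s S
  rw [← hx, ← hy] at hm
  have hme : ∀ i j, ((G * Bm S) * (Q * Bm s).adjugate) i j =
      x * (G * Q.adjugate) i j + y * (G * Xm * Q.adjugate) i j := by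
    intro i j
    rw [hm]
    rfl
  have hh : hc (Q * Bm s) (G * Bm S) = x * hc Q G + y * k := by
    unfold hc
    rw [hme, hme, hk]
    ring
  rw [hh] at h1 ⊢
  rw [← hy]
  have hQ' : Q 0 0 * Q 1 1 - Q 0 1 * Q 1 0 = 1 := by rw [← Matrix.det_fin_two, hQ]
  have hG' : G 0 0 * G 1 1 - G 0 1 * G 1 0 = 1 := by rw [← Matrix.det_fin_two, hG]
  have key0 : vec (cj Q Xm) 0 + vec (cj G Xm) 0 = 2 * (hc Q G * (G * Xm * Q.adjugate) 1 0 -
      k * (G * Q.adjugate) 1 0) := by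
    rw [hk]
    simp only [hc, vec, cj, Xm, Matrix.adjugate_fin_two, Matrix.mul_apply, Fin.sum_univ_two,
      Matrix.of_apply, Matrix.cons_val', Matrix.cons_val_zero, Matrix.cons_val_one,
      Matrix.cons_val, Matrix.cons_val_fin_one]
    linear_combination (-((Q 1 1) ^ 2 - (Q 1 0) ^ 2)) * hG' - ((G 1 1) ^ 2 - (G 1 0) ^ 2) * hQ'
  have key1 : vec (cj Q Xm) 1 + vec (cj G Xm) 1 = 2 * (hc Q G * (G * Xm * Q.adjugate) 0 1 -
      k * (G * Q.adjugate) 0 1) := by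
    rw [hk]
    simp only [hc, vec, cj, Xm, Matrix.adjugate_fin_two, Matrix.mul_apply, Fin.sum_univ_two,
      Matrix.of_apply, Matrix.cons_val', Matrix.cons_val_zero, Matrix.cons_val_one,
      Matrix.cons_val, Matrix.cons_val_fin_one]
    linear_combination (-((Q 0 0) ^ 2 - (Q 0 1) ^ 2)) * hG' - ((G 0 0) ^ 2 - (G 0 1) ^ 2) * hQ'
  have key2 : vec (cj Q Xm) 2 + vec (cj G Xm) 2 = 2 * (hc Q G *
      (((G * Xm * Q.adjugate) 0 0 - (G * Xm * Q.adjugate) 1 1) / 2) -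
      k * (((G * Q.adjugate) 0 0 - (G * Q.adjugate) 1 1) / 2)) := by
    rw [hk]
    simp only [hc, vec, cj, Xm, Matrix.adjugate_fin_two, Matrix.mul_apply, Fin.sum_univ_two,
      Matrix.of_apply, Matrix.cons_val', Matrix.cons_val_zero, Matrix.cons_val_one,
      Matrix.cons_val, Matrix.cons_val_fin_one]
    linear_combination (-(Q 0 1 * Q 1 1 - Q 0 0 * Q 1 0)) * hG' - (G 0 1 * G 1 1 - G 0 0 * G 1 0) * hQ'
  fin_cases e
  · have h2 := Jump_alg (n := (G * Q.adjugate) 1 0) (m := (G * Xm * Q.adjugate) 1 0) h0 h1 key0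
    show ((G * Bm S) * (Q * Bm s).adjugate) 1 0 / hc (Q * Bm s) (G * Bm S) = _
    rw [hh, hme]
    exact h2
  · have h2 := Jump_alg (n := (G * Q.adjugate) 0 1) (m := (G * Xm * Q.adjugate) 0 1) h0 h1 key1
    show ((G * Bm S) * (Q * Bm s).adjugate) 0 1 / hc (Q * Bm s) (G * Bm S) = _
    rw [hh, hme]
    exact h2
  · have h2 := Jump_alg (n := ((G * Q.adjugate) 0 0 - (G * Q.adjugate) 1 1) / 2)
      (m := ((G * Xm * Q.adjugate) 0 0 - (G * Xm * Q.adjugate) 1 1) / 2) h0 h1 key2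
    show (((G * Bm S) * (Q * Bm s).adjugate) 0 0 - ((G * Bm S) * (Q * Bm s).adjugate) 1 1) / 2 /
      hc (Q * Bm s) (G * Bm S) = _
    rw [hh, hme, hme]
    refine Eq.trans ?_ h2
    congr 1
    ring

end Pool.Agent.Ads89
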