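import Pool.Agent.W_2fbb77_h89.Mat

/-! # MP_2fbb77_gt: the decomposition `R(t₁) H(D) R(-t₂)`

`kak`.  Let `M = Pf l s m = !![a, b; c, d]`.  (1) All entries of `Pc l s n`, `Pf l s m` are `≥ 0`, and `a, d > 0`
(induction; multiplication by `Hm`, `Bm`).
(2) `a² + b² > c² + d²` (rows): for a product `N = Bm s * ...` or by induction from the LEFT; easier: the
quantity `q(N) = (a² + b²) - (c² + d²) = tr (Dm * N * Nᵀ)` satisfies `q (Bm s * N) = q N` and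
`q (Hm l * N) = e^l (a² + b²) - e^{-l} (c² + d²) > q N` if `q N ≥ 0`, `l > 0` (`a² + b² > 0`).  Write the product
from the left: for the shifted sequences, `Pf l s (m+1) = Hm (l 0) * Bm (s 0) * Pf (l ∘ succ) (s ∘ succ) m` (prove
this first, by induction on `m`), and do induction on `m` for all `l, s`.
(3) `a² + c² > b² + d²` (columns), in the same way from the right: `Pf l s (m+1) = Pc l s m * Hm (l m) * Bm (s m)
* Hm (l (m+1))`; `q'(N) = (a² + c²) - (b² + d²)` has `q' (N * Bm s) = q' N`, `q' (N * Hm l) > q' N` if `q' N ≥ 0`.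
(4) Put `u = (a + d) + i (c - b)`, `v = (a - d) + i (c + b)`; `|u|² - |v|² = 4`, `v ≠ 0` by (2).
`D = 2 arsinh (|v| / 2)`, so `|u| = 2 cosh (D/2)`, `|v| = 2 sinh (D/2)`, `φ = Complex.arg u`, `ψ = Complex.arg v`,
`t₁ = ψ + φ`, `t₂ = ψ - φ`.  Then `M = R(t₁) H(D) R(-t₂)`: the entries of the right side are (with
`C = cosh (D/2)`, `S = sinh (D/2)`, `e^{± D/2} = C ± S`)
`a = C cos((t₁-t₂)/2) + S cos((t₁+t₂)/2)`, `d = C cos((t₁-t₂)/2) - S cos((t₁+t₂)/2)`,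
`c = C sin((t₁-t₂)/2) + S sin((t₁+t₂)/2)`, `b = -C sin((t₁-t₂)/2) + S sin((t₁+t₂)/2)`, and `(t₁-t₂)/2 = φ`,
`(t₁+t₂)/2 = ψ`.
(5) Range.  `(a² + b²) - (c² + d²) = 2 sinh D cos t₁`, `2 (a c + b d) = 2 sinh D sin t₁`,
`(a² + c²) - (b² + d²) = 2 sinh D cos t₂`, `2 (a b + c d) = 2 sinh D sin t₂`.  So `cos t₁ > 0`, `sin t₁ ≥ 0`,
`cos t₂ > 0`, `sin t₂ ≥ 0`.  `φ ∈ (-π/2, π/2)` (as `a + d > 0`), `ψ ∈ (-π, π]`, and `c + b ≥ 0` gives
`ψ ∈ [0, π]`.  `t₁, t₂ ∈ (-π/2, 3π/2)`, `cos > 0` and `sin ≥ 0` give `t₁, t₂ ∈ [0, π/2)`. -/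

set_option autoImplicit false

noncomputable section

namespace Pool.Agent.Ads89

open Real

/-- rows: `|r₀|² - |r₁|²` -/
private def qr (N : M2) : ℝ := (N 0 0 ^ 2 + N 0 1 ^ 2) - (N 1 0 ^ 2 + N 1 1 ^ 2)

/-- columns -/
private def qc (N : M2) : ℝ := (N 0 0 ^ 2 + N 1 0 ^ 2) - (N 0 1 ^ 2 + N 1 1 ^ 2)

private def NN (N : M2) : Prop := 0 < N 0 0 ∧ 0 ≤ N 0 1 ∧ 0 ≤ N 1 0 ∧ 0 < N 1 1

private theorem NN.H {E : M2} (h : NN E) (x : ℝ) : NN (E * Hm x) := by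
  obtain ⟨h1, h2, h3, h4⟩ := h
  have e1 : 0 < exp (x / 2) := exp_pos _
  have e2 : 0 < exp (-(x / 2)) := exp_pos _
  unfold NN
  have a0 : (E * Hm x) 0 0 = E 0 0 * exp (x / 2) := by
    simp [Hm, Matrix.mul_apply, Fin.sum_univ_two]
  have a1 : (E * Hm x) 0 1 = E 0 1 * exp (-(x / 2)) := by
    simp [Hm, Matrix.mul_apply, Fin.sum_univ_two]
  have a2 : (E * Hm x) 1 0 = E 1 0 * exp (x / 2) := by
    simp [Hm, Matrix.mul_apply, Fin.sum_univ_two]
  have a3 : (E * Hm x) 1 1 = E 1 1 * exp (-(x / 2)) := by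
    simp [Hm, Matrix.mul_apply, Fin.sum_univ_two]
  rw [a0, a1, a2, a3]
  exact ⟨by positivity, by positivity, by positivity, by positivity⟩

private theorem NN.B {E : M2} (h : NN E) {x : ℝ} (hx : 0 ≤ x) : NN (E * Bm x) := by
  obtain ⟨h1, h2, h3, h4⟩ := h
  have e1 : 0 ≤ sinh (x / 2) := sinh_nonneg_iff.2 (by linarith)
  have e2 : 0 < cosh (x / 2) := cosh_pos _
  unfold NN
  have a0 : (E * Bm x) 0 0 = E 0 0 * cosh (x / 2) + E 0 1 * sinh (x / 2) := by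
    simp [Bm, Matrix.mul_apply, Fin.sum_univ_two]
  have a1 : (E * Bm x) 0 1 = E 0 0 * sinh (x / 2) + E 0 1 * cosh (x / 2) := by
    simp [Bm, Matrix.mul_apply, Fin.sum_univ_two]
  have a2 : (E * Bm x) 1 0 = E 1 0 * cosh (x / 2) + E 1 1 * sinh (x / 2) := by
    simp [Bm, Matrix.mul_apply, Fin.sum_univ_two]
  have a3 : (E * Bm x) 1 1 = E 1 0 * sinh (x / 2) + E 1 1 * cosh (x / 2) := by
    simp [Bm, Matrix.mul_apply, Fin.sum_univ_two]
  rw [a0, a1, a2, a3]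
  exact ⟨by positivity, by positivity, by positivity, by positivity⟩

private theorem NN_Pc (l s : ℕ → ℝ) : ∀ n, (∀ k < n, 0 ≤ s k) → NN (Pc l s n) := by
  intro n
  induction n with
  | zero =>
    intro _
    simp [Pc, NN]
  | succ n ih =>
    intro hs
    exact ((ih fun k hk => hs k (by omega)).H _).B (hs n (by omega))

private theorem Pf_succ_left (l s : ℕ → ℝ) (m : ℕ) : Pf l s (m + 1) =
    Hm (l 0) * Bm (s 0) * Pf (fun n => l (n + 1)) (fun n => s (n + 1)) m := by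
  have h : ∀ m, Pc l s (m + 1) =
      Hm (l 0) * Bm (s 0) * Pc (fun n => l (n + 1)) (fun n => s (n + 1)) m := by
    intro m
    induction m with
    | zero => simp [Pc]
    | succ m ih =>
      rw [Pc, ih]
      show _ = Hm (l 0) * Bm (s 0) *
        (Pc (fun n => l (n + 1)) (fun n => s (n + 1)) m * Hm (l (m + 1)) * Bm (s (m + 1)))
      simp only [Matrix.mul_assoc]
  rw [Pf, h, Pf, Matrix.mul_assoc]

private theorem qr_Bm (x : ℝ) (N : M2) : qr (Bm x * N) = qr N := by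
  have h := cosh_sq (x / 2)
  unfold qr
  have a0 : (Bm x * N) 0 0 = cosh (x / 2) * N 0 0 + sinh (x / 2) * N 1 0 := by
    simp [Bm, Matrix.mul_apply, Fin.sum_univ_two]
  have a1 : (Bm x * N) 0 1 = cosh (x / 2) * N 0 1 + sinh (x / 2) * N 1 1 := by
    simp [Bm, Matrix.mul_apply, Fin.sum_univ_two]
  have a2 : (Bm x * N) 1 0 = sinh (x / 2) * N 0 0 + cosh (x / 2) * N 1 0 := by
    simp [Bm, Matrix.mul_apply, Fin.sum_univ_two]
  have a3 : (Bm x * N) 1 1 = sinh (x / 2) * N 0 1 + cosh (x / 2) * N 1 1 := by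
    simp [Bm, Matrix.mul_apply, Fin.sum_univ_two]
  rw [a0, a1, a2, a3]
  linear_combination ((N 0 0 ^ 2 + N 0 1 ^ 2) - (N 1 0 ^ 2 + N 1 1 ^ 2)) * h

private theorem qc_Bm (x : ℝ) (N : M2) : qc (N * Bm x) = qc N := by
  have h := cosh_sq (x / 2)
  unfold qc
  have a0 : (N * Bm x) 0 0 = N 0 0 * cosh (x / 2) + N 0 1 * sinh (x / 2) := by
    simp [Bm, Matrix.mul_apply, Fin.sum_univ_two]
  have a1 : (N * Bm x) 0 1 = N 0 0 * sinh (x / 2) + N 0 1 * cosh (x / 2) := by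
    simp [Bm, Matrix.mul_apply, Fin.sum_univ_two]
  have a2 : (N * Bm x) 1 0 = N 1 0 * cosh (x / 2) + N 1 1 * sinh (x / 2) := by
    simp [Bm, Matrix.mul_apply, Fin.sum_univ_two]
  have a3 : (N * Bm x) 1 1 = N 1 0 * sinh (x / 2) + N 1 1 * cosh (x / 2) := by
    simp [Bm, Matrix.mul_apply, Fin.sum_univ_two]
  rw [a0, a1, a2, a3]
  linear_combination ((N 0 0 ^ 2 + N 1 0 ^ 2) - (N 0 1 ^ 2 + N 1 1 ^ 2)) * h

private theorem qr_Hm {x : ℝ} (hx : 0 < x) {N : M2} (h : 0 < qr N) : 0 < qr (Hm x * N) := by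
  have e1 : 1 ≤ exp (x / 2) := one_le_exp (by linarith)
  have e2 : exp (-(x / 2)) ≤ 1 := exp_le_one_iff.2 (by linarith)
  have e3 : 0 < exp (-(x / 2)) := exp_pos _
  unfold qr at h ⊢
  have a0 : (Hm x * N) 0 0 = exp (x / 2) * N 0 0 := by
    simp [Hm, Matrix.mul_apply, Fin.sum_univ_two]
  have a1 : (Hm x * N) 0 1 = exp (x / 2) * N 0 1 := by
    simp [Hm, Matrix.mul_apply, Fin.sum_univ_two]
  have a2 : (Hm x * N) 1 0 = exp (-(x / 2)) * N 1 0 := by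
    simp [Hm, Matrix.mul_apply, Fin.sum_univ_two]
  have a3 : (Hm x * N) 1 1 = exp (-(x / 2)) * N 1 1 := by
    simp [Hm, Matrix.mul_apply, Fin.sum_univ_two]
  rw [a0, a1, a2, a3]
  have f1 : 1 ≤ exp (x / 2) ^ 2 := one_le_pow₀ e1
  have f2 : exp (-(x / 2)) ^ 2 ≤ 1 := pow_le_one₀ e3.le e2
  nlinarith [sq_nonneg (N 0 0), sq_nonneg (N 0 1), sq_nonneg (N 1 0), sq_nonneg (N 1 1),
    mul_nonneg (sub_nonneg.2 f1) (add_nonneg (sq_nonneg (N 0 0)) (sq_nonneg (N 0 1))),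
    mul_nonneg (sub_nonneg.2 f2) (add_nonneg (sq_nonneg (N 1 0)) (sq_nonneg (N 1 1)))]

private theorem qc_Hm {x : ℝ} (hx : 0 < x) {N : M2} (h : 0 < qc N) : 0 < qc (N * Hm x) := by
  have e1 : 1 ≤ exp (x / 2) := one_le_exp (by linarith)
  have e2 : exp (-(x / 2)) ≤ 1 := exp_le_one_iff.2 (by linarith)
  have e3 : 0 < exp (-(x / 2)) := exp_pos _
  unfold qc at h ⊢
  have a0 : (N * Hm x) 0 0 = N 0 0 * exp (x / 2) := by
    simp [Hm, Matrix.mul_apply, Fin.sum_univ_two]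
  have a1 : (N * Hm x) 0 1 = N 0 1 * exp (-(x / 2)) := by
    simp [Hm, Matrix.mul_apply, Fin.sum_univ_two]
  have a2 : (N * Hm x) 1 0 = N 1 0 * exp (x / 2) := by
    simp [Hm, Matrix.mul_apply, Fin.sum_univ_two]
  have a3 : (N * Hm x) 1 1 = N 1 1 * exp (-(x / 2)) := by
    simp [Hm, Matrix.mul_apply, Fin.sum_univ_two]
  rw [a0, a1, a2, a3]
  have f1 : 1 ≤ exp (x / 2) ^ 2 := one_le_pow₀ e1
  have f2 : exp (-(x / 2)) ^ 2 ≤ 1 := pow_le_one₀ e3.le e2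
  nlinarith [mul_nonneg (sub_nonneg.2 f1) (add_nonneg (sq_nonneg (N 0 0)) (sq_nonneg (N 1 0))),
    mul_nonneg (sub_nonneg.2 f2) (add_nonneg (sq_nonneg (N 0 1)) (sq_nonneg (N 1 1)))]

private theorem q_base {x : ℝ} (hx : 0 < x) : 0 < qr (Hm x) ∧ 0 < qc (Hm x) := by
  have e1 : 1 < exp (x / 2) := one_lt_exp_iff.2 (by linarith)
  have e2 : exp (-(x / 2)) < 1 := by rw [exp_lt_one_iff]; linarith
  have e3 : 0 < exp (-(x / 2)) := exp_pos _
  have h1 : qr (Hm x) = exp (x / 2) ^ 2 - exp (-(x / 2)) ^ 2 := by simp [qr, Hm]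
  have h2 : qc (Hm x) = exp (x / 2) ^ 2 - exp (-(x / 2)) ^ 2 := by simp [qc, Hm]
  rw [h1, h2]
  have : 0 < exp (x / 2) ^ 2 - exp (-(x / 2)) ^ 2 := by nlinarith
  exact ⟨this, this⟩

private theorem qr_Pf : ∀ (m : ℕ) (l s : ℕ → ℝ), (∀ n ≤ m, 0 < l n) → 0 < qr (Pf l s m) := by
  intro m
  induction m with
  | zero =>
    intro l s hl
    have : Pf l s 0 = Hm (l 0) := by simp [Pf, Pc]
    rw [this]
    exact (q_base (hl 0 le_rfl)).1
  | succ m ih =>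
    intro l s hl
    rw [Pf_succ_left, Matrix.mul_assoc]
    refine qr_Hm (hl 0 (by omega)) ?_
    rw [qr_Bm]
    exact ih _ _ fun n hn => hl (n + 1) (by omega)

private theorem qc_Pf (l s : ℕ → ℝ) : ∀ m : ℕ, (∀ n ≤ m, 0 < l n) → 0 < qc (Pf l s m) := by
  intro m
  induction m with
  | zero =>
    intro hl
    have : Pf l s 0 = Hm (l 0) := by simp [Pf, Pc]
    rw [this]
    exact (q_base (hl 0 le_rfl)).2
  | succ m ih =>
    intro hl
    have : Pf l s (m + 1) = Pf l s m * Bm (s m) * Hm (l (m + 1)) := rfl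
    rw [this]
    refine qc_Hm (hl (m + 1) le_rfl) ?_
    rw [qc_Bm]
    exact ih fun n hn => hl n (by omega)

private theorem range_aux {t : ℝ} (h1 : -(π / 2) < t) (h2 : t < 3 * π / 2) (hc : 0 < cos t)
    (hs : 0 ≤ sin t) : 0 ≤ t ∧ t < π / 2 := by
  constructor
  · by_contra h
    push Not at h
    have : sin t < 0 := sin_neg_of_neg_of_neg_pi_lt h (by linarith [pi_pos])
    linarith
  · by_contra h
    push Not at h
    have : cos t ≤ 0 := cos_nonpos_of_pi_div_two_le_of_le h (by linarith)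
    linarith

theorem kak (l s : ℕ → ℝ) (m : ℕ) (hl : ∀ n ≤ m, 0 < l n) (hs : ∀ n < m, 0 ≤ s n) :
    ∃ t₁ t₂ D : ℝ, 0 ≤ t₁ ∧ t₁ < π / 2 ∧ 0 ≤ t₂ ∧ t₂ < π / 2 ∧ 0 < D ∧
      Pf l s m = Rm t₁ * Hm D * Rm (-t₂) := by
  have hdet := det_Pf l s m
  have hqr := qr_Pf m l s hl
  have hqc := qc_Pf l s m hl
  obtain ⟨ha, hb, hc, hd⟩ : NN (Pf l s m) := (NN_Pc l s m hs).H _
  rw [Matrix.det_fin_two] at hdet
  unfold qr at hqr
  unfold qc at hqc
  set M := Pf l s m with hM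
  set a := M 0 0 with haa
  set b := M 0 1 with hbb
  set c := M 1 0 with hcc
  set d := M 1 1 with hdd
  set u : ℂ := ⟨a + d, c - b⟩ with hu
  set v : ℂ := ⟨a - d, c + b⟩ with hv
  have hu2 : ‖u‖ ^ 2 = (a + d) ^ 2 + (c - b) ^ 2 := by
    rw [← Complex.normSq_eq_norm_sq, Complex.normSq_apply, hu]
    ring
  have hv2 : ‖v‖ ^ 2 = (a - d) ^ 2 + (c + b) ^ 2 := by
    rw [← Complex.normSq_eq_norm_sq, Complex.normSq_apply, hv]
    ring
  have hv0 : 0 < ‖v‖ := by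
    by_contra h
    have h1 : ‖v‖ = 0 := le_antisymm (not_lt.1 h) (norm_nonneg _)
    rw [h1] at hv2
    have h2 : (a - d) ^ 2 = 0 := by nlinarith [sq_nonneg (a - d), sq_nonneg (c + b)]
    have h3 : (c + b) ^ 2 = 0 := by nlinarith [sq_nonneg (a - d), sq_nonneg (c + b)]
    have h4 : a = d := by
      have := pow_eq_zero_iff (two_ne_zero) |>.1 h2
      linarith
    have h5 : c = -b := by
      have := pow_eq_zero_iff (two_ne_zero) |>.1 h3
      linarith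
    rw [h4, h5] at hqr
    nlinarith
  have hu0 : 0 < ‖u‖ := by
    refine norm_pos_iff.2 fun h => ?_
    have h1 : a + d = 0 := congrArg Complex.re h
    linarith
  set φ := Complex.arg u with hφ
  set ψ := Complex.arg v with hψ
  have ku1 : ‖u‖ * cos φ = a + d := Complex.norm_mul_cos_arg u
  have ku2 : ‖u‖ * sin φ = c - b := Complex.norm_mul_sin_arg u
  have kv1 : ‖v‖ * cos ψ = a - d := Complex.norm_mul_cos_arg v
  have kv2 : ‖v‖ * sin ψ = c + b := Complex.norm_mul_sin_arg v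
  set D := 2 * arsinh (‖v‖ / 2) with hD
  have hD2 : D / 2 = arsinh (‖v‖ / 2) := by rw [hD]; ring
  have hsh : sinh (D / 2) = ‖v‖ / 2 := by rw [hD2, sinh_arsinh]
  have hch : cosh (D / 2) = ‖u‖ / 2 := by
    have h1 := cosh_sq (D / 2)
    rw [hsh] at h1
    have h2 : cosh (D / 2) ^ 2 = (‖u‖ / 2) ^ 2 := by
      rw [h1, div_pow, div_pow, hu2, hv2]
      nlinarith
    exact (sq_eq_sq₀ (cosh_pos _).le (by positivity)).1 h2
  have hE : exp (D / 2) = (‖u‖ + ‖v‖) / 2 := by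
    rw [← cosh_add_sinh, hsh, hch]; ring
  have hE' : exp (-(D / 2)) = (‖u‖ - ‖v‖) / 2 := by
    rw [← cosh_sub_sinh, hsh, hch]; ring
  have hDpos : 0 < D := by
    have h1 : 0 < arsinh (‖v‖ / 2) := arsinh_pos_iff.2 (by positivity)
    rw [hD]; linarith
  set x := (ψ + φ) / 2 with hx
  set y := (ψ - φ) / 2 with hy
  have hφ' : φ = x - y := by rw [hx, hy]; ring
  have hψ' : ψ = x + y := by rw [hx, hy]; ring
  have k1 : ‖u‖ * (cos x * cos y + sin x * sin y) = a + d := by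
    rw [← ku1, hφ', cos_sub]
  have k2 : ‖u‖ * (sin x * cos y - cos x * sin y) = c - b := by
    rw [← ku2, hφ', sin_sub]
  have k3 : ‖v‖ * (cos x * cos y - sin x * sin y) = a - d := by
    rw [← kv1, hψ', cos_add]
  have k4 : ‖v‖ * (sin x * cos y + cos x * sin y) = c + b := by
    rw [← kv2, hψ', sin_add]
  have hmat : M = Rm (ψ + φ) * Hm D * Rm (-(ψ - φ)) := by
    have m00 : (Rm (ψ + φ) * Hm D * Rm (-(ψ - φ))) 0 0 =
        cos x * exp (D / 2) * cos y + sin x * exp (-(D / 2)) * sin y := by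
      simp [Rm, Hm, Matrix.mul_apply, Fin.sum_univ_two, neg_div, hx, hy,
        ← neg_sub ψ φ, -neg_sub]
    have m01 : (Rm (ψ + φ) * Hm D * Rm (-(ψ - φ))) 0 1 =
        cos x * exp (D / 2) * sin y - sin x * exp (-(D / 2)) * cos y := by
      simp [Rm, Hm, Matrix.mul_apply, Fin.sum_univ_two, neg_div, hx, hy,
        ← neg_sub ψ φ, -neg_sub]
      ring
    have m10 : (Rm (ψ + φ) * Hm D * Rm (-(ψ - φ))) 1 0 =
        sin x * exp (D / 2) * cos y - cos x * exp (-(D / 2)) * sin y := by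
      simp [Rm, Hm, Matrix.mul_apply, Fin.sum_univ_two, neg_div, hx, hy,
        ← neg_sub ψ φ, -neg_sub]
      ring
    have m11 : (Rm (ψ + φ) * Hm D * Rm (-(ψ - φ))) 1 1 =
        sin x * exp (D / 2) * sin y + cos x * exp (-(D / 2)) * cos y := by
      simp [Rm, Hm, Matrix.mul_apply, Fin.sum_univ_two, neg_div, hx, hy,
        ← neg_sub ψ φ, -neg_sub]
    ext i j
    fin_cases i <;> fin_cases j
    · show a = (Rm (ψ + φ) * Hm D * Rm (-(ψ - φ))) 0 0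
      rw [m00, hE, hE']
      linear_combination -(k1 + k3) / 2
    · show b = (Rm (ψ + φ) * Hm D * Rm (-(ψ - φ))) 0 1
      rw [m01, hE, hE']
      linear_combination (k2 - k4) / 2
    · show c = (Rm (ψ + φ) * Hm D * Rm (-(ψ - φ))) 1 0
      rw [m10, hE, hE']
      linear_combination -(k2 + k4) / 2
    · show d = (Rm (ψ + φ) * Hm D * Rm (-(ψ - φ))) 1 1
      rw [m11, hE, hE']
      linear_combination -(k1 - k3) / 2
  have hφr : -(π / 2) < φ ∧ φ < π / 2 := by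
    have h1 : |Complex.arg u| < π / 2 := by
      rw [Complex.abs_arg_lt_pi_div_two_iff]
      left
      show 0 < a + d
      linarith
    exact abs_lt.1 h1
  have hψr : 0 ≤ ψ ∧ ψ ≤ π := by
    refine ⟨Complex.arg_nonneg_iff.2 ?_, Complex.arg_le_pi v⟩
    show 0 ≤ c + b
    linarith
  have huv : 0 < ‖u‖ * ‖v‖ := mul_pos hu0 hv0
  have c1 : 0 < cos (ψ + φ) := by
    have h1 : ‖u‖ * ‖v‖ * cos (ψ + φ) = (a - d) * (a + d) - (c + b) * (c - b) := by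
      rw [← ku1, ← ku2, ← kv1, ← kv2, cos_add]; ring
    have h2 : 0 < ‖u‖ * ‖v‖ * cos (ψ + φ) := by rw [h1]; nlinarith
    exact (mul_pos_iff_of_pos_left huv).1 h2
  have s1 : 0 ≤ sin (ψ + φ) := by
    have h1 : ‖u‖ * ‖v‖ * sin (ψ + φ) = (c + b) * (a + d) + (a - d) * (c - b) := by
      rw [← ku1, ← ku2, ← kv1, ← kv2, sin_add]; ring
    have h2 : 0 ≤ ‖u‖ * ‖v‖ * sin (ψ + φ) := by
      rw [h1]; nlinarith [mul_nonneg ha.le hc, mul_nonneg hb hd.le]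
    exact (mul_nonneg_iff_of_pos_left huv).1 h2
  have c2 : 0 < cos (ψ - φ) := by
    have h1 : ‖u‖ * ‖v‖ * cos (ψ - φ) = (a - d) * (a + d) + (c + b) * (c - b) := by
      rw [← ku1, ← ku2, ← kv1, ← kv2, cos_sub]; ring
    have h2 : 0 < ‖u‖ * ‖v‖ * cos (ψ - φ) := by rw [h1]; nlinarith
    exact (mul_pos_iff_of_pos_left huv).1 h2
  have s2 : 0 ≤ sin (ψ - φ) := by
    have h1 : ‖u‖ * ‖v‖ * sin (ψ - φ) = (c + b) * (a + d) - (a - d) * (c - b) := by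
      rw [← ku1, ← ku2, ← kv1, ← kv2, sin_sub]; ring
    have h2 : 0 ≤ ‖u‖ * ‖v‖ * sin (ψ - φ) := by
      rw [h1]; nlinarith [mul_nonneg hc hd.le, mul_nonneg ha.le hb]
    exact (mul_nonneg_iff_of_pos_left huv).1 h2
  have r1 := range_aux (t := ψ + φ) (by linarith [hψr.1, hφr.1]) (by linarith [hψr.2, hφr.2]) c1 s1
  have r2 := range_aux (t := ψ - φ) (by linarith [hψr.1, hφr.2]) (by linarith [hψr.2, hφr.1]) c2 s2
  exact ⟨ψ + φ, ψ - φ, D, r1.1, r1.2, r2.1, r2.2, hDpos, hmat⟩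

end Pool.Agent.Ads89
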