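import Pool.Agent.W_2fbb77_h89.Poly2

/-! # MP_2fbb77_gt: the geodesics of the bending lamination that meet the polygon

`LF P L`: `L` is a set of (unit normals of) pairwise equal or disjoint geodesics, invariant under the reflections
in the sides of `P`.  Let `w ∈ L`, `φ i = mink (p i) w`, `c i = mink w (v i)`.

`dich`: `refl3 (v i) w ∈ L`: if it is `w` or `-w` then `c i = 0` or `w = c i • v i`, `c i ^ 2 = 1`; otherwise
`1 ≤ |1 - 2 (c i)²|`, so `c i = 0` or `1 ≤ |c i|`.

`vertex_ne`: suppose `φ i = 0`.  `w, v i, v (i+1)` are unit vectors orthogonal to `p i ∈ H2`.  By `orth_unit` and `dich`: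
`c i = 0` or `w = ± v i`; `c (i+1) = 0` or `w = ± v (i+1)`.  `w = ± v i` gives `|c (i+1)| = |g| ∈ [1/2, 1)`,
contradiction to `dich`; the same for `w = ± v (i+1)`.  So `w` is orthogonal to `v i`, `v (i+1)`, `p i`, which are
independent (`det3_frame` or `vert`), and `w = 0` (`eq_zero_of_orth`), contradiction to `mink w w = 1`.

`cross_side`: if `φ (i-1) * φ i < 0` then `c i = 0`: `y = φ i • p (i-1) - φ (i-1) • p i` (or its negative) is a positive
combination of points of `H2`, so a positive multiple of a point `y' ∈ H2`, orthogonal to `w` and `v i`; by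
`orth_unit`, `|c i| < 1` (and `c i = 0` by `dich`) or `w = ± v i`, but then `φ i = 0`, contradiction.

`node_comb`: in the plane `(v i)^⊥`, with `a = p i = node i (i+1)`, `b = p (i-1) = node i (i+k-1)`, for `x` orthogonal to
`v i`: `det3 (v i) a b • x = det3 (v i) x b • a + det3 (v i) a x • b`; `det3 (v i) (node i j) y = mink (tau i j) y`, so
all coefficients are `≥ 0` by `order`, `tau_node`. -/

set_option autoImplicit false

noncomputable section

namespace Pool.Agent.Ads89

variable {k : ℕ} {n : ℤ → ℕ}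

structure LF (P : Polygon k n) (L : Set (Fin 3 → ℝ)) : Prop where
  unit : ∀ w ∈ L, mink w w = 1
  neg_mem : ∀ w ∈ L, -w ∈ L
  disj : ∀ w ∈ L, ∀ w' ∈ L, w' = w ∨ w' = -w ∨ 1 ≤ |mink w w'|
  refl_mem : ∀ w ∈ L, ∀ i : ℤ, refl3 (P.v i) w ∈ L

variable {P : Polygon k n} {L : Set (Fin 3 → ℝ)} {w : Fin 3 → ℝ} {i j l m : ℤ}

theorem LF.dich (H : LF P L) (hw : w ∈ L) (i : ℤ) :
    mink w (P.v i) = 0 ∨ 1 ≤ |mink w (P.v i)| := by
  have hw' := H.refl_mem w hw i
  have e1 : mink (refl3 (P.v i) w) (P.v i) = -mink w (P.v i) := by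
    rw [refl3, mink_sub_left, mink_smul_left, P.unit]; ring
  have e2 : mink w (refl3 (P.v i) w) = 1 - 2 * mink w (P.v i) ^ 2 := by
    rw [refl3, mink_sub_right, mink_smul_right, H.unit w hw]; ring
  rcases H.disj w hw _ hw' with h | h | h
  · left
    rw [h] at e1
    linarith
  · right
    rw [h, mink_neg_right, H.unit w hw] at e2
    have h3 : mink w (P.v i) ^ 2 = 1 := by linarith
    rw [← sq_le_sq₀ (by norm_num) (abs_nonneg _), sq_abs, h3]
    norm_num
  · rw [e2] at h
    rw [← sq_le_sq₀ (by norm_num) (abs_nonneg _), sq_abs] at h ⊢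
    by_cases h0 : mink w (P.v i) = 0
    · exact Or.inl h0
    · right
      have : 0 < mink w (P.v i) ^ 2 := by positivity
      nlinarith

theorem LF.vertex_ne (hk : 4 ≤ k) (hn : ∀ i : ℤ, 3 ≤ n i) (H : LF P L) (hw : w ∈ L) (i : ℤ) :
    mink (P.p i) w ≠ 0 := by
  intro h
  have hg := P.g_adj hn i
  have hgabs : |mink (P.v i) (P.v (i + 1))| < 1 ∧ mink (P.v i) (P.v (i + 1)) ≠ 0 := by
    refine ⟨?_, ?_⟩
    · rw [abs_lt]; constructor <;> linarith [hg.1, hg.2]
    · intro h0; rw [h0] at hg; linarith [hg.2]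
  have c1 : mink w (P.v i) = 0 := by
    rcases orth_unit (P.mem i) h (P.inc i) (H.unit w hw) (P.unit i) with h1 | h1
    · rcases H.dich hw i with h2 | h2
      · exact h2
      · linarith
    · exfalso
      rcases H.dich hw (i + 1) with h2 | h2 <;> rcases h1 with h1 | h1 <;> rw [h1] at h2
      · exact hgabs.2 h2
      · rw [mink_neg_left] at h2; exact hgabs.2 (by linarith)
      · linarith [hgabs.1]
      · rw [mink_neg_left, abs_neg] at h2; linarith [hgabs.1]
  have c2 : mink w (P.v (i + 1)) = 0 := by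
    rcases orth_unit (P.mem i) h (P.inc' i) (H.unit w hw) (P.unit (i + 1)) with h1 | h1
    · rcases H.dich hw (i + 1) with h2 | h2
      · exact h2
      · linarith
    · exfalso
      rcases H.dich hw i with h2 | h2 <;> rcases h1 with h1 | h1 <;> rw [h1] at h2
      · rw [mink_comm] at h2; exact hgabs.2 h2
      · rw [mink_neg_left, mink_comm] at h2; exact hgabs.2 (by linarith)
      · rw [mink_comm] at h2; linarith [hgabs.1]
      · rw [mink_neg_left, abs_neg, mink_comm] at h2; linarith [hgabs.1]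
  have hk' : (4 : ℤ) ≤ k := by exact_mod_cast hk
  have hdet := P.det3_frame hk hn (show i + 1 ≤ i + 1 by omega) (show i + 1 ≤ i + k - 1 by omega)
  have hw0 : w = 0 := by
    apply eq_zero_of_orth (a := P.v i) (b := P.node i (i + 1)) (c := P.tau i (i + 1))
    · rw [hdet]; norm_num
    · exact c1
    · rw [P.node_first hk, mink_comm]; exact h
    · rw [P.tau_first hk hn, mink_smul_right, mink_sub_right, mink_smul_right, c1, c2]; ring
  have := H.unit w hw
  rw [hw0] at this
  simp [mink] at this

theorem LF.cross_side (hk : 4 ≤ k) (hn : ∀ i : ℤ, 3 ≤ n i) (H : LF P L) (hw : w ∈ L)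
    (h : mink (P.p (i - 1)) w * mink (P.p i) w < 0) : mink w (P.v i) = 0 := by
  have gen : ∀ a b : ℝ, 0 < a → 0 < b → a * mink (P.p (i - 1)) w + b * mink (P.p i) w = 0 →
      mink w (P.v i) = 0 := by
    intro a b ha hb hab
    have hm := mink_le_neg_one (P.mem i) (P.mem (i - 1))
    have q1 : mink (P.p (i - 1)) (P.p (i - 1)) = -1 := (P.mem (i - 1)).1
    have q2 : mink (P.p i) (P.p i) = -1 := (P.mem i).1
    have hinc := P.inc' (i - 1)
    rw [sub_add_cancel] at hinc
    set y : Fin 3 → ℝ := a • P.p (i - 1) + b • P.p i with hy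
    have y1 : mink y y < 0 := by
      simp only [hy, mink_add_left, mink_add_right, mink_smul_left, mink_smul_right, q1, q2,
        mink_comm (P.p (i - 1)) (P.p i)]
      nlinarith [mul_pos ha hb, mul_pos ha ha, mul_pos hb hb]
    have y2 : mink (P.p i) y < 0 := by
      simp only [hy, mink_add_right, mink_smul_right, q2]
      nlinarith
    have y3 : mink y w = 0 := by
      simp only [hy, mink_add_left, mink_smul_left]
      exact hab
    have y4 : mink y (P.v i) = 0 := by
      simp only [hy, mink_add_left, mink_smul_left, hinc, P.inc]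
      ring
    have hs : 0 < √(-mink y y) := Real.sqrt_pos.mpr (by linarith)
    have hss : √(-mink y y) ^ 2 = -mink y y := Real.sq_sqrt (by linarith)
    have hyH : (1 / √(-mink y y)) • y ∈ H2 := by
      apply mem_H2_of_mink (P.mem i)
      · rw [mink_smul_left, mink_smul_right]
        field_simp
        rw [hss]
        field_simp
      · rw [mink_smul_right]
        exact mul_neg_of_pos_of_neg (by positivity) y2
    have z1 : mink ((1 / √(-mink y y)) • y) w = 0 := by rw [mink_smul_left, y3, mul_zero]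
    have z2 : mink ((1 / √(-mink y y)) • y) (P.v i) = 0 := by rw [mink_smul_left, y4, mul_zero]
    rcases orth_unit hyH z1 z2 (H.unit w hw) (P.unit i) with h1 | h1
    · rcases H.dich hw i with h2 | h2
      · exact h2
      · linarith
    · exfalso
      have h5 : mink (P.p i) w = 0 := by
        rcases h1 with h1 | h1
        · rw [h1, P.inc]
        · rw [h1, mink_neg_right, P.inc, neg_zero]
      exact H.vertex_ne hk hn hw i h5
  rcases mul_neg_iff.mp h with ⟨h1, h2⟩ | ⟨h1, h2⟩
  · exact gen (-mink (P.p i) w) (mink (P.p (i - 1)) w) (by linarith) h1 (by ring)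
  · exact gen (mink (P.p i) w) (-mink (P.p (i - 1)) w) h2 (by linarith) (by ring)

/-- The nodes of a side are combinations of its vertices. -/
theorem node_comb (hk : 4 ≤ k) (hn : ∀ i : ℤ, 3 ≤ n i) (P : Polygon k n) (h1 : i + 1 ≤ j)
    (h2 : j ≤ i + k - 1) : ∃ a b : ℝ, 0 ≤ a ∧ 0 ≤ b ∧ 0 < a + b ∧
      P.node i j = a • P.p i + b • P.p (i - 1) := by
  have hk' : (4 : ℤ) ≤ k := by exact_mod_cast hk
  have hD := (P.order hk hn (show i + 1 ≤ i + 1 by omega) (show i + 1 < i + k - 1 by omega)
    (by omega)).1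
  rw [P.node_last hk] at hD
  have hv : P.v i ≠ 0 := by
    intro h
    have := P.unit i
    rw [h] at this
    simp [mink] at this
  have s1 := P.node_side hk h1 h2
  have s2 := P.inc i
  have s3 := P.inc' (i - 1)
  rw [sub_add_cancel] at s3
  have dz : det3 (P.node i j) (P.p i) (P.p (i - 1)) = 0 :=
    det3_eq_zero hv (by rw [mink_comm]; exact s1) (by rw [mink_comm]; exact s2)
      (by rw [mink_comm]; exact s3)
  have cr : det3 (P.v i) (P.p i) (P.p (i - 1)) • P.node i j =
      det3 (P.node i j) (P.p i) (P.p (i - 1)) • P.v i +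
      det3 (P.v i) (P.node i j) (P.p (i - 1)) • P.p i +
      det3 (P.v i) (P.p i) (P.node i j) • P.p (i - 1) := by
    ext q
    fin_cases q <;> simp [det3] <;> ring
  rw [dz, zero_smul, zero_add] at cr
  have t1 : det3 (P.v i) (P.p i) (P.p (i - 1)) = mink (P.tau i (i + 1)) (P.p (i - 1)) := by
    rw [Polygon.tau, P.node_first hk, mink_cross]
  have t2 : det3 (P.v i) (P.node i j) (P.p (i - 1)) = mink (P.tau i j) (P.p (i - 1)) := by
    rw [Polygon.tau, mink_cross]
  have t3 : det3 (P.v i) (P.p i) (P.node i j) = mink (P.tau i (i + 1)) (P.node i j) := by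
    rw [Polygon.tau, P.node_first hk, mink_cross]
  rw [t1, t2, t3] at cr
  have p1 : 0 ≤ mink (P.tau i j) (P.p (i - 1)) ∧
      (j < i + k - 1 → 0 < mink (P.tau i j) (P.p (i - 1))) := by
    rcases eq_or_lt_of_le h2 with h | h
    · refine ⟨?_, fun h' => by omega⟩
      rw [h, ← P.node_last hk i, P.tau_node]
    · have := (P.order hk hn h1 h (le_refl _)).1
      rw [P.node_last hk] at this
      exact ⟨this.le, fun _ => this⟩
  have p2 : 0 ≤ mink (P.tau i (i + 1)) (P.node i j) ∧
      (i + 1 < j → 0 < mink (P.tau i (i + 1)) (P.node i j)) := by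
    rcases eq_or_lt_of_le h1 with h | h
    · refine ⟨?_, fun h' => by omega⟩
      rw [← h, P.tau_node]
    · have := (P.order hk hn (le_refl (i + 1)) h h2).1
      exact ⟨this.le, fun _ => this⟩
  have hnode : P.node i j = (mink (P.tau i j) (P.p (i - 1)) / mink (P.tau i (i + 1)) (P.p (i - 1))) •
      P.p i + (mink (P.tau i (i + 1)) (P.node i j) / mink (P.tau i (i + 1)) (P.p (i - 1))) •
      P.p (i - 1) := by
    have := congrArg (fun z => (mink (P.tau i (i + 1)) (P.p (i - 1)))⁻¹ • z) cr
    simp only [smul_add, smul_smul, inv_mul_cancel₀ hD.ne', one_smul] at this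
    rw [div_eq_inv_mul, div_eq_inv_mul]
    exact this
  refine ⟨_, _, div_nonneg p1.1 hD.le, div_nonneg p2.1 hD.le, ?_, hnode⟩
  rw [← add_div]
  apply div_pos _ hD
  rcases lt_or_ge j (i + k - 1) with h | h
  · have := p1.2 h
    linarith [p2.1]
  · have := p2.2 (by omega)
    linarith [p1.1]

end Pool.Agent.Ads89
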