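import Pool.Agent.W_2fbb77_h89.Leaf1

/-! # MP_2fbb77_gt: position of a leaf with respect to the polygon

(`φ i = mink (p i) w`, `c i = mink w (v i)` for `w ∈ L`; see `Leaf1.lean`.)

`side_or`: if `φ (i-1) * φ i > 0`: every node on the side `i` is a combination of `p i = node i (i+1)` and
`p (i-1) = node i (i+k-1)` with coefficients `≥ 0`, not both zero (from `order`: for `a = p i`, `b = p (i-1)`,
`mink (tau i (i+1)) b • x = mink (tau i (i+1)) x • b - mink (tau i (i+k-1)) x' ..`; or: in the plane `(v i)^⊥`,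
`det3 (v i) a b • x = det3 (v i) x b • a + det3 (v i) a x • b` for `x` orthogonal to `v i`, and
`det3 (v i) (node i j) (node i l) = mink (tau i j) (node i l)`), so `mink (node i j) w` has the sign of `φ i`.
If `φ (i-1) * φ i < 0` (`φ ≠ 0` by `vertex_ne`): as `φ (i+k-1) = φ (i-1)` there is a first `m` with `i < m ≤ i + k - 1` and
`φ (m-1) * φ m < 0`; `c i = c m = 0`.  If `m = i + 1`: `w` is orthogonal to `v i, v (i+1)`, so a multiple of `p i` (`expand3`),
but `mink w w = 1`.  The same if `m = i + k - 1`.  So `i + 2 ≤ m ≤ i + k - 2` and `w` is orthogonal to `v i` and `v m`,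
so `w = ± tau i m` (unit vectors orthogonal to two independent vectors, `expand3`).

`pos_before`, `pos_after`: signs of a leaf `w = tau i j` at the vertices: by `order`, `mink (p i) w < 0`
(`p i = node i (i+1)`) and `mink (p (i-1)) w > 0`; the same at `j` with `tau j (i+k) = - tau i j`:
`mink (p j) w > 0`, `mink (p (j-1)) w < 0`.  For other `l`: no sign change between `p (l-1)` and `p l`, since
otherwise `c l = 0` and `det3 (v i) (v j) (v l) = 0` (all orthogonal to `w`), contradiction to `orient`.  Induction.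

`cross_leaf`: `w = tau i j`, `w' = tau l m` in `L`, `i < l < j < m < i + k`; `w' ≠ ± w` (otherwise `w` is orthogonal to
`v l`, again `det3 (v i) (v l) (v j) = 0`), so by `disjoint_side` the points `node l m`, `node m (l+k)` of `w'^⊥` are on the
same side of `w`; but `node l m` is a combination with coefficients `≥ 0` of `p (l-1), p l` where `w < 0`, and
`node m (l+k)` of `p (m-1), p m` where `w > 0`. -/

set_option autoImplicit false

noncomputable section

namespace Pool.Agent.Ads89

variable {k : ℕ} {n : ℤ → ℕ} {P : Polygon k n} {L : Set (Fin 3 → ℝ)} {w : Fin 3 → ℝ} {i j l m : ℤ}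

theorem leaf2_node_tau (hk : 4 ≤ k) (h1 : i + 2 ≤ j) (h2 : j ≤ i + k - 2) :
    mink (P.tau i j) (P.v j) = 0 := by
  rw [Polygon.tau, mink_cross, P.node_foot hk h1 h2]
  simp only [det3, Pi.smul_apply, Pi.sub_apply, smul_eq_mul]
  ring

/-- No unit vector is orthogonal to two adjacent sides. -/
theorem leaf2_adj (hn : ∀ i : ℤ, 3 ≤ n i) (P : Polygon k n) (i : ℤ) (hw1 : mink w w = 1)
    (h1 : mink w (P.v i) = 0) (h2 : mink w (P.v (i + 1)) = 0) : False := by
  obtain ⟨g1, g2⟩ := P.g_adj hn i
  set g := mink (P.v i) (P.v (i + 1)) with hg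
  have hgram := gram3 (P.v i) (P.v (i + 1)) (P.p i)
  have m1 : mink (P.v i) (P.p i) = 0 := by rw [mink_comm]; exact P.inc i
  have m2 : mink (P.v (i + 1)) (P.p i) = 0 := by rw [mink_comm]; exact P.inc' i
  have m3 : mink (P.p i) (P.p i) = -1 := (P.mem i).1
  rw [P.unit i, P.unit (i + 1), m1, m2, m3, ← hg] at hgram
  set D := det3 (P.v i) (P.v (i + 1)) (P.p i) with hD
  have hexp := expand3 (P.v i) (P.v (i + 1)) (P.p i) w
  rw [h1, h2, zero_smul, zero_smul, zero_add, zero_add, ← hD] at hexp
  have h3 := congrArg (fun x => mink x x) hexp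
  simp only [mink_smul_left, mink_smul_right, hw1, mink_cross_cross] at h3
  rw [P.unit i, P.unit (i + 1), mink_comm (P.v (i + 1)) (P.v i), ← hg] at h3
  have hg2 : g ^ 2 < 1 := by nlinarith
  nlinarith [sq_nonneg (mink w (P.p i)), mul_nonneg (sq_nonneg (mink w (P.p i)))
    (sub_nonneg.2 hg2.le)]

/-- A unit vector orthogonal to the sides `i` and `m` is `± tau i m`. -/
theorem leaf2_tau (hk : 4 ≤ k) (hn : ∀ i : ℤ, 3 ≤ n i) (P : Polygon k n) (h1 : i + 2 ≤ m)
    (h2 : m ≤ i + k - 2) (hw1 : mink w w = 1) (h3 : mink w (P.v i) = 0)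
    (h4 : mink w (P.v m) = 0) : w = P.tau i m ∨ w = -P.tau i m := by
  have hfar := P.far hk hn i m h1 h2
  set g := mink (P.v i) (P.v m) with hg
  have hu := P.tau_unit hk hn (i := i) (j := m) (by omega) (by omega)
  have t1 := P.tau_side i m
  have t2 := leaf2_node_tau (P := P) hk h1 h2
  set D := det3 (P.v i) (P.v m) (P.tau i m) with hD
  have e1 := expand3 (P.v i) (P.v m) (P.tau i m) w
  have e2 := expand3 (P.v i) (P.v m) (P.tau i m) (P.tau i m)
  rw [h3, h4, zero_smul, zero_smul, zero_add, zero_add, ← hD] at e1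
  rw [t1, t2, hu, zero_smul, zero_smul, zero_add, zero_add, one_smul, ← hD] at e2
  have hD0 : D ≠ 0 := by
    intro h0
    rw [h0, zero_smul] at e2
    have h5 := congrArg (fun x => mink x x) e2
    simp only [mink_cross_cross] at h5
    rw [P.unit i, P.unit m, mink_comm (P.v m) (P.v i), ← hg] at h5
    have h6 : mink (0 : Fin 3 → ℝ) 0 = 0 := by simp [mink]
    rw [h6] at h5
    nlinarith
  have e3 : w = mink w (P.tau i m) • P.tau i m := by
    rw [← e2, smul_comm] at e1
    exact smul_right_injective _ hD0 e1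
  have h5 : mink w (P.tau i m) ^ 2 = 1 := by
    have h6 := congrArg (fun x => mink x x) e3
    simp only [mink_smul_left, mink_smul_right, hu, hw1] at h6
    nlinarith
  rcases (sq_eq_one_iff.1 h5) with h6 | h6
  · left; rw [h6, one_smul] at e3; exact e3
  · right; rw [h6, neg_smul, one_smul] at e3; exact e3

theorem LF.side_or (hk : 4 ≤ k) (hn : ∀ i : ℤ, 3 ≤ n i) (H : LF P L) (hw : w ∈ L) (i : ℤ) :
    (∀ j : ℤ, i + 1 ≤ j → j ≤ i + k - 1 → 0 < mink (P.p i) w * mink (P.node i j) w) ∨
      ∃ m : ℤ, i + 2 ≤ m ∧ m ≤ i + k - 2 ∧ (w = P.tau i m ∨ w = -P.tau i m) := by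
  have hw1 := H.unit w hw
  by_cases hs : 0 < mink (P.p (i - 1)) w * mink (P.p i) w
  · left
    intro j h1 h2
    obtain ⟨a, b, ha, hb, hab, hnode⟩ := node_comb hk hn P h1 h2
    have hne := H.vertex_ne hk hn hw i
    rw [hnode, mink_add_left, mink_smul_left, mink_smul_left]
    have h3 : 0 < mink (P.p i) w * mink (P.p i) w := mul_self_pos.2 hne
    rcases lt_or_eq_of_le ha with ha' | ha'
    · nlinarith [mul_pos ha' h3, mul_nonneg hb hs.le]
    · rw [← ha'] at hab ⊢
      rw [zero_add] at hab
      nlinarith [mul_pos hab hs]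
  · right
    have hne := H.vertex_ne hk hn hw
    have hs' : mink (P.p (i - 1)) w * mink (P.p i) w < 0 :=
      lt_of_le_of_ne (not_lt.1 hs) (mul_ne_zero (hne _) (hne _))
    have c0 := H.cross_side hk hn hw hs'
    -- a second sign change
    have hex : ∃ m : ℤ, i + 1 ≤ m ∧ m ≤ i + k - 1 ∧ mink (P.p (m - 1)) w * mink (P.p m) w < 0 := by
      by_contra hcon
      push Not at hcon
      have hall : ∀ t : ℕ, (t : ℤ) ≤ k - 1 → 0 < mink (P.p i) w * mink (P.p (i + t)) w := by
        intro t
        induction t with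
        | zero =>
          intro _
          have : i + ((0 : ℕ) : ℤ) = i := by simp
          rw [this]
          exact mul_self_pos.2 (hne i)
        | succ t ih =>
          intro ht
          have h1 := ih (by push_cast at ht; omega)
          have h2 := hcon (i + t + 1) (by omega) (by push_cast at ht; omega)
          have h3 : (i + t + 1 - 1 : ℤ) = i + t := by ring
          rw [h3] at h2
          have h4 : 0 < mink (P.p (i + t)) w * mink (P.p (i + t + 1)) w :=
            lt_of_le_of_ne h2 (mul_ne_zero (hne _) (hne _)).symm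
          have h5 : i + ((t + 1 : ℕ) : ℤ) = i + t + 1 := by push_cast; ring
          rw [h5]
          have h6 : 0 < (mink (P.p i) w * mink (P.p (i + t)) w) *
            (mink (P.p (i + t)) w * mink (P.p (i + t + 1)) w) := mul_pos h1 h4
          have h7 : 0 < mink (P.p (i + t)) w * mink (P.p (i + t)) w := mul_self_pos.2 (hne _)
          by_contra h8
          push Not at h8
          nlinarith [mul_nonneg_of_nonpos_of_nonpos h8 (neg_nonpos.2 h7.le)]
      have h1 := hall (k - 1) (by omega)
      have h2 : i + ((k - 1 : ℕ) : ℤ) = (i - 1) + k := by omega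
      rw [h2, P.p_per] at h1
      linarith [mul_comm (mink (P.p i) w) (mink (P.p (i - 1)) w)]
    obtain ⟨m, hm1, hm2, hm3⟩ := hex
    have c1 := H.cross_side hk hn hw hm3
    have hm4 : m ≠ i + 1 := by
      rintro rfl
      exact leaf2_adj hn P i hw1 c0 c1
    have hm5 : m ≠ i + k - 1 := by
      rintro rfl
      have h2 : i + (k : ℤ) - 1 = (i - 1) + k := by ring
      rw [h2, P.v_per] at c1
      refine leaf2_adj hn P (i - 1) hw1 c1 ?_
      rw [sub_add_cancel]
      exact c0
    exact ⟨m, by omega, by omega, leaf2_tau hk hn P (by omega) (by omega) hw1 c0 c1⟩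

theorem LF.pos_before (hk : 4 ≤ k) (hn : ∀ i : ℤ, 3 ≤ n i) (H : LF P L) (h1 : i + 2 ≤ j)
    (h2 : j ≤ i + k - 2) (hw : P.tau i j ∈ L) (h3 : i ≤ l) (h4 : l < j) :
    mink (P.p l) (P.tau i j) < 0 := by
  have hne := H.vertex_ne hk hn hw
  have hw1 := H.unit _ hw
  have hw0 : P.tau i j ≠ 0 := by
    intro h0
    rw [h0] at hw1
    simp [mink] at hw1
  induction l, h3 using Int.leInduction with
  | base =>
    have h5 := (P.order hk hn (i := i) (j := i + 1) (l := j) le_rfl (by omega) (by omega)).2
    rw [P.node_first hk, mink_comm] at h5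
    exact h5
  | succ l hl ih =>
    have h5 := ih (by omega)
    by_contra hcon
    have h6 : 0 < mink (P.p (l + 1)) (P.tau i j) :=
      lt_of_le_of_ne (not_lt.1 hcon) (hne _).symm
    have h7 : mink (P.p (l + 1 - 1)) (P.tau i j) * mink (P.p (l + 1)) (P.tau i j) < 0 := by
      rw [add_sub_cancel_right]
      exact mul_neg_of_neg_of_pos h5 h6
    have h8 := H.cross_side hk hn hw h7
    have h9 := det3_eq_zero hw0 (P.tau_side i j) h8 (leaf2_node_tau hk h1 h2)
    have h10 := P.orient3 hk i (l + 1) j (by omega) h4 (by omega)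
    rw [h9] at h10
    exact lt_irrefl _ h10

theorem LF.pos_after (hk : 4 ≤ k) (hn : ∀ i : ℤ, 3 ≤ n i) (H : LF P L) (h1 : i + 2 ≤ j)
    (h2 : j ≤ i + k - 2) (hw : P.tau i j ∈ L) (h3 : j ≤ l) (h4 : l < i + k) :
    0 < mink (P.p l) (P.tau i j) := by
  have hne := H.vertex_ne hk hn hw
  have hw1 := H.unit _ hw
  have hw0 : P.tau i j ≠ 0 := by
    intro h0
    rw [h0] at hw1
    simp [mink] at hw1
  induction l, h3 using Int.leInduction with
  | base =>
    have h5 := (P.order hk hn (i := j) (j := j + 1) (l := i + k) le_rfl (by omega) (by omega)).2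
    rw [P.node_first hk, P.tau_symm hk h1 h2, mink_neg_left, mink_comm] at h5
    linarith
  | succ l hl ih =>
    have h5 := ih (by omega)
    by_contra hcon
    have h6 : mink (P.p (l + 1)) (P.tau i j) < 0 :=
      lt_of_le_of_ne (not_lt.1 hcon) (hne _)
    have h7 : mink (P.p (l + 1 - 1)) (P.tau i j) * mink (P.p (l + 1)) (P.tau i j) < 0 := by
      rw [add_sub_cancel_right]
      exact mul_neg_of_pos_of_neg h5 h6
    have h8 := H.cross_side hk hn hw h7
    have h9 := det3_eq_zero hw0 (P.tau_side i j) (leaf2_node_tau hk h1 h2) h8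
    have h10 := P.orient3 hk i j (l + 1) (by omega) (by omega) h4
    rw [h9] at h10
    exact lt_irrefl _ h10

theorem LF.cross_leaf (hk : 4 ≤ k) (hn : ∀ i : ℤ, 3 ≤ n i) (H : LF P L) (h1 : i < l) (h2 : l < j)
    (h3 : j < m) (h4 : m < i + k) (hw : P.tau i j ∈ L) (hw' : P.tau l m ∈ L) : False := by
  have a1 : i + 2 ≤ j := by omega
  have a2 : j ≤ i + k - 2 := by omega
  have b1 : l + 2 ≤ m := by omega
  have b2 : m ≤ l + k - 2 := by omega
  have hw1 := H.unit _ hw
  have hw1' := H.unit _ hw'
  have hw0 : P.tau i j ≠ 0 := by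
    intro h0
    rw [h0] at hw1
    simp [mink] at hw1
  have horth : mink (P.tau i j) (P.v l) ≠ 0 := by
    intro h5
    have h9 := det3_eq_zero hw0 (P.tau_side i j) h5 (leaf2_node_tau hk a1 a2)
    have h10 := P.orient3 hk i l j h1 h2 (by omega)
    rw [h9] at h10
    exact lt_irrefl _ h10
  have hne1 : P.tau i j ≠ P.tau l m := by
    intro h5
    exact horth (by rw [h5]; exact P.tau_side l m)
  have hne2 : P.tau i j ≠ -P.tau l m := by
    intro h5
    exact horth (by rw [h5, mink_neg_left, P.tau_side l m, neg_zero])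
  have hdisj : 1 ≤ |mink (P.tau l m) (P.tau i j)| := by
    rcases H.disj _ hw' _ hw with h5 | h5 | h5
    · exact absurd h5 hne1
    · exact absurd h5 hne2
    · exact h5
  have x1 := P.node_mem hk hn (i := l) (j := m) (by omega) (by omega)
  have x2 := P.node_mem hk hn (i := m) (j := l + k) (by omega) (by omega)
  have o1 : mink (P.node l m) (P.tau l m) = 0 := by rw [mink_comm]; exact P.tau_node l m
  have o2 : mink (P.node m (l + k)) (P.tau l m) = 0 := by
    have h5 := P.tau_node m (l + k)
    rw [P.tau_symm hk b1 b2, mink_neg_left, mink_comm] at h5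
    linarith
  have hpos := disjoint_side x1 x2 o1 o2 hw1' hw1 hdisj hne1 hne2
  obtain ⟨a, b, ha, hb, hab, hnode⟩ := node_comb hk hn P (i := l) (j := m) (by omega) (by omega)
  obtain ⟨a', b', ha', hb', hab', hnode'⟩ :=
    node_comb hk hn P (i := m) (j := l + k) (by omega) (by omega)
  have s1 := H.pos_before hk hn a1 a2 hw (l := l) (by omega) h2
  have s2 := H.pos_before hk hn a1 a2 hw (l := l - 1) (by omega) (by omega)
  have s3 := H.pos_after hk hn a1 a2 hw (l := m) (by omega) h4
  have s4 := H.pos_after hk hn a1 a2 hw (l := m - 1) (by omega) (by omega)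
  have n1 : mink (P.node l m) (P.tau i j) < 0 := by
    rw [hnode, mink_add_left, mink_smul_left, mink_smul_left]
    rcases lt_or_eq_of_le ha with hx | hx
    · nlinarith [mul_pos hx (neg_pos.2 s1), mul_nonneg hb (neg_nonneg.2 s2.le)]
    · rw [← hx] at hab ⊢
      rw [zero_add] at hab
      nlinarith [mul_pos hab (neg_pos.2 s2)]
  have n2 : 0 < mink (P.node m (l + k)) (P.tau i j) := by
    rw [hnode', mink_add_left, mink_smul_left, mink_smul_left]
    rcases lt_or_eq_of_le ha' with hx | hx
    · nlinarith [mul_pos hx s3, mul_nonneg hb' s4.le]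
    · rw [← hx] at hab' ⊢
      rw [zero_add] at hab'
      nlinarith [mul_pos hab' s4]
  nlinarith [mul_pos (neg_pos.2 n1) n2]

end Pool.Agent.Ads89
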