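import Pool.Agent.W_2fbb77_h89.Leaf2

/-! # MP_2fbb77_gt: gap points and leaves

`gp i j = node i j + node i (j+1)` (gap point, a positive multiple of a point of `H2`).
`gp_node`: for a leaf `w` and a gap `(i, j)`: `mink (gp i j) w ≠ 0`, and `mink (gp i j) w * mink (node i j) w ≥ 0`,
`mink (gp i j) w * mink (node i (j+1)) w ≥ 0`: by `side_or` either `w` has constant sign on the nodes of the side, or
`w = ± tau i m` and `mink (node i j) (tau i m)` has the sign of `j - m` (`order`, `tau_node`).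
`gp_corner`: `mink (gp i (i+1)) w * mink (gp (i+1) (i+k-1)) w > 0`: both have the sign of `mink (p i) w ≠ 0`.
`gp_leaf`: for `w₀ = tau i j ∈ L` and any `w ∈ L`: `gp i (j-1)` and `gp j (i+k)` are on the same side of `w`, and
`gp i j`, `gp j (i+k-1)` as well: if `w = ± w₀`, by the signs of `j - m`; otherwise `mink (node i j) w` and
`mink (node j (i+k)) w` are not zero and have the same sign (`disjoint_side`), and the gap points next to them
have the same sign as they have (`gp_node`). -/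

set_option autoImplicit false

noncomputable section

namespace Pool.Agent.Ads89

variable {k : ℕ} {n : ℤ → ℕ} {P : Polygon k n} {L : Set (Fin 3 → ℝ)} {w : Fin 3 → ℝ} {i j l m : ℤ}

/-- Gap point (not normalized). -/
def gp (P : Polygon k n) (i j : ℤ) : Fin 3 → ℝ := P.node i j + P.node i (j + 1)

private theorem Leaf3_pos {a b x y : ℝ} (h1 : 0 < a * x) (h2 : 0 < b * y) (h3 : 0 < x * y) :
    0 < a * b := by
  have h4 : 0 < a * x * (b * y) := mul_pos h1 h2
  have h5 : a * x * (b * y) = a * b * (x * y) := by ring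
  rw [h5] at h4
  exact (pos_iff_pos_of_mul_pos h4).2 h3

private theorem Leaf3_lt {a x : ℝ} (h : 0 ≤ a * x) (ha : a ≠ 0) (hx : x ≠ 0) : 0 < a * x :=
  lt_of_le_of_ne h (mul_ne_zero ha hx).symm

private theorem Leaf3_tau (hk : 4 ≤ k) (hn : ∀ i : ℤ, 3 ≤ n i) (h1 : i + 1 ≤ j)
    (h2 : j ≤ i + k - 1) (h3 : i + 1 ≤ m) (h4 : m ≤ i + k - 1) :
    (j < m → mink (P.node i j) (P.tau i m) < 0) ∧ (j = m → mink (P.node i j) (P.tau i m) = 0) ∧
      (m < j → 0 < mink (P.node i j) (P.tau i m)) := by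
  refine ⟨fun h => ?_, fun h => ?_, fun h => ?_⟩
  · rw [mink_comm]
    exact (P.order hk hn h1 h h4).2
  · rw [mink_comm, h]
    exact P.tau_node i m
  · rw [mink_comm]
    exact (P.order hk hn h3 h h2).1

theorem LF.gp_node (hk : 4 ≤ k) (hn : ∀ i : ℤ, 3 ≤ n i) (H : LF P L) (hw : w ∈ L) (h1 : i + 1 ≤ j)
    (h2 : j ≤ i + k - 2) : mink (gp P i j) w ≠ 0 ∧
      0 ≤ mink (gp P i j) w * mink (P.node i j) w ∧
      0 ≤ mink (gp P i j) w * mink (P.node i (j + 1)) w := by
  have hg : mink (gp P i j) w = mink (P.node i j) w + mink (P.node i (j + 1)) w :=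
    mink_add_left _ _ _
  rw [hg]
  have key : ∀ a b : ℝ, ((a < 0 ∧ b ≤ 0) ∨ (0 ≤ a ∧ 0 < b) ∨ 0 < a * b ∨ (0 < a ∧ 0 ≤ b) ∨
      (a ≤ 0 ∧ b < 0)) → a + b ≠ 0 ∧ 0 ≤ (a + b) * a ∧ 0 ≤ (a + b) * b := by
    rintro a b (⟨h1, h2⟩ | ⟨h1, h2⟩ | h1 | ⟨h1, h2⟩ | ⟨h1, h2⟩)
    · exact ⟨by linarith, mul_nonneg_of_nonpos_of_nonpos (by linarith) h1.le,
        mul_nonneg_of_nonpos_of_nonpos (by linarith) h2⟩
    · exact ⟨by linarith, mul_nonneg (by linarith) h1, mul_nonneg (by linarith) h2.le⟩
    · refine ⟨fun h => ?_, by nlinarith [mul_self_nonneg a], by nlinarith [mul_self_nonneg b]⟩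
      have h2 : b = -a := by linarith
      rw [h2] at h1
      nlinarith [mul_self_nonneg a]
    · exact ⟨by linarith, mul_nonneg (by linarith) h1.le, mul_nonneg (by linarith) h2⟩
    · exact ⟨by linarith, mul_nonneg_of_nonpos_of_nonpos (by linarith) h1,
        mul_nonneg_of_nonpos_of_nonpos (by linarith) h2.le⟩
  apply key
  rcases H.side_or hk hn hw i with h | ⟨m, h3, h4, h5⟩
  · have a1 := h j h1 (by omega)
    have a2 := h (j + 1) (by omega) (by omega)
    right; right; left
    rw [mul_comm] at a1 a2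
    have h6 : 0 < mink (P.p i) w * mink (P.p i) w := by
      apply mul_self_pos.2
      intro h0
      rw [h0, mul_zero] at a1
      exact lt_irrefl _ a1
    exact Leaf3_pos a1 a2 h6
  · obtain ⟨b1, b2, b3⟩ := Leaf3_tau (P := P) hk hn h1 (show j ≤ i + k - 1 by omega)
      (show i + 1 ≤ m by omega) (show m ≤ i + k - 1 by omega)
    obtain ⟨c1, c2, c3⟩ := Leaf3_tau (P := P) hk hn (show i + 1 ≤ j + 1 by omega)
      (show j + 1 ≤ i + k - 1 by omega) (show i + 1 ≤ m by omega) (show m ≤ i + k - 1 by omega)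
    have hcase : (mink (P.node i j) (P.tau i m) < 0 ∧ mink (P.node i (j + 1)) (P.tau i m) ≤ 0) ∨
        (0 ≤ mink (P.node i j) (P.tau i m) ∧ 0 < mink (P.node i (j + 1)) (P.tau i m)) := by
      rcases lt_or_ge j m with h6 | h6
      · left
        refine ⟨b1 h6, ?_⟩
        rcases lt_or_eq_of_le (show j + 1 ≤ m by omega) with h7 | h7
        · exact (c1 h7).le
        · exact (c2 h7).le
      · right
        refine ⟨?_, c3 (by omega)⟩
        rcases lt_or_eq_of_le h6 with h7 | h7
        · exact (b3 h7).le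
        · exact (b2 h7.symm).ge
    rcases h5 with rfl | rfl
    · rcases hcase with h6 | h6
      · exact Or.inl h6
      · exact Or.inr (Or.inl h6)
    · rw [mink_neg_right, mink_neg_right]
      rcases hcase with h6 | h6
      · right; right; right; left
        exact ⟨by linarith [h6.1], by linarith [h6.2]⟩
      · right; right; right; right
        exact ⟨by linarith [h6.1], by linarith [h6.2]⟩

theorem LF.gp_corner (hk : 4 ≤ k) (hn : ∀ i : ℤ, 3 ≤ n i) (H : LF P L) (hw : w ∈ L) (i : ℤ) :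
    0 < mink (gp P i (i + 1)) w * mink (gp P (i + 1) (i + k - 1)) w := by
  have hk' : (4 : ℤ) ≤ k := by exact_mod_cast hk
  have hv := H.vertex_ne hk hn hw i
  obtain ⟨a1, a2, -⟩ := H.gp_node hk hn hw (show i + 1 ≤ i + 1 from le_rfl)
    (show i + 1 ≤ i + k - 2 by omega)
  obtain ⟨b1, -, b2⟩ := H.gp_node hk hn hw (show (i + 1) + 1 ≤ i + k - 1 by omega)
    (show i + k - 1 ≤ (i + 1) + k - 2 by omega)
  have e1 : P.node i (i + 1) = P.p i := P.node_first hk i
  have e2 : P.node (i + 1) (i + k - 1 + 1) = P.p i := by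
    have h := P.node_last hk (i + 1)
    rw [show i + (k : ℤ) - 1 + 1 = i + 1 + k - 1 by ring, h, add_sub_cancel_right]
  rw [e1] at a2
  rw [e2] at b2
  exact Leaf3_pos (Leaf3_lt a2 a1 hv) (Leaf3_lt b2 b1 hv) (mul_self_pos.2 hv)

theorem LF.gp_leaf (hk : 4 ≤ k) (hn : ∀ i : ℤ, 3 ≤ n i) (H : LF P L) (hw : w ∈ L) (h1 : i + 2 ≤ j)
    (h2 : j ≤ i + k - 2) (h0 : P.tau i j ∈ L) :
    0 < mink (gp P i (j - 1)) w * mink (gp P j (i + k)) w ∧
      0 < mink (gp P i j) w * mink (gp P j (i + k - 1)) w := by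
  have ht := P.tau_symm hk h1 h2
  have ht' : P.tau i j = -P.tau j (i + k) := by rw [ht, neg_neg]
  have hg1 : ∀ w, mink (gp P i (j - 1)) w = mink (P.node i (j - 1)) w + mink (P.node i j) w := by
    intro w
    rw [gp, mink_add_left, sub_add_cancel]
  have hg2 : ∀ w, mink (gp P j (i + k)) w =
      mink (P.node j (i + k)) w + mink (P.node j (i + k + 1)) w := by
    intro w
    rw [gp, mink_add_left]
  have hg3 : ∀ w, mink (gp P i j) w = mink (P.node i j) w + mink (P.node i (j + 1)) w := by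
    intro w
    rw [gp, mink_add_left]
  have hg4 : ∀ w, mink (gp P j (i + k - 1)) w =
      mink (P.node j (i + k - 1)) w + mink (P.node j (i + k)) w := by
    intro w
    rw [gp, mink_add_left, sub_add_cancel]
  -- signs with respect to the leaf itself
  have s1 : mink (gp P i (j - 1)) (P.tau i j) < 0 := by
    rw [hg1]
    have a := (Leaf3_tau (P := P) hk hn (show i + 1 ≤ j - 1 by omega)
      (show j - 1 ≤ i + k - 1 by omega) (show i + 1 ≤ j by omega)
      (show j ≤ i + k - 1 by omega)).1 (by omega)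
    have b := (Leaf3_tau (P := P) hk hn (show i + 1 ≤ j by omega)
      (show j ≤ i + k - 1 by omega) (show i + 1 ≤ j by omega)
      (show j ≤ i + k - 1 by omega)).2.1 rfl
    linarith
  have s3 : 0 < mink (gp P i j) (P.tau i j) := by
    rw [hg3]
    have a := (Leaf3_tau (P := P) hk hn (show i + 1 ≤ j + 1 by omega)
      (show j + 1 ≤ i + k - 1 by omega) (show i + 1 ≤ j by omega)
      (show j ≤ i + k - 1 by omega)).2.2 (by omega)
    have b := (Leaf3_tau (P := P) hk hn (show i + 1 ≤ j by omega)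
      (show j ≤ i + k - 1 by omega) (show i + 1 ≤ j by omega)
      (show j ≤ i + k - 1 by omega)).2.1 rfl
    linarith
  have b0 := (Leaf3_tau (P := P) hk hn (show j + 1 ≤ i + k by omega)
      (show i + k ≤ j + k - 1 by omega) (show j + 1 ≤ i + k by omega)
      (show i + k ≤ j + k - 1 by omega)).2.1 rfl
  have s2 : mink (gp P j (i + k)) (P.tau i j) < 0 := by
    rw [hg2, ht', mink_neg_right, mink_neg_right]
    have a := (Leaf3_tau (P := P) hk hn (show j + 1 ≤ i + k + 1 by omega)
      (show i + k + 1 ≤ j + k - 1 by omega) (show j + 1 ≤ i + k by omega)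
      (show i + k ≤ j + k - 1 by omega)).2.2 (by omega)
    linarith
  have s4 : 0 < mink (gp P j (i + k - 1)) (P.tau i j) := by
    rw [hg4, ht', mink_neg_right, mink_neg_right]
    have a := (Leaf3_tau (P := P) hk hn (show j + 1 ≤ i + k - 1 by omega)
      (show i + k - 1 ≤ j + k - 1 by omega) (show j + 1 ≤ i + k by omega)
      (show i + k ≤ j + k - 1 by omega)).1 (by omega)
    linarith
  rcases H.disj _ h0 _ hw with h | h | h
  · rw [h]
    exact ⟨mul_pos_of_neg_of_neg s1 s2, mul_pos s3 s4⟩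
  · rw [h, mink_neg_right, mink_neg_right, mink_neg_right, mink_neg_right, neg_mul_neg,
      neg_mul_neg]
    exact ⟨mul_pos_of_neg_of_neg s1 s2, mul_pos s3 s4⟩
  · by_cases hne : w = P.tau i j
    · rw [hne]
      exact ⟨mul_pos_of_neg_of_neg s1 s2, mul_pos s3 s4⟩
    by_cases hne' : w = -P.tau i j
    · rw [hne', mink_neg_right, mink_neg_right, mink_neg_right, mink_neg_right, neg_mul_neg,
        neg_mul_neg]
      exact ⟨mul_pos_of_neg_of_neg s1 s2, mul_pos s3 s4⟩
    have hx1 := P.node_mem hk hn (show i + 1 ≤ j by omega) (show j ≤ i + k - 1 by omega)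
    have hx2 := P.node_mem hk hn (show j + 1 ≤ i + k by omega) (show i + k ≤ j + k - 1 by omega)
    have o1 : mink (P.node i j) (P.tau i j) = 0 := by
      rw [mink_comm]
      exact P.tau_node i j
    have o2 : mink (P.node j (i + k)) (P.tau i j) = 0 := by
      rw [ht', mink_neg_right, b0, neg_zero]
    have hd := disjoint_side hx1 hx2 o1 o2 (H.unit _ h0) (H.unit _ hw) h hne hne'
    have hn1 : mink (P.node i j) w ≠ 0 := fun h => by
      rw [h, zero_mul] at hd
      exact lt_irrefl _ hd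
    have hn2 : mink (P.node j (i + k)) w ≠ 0 := fun h => by
      rw [h, mul_zero] at hd
      exact lt_irrefl _ hd
    obtain ⟨p1, -, p2⟩ := H.gp_node hk hn hw (show i + 1 ≤ j - 1 by omega)
      (show j - 1 ≤ i + k - 2 by omega)
    obtain ⟨q1, q2, -⟩ := H.gp_node hk hn hw (show j + 1 ≤ i + k by omega)
      (show i + k ≤ j + k - 2 by omega)
    obtain ⟨r1, r2, -⟩ := H.gp_node hk hn hw (show i + 1 ≤ j by omega)
      (show j ≤ i + k - 2 by omega)
    obtain ⟨t1, -, t2⟩ := H.gp_node hk hn hw (show j + 1 ≤ i + k - 1 by omega)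
      (show i + k - 1 ≤ j + k - 2 by omega)
    rw [sub_add_cancel] at p2 t2
    exact ⟨Leaf3_pos (Leaf3_lt p2 p1 hn1) (Leaf3_lt q2 q1 hn2) hd,
      Leaf3_pos (Leaf3_lt r2 r1 hn1) (Leaf3_lt t2 t1 hn2) hd⟩

/-- If the common perpendicular is not in `L`, nothing separates the two gaps at the foot. -/
theorem LF.gp_foot (hk : 4 ≤ k) (hn : ∀ i : ℤ, 3 ≤ n i) (H : LF P L) (hw : w ∈ L) (h1 : i + 2 ≤ j)
    (h2 : j ≤ i + k - 2) (h0 : P.tau i j ∉ L) :
    0 < mink (gp P i (j - 1)) w * mink (gp P i j) w := by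
  have hne : mink (P.node i j) w ≠ 0 := by
    rcases H.side_or hk hn hw i with h | ⟨m, h3, h4, h5⟩
    · intro h0
      have a := h j (by omega) (by omega)
      rw [h0, mul_zero] at a
      exact lt_irrefl _ a
    · have hmj : m ≠ j := by
        rintro rfl
        rcases h5 with rfl | rfl
        · exact h0 hw
        · have := H.neg_mem _ hw
          rw [neg_neg] at this
          exact h0 this
      obtain ⟨b1, -, b3⟩ := Leaf3_tau (P := P) hk hn (show i + 1 ≤ j by omega)
        (show j ≤ i + k - 1 by omega) (show i + 1 ≤ m by omega) (show m ≤ i + k - 1 by omega)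
      have h6 : mink (P.node i j) (P.tau i m) ≠ 0 := by
        rcases lt_or_gt_of_ne hmj with h7 | h7
        · exact (b3 h7).ne'
        · exact (b1 h7).ne
      rcases h5 with rfl | rfl
      · exact h6
      · rw [mink_neg_right]
        exact neg_ne_zero.2 h6
  obtain ⟨p1, -, p2⟩ := H.gp_node hk hn hw (show i + 1 ≤ j - 1 by omega)
    (show j - 1 ≤ i + k - 2 by omega)
  obtain ⟨r1, r2, -⟩ := H.gp_node hk hn hw (show i + 1 ≤ j by omega)
    (show j ≤ i + k - 2 by omega)
  rw [sub_add_cancel] at p2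
  exact Leaf3_pos (Leaf3_lt p2 p1 hne) (Leaf3_lt r2 r1 hne) (mul_self_pos.2 hne)

end Pool.Agent.Ads89
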