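import Pool.Agent.W_2fbb77_h89.Bd0

/-! # MP_2fbb77_gt: linear algebra in signature (2,1)

Everything is elementary; the identities are by `ring` after unfolding (`mink`, `ads`, `det3`, `cross`). -/

set_option autoImplicit false

noncomputable section

namespace Pool.Agent.Ads89

section three

variable {a b c d w x y z : Fin 3 → ℝ} {t : ℝ}

theorem mink_comm (x y : Fin 3 → ℝ) : mink x y = mink y x := by
  simp [mink]; ring

theorem mink_add_left (x y z : Fin 3 → ℝ) : mink (x + y) z = mink x z + mink y z := by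
  simp [mink]; ring

theorem mink_add_right (x y z : Fin 3 → ℝ) : mink z (x + y) = mink z x + mink z y := by
  simp [mink]; ring

theorem mink_sub_left (x y z : Fin 3 → ℝ) : mink (x - y) z = mink x z - mink y z := by
  simp [mink]; ring

theorem mink_sub_right (x y z : Fin 3 → ℝ) : mink z (x - y) = mink z x - mink z y := by
  simp [mink]; ring

theorem mink_smul_left (t : ℝ) (x y : Fin 3 → ℝ) : mink (t • x) y = t * mink x y := by
  simp [mink]; ring

theorem mink_smul_right (t : ℝ) (x y : Fin 3 → ℝ) : mink x (t • y) = t * mink x y := by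
  simp [mink]; ring

theorem mink_neg_left (x y : Fin 3 → ℝ) : mink (-x) y = -mink x y := by
  simp [mink]; ring

theorem mink_neg_right (x y : Fin 3 → ℝ) : mink x (-y) = -mink x y := by
  simp [mink]; ring

/-- The Gram determinant of three vectors. -/
theorem gram3 (a b c : Fin 3 → ℝ) :
    mink a a * (mink b b * mink c c - mink b c ^ 2) -
      mink a b * (mink a b * mink c c - mink b c * mink a c) +
      mink a c * (mink a b * mink b c - mink b b * mink a c) = -det3 a b c ^ 2 := by
  simp only [mink, det3]; ring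

/-- Expansion of `d` in terms of `a, b, c`: dual basis. -/
theorem expand3 (a b c d : Fin 3 → ℝ) : det3 a b c • d =
    mink d a • cross b c + mink d b • cross c a + mink d c • cross a b := by
  ext i
  fin_cases i <;> simp [mink, det3, cross] <;> ring

theorem mink_cross_cross (a b c d : Fin 3 → ℝ) : mink (cross a b) (cross c d) =
    -(mink a c * mink b d - mink a d * mink b c) := by
  simp [mink, cross]; ring

theorem cross_cross (a b c : Fin 3 → ℝ) : cross a (cross b c) =
    mink a b • c - mink a c • b := by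
  ext i
  fin_cases i <;> simp [mink, cross] <;> ring

theorem det3_cyc (a b c : Fin 3 → ℝ) : det3 a b c = det3 b c a := by
  simp only [det3]; ring

theorem det3_swap (a b c : Fin 3 → ℝ) : det3 a b c = -det3 b a c := by
  simp only [det3]; ring

/-- A vector orthogonal to three independent vectors is zero (`expand3`). -/
theorem eq_zero_of_orth (h : det3 a b c ≠ 0) (h1 : mink d a = 0) (h2 : mink d b = 0)
    (h3 : mink d c = 0) : d = 0 := by
  have e := expand3 a b c d
  rw [h1, h2, h3] at e
  simp only [zero_smul, add_zero] at e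
  exact (smul_eq_zero.mp e).resolve_left h

/-- Three vectors orthogonal to a nonzero vector are dependent. -/
theorem det3_eq_zero (hd : d ≠ 0) (h1 : mink d a = 0) (h2 : mink d b = 0) (h3 : mink d c = 0) :
    det3 a b c = 0 := by
  by_contra h
  exact hd (eq_zero_of_orth h h1 h2 h3)

/-- Two points of the hyperbolic plane have product `≤ -1`. (`x₀ y₀ + x₁ y₁ ≤ √.. √..` and
`x₂ = √(1 + x₀² + x₁²)`; e.g. `gram3`-like: `(mink x y)² - 1 ≥ 0` from Cauchy-Schwarz and the sign.) -/
theorem mink_le_neg_one (hx : x ∈ H2) (hy : y ∈ H2) : mink x y ≤ -1 := by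
  obtain ⟨hx1, hx2⟩ := hx
  obtain ⟨hy1, hy2⟩ := hy
  simp only [mink] at hx1 hy1 ⊢
  have hxx : 1 ≤ x 2 := by nlinarith [sq_nonneg (x 0), sq_nonneg (x 1)]
  have hyy : 1 ≤ y 2 := by nlinarith [sq_nonneg (y 0), sq_nonneg (y 1)]
  have h1 : 0 ≤ x 2 * y 2 - 1 := by nlinarith
  have h2 : (x 0 * y 0 + x 1 * y 1) ^ 2 ≤ (x 2 * y 2 - 1) ^ 2 := by
    have e1 : x 0 ^ 2 + x 1 ^ 2 = x 2 ^ 2 - 1 := by nlinarith
    have e2 : y 0 ^ 2 + y 1 ^ 2 = y 2 ^ 2 - 1 := by nlinarith
    have e3 : (x 0 * y 0 + x 1 * y 1) ^ 2 ≤ (x 0 ^ 2 + x 1 ^ 2) * (y 0 ^ 2 + y 1 ^ 2) := by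
      nlinarith [sq_nonneg (x 0 * y 1 - x 1 * y 0)]
    rw [e1, e2] at e3
    nlinarith [sq_nonneg (x 2 - y 2)]
  have h3 := abs_le_of_sq_le_sq' h2 h1
  linarith [h3.2]

/-- A timelike vector with negative product with a point of `H2` has positive last coordinate. -/
theorem mem_H2_of_mink (hx : x ∈ H2) (hy : mink y y = -1) (h : mink x y < 0) : y ∈ H2 := by
  refine ⟨hy, ?_⟩
  by_contra hc
  have hneg : y 2 < 0 := by
    rcases lt_or_eq_of_le (not_lt.mp hc) with h' | h'
    · exact h'
    · exfalso
      simp only [mink] at hy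
      rw [h'] at hy
      nlinarith [sq_nonneg (y 0), sq_nonneg (y 1)]
  have hm : -y ∈ H2 := ⟨by rw [mink_neg_left, mink_neg_right, hy]; norm_num, by
    simp only [Pi.neg_apply]; linarith⟩
  have := mink_le_neg_one hx hm
  rw [mink_neg_right] at this
  linarith

/-- A causal nonzero vector `z` has nonzero products of constant sign with the points of `H2`. -/
theorem causal_sign (hx : x ∈ H2) (hy : y ∈ H2) (hz : mink z z ≤ 0) (h0 : z ≠ 0) :
    0 < mink x z * mink y z := by
  have key : ∀ x : Fin 3 → ℝ, x ∈ H2 → ∀ z : Fin 3 → ℝ, mink z z ≤ 0 → 0 < z 2 → mink x z < 0 := by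
    intro x hx z hz hz2
    obtain ⟨hx1, hx2⟩ := hx
    simp only [mink] at hx1 hz ⊢
    have h1 : 0 < x 2 * z 2 := mul_pos hx2 hz2
    have e1 : x 0 ^ 2 + x 1 ^ 2 = x 2 ^ 2 - 1 := by nlinarith
    have e2 : z 0 ^ 2 + z 1 ^ 2 ≤ z 2 ^ 2 := by nlinarith
    have e3 : (x 0 * z 0 + x 1 * z 1) ^ 2 ≤ (x 0 ^ 2 + x 1 ^ 2) * (z 0 ^ 2 + z 1 ^ 2) := by
      nlinarith [sq_nonneg (x 0 * z 1 - x 1 * z 0)]
    have e4 : 0 ≤ x 0 ^ 2 + x 1 ^ 2 := by positivity
    have e5 : (x 0 * z 0 + x 1 * z 1) ^ 2 < (x 2 * z 2) ^ 2 := by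
      have := mul_le_mul_of_nonneg_left e2 e4
      rw [e1] at this e3
      have hz3 : 0 < z 2 ^ 2 := by positivity
      nlinarith
    have h3 := abs_lt_of_sq_lt_sq' e5 h1.le
    linarith [h3.2]
  have hz2 : z 2 ≠ 0 := by
    intro h
    apply h0
    simp only [mink] at hz
    rw [h] at hz
    have h00 : z 0 = 0 := by nlinarith [sq_nonneg (z 0), sq_nonneg (z 1)]
    have h11 : z 1 = 0 := by nlinarith [sq_nonneg (z 0), sq_nonneg (z 1)]
    ext i
    fin_cases i
    · exact h00
    · exact h11
    · exact h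
  rcases lt_or_gt_of_ne hz2 with h | h
  · have hz' : mink (-z) (-z) ≤ 0 := by rw [mink_neg_left, mink_neg_right]; linarith
    have h' : 0 < (-z) 2 := by simp only [Pi.neg_apply]; linarith
    have a1 := key x hx (-z) hz' h'
    have a2 := key y hy (-z) hz' h'
    rw [mink_neg_right] at a1 a2
    exact mul_pos (by linarith) (by linarith)
  · exact mul_pos_of_neg_of_neg (key x hx z hz h) (key y hy z hz h)

/-- A vector orthogonal to a point of `H2` is spacelike or zero. -/
theorem pos_of_orth (hx : x ∈ H2) (h : mink x z = 0) : z = 0 ∨ 0 < mink z z := by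
  by_contra hc
  push Not at hc
  have := causal_sign hx hx hc.2 hc.1
  rw [h] at this
  simp at this

/-- Two unit vectors orthogonal to a point of `H2`: `|mink| ≤ 1`, and equality only if they are equal up to
sign (apply `pos_of_orth` to `w - mink w z • z`). -/
theorem orth_unit (hx : x ∈ H2) (h1 : mink x w = 0) (h2 : mink x z = 0) (hw : mink w w = 1)
    (hz : mink z z = 1) : |mink w z| < 1 ∨ w = z ∨ w = -z := by
  have h3 : mink x (w - mink w z • z) = 0 := by
    rw [mink_sub_right, mink_smul_right, h1, h2]; ring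
  have h4 : mink (w - mink w z • z) (w - mink w z • z) = 1 - mink w z ^ 2 := by
    simp only [mink_sub_right, mink_smul_right, mink_sub_left, mink_smul_left, hw, hz,
      mink_comm z w]
    ring
  rcases pos_of_orth hx h3 with h | h
  · right
    rw [h] at h4
    have h5 : mink w z ^ 2 = 1 := by
      have : mink (0 : Fin 3 → ℝ) 0 = 0 := by simp [mink]
      rw [this] at h4
      linarith
    have h6 := sub_eq_zero.mp h
    rcases sq_eq_one_iff.mp h5 with h7 | h7
    · left; rw [h7, one_smul] at h6; exact h6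
    · right; rw [h7, neg_smul, one_smul] at h6; exact h6
  · left
    rw [h4] at h
    rw [abs_lt]
    constructor <;> nlinarith

/-- Disjoint geodesics `w^⊥`, `z^⊥`: two points of `w^⊥` are on the same side of `z^⊥`
(`z - mink w z • w` is causal, nonzero, and has the same products with `x` and `y`: `causal_sign`). -/
theorem disjoint_side (hx : x ∈ H2) (hy : y ∈ H2) (h1 : mink x w = 0) (h2 : mink y w = 0)
    (hw : mink w w = 1) (hz : mink z z = 1) (h : 1 ≤ |mink w z|) (hne : z ≠ w) (hne' : z ≠ -w) :
    0 < mink x z * mink y z := by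
  have e1 : mink x (z - mink w z • w) = mink x z := by
    rw [mink_sub_right, mink_smul_right, h1]; ring
  have e2 : mink y (z - mink w z • w) = mink y z := by
    rw [mink_sub_right, mink_smul_right, h2]; ring
  have h4 : mink (z - mink w z • w) (z - mink w z • w) = 1 - mink w z ^ 2 := by
    simp only [mink_sub_right, mink_smul_right, mink_sub_left, mink_smul_left, hw, hz,
      mink_comm z w]
    ring
  have h5 : 1 ≤ mink w z ^ 2 := by
    have := mul_self_le_mul_self (by norm_num : (0:ℝ) ≤ 1) h
    rw [abs_mul_abs_self] at this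
    nlinarith
  have h6 := causal_sign (z := z - mink w z • w) hx hy (by rw [h4]; linarith) (by
    intro h0
    rw [h0] at h4
    have h7 : mink w z ^ 2 = 1 := by
      have : mink (0 : Fin 3 → ℝ) 0 = 0 := by simp [mink]
      rw [this] at h4
      linarith
    have h8 := sub_eq_zero.mp h0
    rcases sq_eq_one_iff.mp h7 with h9 | h9
    · rw [h9, one_smul] at h8; exact hne h8
    · rw [h9, neg_smul, one_smul] at h8; exact hne' h8)
  rwa [e1, e2] at h6

/-- Linear maps that agree on three independent vectors are equal. -/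
theorem linear_ext {A B : (Fin 3 → ℝ) →ₗ[ℝ] (Fin 4 → ℝ)} (h : det3 a b c ≠ 0) (ha : A a = B a)
    (hb : A b = B b) (hc : A c = B c) : A = B := by
  have cr : ∀ d : Fin 3 → ℝ, det3 a b c • d = det3 d b c • a + det3 a d c • b + det3 a b d • c := by
    intro d
    ext i
    fin_cases i <;> simp [det3] <;> ring
  have hd : ∀ d : Fin 3 → ℝ, A d = B d := by
    intro d
    have e1 : det3 a b c • A d = det3 a b c • B d := by
      rw [← map_smul, ← map_smul, cr d]
      simp only [map_add, map_smul, ha, hb, hc]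
    exact smul_right_injective _ h e1
  exact LinearMap.ext hd

end three

end Pool.Agent.Ads89
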