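import Pool.Agent.W_2fbb77_h89.Defs

/-! # MP_2fbb77_gt: 2 x 2 matrices

`Hm` (translation along a spacelike geodesic of the anti-de Sitter plane), `Bm` (boost at a point), `Rm`
(translation along a timelike geodesic); `cj` is conjugation, `vec` are coordinates on traceless matrices:
`M = !![m, α; β, -m]` has coordinates `(β, α, m)`. -/

set_option autoImplicit false

noncomputable section

namespace Pool.Agent.Ads89

open Real

abbrev M2 := Matrix (Fin 2) (Fin 2) ℝ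

def Hm (l : ℝ) : M2 := !![exp (l / 2), 0; 0, exp (-(l / 2))]

def Bm (s : ℝ) : M2 := !![cosh (s / 2), sinh (s / 2); sinh (s / 2), cosh (s / 2)]

def Rm (t : ℝ) : M2 := !![cos (t / 2), -sin (t / 2); sin (t / 2), cos (t / 2)]

def Xm : M2 := !![0, 1; 1, 0]

def Jm : M2 := !![0, 1; -1, 0]

def Dm : M2 := !![1, 0; 0, -1]

/-- Conjugation by `g` (if `det g = 1`). -/
def cj (g M : M2) : M2 := g * M * g.adjugate

/-- Coordinates `(β, α, m)` of `!![m, α; β, -m]`. -/
def vec (M : M2) : Fin 3 → ℝ := ![M 1 0, M 0 1, M 0 0]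

def br (a b : Fin 3 → ℝ) : ℝ := a 0 * b 1 - a 1 * b 0

/-- Partial product of a chain with edges of length `l n` and bends `s n`. -/
def Pc (l s : ℕ → ℝ) : ℕ → M2
  | 0 => 1
  | n + 1 => Pc l s n * Hm (l n) * Bm (s n)

/-- Full product of a chain with `M` bends and `M + 1` edges. -/
def Pf (l s : ℕ → ℝ) (M : ℕ) : M2 := Pc l s M * Hm (l M)

theorem det_Hm (l : ℝ) : (Hm l).det = 1 := by
  simp [Hm, Matrix.det_fin_two, ← exp_add]

theorem det_Bm (s : ℝ) : (Bm s).det = 1 := by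
  simp only [Bm, Matrix.det_fin_two_of]
  have := cosh_sq (s / 2)
  nlinarith

theorem det_Rm (t : ℝ) : (Rm t).det = 1 := by
  simp only [Rm, Matrix.det_fin_two_of]
  have := sin_sq_add_cos_sq (t / 2)
  nlinarith

theorem det_Pc (l s : ℕ → ℝ) (n : ℕ) : (Pc l s n).det = 1 := by
  induction n with
  | zero => simp [Pc]
  | succ n ih => simp [Pc, Matrix.det_mul, ih, det_Hm, det_Bm]

theorem det_Pf (l s : ℕ → ℝ) (M : ℕ) : (Pf l s M).det = 1 := by
  simp [Pf, Matrix.det_mul, det_Pc, det_Hm]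

theorem Hm_mul (a b : ℝ) : Hm a * Hm b = Hm (a + b) := by
  ext i j
  fin_cases i <;> fin_cases j <;> simp [Hm, Matrix.mul_apply, Fin.sum_univ_two, ← exp_add] <;> ring_nf

theorem Bm_mul (a b : ℝ) : Bm a * Bm b = Bm (a + b) := by
  have h1 : (a + b) / 2 = a / 2 + b / 2 := by ring
  ext i j
  fin_cases i <;> fin_cases j <;>
    simp [Bm, Matrix.mul_apply, Fin.sum_univ_two, h1, cosh_add, sinh_add] <;> ring

theorem Rm_mul (a b : ℝ) : Rm a * Rm b = Rm (a + b) := by
  have h1 : (a + b) / 2 = a / 2 + b / 2 := by ring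
  ext i j
  fin_cases i <;> fin_cases j <;>
    simp [Rm, Matrix.mul_apply, Fin.sum_univ_two, h1, cos_add, sin_add] <;> ring

theorem Hm_zero : Hm 0 = 1 := by
  ext i j
  fin_cases i <;> fin_cases j <;> simp [Hm]

theorem Bm_zero : Bm 0 = 1 := by
  ext i j
  fin_cases i <;> fin_cases j <;> simp [Bm]

theorem Rm_zero : Rm 0 = 1 := by
  ext i j
  fin_cases i <;> fin_cases j <;> simp [Rm]

theorem adj_Hm (l : ℝ) : (Hm l).adjugate = Hm (-l) := by
  rw [Matrix.adjugate_fin_two]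
  ext i j
  fin_cases i <;> fin_cases j <;> simp [Hm, neg_div]

theorem adj_Bm (s : ℝ) : (Bm s).adjugate = Bm (-s) := by
  rw [Matrix.adjugate_fin_two]
  ext i j
  fin_cases i <;> fin_cases j <;> simp [Bm, neg_div]

theorem adj_Rm (t : ℝ) : (Rm t).adjugate = Rm (-t) := by
  rw [Matrix.adjugate_fin_two]
  ext i j
  fin_cases i <;> fin_cases j <;> simp [Rm, neg_div]

theorem mul_adj {g : M2} (hg : g.det = 1) : g * g.adjugate = 1 := by
  rw [Matrix.mul_adjugate, hg, one_smul]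

theorem adj_mul {g : M2} (hg : g.det = 1) : g.adjugate * g = 1 := by
  rw [Matrix.adjugate_mul, hg, one_smul]

theorem cj_mul (g h M : M2) : cj (g * h) M = cj g (cj h M) := by
  unfold cj
  rw [Matrix.adjugate_mul_distrib]
  simp only [Matrix.mul_assoc]

theorem cj_one (M : M2) : cj 1 M = M := by
  simp [cj]

theorem cj_add (g M N : M2) : cj g (M + N) = cj g M + cj g N := by
  simp [cj, Matrix.mul_add, Matrix.add_mul]

theorem cj_smul (g M : M2) (t : ℝ) : cj g (t • M) = t • cj g M := by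
  simp [cj]

theorem cj_Bm_Xm (s : ℝ) : cj (Bm s) Xm = Xm := by
  have h := cosh_sq (s / 2)
  unfold cj
  rw [adj_Bm]
  ext i j
  fin_cases i <;> fin_cases j <;>
    simp [Bm, Xm, Matrix.mul_apply, Fin.sum_univ_two, neg_div] <;> nlinarith

theorem cj_Rm_Jm (t : ℝ) : cj (Rm t) Jm = Jm := by
  have h := sin_sq_add_cos_sq (t / 2)
  unfold cj
  rw [adj_Rm]
  ext i j
  fin_cases i <;> fin_cases j <;>
    simp [Rm, Jm, Matrix.mul_apply, Fin.sum_univ_two, neg_div] <;> nlinarith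

theorem cj_Hm_Dm (l : ℝ) : cj (Hm l) Dm = Dm := by
  unfold cj
  rw [adj_Hm]
  ext i j
  fin_cases i <;> fin_cases j <;>
    simp [Hm, Dm, Matrix.mul_apply, Fin.sum_univ_two, neg_div, ← exp_add]

theorem cj_Hm_Xm (l : ℝ) : cj (Hm l) Xm = cosh l • Xm + sinh l • Jm := by
  have h1 : exp (l / 2) * exp (l / 2) = exp l := by rw [← exp_add]; ring_nf
  have h2 : exp (-(l / 2)) * exp (-(l / 2)) = exp (-l) := by rw [← exp_add]; ring_nf
  have h3 : cosh l + sinh l = exp l := cosh_add_sinh l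
  have h4 : cosh l - sinh l = exp (-l) := cosh_sub_sinh l
  unfold cj
  rw [adj_Hm]
  ext i j
  fin_cases i <;> fin_cases j <;>
    simp [Hm, Xm, Jm, Matrix.mul_apply, Fin.sum_univ_two, neg_div] <;> linarith

theorem cj_Hm_Jm (l : ℝ) : cj (Hm l) Jm = sinh l • Xm + cosh l • Jm := by
  have h1 : exp (l / 2) * exp (l / 2) = exp l := by rw [← exp_add]; ring_nf
  have h2 : exp (-(l / 2)) * exp (-(l / 2)) = exp (-l) := by rw [← exp_add]; ring_nf
  have h3 : cosh l + sinh l = exp l := cosh_add_sinh l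
  have h4 : cosh l - sinh l = exp (-l) := cosh_sub_sinh l
  unfold cj
  rw [adj_Hm]
  ext i j
  fin_cases i <;> fin_cases j <;>
    simp [Hm, Xm, Jm, Matrix.mul_apply, Fin.sum_univ_two, neg_div] <;> linarith

theorem cj_Bm_Dm (s : ℝ) : cj (Bm s) Dm = cosh s • Dm - sinh s • Jm := by
  have h1 : cosh s = cosh (s / 2) ^ 2 + sinh (s / 2) ^ 2 := by
    rw [← cosh_two_mul]; ring_nf
  have h2 : sinh s = 2 * sinh (s / 2) * cosh (s / 2) := by
    rw [← sinh_two_mul]; ring_nf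
  unfold cj
  rw [adj_Bm, h1, h2]
  ext i j
  fin_cases i <;> fin_cases j <;>
    simp [Bm, Dm, Jm, Matrix.mul_apply, Fin.sum_univ_two, neg_div] <;> ring

theorem cj_Bm_Jm (s : ℝ) : cj (Bm s) Jm = cosh s • Jm - sinh s • Dm := by
  have h1 : cosh s = cosh (s / 2) ^ 2 + sinh (s / 2) ^ 2 := by
    rw [← cosh_two_mul]; ring_nf
  have h2 : sinh s = 2 * sinh (s / 2) * cosh (s / 2) := by
    rw [← sinh_two_mul]; ring_nf
  unfold cj
  rw [adj_Bm, h1, h2]
  ext i j
  fin_cases i <;> fin_cases j <;>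
    simp [Bm, Dm, Jm, Matrix.mul_apply, Fin.sum_univ_two, neg_div] <;> ring

theorem cj_Rm_Xm (t : ℝ) : cj (Rm t) Xm = cos t • Xm - sin t • Dm := by
  have h1 : cos t = cos (t / 2) ^ 2 - sin (t / 2) ^ 2 := by
    rw [← cos_two_mul' (t / 2)]; ring_nf
  have h2 : sin t = 2 * sin (t / 2) * cos (t / 2) := by
    rw [← sin_two_mul]; ring_nf
  unfold cj
  rw [adj_Rm, h1, h2]
  ext i j
  fin_cases i <;> fin_cases j <;>
    simp [Rm, Dm, Xm, Matrix.mul_apply, Fin.sum_univ_two, neg_div] <;> ring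

theorem cj_Rm_Dm (t : ℝ) : cj (Rm t) Dm = cos t • Dm + sin t • Xm := by
  have h1 : cos t = cos (t / 2) ^ 2 - sin (t / 2) ^ 2 := by
    rw [← cos_two_mul' (t / 2)]; ring_nf
  have h2 : sin t = 2 * sin (t / 2) * cos (t / 2) := by
    rw [← sin_two_mul]; ring_nf
  unfold cj
  rw [adj_Rm, h1, h2]
  ext i j
  fin_cases i <;> fin_cases j <;>
    simp [Rm, Dm, Xm, Matrix.mul_apply, Fin.sum_univ_two, neg_div] <;> ring

theorem Dm_Dm : Dm * Dm = 1 := by
  ext i j
  fin_cases i <;> fin_cases j <;> simp [Dm, Matrix.mul_apply, Fin.sum_univ_two]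

theorem Dm_Hm (l : ℝ) : Dm * Hm l * Dm = Hm l := by
  ext i j
  fin_cases i <;> fin_cases j <;> simp [Dm, Hm, Matrix.mul_apply, Fin.sum_univ_two]

theorem Dm_Bm (s : ℝ) : Dm * Bm s * Dm = Bm (-s) := by
  ext i j
  fin_cases i <;> fin_cases j <;> simp [Dm, Bm, Matrix.mul_apply, Fin.sum_univ_two, neg_div]

theorem Dm_Rm (t : ℝ) : Dm * Rm t * Dm = Rm (-t) := by
  ext i j
  fin_cases i <;> fin_cases j <;> simp [Dm, Rm, Matrix.mul_apply, Fin.sum_univ_two, neg_div]

theorem vec_add (M N : M2) : vec (M + N) = vec M + vec N := by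
  ext i
  fin_cases i <;> simp [vec]

theorem vec_smul (t : ℝ) (M : M2) : vec (t • M) = t • vec M := by
  ext i
  fin_cases i <;> simp [vec]

end Pool.Agent.Ads89
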