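import Pool.Agent.W_2fbb77_h89.Lor

/-! # MP_2fbb77_gt: two properties of acute-angled polygons

`g_adj`: `cos (π / n i) ∈ [1/2, 1)`.
`vertD`: `D • p i = - cross (v i) (v (i+1))` with `D = det3 (v i) (v (i+1)) (p i) > 0`.
`orient3`: `det3 (v i) (v j) (v l) > 0` for `i < j < l < i + k`.
`far`: sides that are not adjacent have disjoint lines, even at infinity: the end points of the line of the side `i` are
on the outer side of one other side only. -/

set_option autoImplicit false

noncomputable section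

namespace Pool.Agent.Ads89

variable {k : ℕ} {n : ℤ → ℕ}

theorem Min_rel (a b c d p : Fin 3 → ℝ) : det3 b c d * mink p a - det3 a c d * mink p b +
    det3 a b d * mink p c - det3 a b c * mink p d = 0 := by
  simp only [det3, mink]; ring

theorem Min_self (a c : Fin 3 → ℝ) (ha : mink a a = 1) :
    cross a (cross a c) = c - mink a c • a := by
  rw [cross_cross, ha, one_smul]

theorem Min_mc (a b c : Fin 3 → ℝ) : mink c (cross a b) = det3 a b c := by
  rw [mink_comm, mink_cross]

namespace Polygon

variable (P : Polygon k n)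

theorem g_adj (hn : ∀ i : ℤ, 3 ≤ n i) (i : ℤ) :
    -1 < mink (P.v i) (P.v (i + 1)) ∧ mink (P.v i) (P.v (i + 1)) ≤ -(1 / 2) := by
  have h := P.angle i
  have h3 : (3 : ℝ) ≤ n i := by exact_mod_cast hn i
  have hpi := Real.pi_pos
  have hpos : 0 < Real.pi / n i := by positivity
  have hle : Real.pi / n i ≤ Real.pi / 3 := by
    apply div_le_div_of_nonneg_left hpi.le (by norm_num) h3
  have c1 : Real.cos (Real.pi / n i) < 1 := by
    have := Real.cos_lt_cos_of_nonneg_of_le_pi (le_refl 0) (by linarith : Real.pi / n i ≤ Real.pi) hpos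
    rwa [Real.cos_zero] at this
  have c2 : 1 / 2 ≤ Real.cos (Real.pi / n i) := by
    rw [← Real.cos_pi_div_three]
    exact Real.cos_le_cos_of_nonneg_of_le_pi hpos.le (by linarith) hle
  rw [h]
  constructor <;> linarith

theorem vertD (i : ℤ) : det3 (P.v i) (P.v (i + 1)) (P.p i) • P.p i =
    -cross (P.v i) (P.v (i + 1)) := by
  have e := expand3 (P.v i) (P.v (i + 1)) (P.p i) (P.p i)
  rw [P.inc, P.inc', (P.mem i).1] at e
  rw [e]
  module

theorem Min_D (i : ℤ) : det3 (P.v i) (P.v (i + 1)) (P.p i) ^ 2 =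
    1 - mink (P.v i) (P.v (i + 1)) ^ 2 := by
  have e := gram3 (P.v i) (P.v (i + 1)) (P.p i)
  rw [P.unit, P.unit, (P.mem i).1, mink_comm (P.v i) (P.p i), mink_comm (P.v (i + 1)) (P.p i), P.inc,
    P.inc'] at e
  linarith

/-- `v (i+1)` in terms of the frame `v i`, `p i`. -/
theorem Min_next (i : ℤ) : P.v (i + 1) = mink (P.v i) (P.v (i + 1)) • P.v i -
    det3 (P.v i) (P.v (i + 1)) (P.p i) • cross (P.v i) (P.p i) := by
  have h := congrArg (cross (P.v i)) (P.vertD i)
  have h1 : cross (P.v i) (det3 (P.v i) (P.v (i + 1)) (P.p i) • P.p i) =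
      det3 (P.v i) (P.v (i + 1)) (P.p i) • cross (P.v i) (P.p i) := by
    ext j
    fin_cases j <;> simp [cross] <;> ring
  have h2 : cross (P.v i) (-cross (P.v i) (P.v (i + 1))) =
      -cross (P.v i) (cross (P.v i) (P.v (i + 1))) := by
    ext j
    fin_cases j <;> simp [cross] <;> ring
  rw [h1, h2, Min_self _ _ (P.unit i)] at h
  rw [h]
  module

/-- `v i` in terms of the frame `v (i+1)`, `p i`. -/
theorem Min_prev (i : ℤ) : P.v i = mink (P.v i) (P.v (i + 1)) • P.v (i + 1) +
    det3 (P.v i) (P.v (i + 1)) (P.p i) • cross (P.v (i + 1)) (P.p i) := by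
  have h := congrArg (cross (P.v (i + 1))) (P.vertD i)
  have h1 : cross (P.v (i + 1)) (det3 (P.v i) (P.v (i + 1)) (P.p i) • P.p i) =
      det3 (P.v i) (P.v (i + 1)) (P.p i) • cross (P.v (i + 1)) (P.p i) := by
    ext j
    fin_cases j <;> simp [cross] <;> ring
  have h2 : cross (P.v (i + 1)) (-cross (P.v i) (P.v (i + 1))) =
      cross (P.v (i + 1)) (cross (P.v (i + 1)) (P.v i)) := by
    ext j
    fin_cases j <;> simp [cross] <;> ring
  rw [h1, h2, Min_self _ _ (P.unit (i + 1)), mink_comm (P.v (i + 1))] at h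
  rw [h]
  module

theorem Min_neg' (_hk : 4 ≤ k) (i j : ℤ) (h1 : i + 2 - k ≤ j) (h2 : j ≤ i - 1) :
    mink (P.p i) (P.v j) < 0 := by
  rw [← P.v_per j]
  exact P.neg i (j + k) (by omega) (by omega)

theorem Min_or1 (i l : ℤ) (h1 : i + 2 ≤ l) (h2 : l ≤ i + k - 1) :
    0 < det3 (P.v i) (P.v (i + 1)) (P.v l) := by
  have h := congrArg (fun z => mink z (P.v l)) (P.vertD i)
  simp only [mink_smul_left, mink_neg_left, mink_cross] at h
  have := P.neg i l h1 h2
  nlinarith [P.orient i]

theorem orient3 (hk : 4 ≤ k) (i j l : ℤ) (h1 : i < j) (h2 : j < l) (h3 : l < i + k) :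
    0 < det3 (P.v i) (P.v j) (P.v l) := by
  obtain ⟨m, hm⟩ := Int.eq_ofNat_of_zero_le (show 0 ≤ j - (i + 1) by omega)
  have e : j = (i + 1) + m := by omega
  subst e
  clear hm
  induction m generalizing l with
  | zero => simpa using P.Min_or1 i l (by push_cast at h2; omega) (by omega)
  | succ m ih =>
    push_cast at h1 h2 ⊢
    set j : ℤ := i + 1 + m with hj
    have e1 : i + 1 + ((m : ℤ) + 1) = j + 1 := by omega
    rw [e1] at h2 ⊢
    have D1 : 0 < det3 (P.v j) (P.v (j + 1)) (P.v l) := P.Min_or1 j l (by omega) (by omega)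
    have D2 : 0 < det3 (P.v i) (P.v j) (P.v l) := ih l (by omega) (by omega) (by omega)
    have D3 : 0 < det3 (P.v i) (P.v j) (P.v (j + 1)) := by
      have h := P.Min_or1 j (i + k) (by omega) (by omega)
      rw [P.v_per] at h
      rw [det3_cyc]
      exact h
    by_contra hX
    have hX' := not_lt.1 hX
    have hr := Min_rel (P.v i) (P.v j) (P.v (j + 1)) (P.v l) (P.p l)
    rw [P.inc] at hr
    have n1 : mink (P.p l) (P.v (j + 1)) < 0 := P.Min_neg' hk l (j + 1) (by omega) (by omega)
    have n2 : mink (P.p l) (P.v j) < 0 := P.Min_neg' hk l j (by omega) (by omega)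
    have n3 : mink (P.p l) (P.v i) ≤ 0 := by
      rcases eq_or_lt_of_le (show l ≤ i + k - 1 by omega) with h | h
      · have := P.inc' l
        rw [h, sub_add_cancel, P.v_per] at this
        rw [h, this]
      · exact (P.Min_neg' hk l i (by omega) (by omega)).le
    nlinarith [mul_nonneg_of_nonpos_of_nonpos hX' n2.le, mul_pos_of_neg_of_neg n1 (neg_neg_of_pos D2)]

end Polygon

/-- The line through `N` and a point `x` of the polygon meets the side with normal `v₀`. -/
theorem Min_cone {N v0 vi vm a b x w : Fin 3 → ℝ} (hv0 : mink v0 v0 = 1) (N0 : 0 < mink N v0)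
    (Ni : mink N vi = 0) (Nm : mink N vm < 0) (a0 : mink a v0 = 0) (b0 : mink b v0 = 0)
    (ai : mink a vi = 0) (bm : mink b vm = 0) (bi : mink b vi < 0) (am : mink a vm < 0)
    (aw : mink a w < 0) (bw : mink b w < 0) (x0 : mink x v0 < 0) (xi : mink x vi ≤ 0)
    (xm : mink x vm ≤ 0) (xw : mink x w = 0) (hD : det3 v0 a b ≠ 0) : mink N w < 0 := by
  set s : ℝ := -mink x v0 / mink N v0 with hs
  have hspos : 0 < s := by
    rw [hs]
    exact div_pos (by linarith) N0
  set y := x + s • N with hy
  have y0 : mink y v0 = 0 := by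
    rw [hy, mink_add_left, mink_smul_left, hs]
    field_simp
    ring
  have yi : mink y vi ≤ 0 := by
    rw [hy, mink_add_left, mink_smul_left, Ni]
    linarith
  have ym : mink y vm < 0 := by
    rw [hy, mink_add_left, mink_smul_left]
    nlinarith
  have yw : mink y w = s * mink N w := by
    rw [hy, mink_add_left, mink_smul_left, xw, zero_add]
  -- decomposition of `y`
  have e : ∀ z, det3 v0 a b * mink y z = det3 y a b * mink v0 z + det3 v0 y b * mink a z +
      det3 v0 a y * mink b z := by
    intro z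
    simp only [det3, mink]; ring
  have e0 := e v0
  rw [y0, hv0, a0, b0] at e0
  have ey : det3 y a b = 0 := by linarith
  have ei := e vi
  have em := e vm
  have ew := e w
  rw [ey, ai] at ei
  rw [ey, bm] at em
  rw [ey] at ew
  -- coefficients
  set α := det3 v0 y b / det3 v0 a b with hα
  set β := det3 v0 a y / det3 v0 a b with hβ
  have ei' : mink y vi = β * mink b vi := by
    rw [hβ]
    field_simp
    linarith
  have em' : mink y vm = α * mink a vm := by
    rw [hα]
    field_simp
    linarith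
  have ew' : mink y w = α * mink a w + β * mink b w := by
    rw [hα, hβ]
    field_simp
    linarith
  have hβ0 : 0 ≤ β := by
    by_contra h
    have := mul_pos_of_neg_of_neg (not_le.1 h) bi
    linarith
  have hα0 : 0 < α := by
    by_contra h
    have := mul_nonneg_of_nonpos_of_nonpos (not_lt.1 h) am.le
    linarith
  have hyw : mink y w < 0 := by
    rw [ew']
    have := mul_neg_of_pos_of_neg hα0 aw
    have := mul_nonpos_of_nonneg_of_nonpos hβ0 bw.le
    linarith
  rw [yw] at hyw
  by_contra h
  have := mul_nonneg hspos.le (not_lt.1 h)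
  linarith

namespace Polygon

variable (P : Polygon k n)

theorem Min_pp (hk : 4 ≤ k) (i : ℤ) : 0 < det3 (P.v (i + 1)) (P.p (i + 1)) (P.p i) := by
  have h := congrArg (fun z => mink (P.p i) z) (P.Min_next (i + 1))
  simp only [mink_sub_right, mink_smul_right, Min_mc, P.inc' i] at h
  have h1 := P.orient (i + 1)
  have h2 : mink (P.p i) (P.v (i + 1 + 1)) < 0 := P.neg i (i + 1 + 1) (by omega) (by omega)
  by_contra h3
  nlinarith [mul_nonneg h1.le (sub_nonneg.2 (not_lt.1 h3))]

theorem Min_ppn (i : ℤ) : mink (P.p (i + 1)) (P.p i) ≤ -1 :=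
  mink_le_neg_one (P.mem (i + 1)) (P.mem i)

/-- The forward end point of the line of the side `i + 2` (beyond `p (i + 1)`). -/
def Np (i : ℤ) : Fin 3 → ℝ := P.p (i + 1) + cross (P.v (i + 1 + 1)) (P.p (i + 1))

/-- The backward end point of the line of the side `i` (beyond `p i`). -/
def Nm (i : ℤ) : Fin 3 → ℝ := P.p i - cross (P.v i) (P.p i)

theorem Np_side (i : ℤ) : mink (P.Np i) (P.v (i + 1 + 1)) = 0 := by
  rw [Np, mink_add_left, P.inc', mink_cross]
  simp only [det3]; ring

theorem Np_pos (i : ℤ) : 0 < mink (P.Np i) (P.v (i + 1)) := by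
  have h := P.orient (i + 1)
  rw [Np, mink_add_left, P.inc, mink_cross, zero_add, det3_cyc, det3_cyc]
  exact h

theorem Np_neg (hk : 4 ≤ k) (hn : ∀ i : ℤ, 3 ≤ n i) (i : ℤ) : mink (P.Np i) (P.v i) < 0 := by
  have h0 := P.Np_pos i
  have h1 : mink (P.Np i) (cross (P.v (i + 1)) (P.p i)) < 0 := by
    rw [Np, mink_add_left, Min_mc, mink_cross_cross, P.inc, mink_comm (P.v (i + 1 + 1)) (P.v (i + 1))]
    have e1 := P.Min_pp hk i
    have e2 : det3 (P.v (i + 1)) (P.p i) (P.p (i + 1)) = -det3 (P.v (i + 1)) (P.p (i + 1)) (P.p i) := by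
      simp only [det3]; ring
    have e3 := P.Min_ppn i
    have e4 := P.g_adj hn (i + 1)
    rw [e2]
    nlinarith
  rw [P.Min_prev i, mink_add_right, mink_smul_right, mink_smul_right]
  have e4 := P.g_adj hn i
  have e5 := P.orient i
  nlinarith [mul_neg_of_pos_of_neg e5 h1, mul_pos h0 (show 0 < -mink (P.v i) (P.v (i + 1)) by linarith)]

theorem Nm_side (i : ℤ) : mink (P.Nm i) (P.v i) = 0 := by
  rw [Nm, mink_sub_left, P.inc, mink_cross]
  simp only [det3]; ring

theorem Nm_pos (i : ℤ) : 0 < mink (P.Nm i) (P.v (i + 1)) := by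
  have h := P.orient i
  rw [Nm, mink_sub_left, P.inc', mink_cross]
  simp only [det3] at h ⊢
  linarith

theorem Nm_neg (hk : 4 ≤ k) (hn : ∀ i : ℤ, 3 ≤ n i) (i : ℤ) :
    mink (P.Nm i) (P.v (i + 1 + 1)) < 0 := by
  have h0 := P.Nm_pos i
  have h1 : 0 < mink (P.Nm i) (cross (P.v (i + 1)) (P.p (i + 1))) := by
    rw [Nm, mink_sub_left, Min_mc, mink_cross_cross, P.inc']
    have e1 := P.Min_pp hk i
    have e3 := P.Min_ppn i
    rw [mink_comm] at e3
    have e4 := P.g_adj hn i
    nlinarith
  rw [P.Min_next (i + 1), mink_sub_right, mink_smul_right, mink_smul_right]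
  have e4 := P.g_adj hn (i + 1)
  have e5 := P.orient (i + 1)
  nlinarith [mul_pos e5 h1, mul_pos h0 (show 0 < -mink (P.v (i + 1)) (P.v (i + 1 + 1)) by linarith)]

/-- The forward end point of the line of the side `i` is on the inner side of all other sides but one. -/
theorem Np_far (hk : 4 ≤ k) (hn : ∀ i : ℤ, 3 ≤ n i) (i j : ℤ) (h1 : i + 3 ≤ j) (h2 : j ≤ i + k - 1) :
    mink (P.Np i) (P.v j) < 0 := by
  refine Min_cone (v0 := P.v (i + 1)) (vi := P.v (i + 1 + 1)) (vm := P.v i) (a := P.p (i + 1))
    (b := P.p i) (x := P.p j) (P.unit _) (P.Np_pos i) (P.Np_side i) (P.Np_neg hk hn i) (P.inc _)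
    (P.inc' _) (P.inc' _) (P.inc _) (P.neg i (i + 1 + 1) (by omega) (by omega))
    (P.Min_neg' hk (i + 1) i (by omega) (by omega)) (P.neg (i + 1) j (by omega) (by omega))
    (P.neg i j (by omega) (by omega)) ?_ ?_ ?_ (P.inc j) ?_
  · rw [← P.v_per]
    exact P.neg j (i + 1 + k) (by omega) (by omega)
  · rw [← P.v_per]
    exact (P.neg j (i + 1 + 1 + k) (by omega) (by omega)).le
  · rcases eq_or_lt_of_le h2 with h | h
    · have := P.inc' j
      rw [h, sub_add_cancel, P.v_per] at this
      rw [h, this]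
    · rw [← P.v_per]
      exact (P.neg j (i + k) (by omega) (by omega)).le
  · exact (P.Min_pp hk i).ne'

theorem Nm_far (hk : 4 ≤ k) (hn : ∀ i : ℤ, 3 ≤ n i) (i j : ℤ) (h1 : i + 3 ≤ j) (h2 : j ≤ i + k - 1) :
    mink (P.Nm i) (P.v j) < 0 := by
  refine Min_cone (v0 := P.v (i + 1)) (vi := P.v i) (vm := P.v (i + 1 + 1)) (a := P.p i)
    (b := P.p (i + 1)) (x := P.p j) (P.unit _) (P.Nm_pos i) (P.Nm_side i) (P.Nm_neg hk hn i)
    (P.inc' _) (P.inc _) (P.inc _) (P.inc' _) (P.Min_neg' hk (i + 1) i (by omega) (by omega))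
    (P.neg i (i + 1 + 1) (by omega) (by omega)) (P.neg i j (by omega) (by omega))
    (P.neg (i + 1) j (by omega) (by omega)) ?_ ?_ ?_ (P.inc j) ?_
  · rw [← P.v_per]
    exact P.neg j (i + 1 + k) (by omega) (by omega)
  · rcases eq_or_lt_of_le h2 with h | h
    · have := P.inc' j
      rw [h, sub_add_cancel, P.v_per] at this
      rw [h, this]
    · rw [← P.v_per]
      exact (P.neg j (i + k) (by omega) (by omega)).le
  · rw [← P.v_per]
    exact (P.neg j (i + 1 + 1 + k) (by omega) (by omega)).le
  · have := P.Min_pp hk i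
    have e2 : det3 (P.v (i + 1)) (P.p i) (P.p (i + 1)) = -det3 (P.v (i + 1)) (P.p (i + 1)) (P.p i) := by
      simp only [det3]; ring
    rw [e2]
    linarith

end Polygon

/-- Expansion in the orthonormal frame `w`, `a`, `cross w a`. -/
theorem Min_frame {w a : Fin 3 → ℝ} (hw : mink w w = 1) (ha : mink a a = -1) (haw : mink a w = 0)
    (x : Fin 3 → ℝ) : x = mink x w • w - mink x a • a + mink x (cross w a) • cross w a := by
  have e := expand3 w a (cross w a) x
  have h1 : det3 w a (cross w a) = 1 := by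
    rw [← mink_cross, mink_cross_cross, hw, ha, haw, mink_comm w a, haw]
    ring
  have h2 : cross a (cross w a) = w := by
    rw [cross_cross, haw, ha]
    module
  have h3 : cross (cross w a) w = -a := by
    have : cross (cross w a) w = -cross w (cross w a) := by
      ext j
      fin_cases j <;> simp [cross] <;> ring
    rw [this, Min_self _ _ hw, mink_comm w a, haw]
    module
  rw [h1, h2, h3] at e
  rw [one_smul] at e
  nth_rewrite 1 [e]
  module

/-- Two end points of a line on the same side of a vector. -/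
theorem Min_null {w a b u : Fin 3 → ℝ} (hw : mink w w = 1) (ha : a ∈ H2) (hb : b ∈ H2)
    (haw : mink a w = 0) (hbw : mink b w = 0) (huw : mink u w = 0)
    (h1 : mink u (a + cross w a) < 0) (h2 : mink u (b - cross w b) < 0) : mink u u < 0 := by
  set T := cross w a with hT
  have hTT : mink T T = 1 := by
    rw [hT, mink_cross_cross, hw, ha.1, haw, mink_comm w a, haw]
    ring
  have haT : mink a T = 0 := by
    rw [hT, Min_mc]
    simp only [det3]; ring
  have eb := Min_frame hw ha.1 haw b
  have eu := Min_frame hw ha.1 haw u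
  rw [hbw, zero_smul, zero_sub, ← hT] at eb
  rw [huw, zero_smul, zero_sub, ← hT] at eu
  have hba := mink_le_neg_one hb ha
  have hbb := hb.1
  have e1 : mink b b = -mink b a ^ 2 + mink b T ^ 2 := by
    conv_lhs => rw [eb]
    simp only [mink_add_left, mink_add_right, mink_smul_left, mink_smul_right, mink_neg_left,
      mink_neg_right, ha.1, hTT, haT, mink_comm T a]
    ring
  have e2 : mink u u = -mink u a ^ 2 + mink u T ^ 2 := by
    conv_lhs => rw [eu]
    simp only [mink_add_left, mink_add_right, mink_smul_left, mink_smul_right, mink_neg_left,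
      mink_neg_right, ha.1, hTT, haT, mink_comm T a]
    ring
  have e3 : cross w b = mink b T • a - mink b a • T := by
    have h4 : cross w b = cross w (-(mink b a • a) + mink b T • T) := congrArg (cross w) eb
    have h5 : cross w (-(mink b a • a) + mink b T • T) =
        -(mink b a • cross w a) + mink b T • cross w T := by
      ext j
      fin_cases j <;> simp [cross] <;> ring
    have h6 : cross w T = a := by
      rw [hT, Min_self _ _ hw, mink_comm w a, haw]
      module
    rw [h4, h5, h6, ← hT]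
    module
  have e4 : mink u (b - cross w b) = (-mink b a - mink b T) * (mink u a - mink u T) := by
    have e7 : mink u b = mink u (-(mink b a • a) + mink b T • T) := congrArg (mink u) eb
    rw [mink_add_right, mink_neg_right, mink_smul_right, mink_smul_right] at e7
    rw [mink_sub_right, e3, mink_sub_right, mink_smul_right, mink_smul_right, e7]
    ring
  have e5 : 0 < -mink b a - mink b T := by
    rw [hbb] at e1
    by_contra h
    have h' := not_lt.1 h
    nlinarith [mul_nonneg (sub_nonneg.2 h') (show (0:ℝ) ≤ -mink b a by linarith)]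
  rw [e4] at h2
  rw [mink_add_right] at h1
  have e6 : mink u a - mink u T < 0 := by
    by_contra h
    have := mul_nonneg e5.le (not_lt.1 h)
    linarith
  nlinarith

namespace Polygon

variable (P : Polygon k n)

theorem far (hk : 4 ≤ k) (hn : ∀ i : ℤ, 3 ≤ n i) (i j : ℤ) (h1 : i + 2 ≤ j) (h2 : j ≤ i + k - 2) :
    mink (P.v i) (P.v j) < -1 := by
  obtain ⟨m, rfl⟩ : ∃ m : ℤ, i = m + 1 + 1 := ⟨i - 2, by ring⟩
  set g := mink (P.v (m + 1 + 1)) (P.v j) with hg
  set u := P.v j - g • P.v (m + 1 + 1) with hu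
  have huw : mink u (P.v (m + 1 + 1)) = 0 := by
    rw [hu, mink_sub_left, mink_smul_left, P.unit, mink_comm, ← hg]
    ring
  have huu : mink u u = 1 - g ^ 2 := by
    rw [hu, mink_sub_left, mink_sub_right, mink_sub_right, mink_smul_left, mink_smul_right,
      mink_smul_left, mink_smul_right, P.unit, P.unit, mink_comm (P.v j), ← hg]
    ring
  have p1 : mink u (P.p (m + 1) + cross (P.v (m + 1 + 1)) (P.p (m + 1))) < 0 := by
    show mink u (P.Np m) < 0
    have e : mink u (P.Np m) = mink (P.Np m) (P.v j) := by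
      rw [hu, mink_sub_left, mink_smul_left, mink_comm _ (P.Np m), mink_comm _ (P.Np m), P.Np_side]
      ring
    rw [e]
    rcases eq_or_lt_of_le h2 with h | h
    · have := P.Np_neg hk hn m
      have e2 : j = m + k := by omega
      rw [e2, P.v_per]
      exact this
    · exact P.Np_far hk hn m j (by omega) (by omega)
  have p2 : mink u (P.p (m + 1 + 1) - cross (P.v (m + 1 + 1)) (P.p (m + 1 + 1))) < 0 := by
    show mink u (P.Nm (m + 1 + 1)) < 0
    have e : mink u (P.Nm (m + 1 + 1)) = mink (P.Nm (m + 1 + 1)) (P.v j) := by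
      rw [hu, mink_sub_left, mink_smul_left, mink_comm _ (P.Nm (m + 1 + 1)),
        mink_comm _ (P.Nm (m + 1 + 1)), P.Nm_side]
      ring
    rw [e]
    rcases eq_or_lt_of_le h1 with h | h
    · have := P.Nm_neg hk hn (m + 1 + 1)
      have e2 : j = m + 1 + 1 + 1 + 1 := by omega
      rw [e2]
      exact this
    · exact P.Nm_far hk hn (m + 1 + 1) j (by omega) (by omega)
  have h3 := Min_null (P.unit (m + 1 + 1)) (P.mem (m + 1)) (P.mem (m + 1 + 1)) (P.inc' (m + 1))
    (P.inc (m + 1 + 1)) huw p1 p2
  have h4 : mink (P.p (m + 1)) u < 0 := by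
    rw [hu, mink_sub_right, mink_smul_right, P.inc']
    have := P.neg (m + 1) j (by omega) (by omega)
    linarith
  have h5 : u ≠ 0 := by
    intro h
    rw [h] at h4
    simp [mink] at h4
  have h6 := causal_sign (P.mem (m + 1)) (P.mem j) h3.le h5
  have h7 : mink (P.p j) u < 0 := by
    by_contra h
    nlinarith [mul_nonneg (neg_nonneg.2 h4.le) (not_lt.1 h)]
  rw [hu, mink_sub_right, mink_smul_right, P.inc] at h7
  have h8 : mink (P.p j) (P.v (m + 1 + 1)) < 0 := by
    rw [← P.v_per]
    exact P.neg j (m + 1 + 1 + k) (by omega) (by omega)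
  have h9 : g < 0 := by
    by_contra h
    nlinarith [mul_nonneg (not_lt.1 h) (neg_nonneg.2 h8.le)]
  rw [huu] at h3
  nlinarith

end Polygon

end Pool.Agent.Ads89
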