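import Pool.Agent.W_2fbb77_h89.Min

/-! # MP_2fbb77_gt: nodes of a polygon

Put `g i j = mink (v i) (v j)`; `g i j < -1` for `i + 2 ≤ j ≤ i + k - 2` (`far`), `-1 < g i (i+1) < 0`
(`angle`, `n i ≥ 3`: `cos (π / n i) ∈ [1/2, 1)`).
* Feet: `node i j = (v j - g v i) / √(g² - 1)`: `mink = -1`, `mink (node i j) (v i) = 0`,
  `mink (node i j) (v l) = (g j l - g i j g i l) / √..`, `mink (p i) (node i j) = mink (p i) (v j) / √.. < 0`, so
  `node i j ∈ H2` (`mem_H2_of_mink`).
* `cross (v i) (node i j)` is a unit vector orthogonal to `v i` and to `node i j` (`mink_cross`,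
  `mink_cross_cross`).
* Vertices: `p i = -(1/√(1 - g²)) • cross (v i) (v (i+1))`, `g = g i (i+1)`: both sides are orthogonal to `v i`,
  `v (i+1)`, and `det3 (v i) (v (i+1)) (p i) ≠ 0`, so they are proportional (`expand3` with `a = v i, b = v (i+1)`,
  `c = v (i+2)`, or `eq_zero_of_orth`); both have `mink = -1`, and the sign: `mink (p i) (v (i+2)) < 0` (`neg`) and
  `det3 (v i) (v (i+1)) (v (i+2)) > 0` (`orient`).  (`vert`) -/

set_option autoImplicit false

noncomputable section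

namespace Pool.Agent.Ads89

variable {k : ℕ} {n : ℤ → ℕ}

namespace Polygon

variable (P : Polygon k n)

theorem vert (hk : 4 ≤ k) (hn : ∀ i : ℤ, 3 ≤ n i) (i : ℤ) :
    P.p i = -(1 / √(1 - mink (P.v i) (P.v (i + 1)) ^ 2)) • cross (P.v i) (P.v (i + 1)) := by
  have hk' : (4 : ℤ) ≤ k := by exact_mod_cast hk
  have hD := P.orient3 hk i (i + 1) (i + 2) (by omega) (by omega) (by omega)
  have hm := P.neg i (i + 2) (by omega) (by omega)
  have hg := P.g_adj hn i
  set g := mink (P.v i) (P.v (i + 1)) with hgdef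
  set D := det3 (P.v i) (P.v (i + 1)) (P.v (i + 2)) with hDdef
  set m := mink (P.p i) (P.v (i + 2)) with hmdef
  have e := expand3 (P.v i) (P.v (i + 1)) (P.v (i + 2)) (P.p i)
  rw [P.inc, P.inc', ← hDdef, ← hmdef, zero_smul, zero_smul, zero_add, zero_add] at e
  have e2 : P.p i = (m / D) • cross (P.v i) (P.v (i + 1)) := by
    have := congrArg (fun z => D⁻¹ • z) e
    simp only [smul_smul] at this
    rw [inv_mul_cancel₀ hD.ne', one_smul] at this
    rw [this]
    congr 1
    field_simp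
  have e3 : mink (P.p i) (P.p i) = -1 := (P.mem i).1
  have hgg : 0 < 1 - g ^ 2 := by nlinarith
  have e4 : (m / D) ^ 2 * (1 - g ^ 2) = 1 := by
    rw [e2, mink_smul_left, mink_smul_right, mink_cross_cross, P.unit, P.unit, mink_comm (P.v (i + 1)),
      ← hgdef] at e3
    nlinarith
  have hs : 0 < √(1 - g ^ 2) := Real.sqrt_pos.mpr hgg
  have hss : √(1 - g ^ 2) ^ 2 = 1 - g ^ 2 := Real.sq_sqrt hgg.le
  have hmD : m / D < 0 := div_neg_of_neg_of_pos hm hD
  have e5 : m / D = -(1 / √(1 - g ^ 2)) := by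
    rw [← hss] at e4
    have h5 : (m / D * √(1 - g ^ 2)) ^ 2 = 1 := by rw [mul_pow]; exact e4
    have h6 : m / D * √(1 - g ^ 2) < 0 := mul_neg_of_neg_of_pos hmD hs
    have h7 : m / D * √(1 - g ^ 2) = -1 := by
      rcases sq_eq_one_iff.mp h5 with h | h
      · linarith
      · exact h
    rw [eq_neg_iff_add_eq_zero, ← sub_eq_zero] at *
    field_simp at h7 ⊢
    linarith
  rw [e2, e5]

theorem v_red (hk : 4 ≤ k) (i l : ℤ) :
    ∃ l' : ℤ, i ≤ l' ∧ l' ≤ i + k - 1 ∧ P.v l = P.v l' := by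
  have hk' : (4 : ℤ) ≤ k := by exact_mod_cast hk
  have hp : Function.Periodic P.v (k : ℤ) := P.v_per
  refine ⟨i + (l - i) % k, ?_, ?_, ?_⟩
  · have := Int.emod_nonneg (l - i) (by omega : (k : ℤ) ≠ 0)
    omega
  · have := Int.emod_lt_of_pos (l - i) (by omega : (0 : ℤ) < k)
    omega
  · have h1 := (hp.int_mul ((l - i) / k)) (i + (l - i) % k)
    have h2 : i + (l - i) % k + (l - i) / k * k = l := by
      have := Int.emod_add_mul_ediv (l - i) k
      linarith
    rw [Int.cast_id, h2] at h1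
    exact h1

theorem g_neg (hk : 4 ≤ k) (hn : ∀ i : ℤ, 3 ≤ n i) {i l : ℤ} (h1 : i < l) (h2 : l < i + k) :
    mink (P.v i) (P.v l) ≤ -(1 / 2) := by
  have hk' : (4 : ℤ) ≤ k := by exact_mod_cast hk
  rcases eq_or_lt_of_le (Int.add_one_le_of_lt h1) with h | h
  · rw [← h]; exact (P.g_adj hn i).2
  · rcases eq_or_lt_of_le (show l ≤ i + k - 1 by omega) with h' | h'
    · have h3 : P.v l = P.v (i - 1) := by
        rw [h', show i + (k : ℤ) - 1 = (i - 1) + k by ring, P.v_per]
      rw [h3, mink_comm]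
      have := (P.g_adj hn (i - 1)).2
      rwa [sub_add_cancel] at this
    · have := P.far hk hn i l (by omega) (by omega)
      linarith

theorem p_le (hk : 4 ≤ k) (i l : ℤ) : mink (P.p i) (P.v l) ≤ 0 := by
  obtain ⟨l', h1, h2, h3⟩ := P.v_red hk i l
  rw [h3]
  rcases eq_or_lt_of_le h1 with h | h
  · rw [← h, P.inc]
  · rcases eq_or_lt_of_le (Int.add_one_le_of_lt h) with h' | h'
    · rw [← h', P.inc']
    · exact (P.neg i l' (by omega) h2).le

variable {i j l : ℤ}

theorem node_first (hk : 4 ≤ k) (i : ℤ) : P.node i (i + 1) = P.p i := by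
  simp [node]

theorem node_last (hk : 4 ≤ k) (i : ℤ) : P.node i (i + k - 1) = P.p (i - 1) := by
  have h : ¬ (i + (k : ℤ) - 1 = i + 1) := by
    have : (4 : ℤ) ≤ k := by exact_mod_cast hk
    omega
  simp [node, h]

theorem node_foot (hk : 4 ≤ k) (h1 : i + 2 ≤ j) (h2 : j ≤ i + k - 2) : P.node i j =
    (1 / √(mink (P.v i) (P.v j) ^ 2 - 1)) • (P.v j - mink (P.v i) (P.v j) • P.v i) := by
  have h : ¬ (j = i + 1) := by omega
  have h' : ¬ (j = i + (k : ℤ) - 1) := by omega
  simp [node, h, h']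

theorem node_per (i j : ℤ) : P.node (i + k) (j + k) = P.node i j := by
  have h1 : (j + (k : ℤ) = i + k + 1) ↔ (j = i + 1) := by omega
  have h2 : (j + (k : ℤ) = i + k + k - 1) ↔ (j = i + k - 1) := by omega
  have h3 : P.p (i + k - 1) = P.p (i - 1) := by
    rw [show i + (k : ℤ) - 1 = (i - 1) + k by ring, P.p_per]
  simp only [node, h1, h2, h3, P.v_per, P.p_per]

theorem tau_per (i j : ℤ) : P.tau (i + k) (j + k) = P.tau i j := by
  simp only [tau, node_per, P.v_per]

theorem len_per (i j : ℤ) : P.len (i + k) (j + k) = P.len i j := by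
  have h : j + (k : ℤ) + 1 = (j + 1) + k := by ring
  simp only [len, tau_per, h, node_per]

theorem node_mem (hk : 4 ≤ k) (hn : ∀ i : ℤ, 3 ≤ n i) (h1 : i + 1 ≤ j) (h2 : j ≤ i + k - 1) :
    P.node i j ∈ H2 := by
  rcases eq_or_lt_of_le h1 with h | h
  · rw [← h, P.node_first hk]; exact P.mem i
  rcases eq_or_lt_of_le h2 with h' | h'
  · rw [h', P.node_last hk]; exact P.mem (i - 1)
  have hf := P.far hk hn i j (by omega) (by omega)
  have hneg := P.neg i j (by omega) h2
  rw [P.node_foot hk (by omega) (by omega)]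
  set g := mink (P.v i) (P.v j) with hg
  have hgg : 0 < g ^ 2 - 1 := by nlinarith
  have hs : 0 < √(g ^ 2 - 1) := Real.sqrt_pos.mpr hgg
  have hss : √(g ^ 2 - 1) ^ 2 = g ^ 2 - 1 := Real.sq_sqrt hgg.le
  apply mem_H2_of_mink (P.mem i)
  · simp only [mink_sub_right, mink_smul_right, mink_sub_left, mink_smul_left, P.unit,
      mink_comm (P.v j) (P.v i), ← hg]
    field_simp
    rw [hss]
    ring
  · rw [mink_smul_right, mink_sub_right, mink_smul_right, P.inc]
    apply mul_neg_of_pos_of_neg (by positivity)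
    linarith

theorem node_side (hk : 4 ≤ k) (h1 : i + 1 ≤ j) (h2 : j ≤ i + k - 1) :
    mink (P.node i j) (P.v i) = 0 := by
  rcases eq_or_lt_of_le h1 with h | h
  · rw [← h, P.node_first hk]; exact P.inc i
  rcases eq_or_lt_of_le h2 with h' | h'
  · rw [h', P.node_last hk]
    have := P.inc' (i - 1)
    rwa [sub_add_cancel] at this
  rw [P.node_foot hk (by omega) (by omega), mink_smul_left, mink_sub_left, mink_smul_left, P.unit,
    mink_comm (P.v j) (P.v i)]
  ring

/-- The nodes are in the polygon. -/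
theorem node_region (hk : 4 ≤ k) (hn : ∀ i : ℤ, 3 ≤ n i) (h1 : i + 1 ≤ j) (h2 : j ≤ i + k - 1) :
    P.node i j ∈ P.region := by
  refine ⟨P.node_mem hk hn h1 h2, fun l => ?_⟩
  rcases eq_or_lt_of_le h1 with h | h
  · rw [← h, P.node_first hk]; exact P.p_le hk i l
  rcases eq_or_lt_of_le h2 with h' | h'
  · rw [h', P.node_last hk]; exact P.p_le hk (i - 1) l
  have hf := P.far hk hn i j (by omega) (by omega)
  have hside := P.node_side hk h1 h2
  obtain ⟨l', h3, h4, h5⟩ := P.v_red hk i l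
  rw [h5]
  rcases eq_or_lt_of_le h3 with h6 | h6
  · rw [← h6, hside]
  have gil := P.g_neg hk hn h6 (by omega)
  rw [P.node_foot hk (by omega) (by omega), mink_smul_left, mink_sub_left, mink_smul_left]
  have key : mink (P.v j) (P.v l') - mink (P.v i) (P.v j) * mink (P.v i) (P.v l') ≤ 0 := by
    rcases lt_trichotomy l' j with h7 | h7 | h7
    · have := P.g_neg hk hn h7 (by omega)
      rw [mink_comm (P.v j) (P.v l')]
      nlinarith
    · rw [h7, P.unit]; nlinarith
    · have := P.g_neg hk hn h7 (by omega)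
      nlinarith
  exact mul_nonpos_of_nonneg_of_nonpos (by positivity) key

/-- The feet are not on the side `j`. -/
theorem node_foot_neg (hk : 4 ≤ k) (hn : ∀ i : ℤ, 3 ≤ n i) (h1 : i + 2 ≤ j) (h2 : j ≤ i + k - 2) :
    mink (P.node i j) (P.v j) < 0 := by
  have hf := P.far hk hn i j (by omega) (by omega)
  rw [P.node_foot hk h1 h2, mink_smul_left, mink_sub_left, mink_smul_left, P.unit]
  have hgg : 0 < mink (P.v i) (P.v j) ^ 2 - 1 := by nlinarith
  have hs : 0 < √(mink (P.v i) (P.v j) ^ 2 - 1) := Real.sqrt_pos.mpr hgg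
  exact mul_neg_of_pos_of_neg (by positivity) (by nlinarith)

theorem tau_unit (hk : 4 ≤ k) (hn : ∀ i : ℤ, 3 ≤ n i) (h1 : i + 1 ≤ j) (h2 : j ≤ i + k - 1) :
    mink (P.tau i j) (P.tau i j) = 1 := by
  have h := P.node_side hk h1 h2
  have h' := (P.node_mem hk hn h1 h2).1
  rw [tau, mink_cross_cross, P.unit, h', h, mink_comm, h]
  ring

theorem tau_node (i j : ℤ) : mink (P.tau i j) (P.node i j) = 0 := by
  rw [tau, mink_cross]
  simp only [det3]
  ring

theorem tau_side (i j : ℤ) : mink (P.tau i j) (P.v i) = 0 := by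
  rw [tau, mink_cross]
  simp only [det3]
  ring

/-- `tau` of a foot seen from the other side. -/
theorem tau_symm (hk : 4 ≤ k) (h1 : i + 2 ≤ j) (h2 : j ≤ i + k - 2) :
    P.tau j (i + k) = -P.tau i j := by
  rw [tau, tau, P.node_foot hk h1 h2, P.node_foot hk (show j + 2 ≤ i + k by omega) (by omega), P.v_per,
    mink_comm (P.v j) (P.v i)]
  ext a
  fin_cases a <;> simp [cross] <;> ring

/-- `tau` at the first vertex. -/
theorem tau_first (hk : 4 ≤ k) (hn : ∀ i : ℤ, 3 ≤ n i) (i : ℤ) : P.tau i (i + 1) =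
    -(1 / √(1 - mink (P.v i) (P.v (i + 1)) ^ 2)) •
      (P.v (i + 1) - mink (P.v i) (P.v (i + 1)) • P.v i) := by
  rw [tau, P.node_first hk]
  rw [P.vert hk hn i]
  have h := cross_cross (P.v i) (P.v i) (P.v (i + 1))
  rw [P.unit, one_smul] at h
  rw [← h]
  ext a
  fin_cases a <;> simp [cross] <;> ring

/-- `tau` at the last vertex. -/
theorem tau_last (hk : 4 ≤ k) (hn : ∀ i : ℤ, 3 ≤ n i) (i : ℤ) : P.tau i (i + k - 1) =
    (1 / √(1 - mink (P.v (i - 1)) (P.v i) ^ 2)) •
      (P.v (i - 1) - mink (P.v (i - 1)) (P.v i) • P.v i) := by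
  rw [tau, P.node_last hk]
  have hv := P.vert hk hn (i - 1)
  rw [sub_add_cancel] at hv
  rw [hv]
  have h := cross_cross (P.v i) (P.v (i - 1)) (P.v i)
  rw [P.unit, one_smul, mink_comm] at h
  have h' : P.v (i - 1) - mink (P.v (i - 1)) (P.v i) • P.v i = -cross (P.v i) (cross (P.v (i - 1)) (P.v i)) := by
    rw [h]; abel
  rw [h']
  ext a
  fin_cases a <;> simp [cross] <;> ring

/-- `node`, `v`, `tau` are independent. -/
theorem det3_frame (hk : 4 ≤ k) (hn : ∀ i : ℤ, 3 ≤ n i) (h1 : i + 1 ≤ j) (h2 : j ≤ i + k - 1) :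
    det3 (P.v i) (P.node i j) (P.tau i j) = 1 := by
  rw [← mink_cross, ← tau]
  exact P.tau_unit hk hn h1 h2

end Polygon

end Pool.Agent.Ads89
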