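import Pool.Agent.W_2fbb77_h89.Leaf3

/-! # MP_2fbb77_gt: the polygon is the cone over its vertices

`side_comb`: `x ∈ P.region` with `mink x (v i) = 0`.  In the plane `(v i)^⊥`, with `a = p i = node i (i+1)`,
`b = p (i-1) = node i (i+k-1)`: `det3 (v i) a b • x = det3 (v i) x b • a + det3 (v i) a x • b` and
`det3 (v i) a b = mink (tau i (i+1)) b > 0` (`order`; see the proof of `node_comb` in `Leaf1.lean`), so `x = α a + β b`; taking
`mink · (v (i+1))`: `mink a (v (i+1)) = 0` (`inc'`), `mink b (v (i+1)) < 0` (`neg` for `p (i-1)`, `i - 1 + 2 = i + 1`), and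
`mink x (v (i+1)) ≤ 0`, so `β ≥ 0`; taking `mink · (v (i-1))` in the same way `α ≥ 0`.

`region_comb`: let `x ∈ P.region`, `q = p 0`, and `φ j = det3 q x (p j)`.  If `x = p 0` take `a = 1`.  Otherwise `q, x` are
independent (both in `H2`, `pos_of_orth`, or directly).  `φ 0 = 0`, `φ k = 0`.  CLAIM: there is `j` with `1 ≤ j ≤ k - 2` such that `φ j`, `φ (j+1)` are
not both of the same strict sign, in the sense that `y = |φ (j+1)| • p j + |φ j| • p (j+1)` satisfies `det3 q x y = 0`: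
it is enough that `φ 1 * φ (k-1) ≤ 0` (discrete intermediate value, induction); and `φ 1`, `φ (k-1)` have opposite weak
signs: `p 1` is on the side 1 of `q = p 0` (sides `i` and `i + 1` meet at `p i`, so `p 0` and `p 1` are on the side 1, `p (k-1) = p (-1)` and
`p 0` are on the side `0`); `det3 q x (p 1) = det3 (p 1) q x`, and `cross (p 1) q` is a multiple of `v 1` (both orthogonal to `v 1`),
`cross (p 1) q = μ • v 1`, so `φ 1 = μ * mink (v 1) x`, `mink (v 1) x ≤ 0`; in the same way `φ (k-1) = μ' * mink (v 0) x`; signs of `μ`, `μ'`: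
apply the same formulas to `x = p 2` (or `node`s): use `order` (`tau i j = cross (v i) (node i j)`), e.g.
`mink (cross (p 1) (p 0)) (v 1) = det3 (p 1) (p 0) (v 1) = det3 (v 1) (p 1) (p 0) = mink (tau 1 2) (node 1 (1+k-1)) > 0`, so `μ > 0`, and
`det3 (p 0) (p (-1)) (v 0) > 0` in the same way, so `φ (k-1) = det3 q x (p (-1)) = - det3 (p 0) (p (-1)) x = - μ'' * mink (v 0) x`,
`μ'' > 0`.  Then `φ 1 ≤ 0 ≤ φ (k-1)`.
Given such a `j` (`φ j ≤ 0 ≤ φ (j+1)`): `y = φ (j+1) • p j - φ j • p (j+1)`, `det3 q x y = 0`.  If `φ j = φ (j+1) = 0` then `q, x` independent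
gives `p j, p (j+1), q` in a plane, contradiction (`mink q (v (j+1)) < 0`, `p j, p (j+1)` independent and orthogonal to `v (j+1)`).
Otherwise `y` is a nonzero nonnegative combination; `y = α q + β x` (`q, x` independent, coplanar); take `mink · (v (j+1))`:
`0 = α mink q (v (j+1)) + β mink x (v (j+1))` with `mink q (v (j+1)) < 0`, `mink x (v (j+1)) ≤ 0`.  If `β > 0` then `α ≤ 0` and
`x = (1/β) y + (-α/β) q`, done.  If `β = 0` then `α = 0`, `y = 0`, contradiction.  If `β < 0` then `α ≥ 0` and, if `α > 0`,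
`α q = y - β x`: `mink · (v 0)` and `mink · (v 1)` vanish at `q`, are `≤ 0` at `y` and `x`, so they vanish at `x`, and `x` is a multiple of
`p 0` (as in `vert`/`expand3`), `x = p 0`; if `α = 0` then `y = β x` has the wrong time direction.
(Any other proof of `region_pos` is welcome: this is the only thing needed.)

`region_pos`: from `region_comb`, `x ≠ 0`. -/

set_option autoImplicit false

noncomputable section

namespace Pool.Agent.Ads89

variable {k : ℕ} {n : ℤ → ℕ} {P : Polygon k n} {w x : Fin 3 → ℝ} {i j l m : ℤ}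

/-- `side_comb` for any vector of the closed cone of the polygon (not assumed to be in `H2`). -/
theorem side_comb' (hk : 4 ≤ k) (hn : ∀ i : ℤ, 3 ≤ n i) (hx : ∀ i : ℤ, mink x (P.v i) ≤ 0) (i : ℤ)
    (h : mink x (P.v i) = 0) : ∃ a b : ℝ, 0 ≤ a ∧ 0 ≤ b ∧ x = a • P.p i + b • P.p (i - 1) := by
  have hk' : (4 : ℤ) ≤ k := by exact_mod_cast hk
  have hD := (P.order hk hn (show i + 1 ≤ i + 1 by omega) (show i + 1 < i + k - 1 by omega)
    (by omega)).1
  rw [P.node_last hk] at hD
  have t1 : det3 (P.v i) (P.p i) (P.p (i - 1)) = mink (P.tau i (i + 1)) (P.p (i - 1)) := by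
    rw [Polygon.tau, P.node_first hk, mink_cross]
  rw [← t1] at hD
  have hv : P.v i ≠ 0 := by
    intro h
    have := P.unit i
    rw [h] at this
    simp [mink] at this
  have s2 := P.inc i
  have s3 := P.inc' (i - 1)
  rw [sub_add_cancel] at s3
  have dz : det3 x (P.p i) (P.p (i - 1)) = 0 :=
    det3_eq_zero hv (by rw [mink_comm]; exact h) (by rw [mink_comm]; exact s2)
      (by rw [mink_comm]; exact s3)
  have cr : det3 (P.v i) (P.p i) (P.p (i - 1)) • x =
      det3 x (P.p i) (P.p (i - 1)) • P.v i +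
      det3 (P.v i) x (P.p (i - 1)) • P.p i +
      det3 (P.v i) (P.p i) x • P.p (i - 1) := by
    ext q
    fin_cases q <;> simp [det3] <;> ring
  rw [dz, zero_smul, zero_add] at cr
  obtain ⟨D, hDdef⟩ : ∃ D, D = det3 (P.v i) (P.p i) (P.p (i - 1)) := ⟨_, rfl⟩
  obtain ⟨A, hA⟩ : ∃ A, A = det3 (P.v i) x (P.p (i - 1)) := ⟨_, rfl⟩
  obtain ⟨B, hB⟩ : ∃ B, B = det3 (P.v i) (P.p i) x := ⟨_, rfl⟩
  rw [← hDdef, ← hA, ← hB] at cr
  rw [← hDdef] at hD
  have hBn : 0 ≤ B := by
    have n1 := P.neg (i - 1) (i + 1) (by omega) (by omega)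
    have n2 := P.inc' i
    have n3 := hx (i + 1)
    have e := congrArg (fun z => mink z (P.v (i + 1))) cr
    simp only [mink_add_left, mink_smul_left, n2, mul_zero, zero_add] at e
    by_contra hc
    have h5 : 0 < B * mink (P.p (i - 1)) (P.v (i + 1)) :=
      mul_pos_of_neg_of_neg (not_le.mp hc) n1
    have h6 : D * mink x (P.v (i + 1)) ≤ 0 := mul_nonpos_of_nonneg_of_nonpos hD.le n3
    linarith
  have hAn : 0 ≤ A := by
    have n1 := P.neg i (i - 1 + k) (by omega) (by omega)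
    rw [P.v_per] at n1
    have n2 := P.inc (i - 1)
    have n3 := hx (i - 1)
    have e := congrArg (fun z => mink z (P.v (i - 1))) cr
    simp only [mink_add_left, mink_smul_left, n2, mul_zero, add_zero] at e
    by_contra hc
    have h5 : 0 < A * mink (P.p i) (P.v (i - 1)) :=
      mul_pos_of_neg_of_neg (not_le.mp hc) n1
    have h6 : D * mink x (P.v (i - 1)) ≤ 0 := mul_nonpos_of_nonneg_of_nonpos hD.le n3
    linarith
  refine ⟨A / D, B / D, div_nonneg hAn hD.le, div_nonneg hBn hD.le, ?_⟩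
  have e2 : x = D⁻¹ • (D • x) := by
    rw [smul_smul, inv_mul_cancel₀ hD.ne', one_smul]
  rw [e2, cr, smul_add, smul_smul, smul_smul, div_eq_inv_mul, div_eq_inv_mul]

theorem side_comb (hk : 4 ≤ k) (hn : ∀ i : ℤ, 3 ≤ n i) (hx : x ∈ P.region) (i : ℤ)
    (h : mink x (P.v i) = 0) : ∃ a b : ℝ, 0 ≤ a ∧ 0 ≤ b ∧ x = a • P.p i + b • P.p (i - 1) :=
  side_comb' hk hn hx.2 i h

/-- The closed cone of the polygon is spanned by the vertices: subtract from `x` the largest multiple of `p 0`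
that leaves it in the cone. -/
theorem cone_comb (hk : 4 ≤ k) (hn : ∀ i : ℤ, 3 ≤ n i) (hx : ∀ i : ℤ, mink x (P.v i) ≤ 0) :
    ∃ (i j : ℤ) (a b c : ℝ), 0 ≤ a ∧ 0 ≤ b ∧ 0 ≤ c ∧
      x = a • P.p 0 + b • P.p i + c • P.p j := by
  have hk' : (4 : ℤ) ≤ k := by exact_mod_cast hk
  have hne : (Finset.Icc (2 : ℤ) (k - 1)).Nonempty := ⟨2, by simp; omega⟩
  obtain ⟨l, hl, hmin⟩ := Finset.exists_min_image _
    (fun l : ℤ => mink x (P.v l) / mink (P.p 0) (P.v l)) hne
  rw [Finset.mem_Icc] at hl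
  have hneg : ∀ m : ℤ, 2 ≤ m → m ≤ k - 1 → mink (P.p 0) (P.v m) < 0 := fun m h1 h2 =>
    P.neg 0 m (by omega) (by omega)
  obtain ⟨r, hr⟩ : ∃ r, r = mink x (P.v l) / mink (P.p 0) (P.v l) := ⟨_, rfl⟩
  have hr0 : 0 ≤ r := by
    rw [hr]
    exact div_nonneg_of_nonpos (hx l) (hneg l hl.1 hl.2).le
  have hz : ∀ m : ℤ, mink (x - r • P.p 0) (P.v m) ≤ 0 := by
    intro m
    obtain ⟨m', h1, h2, h3⟩ := P.v_red hk 0 m
    rw [h3, mink_sub_left, mink_smul_left]
    rcases eq_or_lt_of_le h1 with h | h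
    · have := P.inc 0
      rw [← h, this]
      linarith [hx 0]
    · rcases eq_or_lt_of_le (Int.add_one_le_of_lt h) with h' | h'
      · have := P.inc' 0
        rw [← h', this]
        linarith [hx (0 + 1)]
      · have hm := hmin m' (by rw [Finset.mem_Icc]; omega)
        simp only [← hr] at hm
        have hn' := hneg m' (by omega) (by omega)
        rw [le_div_iff_of_neg hn'] at hm
        linarith
  have hz0 : mink (x - r • P.p 0) (P.v l) = 0 := by
    rw [mink_sub_left, mink_smul_left, hr, div_mul_cancel₀ _ (hneg l hl.1 hl.2).ne, sub_self]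
  obtain ⟨b, c, hb, hc, e⟩ := side_comb' hk hn hz l hz0
  refine ⟨l, l - 1, r, b, c, hr0, hb, hc, ?_⟩
  rw [sub_eq_iff_eq_add] at e
  rw [e]
  abel

theorem region_comb (hk : 4 ≤ k) (hn : ∀ i : ℤ, 3 ≤ n i) (hx : x ∈ P.region) :
    ∃ (i j : ℤ) (a b c : ℝ), 0 ≤ a ∧ 0 ≤ b ∧ 0 ≤ c ∧
      x = a • P.p 0 + b • P.p i + c • P.p j :=
  cone_comb hk hn hx.2

theorem region_pos (hk : 4 ≤ k) (hn : ∀ i : ℤ, 3 ≤ n i) (hx : x ∈ P.region)
    (h : ∀ i : ℤ, 0 < mink (P.p i) w) : 0 < mink x w := by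
  obtain ⟨i, j, a, b, c, ha, hb, hc, e⟩ := region_comb hk hn hx
  have h0 := mul_nonneg ha (h 0).le
  have h1 := mul_nonneg hb (h i).le
  have h2 := mul_nonneg hc (h j).le
  have e1 : mink x w = a * mink (P.p 0) w + b * mink (P.p i) w + c * mink (P.p j) w := by
    rw [e, mink_add_left, mink_add_left, mink_smul_left, mink_smul_left, mink_smul_left]
  rw [e1]
  by_contra hc'
  have z0 : a * mink (P.p 0) w = 0 := by linarith
  have z1 : b * mink (P.p i) w = 0 := by linarith
  have z2 : c * mink (P.p j) w = 0 := by linarith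
  have a0 : a = 0 := (mul_eq_zero.mp z0).resolve_right (h 0).ne'
  have b0 : b = 0 := (mul_eq_zero.mp z1).resolve_right (h i).ne'
  have c0 : c = 0 := (mul_eq_zero.mp z2).resolve_right (h j).ne'
  rw [a0, b0, c0, zero_smul, zero_smul, zero_smul, add_zero, add_zero] at e
  have := hx.1.1
  rw [e] at this
  simp [mink] at this

end Pool.Agent.Ads89
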