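import Pool.Agent.W_2fbb77_h89.Fr3

/-! # MP_2fbb77_gt: rigidity

Two structures: `(u, A, ξ, s)` (upper, polygon `P`, `ς = 1`), `(u, A', ξ', s')` (lower, polygon `Q`, `ς = -1`), heights `h`;
and `(v, B, η, S)`, `(v, B', η', S')`, heights `g`.

`Mt Φ A ξ B η i j`: `B i j = Φ ∘ A i j` and `η i j = Φ (ξ i j)`.
* `exists_phi`: there is a linear isometry with `Mt` for the upper data at the gap `(i, i+1)`: both
  `(A e₁, A e₂, A e₃, ξ)` and `(B e₁, ...)` are orthonormal bases; `expand4` gives the inverse map.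
* `Mt.fwd`, `Mt.bwd`: if `s i j = S i j` then `Mt` at `(i, j-1)` iff `Mt` at `(i, j)`: `A i j` is determined by its values on
  `v i`, `node i j`, `tau i j` (`det3_frame`), given by `side`, `bendN`, `bendA`; `u = A (v i)`.  Backwards: invert
  `bendA`, `bendX`: `A (j-1) τ = cosh s • A j τ + (ς sinh s) • ξ j`, `ξ (j-1) = cosh s • ξ j + (ς sinh s) • A j τ`.
* `Mt.corner`: `Mt` at `(i, i+1)` iff `Mt` at `(i+1, i+k-1)` (`corner`).
* `Mt.vert`: if `Mt` holds for the upper data at `(i, i+1)` and `h i = g i` then it holds for the lower data at `(i, i+1)`: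
  `Φ (u i) = v i` (`side`), `Φ (u (i+1)) = v (i+1)` (`corner`, `side`), `Φ (A' (q i)) = B' (q i)`, `Φ (ξ') = η'` (`Height`), and
  `Q.p i, Q.v i, Q.v (i+1)` are independent (`A' i (i+1) (Q.v (i+1)) = u (i+1)` by `corner`, `side`). -/

set_option autoImplicit false

noncomputable section

namespace Pool.Agent.Ads89

open Real

variable {k : ℕ} {n : ℤ → ℕ}

/-- The linear isometry `Φ` maps the first data to the second data at the gap `(i, j)`. -/
def Mt (Φ : (Fin 4 → ℝ) ≃ₗ[ℝ] (Fin 4 → ℝ)) (A : ℤ → ℤ → (Fin 3 → ℝ) →ₗ[ℝ] (Fin 4 → ℝ))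
    (ξ : ℤ → ℤ → Fin 4 → ℝ) (B : ℤ → ℤ → (Fin 3 → ℝ) →ₗ[ℝ] (Fin 4 → ℝ)) (η : ℤ → ℤ → Fin 4 → ℝ)
    (i j : ℤ) : Prop :=
  (∀ y, B i j y = Φ (A i j y)) ∧ η i j = Φ (ξ i j)

variable {P Q : Polygon k n} {u v : ℤ → Fin 4 → ℝ} {ς : ℝ}
  {A A' B B' : ℤ → ℤ → (Fin 3 → ℝ) →ₗ[ℝ] (Fin 4 → ℝ)} {ξ ξ' η η' : ℤ → ℤ → Fin 4 → ℝ}
  {s s' S S' : ℤ → ℤ → ℝ} {i j : ℤ} {Φ : (Fin 4 → ℝ) ≃ₗ[ℝ] (Fin 4 → ℝ)}

/-- An orthonormal basis of signature `(2,2)`. -/
structure Rig1.Fr (a b c d : Fin 4 → ℝ) : Prop where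
  aa : ads a a = -1
  bb : ads b b = -1
  cc : ads c c = 1
  dd : ads d d = 1
  ab : ads a b = 0
  ac : ads a c = 0
  ad : ads a d = 0
  bc : ads b c = 0
  bd : ads b d = 0
  cd : ads c d = 0

/-- The linear map that maps the basis `a, b, c, d` to `a', b', c', d'`. -/
def Rig1.fmap (a b c d a' b' c' d' : Fin 4 → ℝ) : (Fin 4 → ℝ) →ₗ[ℝ] (Fin 4 → ℝ) where
  toFun := fun x => -ads x a • a' - ads x b • b' + ads x c • c' + ads x d • d'
  map_add' := fun x y => by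
    simp only [ads_add_left]
    module
  map_smul' := fun t x => by
    simp only [ads_smul_left, RingHom.id_apply]
    module

theorem Rig1.fmap_apply (a b c d a' b' c' d' x : Fin 4 → ℝ) :
    Rig1.fmap a b c d a' b' c' d' x =
      -ads x a • a' - ads x b • b' + ads x c • c' + ads x d • d' := rfl

theorem Rig1.Fr.coords {a b c d : Fin 4 → ℝ} (H : Rig1.Fr a b c d) (p q r t : ℝ) :
    ads (-p • a - q • b + r • c + t • d) a = p ∧ ads (-p • a - q • b + r • c + t • d) b = q ∧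
    ads (-p • a - q • b + r • c + t • d) c = r ∧ ads (-p • a - q • b + r • c + t • d) d = t := by
  refine ⟨?_, ?_, ?_, ?_⟩
  · simp only [ads_add_left, ads_sub_left, ads_smul_left, H.aa, ads_comm b a, ads_comm c a,
      ads_comm d a, H.ab, H.ac, H.ad]
    ring
  · simp only [ads_add_left, ads_sub_left, ads_smul_left, H.ab, H.bb, ads_comm c b,
      ads_comm d b, H.bc, H.bd]
    ring
  · simp only [ads_add_left, ads_sub_left, ads_smul_left, H.ac, H.bc, H.cc, ads_comm d c, H.cd]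
    ring
  · simp only [ads_add_left, ads_sub_left, ads_smul_left, H.ad, H.bd, H.cd, H.dd]
    ring

theorem Rig1.Fr.expand {a b c d : Fin 4 → ℝ} (H : Rig1.Fr a b c d) (x : Fin 4 → ℝ) :
    x = -ads x a • a - ads x b • b + ads x c • c + ads x d • d :=
  expand4 H.aa H.bb H.cc H.dd H.ab H.ac H.ad H.bc H.bd H.cd x

theorem Rig1.Fr.left_inv {a b c d a' b' c' d' : Fin 4 → ℝ} (H : Rig1.Fr a b c d)
    (H' : Rig1.Fr a' b' c' d') (x : Fin 4 → ℝ) :
    Rig1.fmap a' b' c' d' a b c d (Rig1.fmap a b c d a' b' c' d' x) = x := by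
  obtain ⟨h1, h2, h3, h4⟩ := H'.coords (ads x a) (ads x b) (ads x c) (ads x d)
  rw [Rig1.fmap_apply a' b' c' d' a b c d, Rig1.fmap_apply a b c d a' b' c' d' x, h1, h2, h3, h4]
  exact (H.expand x).symm

theorem Rig1.Fr.exists_iso {a b c d a' b' c' d' : Fin 4 → ℝ} (H : Rig1.Fr a b c d)
    (H' : Rig1.Fr a' b' c' d') : ∃ Φ : (Fin 4 → ℝ) ≃ₗ[ℝ] (Fin 4 → ℝ),
      (∀ x y, ads (Φ x) (Φ y) = ads x y) ∧ Φ a = a' ∧ Φ b = b' ∧ Φ c = c' ∧ Φ d = d' := by
  refine ⟨LinearEquiv.ofLinearMap (Rig1.fmap a b c d a' b' c' d') (Rig1.fmap a' b' c' d' a b c d)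
    (LinearMap.ext fun x => ?_) (LinearMap.ext fun x => ?_), fun x y => ?_, ?_, ?_, ?_, ?_⟩
  · exact H'.left_inv H x
  · exact H.left_inv H' x
  · show ads (Rig1.fmap a b c d a' b' c' d' x) (Rig1.fmap a b c d a' b' c' d' y) = ads x y
    conv_rhs => rw [H.expand y]
    obtain ⟨h1, h2, h3, h4⟩ := H'.coords (ads x a) (ads x b) (ads x c) (ads x d)
    rw [Rig1.fmap_apply a b c d a' b' c' d' y, ← Rig1.fmap_apply a b c d a' b' c' d' x] at *
    simp only [ads_add_right, ads_sub_right, ads_smul_right, h1, h2, h3, h4]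
  · show Rig1.fmap a b c d a' b' c' d' a = a'
    rw [Rig1.fmap_apply, H.aa, H.ab, H.ac, H.ad]
    module
  · show Rig1.fmap a b c d a' b' c' d' b = b'
    rw [Rig1.fmap_apply, ads_comm b a, H.ab, H.bb, H.bc, H.bd]
    module
  · show Rig1.fmap a b c d a' b' c' d' c = c'
    rw [Rig1.fmap_apply, ads_comm c a, ads_comm c b, H.ac, H.bc, H.cc, H.cd]
    module
  · show Rig1.fmap a b c d a' b' c' d' d = d'
    rw [Rig1.fmap_apply, ads_comm d a, ads_comm d b, ads_comm d c, H.ad, H.bd, H.cd, H.dd]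
    module

theorem Rig1.bd_frame (hk : 4 ≤ k) (HA : BD P u ς A ξ s) (i : ℤ) :
    Rig1.Fr (ξ i (i + 1)) (A i (i + 1) ![0, 0, 1]) (A i (i + 1) ![1, 0, 0])
      (A i (i + 1) ![0, 1, 0]) := by
  have hk' : (4 : ℤ) ≤ k := by exact_mod_cast hk
  have h1 : i + 1 ≤ i + 1 := le_rfl
  have h2 : i + 1 ≤ i + k - 2 := by omega
  refine ⟨HA.nrm i _ h1 h2, ?_, ?_, ?_, ?_, ?_, ?_, ?_, ?_, ?_⟩
  · rw [HA.iso i _ h1 h2]; simp [mink]
  · rw [HA.iso i _ h1 h2]; simp [mink]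
  · rw [HA.iso i _ h1 h2]; simp [mink]
  · rw [ads_comm]; exact HA.perp i _ h1 h2 _
  · rw [ads_comm]; exact HA.perp i _ h1 h2 _
  · rw [ads_comm]; exact HA.perp i _ h1 h2 _
  · rw [HA.iso i _ h1 h2]; simp [mink]
  · rw [HA.iso i _ h1 h2]; simp [mink]
  · rw [HA.iso i _ h1 h2]; simp [mink]

theorem exists_phi (hk : 4 ≤ k) (HA : BD P u ς A ξ s) (HB : BD P v ς B η S) (i : ℤ) :
    ∃ Φ : (Fin 4 → ℝ) ≃ₗ[ℝ] (Fin 4 → ℝ), (∀ x y, ads (Φ x) (Φ y) = ads x y) ∧
      Mt Φ A ξ B η i (i + 1) := by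
  obtain ⟨Φ, h0, h1, h2, h3, h4⟩ := (Rig1.bd_frame hk HA i).exists_iso (Rig1.bd_frame hk HB i)
  refine ⟨Φ, h0, ?_, h1.symm⟩
  have he : B i (i + 1) = (Φ : (Fin 4 → ℝ) →ₗ[ℝ] (Fin 4 → ℝ)) ∘ₗ A i (i + 1) := by
    refine linear_ext (a := ![1, 0, 0]) (b := ![0, 1, 0]) (c := ![0, 0, 1]) ?_ ?_ ?_ ?_
    · simp [det3]
    · exact h3.symm
    · exact h4.symm
    · exact h2.symm
  intro y
  rw [he]
  rfl

theorem Mt.fwd (hk : 4 ≤ k) (hn : ∀ i : ℤ, 3 ≤ n i) (HA : BD P u ς A ξ s) (HB : BD P v ς B η S)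
    (h1 : i + 2 ≤ j) (h2 : j ≤ i + k - 2) (hs : s i j = S i j) (h : Mt Φ A ξ B η i (j - 1)) :
    Mt Φ A ξ B η i j := by
  have e1 : Φ (u i) = v i := by
    rw [← HA.side i (j - 1) (by omega) (by omega), ← HB.side i (j - 1) (by omega) (by omega), h.1]
  refine ⟨?_, ?_⟩
  · have he : B i j = (Φ : (Fin 4 → ℝ) →ₗ[ℝ] (Fin 4 → ℝ)) ∘ₗ A i j := by
      refine linear_ext (a := P.v i) (b := P.node i j) (c := P.tau i j) ?_ ?_ ?_ ?_
      · rw [P.det3_frame hk hn (by omega) (by omega)]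
        exact one_ne_zero
      · show B i j (P.v i) = Φ (A i j (P.v i))
        rw [HA.side i j (by omega) h2, HB.side i j (by omega) h2, e1]
      · show B i j (P.node i j) = Φ (A i j (P.node i j))
        rw [HA.bendN i j h1 h2, HB.bendN i j h1 h2, h.1]
      · show B i j (P.tau i j) = Φ (A i j (P.tau i j))
        rw [HA.bendA i j h1 h2, HB.bendA i j h1 h2, h.1, h.2, ← hs, map_sub, map_smul, map_smul]
    intro y
    rw [he]
    rfl
  · rw [HA.bendX i j h1 h2, HB.bendX i j h1 h2, h.1, h.2, ← hs, map_sub, map_smul, map_smul]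

theorem Rig1.unbend (hς : ς = 1 ∨ ς = -1) (HA : BD P u ς A ξ s) (h1 : i + 2 ≤ j)
    (h2 : j ≤ i + k - 2) :
    A i (j - 1) (P.tau i j) = cosh (s i j) • A i j (P.tau i j) + (ς * sinh (s i j)) • ξ i j ∧
    ξ i (j - 1) = cosh (s i j) • ξ i j + (ς * sinh (s i j)) • A i j (P.tau i j) := by
  have hc := cosh_sq (s i j)
  have hsq : ς * ς = 1 := by
    rcases hς with h | h <;> rw [h] <;> norm_num
  rw [HA.bendA i j h1 h2, HA.bendX i j h1 h2]
  have e : cosh (s i j) * cosh (s i j) - (ς * sinh (s i j)) * (ς * sinh (s i j)) = 1 := by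
    linear_combination hc - sinh (s i j) ^ 2 * hsq
  constructor
  · rw [smul_sub, smul_sub, smul_smul, smul_smul, smul_smul, smul_smul,
      mul_comm (cosh (s i j)) (ς * sinh (s i j)), sub_add_sub_cancel, ← sub_smul, e, one_smul]
  · rw [smul_sub, smul_sub, smul_smul, smul_smul, smul_smul, smul_smul,
      mul_comm (cosh (s i j)) (ς * sinh (s i j)), sub_add_sub_cancel, ← sub_smul, e, one_smul]

theorem Mt.bwd (hk : 4 ≤ k) (hn : ∀ i : ℤ, 3 ≤ n i) (hς : ς = 1 ∨ ς = -1) (HA : BD P u ς A ξ s)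
    (HB : BD P v ς B η S) (h1 : i + 2 ≤ j) (h2 : j ≤ i + k - 2) (hs : s i j = S i j)
    (h : Mt Φ A ξ B η i j) : Mt Φ A ξ B η i (j - 1) := by
  have e1 : Φ (u i) = v i := by
    rw [← HA.side i j (by omega) (by omega), ← HB.side i j (by omega) (by omega), h.1]
  obtain ⟨a1, a2⟩ := Rig1.unbend hς HA h1 h2
  obtain ⟨b1, b2⟩ := Rig1.unbend hς HB h1 h2
  refine ⟨?_, ?_⟩
  · have he : B i (j - 1) = (Φ : (Fin 4 → ℝ) →ₗ[ℝ] (Fin 4 → ℝ)) ∘ₗ A i (j - 1) := by
      refine linear_ext (a := P.v i) (b := P.node i j) (c := P.tau i j) ?_ ?_ ?_ ?_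
      · rw [P.det3_frame hk hn (by omega) (by omega)]
        exact one_ne_zero
      · show B i (j - 1) (P.v i) = Φ (A i (j - 1) (P.v i))
        rw [HA.side i (j - 1) (by omega) (by omega), HB.side i (j - 1) (by omega) (by omega), e1]
      · show B i (j - 1) (P.node i j) = Φ (A i (j - 1) (P.node i j))
        rw [← HA.bendN i j h1 h2, ← HB.bendN i j h1 h2, h.1]
      · show B i (j - 1) (P.tau i j) = Φ (A i (j - 1) (P.tau i j))
        rw [a1, b1, h.1, h.2, ← hs, map_add, map_smul, map_smul]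
    intro y
    rw [he]
    rfl
  · rw [a2, b2, h.1, h.2, ← hs, map_add, map_smul, map_smul]

theorem Mt.corner (HA : BD P u ς A ξ s) (HB : BD P v ς B η S) (i : ℤ) :
    Mt Φ A ξ B η i (i + 1) ↔ Mt Φ A ξ B η (i + 1) (i + k - 1) := by
  unfold Mt
  rw [(HA.corner i).1, (HA.corner i).2, (HB.corner i).1, (HB.corner i).2]

theorem Mt.vert (hk : 4 ≤ k) (hn : ∀ i : ℤ, 3 ≤ n i) (HA : BD P u 1 A ξ s) (HB : BD P v 1 B η S)
    (HA' : BD Q u (-1) A' ξ' s') (HB' : BD Q v (-1) B' η' S') {h : ℝ}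
    (h1 : Height P Q A A' ξ ξ' i h) (h2 : Height P Q B B' η η' i h) (hm : Mt Φ A ξ B η i (i + 1)) :
    Mt Φ A' ξ' B' η' i (i + 1) := by
  have hk' : (4 : ℤ) ≤ k := by exact_mod_cast hk
  have e1 : Φ (u i) = v i := by
    rw [← HA.side i (i + 1) (by omega) (by omega), ← HB.side i (i + 1) (by omega) (by omega),
      hm.1]
  have e2 : Φ (u (i + 1)) = v (i + 1) := by
    rw [← HA.side (i + 1) (i + k - 1) (by omega) (by omega),
      ← HB.side (i + 1) (i + k - 1) (by omega) (by omega), (HA.corner i).1, (HB.corner i).1, hm.1]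
  obtain ⟨_, _, p1, x1⟩ := h1
  obtain ⟨_, _, p2, x2⟩ := h2
  refine ⟨?_, ?_⟩
  · have he : B' i (i + 1) = (Φ : (Fin 4 → ℝ) →ₗ[ℝ] (Fin 4 → ℝ)) ∘ₗ A' i (i + 1) := by
      refine linear_ext (a := Q.v i) (b := Q.node i (i + 1)) (c := Q.tau i (i + 1)) ?_ ?_ ?_ ?_
      · rw [Q.det3_frame hk hn (by omega) (by omega)]
        exact one_ne_zero
      · show B' i (i + 1) (Q.v i) = Φ (A' i (i + 1) (Q.v i))
        rw [HA'.side i (i + 1) (by omega) (by omega), HB'.side i (i + 1) (by omega) (by omega), e1]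
      · show B' i (i + 1) (Q.node i (i + 1)) = Φ (A' i (i + 1) (Q.node i (i + 1)))
        rw [Q.node_first hk, p1, p2, map_sub, map_smul, map_smul, hm.1, hm.2]
      · show B' i (i + 1) (Q.tau i (i + 1)) = Φ (A' i (i + 1) (Q.tau i (i + 1)))
        have q1 : A' i (i + 1) (Q.v (i + 1)) = u (i + 1) := by
          rw [← (HA'.corner i).1]
          exact HA'.side (i + 1) (i + k - 1) (by omega) (by omega)
        have q2 : B' i (i + 1) (Q.v (i + 1)) = v (i + 1) := by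
          rw [← (HB'.corner i).1]
          exact HB'.side (i + 1) (i + k - 1) (by omega) (by omega)
        have q3 := HA'.side i (i + 1) (by omega) (by omega)
        have q4 := HB'.side i (i + 1) (by omega) (by omega)
        rw [Q.tau_first hk hn]
        simp only [map_smul, map_sub, q1, q2, q3, q4, e1, e2]
    intro y
    rw [he]
    rfl
  · rw [x1, x2, map_add, map_smul, map_smul, hm.1, hm.2]

end Pool.Agent.Ads89
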