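import Pool.Agent.W_2fbb77_h89.Poly2

/-! # MP_2fbb77_gt: reflections at a vertex

`Mv P x y`: `y` is obtained from `x` by finitely many reflections in the sides of `P`.

`fold`: every point of `H2` can be moved by reflections in the sides `i`, `i + 1` into the angle at the vertex `p i`.
Let `α = π / n i`, `p = p i`, `v = v i`, `v' = v (i+1)`, `τ = tau i (i+1) = cross v p`: `mink p p = -1`, `v, τ` orthonormal, orthogonal to `p`;
`mink v v' = - cos α` (`angle`), `sin α = √(1 - cos² α) > 0`, and by `tau_first`: `v' = - cos α • v - sin α • τ`.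
For `x` put `X = mink x v`, `Y = mink x τ`; there are `r ≥ 0`, `θ` with `X = - r sin θ`, `Y = r cos θ` (polar coordinates, e.g.
`Complex.norm_mul_cos_arg`, `Complex.norm_mul_sin_arg`, or `Complex.abs`-lemmas), and then `mink x v' = r sin (θ - α)`.
`refl3 v x` has the same `mink · p` and `Y`, and `X` changes sign: `θ` becomes `- θ`.  `refl3 v' x` has the same `mink · p`, and
`θ` becomes `2 α - θ` (`X ↦ X - 2 mink x v' * mink v' v = - r sin θ + 2 r sin (θ - α) cos α = - r sin (2 α - θ)`,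
`Y ↦ Y - 2 mink x v' * mink v' τ = r cos θ + 2 r sin (θ - α) sin α = r cos (2 α - θ)`).
CLAIM by induction on `m : ℕ`: if `|θ| ≤ (2 m + 1) α` then `x` can be moved to `y ∈ H2` with `y` in the angle, `mink y p = mink x p`.
`m = 0`: if `θ ≥ 0` then `X ≤ 0` and `mink x v' ≤ 0` (`0 ≤ θ ≤ α < π`); otherwise apply `refl3 v`.
`m + 1`: if `|θ| ≤ (2 m + 1) α`: induction.  If `θ > (2 m + 1) α`: `refl3 v'` gives `2 α - θ ∈ [-(2 m + 1) α, α]`: induction.
If `θ < 0`: first `refl3 v`.  Such an `m` exists (Archimedes).  `refl3` maps `H2` to `H2` (`Mv.mem`):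
`mink (refl3 v x) (refl3 v x) = mink x x` and `mem_H2_of_mink` (or `mink x (refl3 v x) = -1 - 2 (mink x v)² < 0`). -/

set_option autoImplicit false

noncomputable section

namespace Pool.Agent.Ads89

variable {k : ℕ} {n : ℤ → ℕ} {P : Polygon k n} {x y z : Fin 3 → ℝ}

/-- `y` is obtained from `x` by finitely many reflections in the sides of `P`. -/
inductive Mv (P : Polygon k n) : (Fin 3 → ℝ) → (Fin 3 → ℝ) → Prop
  | refl (x : Fin 3 → ℝ) : Mv P x x
  | step (x y : Fin 3 → ℝ) (i : ℤ) : Mv P x y → Mv P x (refl3 (P.v i) y)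

theorem Mv.trans (h : Mv P x y) (h' : Mv P y z) : Mv P x z := by
  induction h' with
  | refl => exact h
  | step _ i _ ih => exact Mv.step _ _ i ih

theorem refl3_mem (P : Polygon k n) (i : ℤ) (hx : x ∈ H2) : refl3 (P.v i) x ∈ H2 := by
  have h1 := P.unit i
  have h2 := hx.1
  refine mem_H2_of_mink hx ?_ ?_
  · unfold refl3
    rw [mink_sub_left, mink_sub_right, mink_sub_right, mink_smul_left, mink_smul_left,
      mink_smul_right, mink_smul_right, h1, mink_comm (P.v i) x, h2]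
    ring
  · unfold refl3
    rw [mink_sub_right, mink_smul_right, h2]
    nlinarith [sq_nonneg (mink x (P.v i))]

theorem Mv.mem (h : Mv P x y) (hx : x ∈ H2) : y ∈ H2 := by
  induction h with
  | refl => exact hx
  | step _ i _ ih => exact refl3_mem P i ih

private theorem tileA_refl (P : Polygon k n) (i : ℤ) (x : Fin 3 → ℝ) :
    Mv P x (refl3 (P.v i) x) := Mv.step _ _ i (Mv.refl x)

private theorem tileA_mink (v x w : Fin 3 → ℝ) :
    mink (refl3 v x) w = mink x w - 2 * mink x v * mink v w := by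
  unfold refl3
  rw [mink_sub_left, mink_smul_left]

/-- the induction, in polar coordinates -/
private theorem tileA_ind {P : Polygon k n} {i : ℤ} {τ : Fin 3 → ℝ} {α : ℝ} (hα : 0 < α)
    (hα2 : α < Real.pi) (hv : P.v (i + 1) = -Real.cos α • P.v i - Real.sin α • τ)
    (hτv : mink τ (P.v i) = 0) (hττ : mink τ τ = 1) (m : ℕ) :
    ∀ (x : Fin 3 → ℝ) (r θ : ℝ), x ∈ H2 → 0 ≤ r → mink x (P.v i) = -(r * Real.sin θ) →
      mink x τ = r * Real.cos θ → 0 ≤ θ → θ ≤ (2 * m + 1) * α →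
      ∃ y ∈ H2, Mv P x y ∧ mink y (P.v i) ≤ 0 ∧ mink y (P.v (i + 1)) ≤ 0 ∧
        mink y (P.p i) = mink x (P.p i) := by
  have hpi := Real.pi_pos
  have hxv' : ∀ (x : Fin 3 → ℝ) (r θ : ℝ), mink x (P.v i) = -(r * Real.sin θ) →
      mink x τ = r * Real.cos θ → mink x (P.v (i + 1)) = r * Real.sin (θ - α) := by
    intro x r θ h1 h2
    rw [hv, mink_sub_right, mink_smul_right, mink_smul_right, h1, h2, Real.sin_sub]
    ring
  have hvp : mink (P.v i) (P.p i) = 0 := by rw [mink_comm, P.inc i]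
  have hvp' : mink (P.v (i + 1)) (P.p i) = 0 := by rw [mink_comm, P.inc' i]
  have hv'v : mink (P.v (i + 1)) (P.v i) = -Real.cos α := by
    rw [hv, mink_sub_left, mink_smul_left, mink_smul_left, hτv, P.unit i]
    ring
  have hv'τ : mink (P.v (i + 1)) τ = -Real.sin α := by
    rw [hv, mink_sub_left, mink_smul_left, mink_smul_left, hττ, mink_comm (P.v i) τ, hτv]
    ring
  induction m with
  | zero =>
    intro x r θ hx hr h1 h2 hθ hθ'
    refine ⟨x, hx, Mv.refl x, ?_, ?_, rfl⟩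
    · rw [h1]
      have h3 := Real.sin_nonneg_of_nonneg_of_le_pi hθ (by push_cast at hθ'; linarith)
      nlinarith [mul_nonneg hr h3]
    · rw [hxv' x r θ h1 h2]
      have h3 : 0 ≤ Real.sin (α - θ) := Real.sin_nonneg_of_nonneg_of_le_pi
        (by push_cast at hθ'; linarith) (by linarith)
      have h4 : Real.sin (θ - α) = -Real.sin (α - θ) := by
        rw [← Real.sin_neg]
        congr 1
        ring
      rw [h4]
      nlinarith [mul_nonneg hr h3]
  | succ m ih =>
    intro x r θ hx hr h1 h2 hθ hθ'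
    have hm : (0 : ℝ) ≤ m := Nat.cast_nonneg m
    have hmα : 0 ≤ (m : ℝ) * α := mul_nonneg hm hα.le
    push_cast at hθ'
    by_cases hc : θ ≤ (2 * m + 1) * α
    · exact ih x r θ hx hr h1 h2 hθ hc
    push Not at hc
    have hb := hxv' x r θ h1 h2
    obtain ⟨β, hβ⟩ : ∃ β, β = θ - α := ⟨_, rfl⟩
    have hθβ : θ = β + α := by rw [hβ]; ring
    have e1 : mink (refl3 (P.v (i + 1)) x) (P.v i) = -(r * Real.sin (2 * α - θ)) := by
      rw [tileA_mink, hb, h1, hv'v, ← hβ]
      have h3 : 2 * α - θ = α - β := by rw [hβ]; ring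
      rw [h3, hθβ, Real.sin_add, Real.sin_sub]
      ring
    have e2 : mink (refl3 (P.v (i + 1)) x) τ = r * Real.cos (2 * α - θ) := by
      rw [tileA_mink, hb, h2, hv'τ, ← hβ]
      have h3 : 2 * α - θ = α - β := by rw [hβ]; ring
      rw [h3, hθβ, Real.cos_add, Real.cos_sub]
      ring
    have e3 : mink (refl3 (P.v (i + 1)) x) (P.p i) = mink x (P.p i) := by
      rw [tileA_mink, hvp', mul_zero, sub_zero]
    have hx' := refl3_mem P (i + 1) hx
    by_cases hc2 : 0 ≤ 2 * α - θ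
    · obtain ⟨y, hy1, hy2, hy3, hy4, hy5⟩ := ih _ r (2 * α - θ) hx' hr e1 e2 hc2 (by
        nlinarith)
      exact ⟨y, hy1, (tileA_refl P (i + 1) x).trans hy2, hy3, hy4, hy5.trans e3⟩
    · push Not at hc2
      obtain ⟨x', hx'd⟩ : ∃ x', x' = refl3 (P.v (i + 1)) x := ⟨_, rfl⟩
      rw [← hx'd] at e1 e2 e3 hx'
      have f1 : mink (refl3 (P.v i) x') (P.v i) = -(r * Real.sin (-(2 * α - θ))) := by
        rw [tileA_mink, e1, P.unit i, Real.sin_neg]
        ring
      have f2 : mink (refl3 (P.v i) x') τ = r * Real.cos (-(2 * α - θ)) := by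
        rw [tileA_mink, e2, mink_comm (P.v i) τ, hτv, mul_zero, sub_zero, Real.cos_neg]
      have f3 : mink (refl3 (P.v i) x') (P.p i) = mink x' (P.p i) := by
        rw [tileA_mink, hvp, mul_zero, sub_zero]
      obtain ⟨y, hy1, hy2, hy3, hy4, hy5⟩ := ih _ r (-(2 * α - θ)) (refl3_mem P i hx') hr f1 f2
        (by linarith) (by nlinarith)
      refine ⟨y, hy1, ?_, hy3, hy4, (hy5.trans f3).trans e3⟩
      refine (tileA_refl P (i + 1) x).trans ?_
      rw [← hx'd]
      exact (tileA_refl P i x').trans hy2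

theorem fold (hk : 4 ≤ k) (hn : ∀ i : ℤ, 3 ≤ n i) (P : Polygon k n) (i : ℤ) (hx : x ∈ H2) :
    ∃ y ∈ H2, Mv P x y ∧ mink y (P.v i) ≤ 0 ∧ mink y (P.v (i + 1)) ≤ 0 ∧
      mink y (P.p i) = mink x (P.p i) := by
  have hpi := Real.pi_pos
  obtain ⟨α, hαd⟩ : ∃ α, α = Real.pi / n i := ⟨_, rfl⟩
  have hn3 : (3 : ℝ) ≤ n i := by exact_mod_cast hn i
  have hα : 0 < α := by
    rw [hαd]
    positivity
  have hα2 : α < Real.pi := by
    rw [hαd, div_lt_iff₀ (by linarith)]
    nlinarith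
  have hs : 0 < Real.sin α := Real.sin_pos_of_pos_of_lt_pi hα hα2
  have hang : mink (P.v i) (P.v (i + 1)) = -Real.cos α := by rw [hαd, P.angle i]
  have hk' : (4 : ℤ) ≤ k := by exact_mod_cast hk
  obtain ⟨τ, hτd⟩ : ∃ τ, τ = P.tau i (i + 1) := ⟨_, rfl⟩
  have hτv : mink τ (P.v i) = 0 := by
    rw [hτd]
    exact P.tau_side i (i + 1)
  have hττ : mink τ τ = 1 := by
    rw [hτd]
    exact P.tau_unit hk hn le_rfl (by omega)
  have hsq : √(1 - mink (P.v i) (P.v (i + 1)) ^ 2) = Real.sin α := by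
    rw [hang]
    have h1 : 1 - (-Real.cos α) ^ 2 = Real.sin α ^ 2 := by
      have := Real.sin_sq_add_cos_sq α
      linarith [neg_sq (Real.cos α)]
    rw [h1, Real.sqrt_sq hs.le]
  have hv : P.v (i + 1) = -Real.cos α • P.v i - Real.sin α • τ := by
    have h1 := P.tau_first hk hn i
    rw [← hτd, hsq, hang] at h1
    rw [h1, smul_smul]
    have h2 : Real.sin α * -(1 / Real.sin α) = -1 := by
      field_simp
    rw [h2, neg_one_smul, sub_neg_eq_add, add_sub_cancel]
  have hvp : mink (P.v i) (P.p i) = 0 := by rw [mink_comm, P.inc i]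
  -- polar coordinates
  obtain ⟨r, θ, hr, h1, h2⟩ : ∃ r θ : ℝ, 0 ≤ r ∧ mink x (P.v i) = -(r * Real.sin θ) ∧
      mink x τ = r * Real.cos θ := by
    refine ⟨‖(⟨mink x τ, -mink x (P.v i)⟩ : ℂ)‖, Complex.arg ⟨mink x τ, -mink x (P.v i)⟩,
      norm_nonneg _, ?_, ?_⟩
    · rw [Complex.norm_mul_sin_arg]
      ring
    · rw [Complex.norm_mul_cos_arg]
  by_cases hθ : 0 ≤ θ
  · obtain ⟨m, hm⟩ := exists_nat_ge (θ / α)
    have h3 : θ ≤ m * α := (div_le_iff₀ hα).1 hm
    have hmα : 0 ≤ (m : ℝ) * α := mul_nonneg (Nat.cast_nonneg m) hα.le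
    exact tileA_ind hα hα2 hv hτv hττ m x r θ hx hr h1 h2 hθ (by nlinarith)
  · push Not at hθ
    obtain ⟨m, hm⟩ := exists_nat_ge (-θ / α)
    have h3 : -θ ≤ m * α := (div_le_iff₀ hα).1 hm
    have hmα : 0 ≤ (m : ℝ) * α := mul_nonneg (Nat.cast_nonneg m) hα.le
    have f1 : mink (refl3 (P.v i) x) (P.v i) = -(r * Real.sin (-θ)) := by
      rw [tileA_mink, h1, P.unit i, Real.sin_neg]
      ring
    have f2 : mink (refl3 (P.v i) x) τ = r * Real.cos (-θ) := by
      rw [tileA_mink, h2, mink_comm (P.v i) τ, hτv, mul_zero, sub_zero, Real.cos_neg]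
    have f3 : mink (refl3 (P.v i) x) (P.p i) = mink x (P.p i) := by
      rw [tileA_mink, hvp, mul_zero, sub_zero]
    obtain ⟨y, hy1, hy2, hy3, hy4, hy5⟩ := tileA_ind hα hα2 hv hτv hττ m _ r (-θ)
      (refl3_mem P i hx) hr f1 f2 (by linarith) (by nlinarith)
    exact ⟨y, hy1, (tileA_refl P i x).trans hy2, hy3, hy4, hy5.trans f3⟩

end Pool.Agent.Ads89
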