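import Pool.Agent.W_2fbb77_h89.TileA

/-! # MP_2fbb77_gt: points near the polygon

`near_vertex`: let `q ∈ P.region`, `q ≠ p i` allowed: here `y ∈ H2`, `β = - mink (p i) (v j) > 0`; if `(mink y (p i))² < 1 + β²`
then `mink y (v j) < 0`: by `gram3` for `y`, `p i`, `v j` with `c = - mink y (p i) ≥ 1` (`mink_le_neg_one`), `γ = mink y (v j)`:
`1 + β² - c² + 2 c β γ + γ² ≤ 0`; if `γ ≥ 0` this gives `c² ≥ 1 + β²`.

`local_move`: for `q ∈ P.region` there is `ε > 0` such that every `z ∈ H2` with `dist z q < ε` can be moved into the polygon.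
* At most one or two sides contain `q`: if `mink q (v i) = 0 = mink q (v j)`, `i < j < i + k`, then by `orth_unit`
  `|mink (v i) (v j)| < 1` (or `v i = ± v j`, excluded by `g_neg` and `unit`... `mink (v i) (v j) = ± 1`: `far` for `i + 2 ≤ j ≤ i + k - 2`,
  `g_adj` otherwise), so `j = i + 1` or `j = i + k - 1` by `far`; and if `j = i + 1`: `q` is orthogonal to `v i`, `v (i+1)`, so a multiple
  of `p i` (`expand3`), `q = p i`.
* Case 1: `q = p i` for some `i`.  For `z` near `q`: `(mink z (p i))²` is near `1`, so (finitely many `j`, `i + 2 ≤ j ≤ i + k - 1`, `neg`) smaller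
  than `1 + (mink (p i) (v j))²` for all these `j`.  `fold` moves `z` to `y` in the angle with the same `mink · (p i)`, so `mink y (v j) < 0` for
  the other sides by `near_vertex`, and `y ∈ P.region` (all `l : ℤ` by `v_per`: `v_red`).
* Case 2: `mink q (v i) = 0` for some `i`, `q` not a vertex: `mink q (v j) < 0` for `i < j < i + k`.  For `z` near `q` also
  `mink z (v j) < 0` and `mink (refl3 (v i) z) (v j) < 0` (continuity, `refl3 (v i) q = q`, finitely many `j`).  If `mink z (v i) ≤ 0` then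
  `z ∈ P.region`, otherwise `refl3 (v i) z ∈ P.region`.
* Case 3: `mink q (v i) < 0` for all `i`: `z ∈ P.region` for `z` near `q`. -/

set_option autoImplicit false

noncomputable section

namespace Pool.Agent.Ads89

variable {k : ℕ} {n : ℤ → ℕ} {P : Polygon k n} {x y z q : Fin 3 → ℝ}

theorem near_vertex (P : Polygon k n) (i j : ℤ) (hy : y ∈ H2) (hb : mink (P.p i) (P.v j) < 0)
    (h : mink y (P.p i) ^ 2 < 1 + mink (P.p i) (P.v j) ^ 2) : mink y (P.v j) < 0 := by
  by_contra hc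
  rw [not_lt] at hc
  have h1 := gram3 y (P.p i) (P.v j)
  have h2 := mink_le_neg_one hy (P.mem i)
  rw [hy.1, (P.mem i).1, P.unit j] at h1
  have h3 := sq_nonneg (det3 y (P.p i) (P.v j))
  have h4 : 0 ≤ mink y (P.p i) * mink (P.p i) (P.v j) :=
    mul_nonneg_of_nonpos_of_nonpos (by linarith) hb.le
  have h5 : 0 ≤ mink y (P.p i) * mink (P.p i) (P.v j) * mink y (P.v j) := mul_nonneg h4 hc
  nlinarith [sq_nonneg (mink y (P.v j))]

open Filter Topology in
private theorem TileB_lt {f : (Fin 3 → ℝ) → ℝ} (hf : Continuous f) {c : ℝ} (h : f q < c) :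
    ∀ᶠ z in 𝓝 q, f z < c :=
  (hf.tendsto q).eventually_lt_const h

private theorem TileB_cont (w : Fin 3 → ℝ) : Continuous fun z : Fin 3 → ℝ => mink z w := by
  unfold mink
  fun_prop

private theorem TileB_region (hk : 4 ≤ k) (P : Polygon k n) (i : ℤ) (hy : y ∈ H2)
    (h : ∀ l : ℤ, i ≤ l → l ≤ i + k - 1 → mink y (P.v l) ≤ 0) : y ∈ P.region := by
  refine ⟨hy, fun l => ?_⟩
  obtain ⟨l', h1, h2, h3⟩ := P.v_red hk i l
  rw [h3]
  exact h l' h1 h2

private theorem TileB_eq (hk : 4 ≤ k) (P : Polygon k n) (i : ℤ) (hq : q ∈ H2)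
    (h1 : mink q (P.v i) = 0) (h2 : mink q (P.v (i + 1)) = 0) : q = P.p i := by
  have hk' : (4 : ℤ) ≤ k := by exact_mod_cast hk
  have hD := P.orient3 hk i (i + 1) (i + 2) (by omega) (by omega) (by omega)
  have hm := P.neg i (i + 2) (by omega) (by omega)
  have e1 := expand3 (P.v i) (P.v (i + 1)) (P.v (i + 2)) q
  have e2 := expand3 (P.v i) (P.v (i + 1)) (P.v (i + 2)) (P.p i)
  rw [h1, h2, zero_smul, zero_smul, zero_add, zero_add] at e1
  rw [P.inc, P.inc', zero_smul, zero_smul, zero_add, zero_add] at e2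
  obtain ⟨a, ha⟩ : ∃ a : ℝ, a = mink q (P.v (i + 2)) := ⟨_, rfl⟩
  obtain ⟨b, hb⟩ : ∃ b : ℝ, b = mink (P.p i) (P.v (i + 2)) := ⟨_, rfl⟩
  obtain ⟨D, hDd⟩ : ∃ D : ℝ, D = det3 (P.v i) (P.v (i + 1)) (P.v (i + 2)) := ⟨_, rfl⟩
  rw [← ha, ← hDd] at e1
  rw [← hb, ← hDd] at e2
  rw [← hb] at hm
  rw [← hDd] at hD
  have e3 : D • (b • q) = D • (a • P.p i) := by
    rw [smul_comm D b q, e1, smul_comm D a (P.p i), e2, smul_comm]
  have e4 : b • q = a • P.p i := smul_right_injective _ hD.ne' e3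
  obtain ⟨t, ht⟩ : ∃ t : ℝ, t = a / b := ⟨_, rfl⟩
  have e5 : q = t • P.p i := by
    have h3 : q = b⁻¹ • (b • q) := by rw [smul_smul, inv_mul_cancel₀ hm.ne, one_smul]
    rw [h3, e4, smul_smul, ht]
    congr 1
    field_simp
  have h6 := hq.1
  rw [e5, mink_smul_left, mink_smul_right, (P.mem i).1] at h6
  have h7 := hq.2
  rw [e5, Pi.smul_apply, smul_eq_mul] at h7
  have h8 : 0 < t := by
    by_contra hc
    have := mul_nonpos_of_nonpos_of_nonneg (not_lt.1 hc) (P.mem i).2.le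
    linarith
  have h9 : t = 1 := by nlinarith
  rw [e5, h9, one_smul]

private theorem TileB_neg (hk : 4 ≤ k) (hn : ∀ i : ℤ, 3 ≤ n i) (P : Polygon k n) (hq : q ∈ P.region)
    (hne : ∀ i : ℤ, q ≠ P.p i) (i : ℤ) (h0 : mink q (P.v i) = 0) (j : ℤ) (h1 : i + 1 ≤ j)
    (h2 : j ≤ i + k - 1) : mink q (P.v j) < 0 := by
  have hk' : (4 : ℤ) ≤ k := by exact_mod_cast hk
  refine lt_of_le_of_ne (hq.2 j) fun h3 => ?_
  rcases eq_or_lt_of_le h1 with h4 | h4
  · rw [← h4] at h3
    exact hne i (TileB_eq hk P i hq.1 h0 h3)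
  rcases eq_or_lt_of_le h2 with h5 | h5
  · have h6 : P.v j = P.v (i - 1) := by
      rw [h5, show i + (k : ℤ) - 1 = (i - 1) + k by ring, P.v_per]
    rw [h6] at h3
    exact hne (i - 1) (TileB_eq hk P (i - 1) hq.1 h3 (by rw [sub_add_cancel]; exact h0))
  have hf := P.far hk hn i j (by omega) (by omega)
  rcases orth_unit hq.1 h0 h3 (P.unit i) (P.unit j) with h6 | h6 | h6
  · rw [abs_lt] at h6
    linarith [h6.1]
  · rw [h6, P.unit] at hf
    linarith
  · rw [h6, mink_neg_left, P.unit] at hf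
    linarith

theorem local_move (hk : 4 ≤ k) (hn : ∀ i : ℤ, 3 ≤ n i) (hq : q ∈ P.region) :
    ∃ ε : ℝ, 0 < ε ∧ ∀ z ∈ H2, dist z q < ε → ∃ y ∈ P.region, Mv P z y := by
  have hk' : (4 : ℤ) ≤ k := by exact_mod_cast hk
  suffices h : ∀ᶠ z in nhds q, z ∈ H2 → ∃ y ∈ P.region, Mv P z y by
    rw [Metric.eventually_nhds_iff] at h
    obtain ⟨ε, hε, h⟩ := h
    exact ⟨ε, hε, fun z hz hd => h hd hz⟩
  by_cases hp : ∃ i : ℤ, q = P.p i
  · obtain ⟨i, hi⟩ := hp
    have h1 : ∀ᶠ z in nhds q, ∀ j ∈ Set.Icc (i + 2) (i + k - 1),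
        mink z (P.p i) ^ 2 < 1 + mink (P.p i) (P.v j) ^ 2 := by
      rw [Filter.eventually_all_finite (Set.finite_Icc _ _)]
      rintro j ⟨hj1, hj2⟩
      apply TileB_lt ((TileB_cont (P.p i)).pow 2)
      have h2 := P.neg i j hj1 hj2
      show mink q (P.p i) ^ 2 < _
      rw [hi, (P.mem i).1]
      have h3 : 0 < mink (P.p i) (P.v j) ^ 2 := by nlinarith
      linarith
    filter_upwards [h1] with z hz hzH
    obtain ⟨y, hy, hmv, h2, h3, h4⟩ := fold hk hn P i hzH
    refine ⟨y, TileB_region hk P i hy fun l hl1 hl2 => ?_, hmv⟩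
    rcases eq_or_lt_of_le hl1 with h5 | h5
    · rw [← h5]
      exact h2
    rcases eq_or_lt_of_le (Int.add_one_le_of_lt h5) with h6 | h6
    · rw [← h6]
      exact h3
    · refine (near_vertex P i l hy (P.neg i l (by omega) hl2) ?_).le
      rw [h4]
      exact hz l ⟨by omega, hl2⟩
  push Not at hp
  by_cases h0 : ∃ i : ℤ, mink q (P.v i) = 0
  · obtain ⟨i, hi⟩ := h0
    have hneg := TileB_neg hk hn P hq hp i hi
    have h1 : ∀ᶠ z in nhds q, ∀ j ∈ Set.Icc (i + 1) (i + k - 1),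
        mink z (P.v j) < 0 ∧ mink (refl3 (P.v i) z) (P.v j) < 0 := by
      rw [Filter.eventually_all_finite (Set.finite_Icc _ _)]
      rintro j ⟨hj1, hj2⟩
      apply Filter.Eventually.and
      · exact TileB_lt (TileB_cont (P.v j)) (hneg j hj1 hj2)
      · have h2 : (fun z : Fin 3 → ℝ => mink (refl3 (P.v i) z) (P.v j)) =
            fun z => mink z (P.v j) - 2 * mink z (P.v i) * mink (P.v i) (P.v j) := by
          funext z
          rw [refl3, mink_sub_left, mink_smul_left]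
        have h3 : Continuous fun z : Fin 3 → ℝ => mink (refl3 (P.v i) z) (P.v j) := by
          rw [h2]
          exact (TileB_cont _).sub ((continuous_const.mul (TileB_cont _)).mul continuous_const)
        apply TileB_lt h3
        rw [refl3, hi, mul_zero, zero_smul, sub_zero]
        exact hneg j hj1 hj2
    filter_upwards [h1] with z hz hzH
    rcases le_or_gt (mink z (P.v i)) 0 with h2 | h2
    · refine ⟨z, TileB_region hk P i hzH fun l hl1 hl2 => ?_, Mv.refl z⟩
      rcases eq_or_lt_of_le hl1 with h5 | h5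
      · rw [← h5]
        exact h2
      · exact (hz l ⟨by omega, hl2⟩).1.le
    · refine ⟨refl3 (P.v i) z, TileB_region hk P i (refl3_mem P i hzH) fun l hl1 hl2 => ?_,
        Mv.step z z i (Mv.refl z)⟩
      rcases eq_or_lt_of_le hl1 with h5 | h5
      · rw [← h5, refl3, mink_sub_left, mink_smul_left, P.unit]
        linarith
      · exact (hz l ⟨by omega, hl2⟩).2.le
  · push Not at h0
    have h1 : ∀ᶠ z in nhds q, ∀ j ∈ Set.Icc (0 : ℤ) (0 + k - 1), mink z (P.v j) < 0 := by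
      rw [Filter.eventually_all_finite (Set.finite_Icc _ _)]
      rintro j -
      exact TileB_lt (TileB_cont (P.v j)) (lt_of_le_of_ne (hq.2 j) (h0 j))
    filter_upwards [h1] with z hz hzH
    exact ⟨z, TileB_region hk P 0 hzH fun l hl1 hl2 => (hz l ⟨hl1, hl2⟩).le, Mv.refl z⟩

end Pool.Agent.Ads89
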