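import Pool.Agent.W_2fbb77_h89.Comb
import Pool.Agent.W_2fbb77_h89.Arm

/-! # MP_2fbb77_gt: all differences vanish

`e i` (difference at the vertex `i`, between the sides `i` and `i + 1`), `σ i j`, `σ' i j` (`i + 2 ≤ j ≤ i + k - 2`, differences
at the upper and lower chords), periodic and symmetric.  `labF` is the function of signs on `{0, …, k-1}` used in
`Comb.lean`: for `a < b < k`: `sign (e a)` if `b = a + 1`, `sign (e b)` if `a = 0`, `b = k - 1`, and `sign (σ a b)` otherwise.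

`labF_off`: for `i < k`, `1 ≤ d ≤ k - 1`: the value at `(i, (i + d) % k)` (cases `i + d < k`: the pair `i < i + d`; `i + d ≥ k`: the
pair `i + d - k < i`, use `hp`, `hs`, `he`: `σ (i+d-k) i = σ (i+d) (i+k) = σ i (i+d)`).

`all_zero`: apply `comb` to `T = labF e σ`, `B = labF e σ'`.  `cycSeq k T B i x = sign (armSeq (k-3) (e i) (e (i-1)) (fun q => σ i
(i+2+q)) (fun q => σ' i (i+2+q)) x)` for `x < 2k - 4` (`labF_off`), so `hquad` follows from `harm`.  `hcT`: from `hcross`
(a pair of adjacent vertices crosses nothing: `a < p < b < q`, so `b ≥ a + 2`, `q ≥ p + 2` and not `a = 0, b = k-1`; `p = 0` is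
impossible).  `hdigon`: from `hdig` with `j = i + d`, where the deadness of `(i + e) % k` gives, by `labF_off` and
periodicity, `e (i+e) = 0`, `e (i+e-1) = 0` and `σ, σ' (i+e) m = 0`.  From `comb`, all labels with `i, j < k` vanish;
`labF_off` gives `e i = 0`, `σ i j = 0`, `σ' i j = 0` for `0 ≤ i < k`, and periodicity for all `i`. -/

set_option autoImplicit false

noncomputable section

namespace Pool.Agent.Ads89

def labO (k : ℕ) (e : ℤ → ℝ) (σ : ℤ → ℤ → ℝ) (a b : ℕ) : SignType :=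
  if b = a + 1 then SignType.sign (e a)
  else if a = 0 ∧ b + 1 = k then SignType.sign (e b)
  else SignType.sign (σ a b)

def labF (k : ℕ) (e : ℤ → ℝ) (σ : ℤ → ℤ → ℝ) (a b : ℕ) : SignType :=
  if a < b ∧ b < k then labO k e σ a b else if b < a ∧ a < k then labO k e σ b a else 0

theorem zero_per {k : ℕ} {e : ℤ → ℝ} (he : ∀ i : ℤ, e (i + k) = e i) (t i : ℤ) :
    e (i + t * k) = e i := by
  have h : Function.Periodic e (k : ℤ) := he
  exact h.int_mul t i

theorem zero_per2 {k : ℕ} {σ : ℤ → ℤ → ℝ} (hp : ∀ i j : ℤ, σ (i + k) (j + k) = σ i j)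
    (t i j : ℤ) : σ (i + t * k) (j + t * k) = σ i j := by
  have h : Function.Periodic (fun s : ℤ => σ (i + s) (j + s)) (k : ℤ) := by
    intro s
    have := hp (i + s) (j + s)
    simpa [add_assoc] using this
  have h2 := h.int_mul t 0
  simpa using h2

theorem labF_symm (k : ℕ) (e : ℤ → ℝ) (σ : ℤ → ℤ → ℝ) (a b : ℕ) :
    labF k e σ a b = labF k e σ b a := by
  unfold labF
  split_ifs <;> first | rfl | omega

theorem zero_sign_mul {a b : ℝ} (h : a * b < 0) :
    SignType.sign a ≠ 0 ∧ SignType.sign b = -SignType.sign a := by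
  rcases mul_neg_iff.1 h with h1 | h1
  · rw [sign_pos h1.1, sign_neg h1.2]
    decide
  · rw [sign_neg h1.1, sign_pos h1.2]
    decide

theorem labF_off {k : ℕ} (hk : 4 ≤ k) {e : ℤ → ℝ} {σ : ℤ → ℤ → ℝ} (he : ∀ i : ℤ, e (i + k) = e i)
    (hp : ∀ i j : ℤ, σ (i + k) (j + k) = σ i j)
    (hs : ∀ i j : ℤ, i + 2 ≤ j → j ≤ i + k - 2 → σ j (i + k) = σ i j) {i d : ℕ} (hi : i < k)
    (h1 : 1 ≤ d) (h2 : d < k) : labF k e σ i ((i + d) % k) =
      if d = 1 then SignType.sign (e i) else if d + 1 = k then SignType.sign (e (i - 1))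
      else SignType.sign (σ i (i + d)) := by
  by_cases hc : i + d < k
  · rw [Nat.mod_eq_of_lt hc]
    have h3 : i < i + d ∧ i + d < k := ⟨by omega, hc⟩
    rw [labF, if_pos h3, labO]
    by_cases hd : d = 1
    · rw [if_pos (by omega), if_pos hd]
    · rw [if_neg (by omega), if_neg hd]
      by_cases hd2 : d + 1 = k
      · have hi0 : i = 0 := by omega
        rw [if_pos ⟨hi0, by omega⟩, if_pos hd2, hi0]
        have h4 := he (-1)
        have h5 : ((-1 : ℤ) + k) = ((0 + d : ℕ) : ℤ) := by push_cast; omega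
        rw [h5] at h4
        rw [h4]
        norm_num
      · rw [if_neg (by omega), if_neg hd2]
        push_cast
        rfl
  · have hb : (i + d) % k = i + d - k := by
      rw [Nat.mod_eq_sub_mod (by omega), Nat.mod_eq_of_lt (by omega)]
    rw [hb]
    set b : ℕ := i + d - k with hbdef
    have hbi : b < i := by omega
    have hnot : ¬ (i < b ∧ b < k) := by omega
    rw [labF, if_neg hnot, if_pos ⟨hbi, hi⟩, labO]
    by_cases hd2 : d + 1 = k
    · have hb1 : i = b + 1 := by omega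
      rw [if_pos hb1, if_neg (by omega), if_pos hd2]
      have : ((i : ℤ) - 1) = (b : ℤ) := by rw [hb1]; push_cast; ring
      rw [this]
    · rw [if_neg (by omega)]
      by_cases hd : d = 1
      · rw [if_pos ⟨by omega, by omega⟩, if_pos hd]
      · rw [if_neg (by omega), if_neg hd, if_neg hd2]
        have h4 := hs b i (by omega) (by omega)
        have h5 : ((b : ℤ) + k) = (i : ℤ) + d := by omega
        rw [h5] at h4
        rw [h4]

theorem zero_dead {k : ℕ} (hk : 4 ≤ k) {e : ℤ → ℝ} {σ : ℤ → ℤ → ℝ} (he : ∀ i : ℤ, e (i + k) = e i)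
    (hp : ∀ i j : ℤ, σ (i + k) (j + k) = σ i j)
    (hs : ∀ i j : ℤ, i + 2 ≤ j → j ≤ i + k - 2 → σ j (i + k) = σ i j) {v : ℕ} (hv : v < k)
    (hd : ∀ j < k, j ≠ v → labF k e σ v j = 0) (t : ℤ) :
    e (v + t * k) = 0 ∧ e (v + t * k - 1) = 0 ∧
      ∀ m : ℤ, v + t * k + 2 ≤ m → m ≤ v + t * k + k - 2 → σ (v + t * k) m = 0 := by
  have key : ∀ d : ℕ, 1 ≤ d → d < k → labF k e σ v ((v + d) % k) = 0 := by
    intro d h1 h2
    apply hd _ (Nat.mod_lt _ (by omega))
    intro h3
    by_cases hc : v + d < k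
    · rw [Nat.mod_eq_of_lt hc] at h3; omega
    · rw [Nat.mod_eq_sub_mod (by omega), Nat.mod_eq_of_lt (by omega)] at h3; omega
  refine ⟨?_, ?_, ?_⟩
  · have h := key 1 le_rfl (by omega)
    rw [labF_off hk he hp hs hv le_rfl (by omega), if_pos rfl, sign_eq_zero_iff] at h
    rw [zero_per he, h]
  · have h := key (k - 1) (by omega) (by omega)
    rw [labF_off hk he hp hs hv (by omega) (by omega), if_neg (by omega), if_pos (by omega),
      sign_eq_zero_iff] at h
    have h2 := zero_per he t ((v : ℤ) - 1)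
    rw [h] at h2
    rw [← h2]
    congr 1
    ring
  · intro m h1 h2
    obtain ⟨d, hdd⟩ : ∃ d : ℕ, (d : ℤ) = m - (v + t * k) := ⟨(m - (v + t * k)).toNat, by omega⟩
    have h := key d (by omega) (by omega)
    rw [labF_off hk he hp hs hv (by omega) (by omega), if_neg (by omega), if_neg (by omega),
      sign_eq_zero_iff] at h
    have h3 := zero_per2 hp t v (v + d)
    rw [h] at h3
    have h4 : ((v : ℤ) + d + t * k) = m := by omega
    rwa [h4] at h3

theorem zero_cross {k : ℕ} {e : ℤ → ℝ} {σ : ℤ → ℤ → ℝ}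
    (hcross : ∀ i l j m : ℤ, i < l → l < j → j < m → m < i + k → σ i j * σ l m ≤ 0)
    {a p b q : ℕ} (h1 : a < p) (h2 : p < b) (h3 : b < q) (h4 : q < k)
    (h5 : labF k e σ a b ≠ 0) (h6 : labF k e σ p q ≠ 0) : labF k e σ a b ≠ labF k e σ p q := by
  have e1 : labF k e σ a b = SignType.sign (σ a b) := by
    rw [labF, if_pos ⟨by omega, by omega⟩, labO, if_neg (by omega), if_neg (by omega)]
  have e2 : labF k e σ p q = SignType.sign (σ p q) := by
    rw [labF, if_pos ⟨by omega, by omega⟩, labO, if_neg (by omega), if_neg (by omega)]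
  rw [e1] at h5 ⊢
  rw [e2] at h6 ⊢
  have h7 := hcross a p b q (by omega) (by omega) (by omega) (by omega)
  have n1 : σ a b ≠ 0 := fun h => h5 (by rw [h, sign_zero])
  have n2 : σ p q ≠ 0 := fun h => h6 (by rw [h, sign_zero])
  have h8 : σ a b * σ p q < 0 := lt_of_le_of_ne h7 (mul_ne_zero n1 n2)
  obtain ⟨h9, h10⟩ := zero_sign_mul h8
  rw [h10]
  intro h11
  revert h9 h11
  cases SignType.sign (σ a b) <;> decide

theorem all_zero {k : ℕ} (hk : 4 ≤ k) {e : ℤ → ℝ} {σ σ' : ℤ → ℤ → ℝ} (he : ∀ i : ℤ, e (i + k) = e i)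
    (hp : ∀ i j : ℤ, σ (i + k) (j + k) = σ i j) (hp' : ∀ i j : ℤ, σ' (i + k) (j + k) = σ' i j)
    (hs : ∀ i j : ℤ, i + 2 ≤ j → j ≤ i + k - 2 → σ j (i + k) = σ i j)
    (hs' : ∀ i j : ℤ, i + 2 ≤ j → j ≤ i + k - 2 → σ' j (i + k) = σ' i j)
    (hcross : ∀ i l j m : ℤ, i < l → l < j → j < m → m < i + k → σ i j * σ l m ≤ 0)
    (hcross' : ∀ i l j m : ℤ, i < l → l < j → j < m → m < i + k → σ' i j * σ' l m ≤ 0)
    (hdig : ∀ i j : ℤ, i + 2 ≤ j → j ≤ i + k - 2 →
      (∀ l : ℤ, i < l → l < j → e l = 0 ∧ e (l - 1) = 0 ∧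
        ∀ m : ℤ, l + 2 ≤ m → m ≤ l + k - 2 → σ l m = 0 ∧ σ' l m = 0) → σ i j = 0 ∨ σ' i j = 0)
    (harm : ∀ i : ℤ, ∀ q : ℕ → ℝ, q = armSeq (k - 3) (e i) (e (i - 1)) (fun r => σ i (i + 2 + r))
      (fun r => σ' i (i + 2 + r)) → (∀ x < 2 * (k - 3) + 2, q x = 0) ∨
      ∃ i₁ i₂ i₃ i₄, i₁ < i₂ ∧ i₂ < i₃ ∧ i₃ < i₄ ∧ i₄ < 2 * (k - 3) + 2 ∧
        q i₁ * q i₂ < 0 ∧ q i₂ * q i₃ < 0 ∧ q i₃ * q i₄ < 0) :
    ∀ i : ℤ, e i = 0 ∧ ∀ j : ℤ, i + 2 ≤ j → j ≤ i + k - 2 → σ i j = 0 ∧ σ' i j = 0 := by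
  set T : ℕ → ℕ → SignType := labF k e σ with hTdef
  set B : ℕ → ℕ → SignType := labF k e σ' with hBdef
  have hdiv : ∀ l : ℤ, ∃ v : ℕ, v < k ∧ ∃ t : ℤ, l = v + t * k := by
    intro l
    have hk0 : (k : ℤ) ≠ 0 := by omega
    refine ⟨(l % k).toNat, ?_, l / k, ?_⟩
    · have h1 := Int.emod_lt_of_pos l (show (0 : ℤ) < k by omega)
      have h2 := Int.emod_nonneg l hk0
      omega
    · rw [Int.toNat_of_nonneg (Int.emod_nonneg l hk0), mul_comm]
      exact (Int.emod_add_mul_ediv l k).symm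
  have hcomb := comb k hk T B (labF_symm k e σ) (labF_symm k e σ')
    (by
      intro i hi
      rw [hTdef, hBdef, labF_off hk he hp hs hi le_rfl (by omega),
        labF_off hk he hp' hs' hi le_rfl (by omega), if_pos rfl, if_pos rfl])
    (fun a p b q h1 h2 h3 h4 h5 h6 => zero_cross hcross h1 h2 h3 h4 h5 h6)
    (fun a p b q h1 h2 h3 h4 h5 h6 => zero_cross hcross' h1 h2 h3 h4 h5 h6)
    (by
      intro i hi d h1 h2 hdead
      rw [hTdef, hBdef, labF_off hk he hp hs hi (by omega) (by omega),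
        labF_off hk he hp' hs' hi (by omega) (by omega), if_neg (by omega), if_neg (by omega),
        if_neg (by omega), if_neg (by omega), sign_eq_zero_iff, sign_eq_zero_iff]
      refine hdig i (i + d) (by omega) (by omega) ?_
      intro l hl1 hl2
      obtain ⟨v, hv, t, rfl⟩ := hdiv l
      obtain ⟨d', hd'⟩ : ∃ d' : ℕ, (d' : ℤ) = v + t * k - i := ⟨(v + t * k - i).toNat, by omega⟩
      have hmod : (i + d') % k = v := by
        have h3 : ((i + d' : ℕ) : ℤ) = v + t * k := by push_cast; omega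
        have h4 : ((i + d' : ℕ) : ℤ) % k = v := by
          rw [h3, Int.add_mul_emod_self_right]
          exact Int.emod_eq_of_lt (by omega) (by omega)
        exact_mod_cast h4
      have h3 := hdead d' (by omega) (by omega)
      rw [hmod] at h3
      obtain ⟨h4, h5, h6⟩ := zero_dead hk he hp hs hv (fun j hj hjv => (h3 j hj hjv).1) t
      obtain ⟨_, _, h7⟩ := zero_dead hk he hp' hs' hv (fun j hj hjv => (h3 j hj hjv).2) t
      exact ⟨h4, h5, fun m hm1 hm2 => ⟨h6 m hm1 hm2, h7 m hm1 hm2⟩⟩)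
    (by
      intro i hi
      set q : ℕ → ℝ := armSeq (k - 3) (e i) (e (i - 1)) (fun r => σ i (i + 2 + r))
        (fun r => σ' i (i + 2 + r)) with hq
      have hlen : 2 * k - 4 = 2 * (k - 3) + 2 := by omega
      have hcyc : ∀ x < 2 * k - 4, cycSeq k T B i x = SignType.sign (q x) := by
        intro x hx
        rw [cycSeq]
        by_cases h1 : x ≤ k - 2
        · rw [if_pos h1, hTdef, add_assoc, labF_off hk he hp hs hi (by omega) (by omega), hq,
            armSeq]
          by_cases h2 : x = 0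
          · rw [if_pos (by omega), if_pos h2]
          · rw [if_neg (by omega), if_neg h2]
            by_cases h3 : x = k - 2
            · rw [if_pos (by omega), if_neg (by omega), if_pos (by omega)]
            · rw [if_neg (by omega), if_pos (by omega)]
              congr 2
              omega
        · rw [if_neg h1, hBdef, labF_off hk he hp' hs' hi (by omega) (by omega), if_neg (by omega),
            if_neg (by omega), hq, armSeq, if_neg (by omega), if_neg (by omega), if_neg (by omega)]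
          congr 2
          omega
      rcases harm i q hq with h1 | ⟨i1, i2, i3, i4, h1, h2, h3, h4, h5, h6, h7⟩
      · left
        intro x hx
        rw [hcyc x hx, h1 x (by omega), sign_zero]
      · right
        obtain ⟨a1, a2⟩ := zero_sign_mul h5
        obtain ⟨a3, a4⟩ := zero_sign_mul h6
        obtain ⟨a5, a6⟩ := zero_sign_mul h7
        refine ⟨i1, i2, i3, i4, h1, h2, h3, by omega, ?_⟩
        rw [hcyc i1 (by omega), hcyc i2 (by omega), hcyc i3 (by omega), hcyc i4 (by omega)]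
        refine ⟨a1, a2, ?_, ?_⟩
        · rw [a4, a2, neg_neg]
        · rw [a6, a4, a2, neg_neg])
  intro i
  obtain ⟨v, hv, t, rfl⟩ := hdiv i
  obtain ⟨h4, _, h6⟩ := zero_dead hk he hp hs hv
    (fun j hj hjv => (hcomb v hv j hj hjv.symm).1) t
  obtain ⟨_, _, h7⟩ := zero_dead hk he hp' hs' hv
    (fun j hj hjv => (hcomb v hv j hj hjv.symm).2) t
  exact ⟨h4, fun m hm1 hm2 => ⟨h6 m hm1 hm2, h7 m hm1 hm2⟩⟩

end Pool.Agent.Ads89
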